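import Pool.Agent.W_880b64_h21.Base

/-!
# The slot values (task A4)
-/

namespace W880b64

open Finset BigOperators
open W_MP_880b64_co (TG Lam)

/-- one edge -/
def SlotVals_G3 : TG (Fin 3) where
  r a b c := a ≠ b ∧ b ≠ c ∧ a ≠ c
  s12 _ _ _ h := ⟨h.1.symm, h.2.2, h.2.1⟩
  s23 _ _ _ h := ⟨h.2.2, h.2.1.symm, h.1⟩
  ne _ _ _ h := h.1

theorem SlotVals_T3 (x : Fin 3 → ℝ) : SlotVals_G3.T x = 6 * (x 0 * x 1 * x 2) := by
  unfold TG.T SlotVals_G3
  simp only [Fin.sum_univ_three]
  simp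
  ring

theorem SlotVals_amgm {x y z : ℝ} (hx : 0 ≤ x) (hy : 0 ≤ y) (hz : 0 ≤ z) (h : x + y + z = 1) :
    27 * (x * y * z) ≤ 1 := by
  have h1 : (x + y + z) ^ 3 - 27 * (x * y * z) =
      (x + y + z) * ((x - y) ^ 2 + (y - z) ^ 2 + (x - z) ^ 2) / 2 +
      3 * (x * (y - z) ^ 2 + y * (x - z) ^ 2 + z * (x - y) ^ 2) := by ring
  have h2 : 0 ≤ (x + y + z) * ((x - y) ^ 2 + (y - z) ^ 2 + (x - z) ^ 2) / 2 +
      3 * (x * (y - z) ^ 2 + y * (x - z) ^ 2 + z * (x - y) ^ 2) := by
    have h3 : 0 ≤ x + y + z := by linarith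
    positivity
  rw [← h1, h] at h2
  linarith

/-- `2/9` is the Lagrangian density of one edge: on `Fin 3` with `r a b c := a ≠ b ∧ b ≠ c ∧ a ≠ c`
one has `T x = 6 x0 x1 x2 ≤ 6/27` (AM-GM), equality at `1/3`. -/
theorem two_ninths_mem : (2 / 9 : ℝ) ∈ Lam := by
  refine ⟨Fin 3, inferInstance, inferInstance, SlotVals_G3, ?_⟩
  apply TG.lagr_eq_of
  · refine ⟨fun _ => 1 / 3, ⟨fun _ => by norm_num, ?_⟩, ?_⟩
    · simp
    · rw [SlotVals_T3]
      norm_num
  · intro x hx
    rw [SlotVals_T3]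
    have h := hx.2
    rw [Fin.sum_univ_three] at h
    have := SlotVals_amgm (hx.1 0) (hx.1 1) (hx.1 2) h
    linarith

/-- the 3-graph with the edges `{none, some i, some j}` -/
def SlotVals_GO (n : ℕ) : TG (Option (Fin n)) where
  r a b c := (a = none ∧ b ≠ none ∧ c ≠ none ∧ b ≠ c) ∨ (b = none ∧ a ≠ none ∧ c ≠ none ∧ a ≠ c) ∨
    (c = none ∧ a ≠ none ∧ b ≠ none ∧ a ≠ b)
  s12 a b c h := by tauto
  s23 a b c h := by
    have h1 : b ≠ c → c ≠ b := fun h => h.symm
    tauto
  ne a b c h := by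
    rcases h with h | h | h
    · rw [h.1]; exact h.2.1.symm
    · rw [h.1]; exact h.2.1
    · exact h.2.2.2

theorem SlotVals_TO (n : ℕ) (x : Option (Fin n) → ℝ) : (SlotVals_GO n).T x =
    3 * x none * ((∑ i, x (some i)) ^ 2 - ∑ i, x (some i) ^ 2) := by
  classical
  have h1 : (∑ i, x (some i)) ^ 2 - ∑ i, x (some i) ^ 2 =
      ∑ i : Fin n, ∑ j : Fin n, if i = j then 0 else x (some i) * x (some j) := by
    have h2 : ∀ i j : Fin n, (if i = j then 0 else x (some i) * x (some j)) =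
        x (some i) * x (some j) - if i = j then x (some i) * x (some j) else 0 := by
      intro i j
      split_ifs <;> ring
    simp only [h2, Finset.sum_sub_distrib, Finset.sum_ite_eq, Finset.mem_univ, if_true]
    rw [sq, Finset.sum_mul_sum]
    congr 1
    apply Finset.sum_congr rfl
    intro i _
    ring
  rw [h1]
  unfold TG.T SlotVals_GO
  simp only [Fintype.sum_option]
  simp
  have h3 : ∀ (t : ℝ) (f : Fin n → Fin n → ℝ), t * ∑ i, ∑ j, f i j = ∑ i, ∑ j, t * f i j := by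
    intro t f
    rw [Finset.mul_sum]
    apply Finset.sum_congr rfl
    intro i _
    rw [Finset.mul_sum]
  rw [h3, ← Finset.sum_add_distrib]
  apply Finset.sum_congr rfl
  intro i _
  rw [← Finset.sum_add_distrib, ← Finset.sum_add_distrib]
  apply Finset.sum_congr rfl
  intro j _
  split_ifs <;> ring

/-- `11/25 = (4/9)(1 - 1/100)` is the Lagrangian density of the 3-graph on `Option (Fin 100)` with
edges `{none, some i, some j}`, `i ≠ j`: `T = 3 b (a² - ∑ w_i²) ≤ 3 b a² (1 - 1/100) ≤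
(4/9)(99/100)` where `a + b = 1` (`∑ w_i² ≥ a²/100`, and `b a² ≤ 4/27`), equality at
`b = 1/3`, `w_i = 2/300`. -/
theorem s44_mem : (11 / 25 : ℝ) ∈ Lam := by
  refine ⟨Option (Fin 100), inferInstance, inferInstance, SlotVals_GO 100, ?_⟩
  apply TG.lagr_eq_of
  · refine ⟨fun v => v.elim (1 / 3) (fun _ => 2 / 300), ⟨?_, ?_⟩, ?_⟩
    · intro v
      cases v <;> norm_num
    · rw [Fintype.sum_option]
      simp only [Option.elim, Finset.sum_const, Finset.card_univ, Fintype.card_fin]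
      norm_num
    · rw [SlotVals_TO]
      simp only [Option.elim, Finset.sum_const, Finset.card_univ, Fintype.card_fin]
      norm_num
  · intro x hx
    rw [SlotVals_TO]
    have h := hx.2
    rw [Fintype.sum_option] at h
    have hb := hx.1 none
    set a := ∑ i : Fin 100, x (some i) with ha
    have ha0 : 0 ≤ a := Finset.sum_nonneg fun i _ => hx.1 _
    have hcs : a ^ 2 ≤ 100 * ∑ i : Fin 100, x (some i) ^ 2 := by
      have := sq_sum_le_card_mul_sum_sq (s := (Finset.univ : Finset (Fin 100)))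
        (f := fun i => x (some i))
      simpa using this
    set b := x none with hb'
    have h1 : 3 * b * (a ^ 2 - ∑ i : Fin 100, x (some i) ^ 2) ≤ 3 * b * (a ^ 2 * (99 / 100)) := by
      apply mul_le_mul_of_nonneg_left _ (by linarith)
      linarith
    have h2 : 27 * (b * (a / 2) * (a / 2)) ≤ 1 :=
      SlotVals_amgm hb (by linarith) (by linarith) (by linarith)
    have h3 : 3 * b * (a ^ 2 * (99 / 100)) = (27 * (b * (a / 2) * (a / 2))) * (11 / 25) := by ring
    rw [h3] at h1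
    linarith

end W880b64
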