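import Mathlib
import Pool.Agent.W_MP_880b64_co.Final
import Pool.Agent.W_880b64_h21.SlotVals

/-!
# The lower range: `A_3 ∩ [0, 2/9) = {0}` (Erdős 1964)

Every 3-graph of positive density with many vertices contains a complete tripartite 3-graph
`K(m,m,m)`, whose density is at least `2/9`.
-/

namespace W880b64

open Finset BigOperators Filter Topology
open W_MP_880b64_co (KGraph PGt PGe TG Lam)

/-- Counting `m`-tuples: a dense bipartite relation has `m` distinct points on one side with many
common neighbours on the other side. -/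
theorem Low_tuples {X Y : Type} [Fintype X] [Fintype Y] [DecidableEq X]
    (R : X → Y → Prop) [∀ x y, Decidable (R x y)] {m : ℕ} {δ : ℝ} (hδ : 0 < δ)
    (hX0 : 0 < Fintype.card X) (hY0 : 0 < Fintype.card Y)
    (hR : δ * Fintype.card X * Fintype.card Y ≤ ∑ x, ∑ y, if R x y then (1:ℝ) else 0)
    (hX : 2 * (m:ℝ) ^ 2 < δ ^ m * Fintype.card X) (hmX : m ≤ Fintype.card X) :
    ∃ g : Fin m → X, Function.Injective g ∧
      δ ^ m / 2 * Fintype.card Y ≤ ∑ y, if (∀ i, R (g i) y) then (1:ℝ) else 0 := by
  classical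
  by_contra hcon
  push Not at hcon
  set NX : ℝ := (Fintype.card X : ℝ) with hNX
  set NY : ℝ := (Fintype.card Y : ℝ) with hNY
  have hNX0 : 0 < NX := by rw [hNX]; exact_mod_cast hX0
  have hNY0 : 0 < NY := by rw [hNY]; exact_mod_cast hY0
  set N : (Fin m → X) → ℝ := fun g => ∑ y, if (∀ i, R (g i) y) then (1:ℝ) else 0 with hN
  have hNle : ∀ g, N g ≤ NY := by
    intro g
    rw [hN]
    calc ∑ y, (if (∀ i, R (g i) y) then (1:ℝ) else 0) ≤ ∑ _y : Y, (1:ℝ) := by
          apply Finset.sum_le_sum
          intro y _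
          split_ifs <;> norm_num
      _ = NY := by rw [Finset.sum_const, nsmul_eq_mul, Finset.card_univ]; simp [hNY]
  -- total
  set d : Y → ℝ := fun y => ∑ x, if R x y then (1:ℝ) else 0 with hd
  have hd0 : ∀ y, 0 ≤ d y := fun y => Finset.sum_nonneg fun x _ => by split_ifs <;> norm_num
  have htot : ∑ g, N g = ∑ y, d y ^ m := by
    rw [hN]
    rw [Finset.sum_comm]
    apply Finset.sum_congr rfl
    intro y _
    rw [hd]
    simp only
    rw [Fintype.sum_pow]
    apply Finset.sum_congr rfl
    intro g _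
    by_cases h : ∀ i, R (g i) y
    · rw [if_pos h, Finset.prod_eq_one]
      intro i _
      rw [if_pos (h i)]
    · rw [if_neg h]
      push Not at h
      obtain ⟨i, hi⟩ := h
      symm
      apply Finset.prod_eq_zero (Finset.mem_univ i)
      rw [if_neg hi]
  have hsumd : δ * NX * NY ≤ ∑ y, d y := by
    rw [hd]
    simp only
    rw [Finset.sum_comm]
    exact hR
  have hpow : NY * (δ * NX) ^ m ≤ ∑ y, d y ^ m := by
    have h1 := Real.pow_arith_mean_le_arith_mean_pow (Finset.univ : Finset Y) (fun _ => 1 / NY) d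
      (fun _ _ => by positivity)
      (by rw [Finset.sum_const, nsmul_eq_mul, Finset.card_univ, ← hNY]; field_simp)
      (fun y _ => hd0 y) m
    rw [← Finset.mul_sum, ← Finset.mul_sum] at h1
    have h2 : δ * NX ≤ 1 / NY * ∑ y, d y := by
      rw [one_div, le_inv_mul_iff₀ hNY0]
      linarith
    have h3 : (δ * NX) ^ m ≤ (1 / NY * ∑ y, d y) ^ m := pow_le_pow_left₀ (by positivity) h2 m
    have h4 := h3.trans h1
    rw [one_div, le_inv_mul_iff₀ hNY0] at h4
    linarith
  -- injective tuples
  set I : Finset (Fin m → X) := Finset.univ.filter Function.Injective with hI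
  have hIcard : (I.card : ℝ) = ((Fintype.card X).descFactorial m : ℝ) := by
    have : I.card = (Fintype.card X).descFactorial m := by
      rw [hI, ← Fintype.card_subtype, Fintype.card_congr (Equiv.subtypeInjectiveEquivEmbedding _ _),
        Fintype.card_embedding_eq, Fintype.card_fin]
    rw [this]
  have hIle : (I.card : ℝ) ≤ NX ^ m := by
    rw [hIcard, hNX]
    exact_mod_cast Nat.descFactorial_le_pow (Fintype.card X) m
  have hIge : NX ^ m - (m:ℝ) ^ 2 * NX ^ m / NX ≤ I.card := by
    rw [hIcard]
    have h1 : ((Fintype.card X + 1 - m : ℕ) : ℝ) ^ m ≤ ((Fintype.card X).descFactorial m : ℝ) := by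
      exact_mod_cast Nat.pow_sub_le_descFactorial _ _
    refine le_trans ?_ h1
    have h2 : NX - m ≤ ((Fintype.card X + 1 - m : ℕ) : ℝ) := by
      rw [Nat.cast_sub (by omega)]
      push_cast
      rw [← hNX]
      linarith
    have hm0 : (m:ℝ) ≤ NX := by rw [hNX]; exact_mod_cast hmX
    have h3 : (NX - m) ^ m ≤ ((Fintype.card X + 1 - m : ℕ) : ℝ) ^ m :=
      pow_le_pow_left₀ (by linarith) h2 m
    refine le_trans ?_ h3
    have h4 := one_add_mul_le_pow (a := -(m:ℝ) / NX) (by
      rw [neg_div]
      have : (m:ℝ) / NX ≤ 1 := (div_le_one hNX0).2 hm0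
      linarith) m
    have h5 : (NX - m) ^ m = NX ^ m * (1 + -(m:ℝ) / NX) ^ m := by
      rw [← mul_pow]
      congr 1
      field_simp
      ring
    rw [h5]
    have h6 := mul_le_mul_of_nonneg_left h4 (by positivity : (0:ℝ) ≤ NX ^ m)
    refine le_trans (le_of_eq ?_) h6
    field_simp
    ring
  have hcardall : ((Finset.univ : Finset (Fin m → X)).card : ℝ) = NX ^ m := by
    rw [Finset.card_univ, Fintype.card_fun, Fintype.card_fin]
    push_cast
    rfl
  have hsplit : ∑ g, N g = ∑ g ∈ I, N g + ∑ g ∈ Finset.univ.filter (fun g => ¬ Function.Injective g), N g := by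
    rw [hI, Finset.sum_filter_add_sum_filter_not]
  have hI1 : ∑ g ∈ I, N g ≤ I.card * (δ ^ m / 2 * NY) := by
    rw [← nsmul_eq_mul]
    apply Finset.sum_le_card_nsmul
    intro g hg
    rw [hI, Finset.mem_filter] at hg
    exact (hcon g hg.2).le
  have hI2 : ∑ g ∈ Finset.univ.filter (fun g => ¬ Function.Injective g), N g ≤
      (NX ^ m - I.card) * NY := by
    have h1 : ∑ g ∈ Finset.univ.filter (fun g : Fin m → X => ¬ Function.Injective g), N g ≤
        (Finset.univ.filter (fun g : Fin m → X => ¬ Function.Injective g)).card * NY := by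
      rw [← nsmul_eq_mul]
      apply Finset.sum_le_card_nsmul
      intro g _
      exact hNle g
    have h2 : ((Finset.univ.filter (fun g : Fin m → X => ¬ Function.Injective g)).card : ℝ) =
        NX ^ m - I.card := by
      rw [← hcardall, hI]
      have := Finset.card_filter_add_card_filter_not (s := (Finset.univ : Finset (Fin m → X)))
        (p := Function.Injective)
      have h3 : ((Finset.univ.filter (fun g : Fin m → X => Function.Injective g)).card : ℝ) +
        (Finset.univ.filter (fun g : Fin m → X => ¬ Function.Injective g)).card =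
        (Finset.univ : Finset (Fin m → X)).card := by exact_mod_cast this
      linarith
    rw [h2] at h1
    exact h1
  have hfin : NY * (δ * NX) ^ m ≤ NX ^ m * (δ ^ m / 2 * NY) + (m:ℝ) ^ 2 * NX ^ m / NX * NY := by
    have a1 : ∑ g ∈ I, N g ≤ NX ^ m * (δ ^ m / 2 * NY) :=
      hI1.trans (mul_le_mul_of_nonneg_right hIle (by positivity))
    have a2 : (NX ^ m - I.card) * NY ≤ (m:ℝ) ^ 2 * NX ^ m / NX * NY :=
      mul_le_mul_of_nonneg_right (by linarith) hNY0.le
    linarith
  have hXp : 0 < NX ^ m := by positivity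
  have hfin2 : NX ^ m * NY * (δ ^ m / 2) ≤ NX ^ m * NY * ((m:ℝ) ^ 2 / NX) := by
    rw [mul_pow] at hfin
    have e : (m:ℝ) ^ 2 * NX ^ m / NX * NY = NX ^ m * NY * ((m:ℝ) ^ 2 / NX) := by ring
    rw [e] at hfin
    nlinarith [hfin]
  have hfin3 : δ ^ m / 2 ≤ (m:ℝ) ^ 2 / NX := le_of_mul_le_mul_left hfin2 (by positivity)
  rw [le_div_iff₀ hNX0] at hfin3
  linarith

end W880b64
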