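import Mathlib
import Pool.Agent.W_880b64_h21.Low

/-!
# Complete tripartite subgraphs of dense 3-graphs (Erdős 1964)
-/

namespace W880b64

open Finset BigOperators Filter Topology
open W_MP_880b64_co (KGraph PGt PGe TG Lam)

theorem LowB_box {m : ℕ} {δ : ℝ} (hδ : 0 < δ) : ∃ N : ℕ, ∀ G : KGraph 3,
    N ≤ G.verts.card → δ ≤ G.density →
    ∃ x y z : Fin m → ℕ, Function.Injective x ∧ Function.Injective y ∧ Function.Injective z ∧
      ∀ i j k, ({x i, y j, z k} : Finset ℕ) ∈ G.edges := by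
  classical
  set δ1 : ℝ := δ / 4 with hδ1
  set δ2 : ℝ := δ1 ^ m / 2 with hδ2
  set δ3 : ℝ := δ2 ^ m / 2 with hδ3
  have h1 : 0 < δ1 := by positivity
  have h2 : 0 < δ2 := by positivity
  have h3 : 0 < δ3 := by positivity
  obtain ⟨N1, hN1⟩ := exists_nat_gt (2 * (m:ℝ) ^ 2 / δ1 ^ m)
  obtain ⟨N2, hN2⟩ := exists_nat_gt (2 * (m:ℝ) ^ 2 / δ2 ^ m)
  obtain ⟨N3, hN3⟩ := exists_nat_gt ((m:ℝ) / δ3)
  refine ⟨N1 + N2 + N3 + m + 4, ?_⟩
  intro G hG hd
  set n := G.verts.card with hn
  have hnc : Fintype.card (↥G.verts) = n := by rw [Fintype.card_coe]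
  have hn4 : (4:ℝ) ≤ n := by exact_mod_cast (by omega : 4 ≤ n)
  have hnN1 : (N1:ℝ) ≤ n := by exact_mod_cast (by omega : N1 ≤ n)
  have hnN2 : (N2:ℝ) ≤ n := by exact_mod_cast (by omega : N2 ≤ n)
  have hnN3 : (N3:ℝ) ≤ n := by exact_mod_cast (by omega : N3 ≤ n)
  have hcount := W_MP_880b64_co.edges_count G
  have hE : δ * (n * (n - 1) * (n - 2)) ≤ 6 * (G.edges.card : ℝ) := by
    unfold KGraph.density at hd
    rw [W_MP_880b64_co.choose_three (by omega : 2 ≤ G.verts.card), ← hn] at hd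
    have hpos : (0:ℝ) < n * (n - 1) * (n - 2) / 6 := by
      have a1 : (0:ℝ) < n := by linarith
      have a2 : (0:ℝ) < n - 1 := by linarith
      have a3 : (0:ℝ) < n - 2 := by linarith
      positivity
    rw [le_div_iff₀ hpos] at hd
    linarith
  have hE2 : δ1 * n * (n * n) ≤ 6 * (G.edges.card : ℝ) := by
    refine le_trans ?_ hE
    rw [hδ1]
    have h5 : (n:ℝ) * n / 4 ≤ (n - 1) * (n - 2) := by nlinarith
    have h6 : 0 ≤ δ * n := by positivity
    nlinarith [mul_le_mul_of_nonneg_left h5 h6]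
  have hm0 : m ≤ n := by omega
  -- first step
  obtain ⟨x, hx, hxc⟩ := Low_tuples (X := ↥G.verts) (Y := ↥G.verts × ↥G.verts)
    (fun a p => ({(a:ℕ), (p.1:ℕ), (p.2:ℕ)} : Finset ℕ) ∈ G.edges) (m := m) h1
    (by rw [hnc]; omega)
    (by rw [Fintype.card_prod, hnc]; exact Nat.mul_pos (by omega) (by omega))
    (by
      rw [Fintype.card_prod, hnc]
      push_cast
      refine hE2.trans (le_of_eq ?_)
      rw [← hcount]
      rw [← Finset.sum_coe_sort G.verts]
      apply Finset.sum_congr rfl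
      intro a _
      rw [Fintype.sum_prod_type]
      rw [← Finset.sum_coe_sort G.verts]
      apply Finset.sum_congr rfl
      intro b _
      rw [← Finset.sum_coe_sort G.verts])
    (by
      rw [hnc]
      rw [div_lt_iff₀ (by positivity)] at hN1
      nlinarith [mul_le_mul_of_nonneg_left hnN1 (by positivity : (0:ℝ) ≤ δ1 ^ m)])
    (by rw [hnc]; exact hm0)
  rw [Fintype.card_prod, hnc, Fintype.sum_prod_type] at hxc
  push_cast at hxc
  obtain ⟨y, hy, hyc⟩ := Low_tuples (X := ↥G.verts) (Y := ↥G.verts)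
    (fun b c => ∀ i, ({(x i : ℕ), (b:ℕ), (c:ℕ)} : Finset ℕ) ∈ G.edges) (m := m) h2
    (by rw [hnc]; omega) (by rw [hnc]; omega)
    (by
      rw [hnc]
      refine le_trans (le_of_eq ?_) hxc
      rw [hδ2]; ring)
    (by
      rw [hnc]
      rw [div_lt_iff₀ (by positivity)] at hN2
      nlinarith [mul_le_mul_of_nonneg_left hnN2 (by positivity : (0:ℝ) ≤ δ2 ^ m)])
    (by rw [hnc]; exact hm0)
  rw [hnc] at hyc
  set Z : Finset ↥G.verts := Finset.univ.filter
    (fun c => ∀ j i, ({(x i : ℕ), (y j : ℕ), (c:ℕ)} : Finset ℕ) ∈ G.edges) with hZ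
  have hZc : (m:ℝ) ≤ Z.card := by
    have e : (∑ c : ↥G.verts, if (∀ j i, ({(x i : ℕ), (y j : ℕ), (c:ℕ)} : Finset ℕ) ∈ G.edges)
        then (1:ℝ) else 0) = Z.card := by
      rw [Finset.sum_boole]
    rw [e] at hyc
    refine le_trans ?_ hyc
    rw [← hδ3]
    rw [div_lt_iff₀ h3] at hN3
    nlinarith [mul_le_mul_of_nonneg_left hnN3 h3.le]
  have hZc' : m ≤ Z.card := by exact_mod_cast hZc
  obtain ⟨W, hWZ, hWc⟩ := Finset.exists_subset_card_eq hZc'
  let eqv := W.equivFinOfCardEq hWc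
  refine ⟨fun i => x i, fun j => y j, fun k => ((eqv.symm k : ↥G.verts) : ℕ), ?_, ?_, ?_, ?_⟩
  · intro i j hij
    exact hx (Subtype.ext hij)
  · intro i j hij
    exact hy (Subtype.ext hij)
  · intro i j hij
    have := Subtype.ext (Subtype.ext hij) (a1 := eqv.symm i) (a2 := eqv.symm j)
    exact eqv.symm.injective this
  · intro i j k
    have := hWZ (eqv.symm k).2
    rw [hZ, Finset.mem_filter] at this
    exact this.2 j i

/-- In a 3-graph the vertices of an edge are distinct. -/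
theorem LowB_ne {G : KGraph 3} {a b c : ℕ} (h : ({a, b, c} : Finset ℕ) ∈ G.edges) :
    a ≠ b ∧ b ≠ c ∧ a ≠ c := by
  have hc := G.edges_card _ h
  refine ⟨?_, ?_, ?_⟩
  · rintro rfl
    rw [Finset.insert_idem] at hc
    have := Finset.card_le_two (a := a) (b := c)
    omega
  · rintro rfl
    have h2 : ({a, b, b} : Finset ℕ) = {a, b} := by ext; simp
    rw [h2] at hc
    have := Finset.card_le_two (a := a) (b := b)
    omega
  · rintro rfl
    have h2 : ({a, b, a} : Finset ℕ) = {a, b} := by ext; simp; tauto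
    rw [h2] at hc
    have := Finset.card_le_two (a := a) (b := b)
    omega

/-- **Erdős.** A large 3-graph of density at least `δ > 0` has a subgraph on `3m` vertices with
density at least `2/9`. -/
theorem LowB_sub {m : ℕ} (hm : 1 ≤ m) {δ : ℝ} (hδ : 0 < δ) : ∃ N : ℕ, ∀ G : KGraph 3,
    N ≤ G.verts.card → δ ≤ G.density →
    ∃ H : KGraph 3, H.IsSubgraph G ∧ H.verts.card = 3 * m ∧ 2 / 9 ≤ H.density := by
  classical
  obtain ⟨N, hN⟩ := LowB_box (m := m) hδ
  refine ⟨N, fun G hG hd => ?_⟩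
  obtain ⟨x, y, z, hx, hy, hz, hE⟩ := hN G hG hd
  have hxy : ∀ i j, x i ≠ y j := fun i j => (LowB_ne (hE i j ⟨0, hm⟩)).1
  have hyz : ∀ j k, y j ≠ z k := fun j k => (LowB_ne (hE ⟨0, hm⟩ j k)).2.1
  have hxz : ∀ i k, x i ≠ z k := fun i k => (LowB_ne (hE i ⟨0, hm⟩ k)).2.2
  set F : Finset (Finset ℕ) := (Finset.univ : Finset (Fin m × Fin m × Fin m)).image
    (fun p => ({x p.1, y p.2.1, z p.2.2} : Finset ℕ)) with hF
  have hFE : F ⊆ G.edges := by
    intro e he
    rw [hF, Finset.mem_image] at he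
    obtain ⟨p, _, rfl⟩ := he
    exact hE _ _ _
  have hFc : F.card = m ^ 3 := by
    rw [hF, Finset.card_image_of_injective, Finset.card_univ, Fintype.card_prod, Fintype.card_prod,
      Fintype.card_fin]
    · ring
    · rintro ⟨i, j, k⟩ ⟨i', j', k'⟩ h
      simp only at h
      have a1 : x i ∈ ({x i', y j', z k'} : Finset ℕ) := by rw [← h]; simp
      have a2 : y j ∈ ({x i', y j', z k'} : Finset ℕ) := by rw [← h]; simp
      have a3 : z k ∈ ({x i', y j', z k'} : Finset ℕ) := by rw [← h]; simp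
      simp only [Finset.mem_insert, Finset.mem_singleton] at a1 a2 a3
      have b1 : x i = x i' := by
        rcases a1 with a | a | a
        · exact a
        · exact absurd a (hxy _ _)
        · exact absurd a (hxz _ _)
      have b2 : y j = y j' := by
        rcases a2 with a | a | a
        · exact absurd a.symm (hxy _ _)
        · exact a
        · exact absurd a (hyz _ _)
      have b3 : z k = z k' := by
        rcases a3 with a | a | a
        · exact absurd a.symm (hxz _ _)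
        · exact absurd a.symm (hyz _ _)
        · exact a
      rw [hx b1, hy b2, hz b3]
  set S : Finset ℕ := (Finset.univ.image x) ∪ ((Finset.univ.image y) ∪ (Finset.univ.image z))
    with hS
  have hSG : S ⊆ G.verts := by
    intro v hv
    rw [hS, Finset.mem_union, Finset.mem_union, Finset.mem_image, Finset.mem_image,
      Finset.mem_image] at hv
    rcases hv with ⟨i, _, rfl⟩ | ⟨i, _, rfl⟩ | ⟨i, _, rfl⟩
    · exact G.edges_sub _ (hE i ⟨0, hm⟩ ⟨0, hm⟩) (by simp)
    · exact G.edges_sub _ (hE ⟨0, hm⟩ i ⟨0, hm⟩) (by simp)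
    · exact G.edges_sub _ (hE ⟨0, hm⟩ ⟨0, hm⟩ i) (by simp)
  have hSc : S.card = 3 * m := by
    rw [hS, Finset.card_union_of_disjoint, Finset.card_union_of_disjoint,
      Finset.card_image_of_injective _ hx, Finset.card_image_of_injective _ hy,
      Finset.card_image_of_injective _ hz, Finset.card_univ, Fintype.card_fin]
    · ring
    · rw [Finset.disjoint_left]
      intro v hv hv'
      rw [Finset.mem_image] at hv hv'
      obtain ⟨i, _, rfl⟩ := hv
      obtain ⟨j, _, hj⟩ := hv'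
      exact hyz _ _ hj.symm
    · rw [Finset.disjoint_left]
      intro v hv hv'
      rw [Finset.mem_union, Finset.mem_image, Finset.mem_image] at hv'
      rw [Finset.mem_image] at hv
      obtain ⟨i, _, rfl⟩ := hv
      rcases hv' with ⟨j, _, hj⟩ | ⟨j, _, hj⟩
      · exact hxy _ _ hj.symm
      · exact hxz _ _ hj.symm
  refine ⟨⟨S, F, ?_, fun e he => G.edges_card e (hFE he)⟩, ⟨hSG, hFE⟩, hSc, ?_⟩
  · intro e he
    rw [hF, Finset.mem_image] at he
    obtain ⟨p, _, rfl⟩ := he
    intro v hv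
    simp only [Finset.mem_insert, Finset.mem_singleton] at hv
    rw [hS, Finset.mem_union, Finset.mem_union, Finset.mem_image, Finset.mem_image,
      Finset.mem_image]
    rcases hv with rfl | rfl | rfl
    · exact Or.inl ⟨_, Finset.mem_univ _, rfl⟩
    · exact Or.inr (Or.inl ⟨_, Finset.mem_univ _, rfl⟩)
    · exact Or.inr (Or.inr ⟨_, Finset.mem_univ _, rfl⟩)
  · unfold KGraph.density
    simp only
    rw [hSc, hFc, W_MP_880b64_co.choose_three (by omega)]
    push_cast
    have hm1 : (1:ℝ) ≤ m := by exact_mod_cast hm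
    have hpos : (0:ℝ) < 3 * m * (3 * m - 1) * (3 * m - 2) / 6 := by
      have a1 : (0:ℝ) < 3 * m - 1 := by linarith
      have a2 : (0:ℝ) < 3 * m - 2 := by linarith
      positivity
    rw [le_div_iff₀ hpos]
    have : (3 * (m:ℝ) - 1) * (3 * m - 2) ≤ 9 * m ^ 2 := by nlinarith
    nlinarith [mul_le_mul_of_nonneg_left this (by positivity : (0:ℝ) ≤ m)]

end W880b64
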