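import Mathlib
import Pool.Agent.W_880b64_h21.LowB

/-!
# `A_3 ∩ [0, 2/9) = {0}` (Erdős 1964)
-/

namespace W880b64

open Finset BigOperators Filter Topology
open W_MP_880b64_co (KGraph PGt PGe TG Lam)

/-- the empty 3-graph without vertices -/
def LowC_nil : KGraph 3 where
  verts := ∅
  edges := ∅
  edges_sub := by intro e he; simp at he
  edges_card := by intro e he; simp at he

/-- Sequences of positive density contain subgraphs of density at least `2/9`. -/
theorem LowC_seq {β : ℝ} (hβ : β < 2 / 9) (G : ℕ → KGraph 3)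
    (hG : Tendsto (fun n => (G n).verts.card) atTop atTop)
    (hd : 0 < liminf (fun n => (G n).density) atTop) :
    ∃ H : ℕ → KGraph 3, (∀ n, (H n).IsSubgraph (G n)) ∧
      Tendsto (fun n => (H n).verts.card) atTop atTop ∧
      β < liminf (fun n => (H n).density) atTop := by
  classical
  set δ : ℝ := liminf (fun n => (G n).density) atTop / 2 with hδ
  have hδ0 : 0 < δ := by positivity
  have hbdd : IsBoundedUnder (fun x1 x2 => x1 ≥ x2) atTop (fun n => (G n).density) :=
    ⟨0, by
      rw [eventually_map]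
      exact Eventually.of_forall fun n => W_MP_880b64_co.density_nonneg _⟩
  have hev : ∀ᶠ n in atTop, δ < (G n).density :=
    eventually_lt_of_lt_liminf (by rw [hδ]; linarith) hbdd
  have hN : ∀ m : ℕ, ∃ N : ℕ, 1 ≤ m → ∀ G : KGraph 3, N ≤ G.verts.card → δ ≤ G.density →
      ∃ H : KGraph 3, H.IsSubgraph G ∧ H.verts.card = 3 * m ∧ 2 / 9 ≤ H.density := by
    intro m
    by_cases hm : 1 ≤ m
    · obtain ⟨N, hN⟩ := LowB_sub hm hδ0
      exact ⟨N, fun _ => hN⟩
    · exact ⟨0, fun h => absurd h hm⟩
  choose N hN using hN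
  set M : ℕ → ℕ := fun n => Nat.findGreatest (fun m => N m ≤ (G n).verts.card) n with hM
  have hMs : ∀ n, 1 ≤ M n → N (M n) ≤ (G n).verts.card := by
    intro n hn
    exact Nat.findGreatest_of_ne_zero (P := fun m => N m ≤ (G n).verts.card) (n := n) rfl
      (Nat.one_le_iff_ne_zero.1 hn)
  have hMt : ∀ m, ∀ᶠ n in atTop, m ≤ M n := by
    intro m
    filter_upwards [eventually_ge_atTop m, hG.eventually_ge_atTop (N m)] with n h1 h2
    exact Nat.le_findGreatest h1 h2
  have hH : ∀ n, ∃ H : KGraph 3, H.IsSubgraph (G n) ∧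
      ((1 ≤ M n ∧ δ ≤ (G n).density) → H.verts.card = 3 * M n ∧ 2 / 9 ≤ H.density) := by
    intro n
    by_cases h : 1 ≤ M n ∧ δ ≤ (G n).density
    · obtain ⟨H, h1, h2, h3⟩ := hN (M n) h.1 (G n) (hMs n h.1) h.2
      exact ⟨H, h1, fun _ => ⟨h2, h3⟩⟩
    · exact ⟨LowC_nil, ⟨by simp [LowC_nil], by simp [LowC_nil]⟩, fun h' => absurd h' h⟩
  choose H hH1 hH2 using hH
  refine ⟨H, hH1, ?_, ?_⟩
  · rw [tendsto_atTop]
    intro b
    filter_upwards [hMt (b + 1), hev] with n h1 h2
    have := (hH2 n ⟨by omega, h2.le⟩).1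
    omega
  · refine lt_of_lt_of_le hβ ?_
    apply le_liminf_of_le
    · exact IsBoundedUnder.isCoboundedUnder_ge ⟨1, by
        rw [eventually_map]
        exact Eventually.of_forall fun n => W_MP_880b64_co.density_le_one _⟩
    · filter_upwards [hMt 1, hev] with n h1 h2
      exact (hH2 n ⟨h1, h2.le⟩).2

/-- the 3-graph on `n` vertices without edges -/
def LowC_empty (n : ℕ) : KGraph 3 where
  verts := range n
  edges := ∅
  edges_sub := by intro e he; simp at he
  edges_card := by intro e he; simp at he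

theorem LowC_A : W_MP_880b64_co.A 3 ∩ Set.Ico 0 (2 / 9) = {0} := by
  obtain ⟨V, iF, iN, G, hGl⟩ := two_ninths_mem
  ext α
  simp only [Set.mem_inter_iff, Set.mem_Ico, Set.mem_singleton_iff]
  constructor
  · rintro ⟨⟨h0, h1, β, hβ, hP, hQ⟩, -, h2⟩
    by_contra hne
    have hα : 0 < α := lt_of_le_of_ne h0 (Ne.symm hne)
    rcases lt_or_ge β (2 / 9) with hb | hb
    · exact hQ fun K hK hd => LowC_seq hb K hK (lt_of_lt_of_le hα hd)
    · refine W_MP_880b64_co.not_PGt G (α := α) (β := β) ?_ ?_ hP
      · rw [← hGl] at h2; exact h2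
      · rw [← hGl] at hb; exact hb
  · rintro rfl
    refine ⟨⟨le_rfl, zero_le_one, 1 / 9, by norm_num, ?_, ?_⟩, le_rfl, by norm_num⟩
    · intro K hK hd
      exact LowC_seq (by norm_num) K hK hd
    · intro hQ
      have hdz : ∀ K : KGraph 3, K.edges = ∅ → K.density = 0 := by
        intro K hK
        unfold KGraph.density
        rw [hK]
        simp
      obtain ⟨H, h1, -, h3⟩ := hQ LowC_empty (by
          simp only [LowC_empty, card_range]
          exact tendsto_id) (by
          have : (fun n => (LowC_empty n).density) = fun _ => (0:ℝ) := by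
            ext n
            exact hdz _ rfl
          rw [this]
          simp)
      have h4 : (fun n => (H n).density) = fun _ => (0:ℝ) := by
        ext n
        apply hdz
        have := (h1 n).2
        exact Finset.subset_empty.1 this
      rw [h4] at h3
      simp only [liminf_const] at h3
      norm_num at h3

end W880b64
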