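import Pool.Agent.W_880b64_h21.Base

/-!
# A priori bounds for `M = 2`: the real inequality (task H4)

`r = √ρ`, `P2 = 1/9 + r²`, `P3 = ∑π³`, `T = TP π`, `W = T̂`, `q = P2/M + U`.
-/

namespace W880b64

theorem Ap2R_sq {a b : ℝ} (hb : 0 ≤ b) (h : a ^ 2 ≤ b ^ 2) : a ≤ b := by
  by_contra hcon
  have h1 : b < a := lt_of_not_ge hcon
  nlinarith

/-- The polynomial inequality of part (2). -/
theorem Ap2R_aux1 {s t : ℝ} (hs1 : 1.7320508 < s) (ht1 : 1 / 2 ≤ t) (ht2 : t ≤ 0.7321) :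
    1 / 4 + 11 / 25 * t ^ 3 ≤ s * t ^ 2 - (3 + 2 * s) / 4 * (t ^ 2) ^ 2 := by
  have h0 : 0 ≤ t ^ 2 - t ^ 4 / 2 := by
    nlinarith [sq_nonneg t, mul_nonneg (by linarith : (0:ℝ) ≤ t) (by linarith : (0:ℝ) ≤ 0.7321 - t)]
  have h1 : 1 / 4 + 11 / 25 * t ^ 3 ≤ 1.732 * t ^ 2 - 1.616 * t ^ 4 := by
    nlinarith [mul_nonneg (by linarith : (0:ℝ) ≤ t - 1 / 2) (by linarith : (0:ℝ) ≤ 0.7321 - t),
      mul_nonneg (mul_nonneg (by linarith : (0:ℝ) ≤ t - 1 / 2) (by linarith : (0:ℝ) ≤ 0.7321 - t))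
        (by linarith : (0:ℝ) ≤ t),
      mul_nonneg (mul_nonneg (by linarith : (0:ℝ) ≤ t - 1 / 2) (by linarith : (0:ℝ) ≤ 0.7321 - t))
        (sq_nonneg t)]
  nlinarith

/-- The polynomial `K` is not positive for `0.012 < r²`, `r ≤ 0.4058`. -/
theorem Ap2R_aux2 {r : ℝ} (hr : 0 ≤ r) (h1 : 0.012 < r ^ 2) (h2 : r ≤ 0.4058) :
    0.0088864 - 0.974 * r ^ 2 - 0.4859 * r ^ 4 + 2.1214 * r ^ 3 ≤ 0 := by
  have h3 : 0.1095 ≤ r := Ap2R_sq hr (by nlinarith)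
  have h4 : 0 ≤ (r - 0.1095) * (0.4058 - r) := mul_nonneg (by linarith) (by linarith)
  nlinarith [mul_nonneg h4 hr, sq_nonneg (r ^ 2)]

/-- Upper bound for `K`. -/
theorem Ap2R_aux3 {r : ℝ} (h2 : r ≤ 0.1096) :
    0.0088864 - 0.974 * r ^ 2 - 0.4859 * r ^ 4 + 2.1214 * r ^ 3 ≤ 0.0088864 := by
  have h8 : 0 ≤ r ^ 4 := by positivity
  have h9 : 0 ≤ r ^ 2 * (0.1096 - r) := mul_nonneg (sq_nonneg _) (by linarith)
  nlinarith [sq_nonneg r]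

/-- The final estimate of `U`. -/
theorem Ap2R_aux4 {U : ℝ} (h1 : U ≤ 0.0616)
    (h2 : (1.3012 - 1.6161 * U) * U < 0.0088864) : U ≤ 0.0069 := by
  by_contra hcon
  have h3 : 0.0069 < U := lt_of_not_ge hcon
  nlinarith

/-- The expansion of `K`. -/
theorem Ap2R_aux5 {s r P : ℝ} (hs1 : 1.7320508 < s) (hP : P = 1 / 9 + r ^ 2) (hP2 : P ≤ 1 / 2) :
    1 / 9 - 0.89 * P ^ 2 + 2.1214 * r ^ 3 - (s * (P / 2) - (3 + 2 * s) / 4 * (P / 2) ^ 2) ≤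
          0.0088864 - 0.974 * r ^ 2 - 0.4859 * r ^ 4 + 2.1214 * r ^ 3 := by
  have hP0 : 0 ≤ P := by rw [hP]; positivity
  have h4 : P ^ 2 = 1 / 81 + 2 / 9 * r ^ 2 + r ^ 4 := by rw [hP]; ring
  have h5 : (s * (P / 2) - (3 + 2 * s) / 4 * (P / 2) ^ 2) =
    3 / 4 * (-(P ^ 2) / 4) + s * (P / 2 - P ^ 2 / 8) := by ring
  have h6 : 0 ≤ P / 2 - P ^ 2 / 8 := by nlinarith
  have h7 : 1.7320508 * (P / 2 - P ^ 2 / 8) ≤ s * (P / 2 - P ^ 2 / 8) :=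
    mul_le_mul_of_nonneg_right hs1.le h6
  rw [h5]
  have h8 : 0 ≤ r ^ 4 := by positivity
  have h9 : 0 ≤ r ^ 2 := by positivity
  rw [h4] at h7 ⊢
  rw [hP] at h7 ⊢
  linarith

/-- Part (1a). -/
theorem Ap2R_aux6 {s P : ℝ} (hs1 : 1.7320508 < s) (hP1 : 0.2757 < P) (hP2 : P ≤ 1 / 2) :
    P - 0.89 * P ^ 2 - (s * (P / 2) - (3 + 2 * s) / 4 * (P / 2) ^ 2) ≤ 0 := by
  have h5 : (s * (P / 2) - (3 + 2 * s) / 4 * (P / 2) ^ 2) =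
    3 / 4 * (-(P ^ 2) / 4) + s * (P / 2 - P ^ 2 / 8) := by ring
  have h6 : 0 ≤ P / 2 - P ^ 2 / 8 := by nlinarith
  have h7 : 1.7320508 * (P / 2 - P ^ 2 / 8) ≤ s * (P / 2 - P ^ 2 / 8) :=
    mul_le_mul_of_nonneg_right hs1.le h6
  rw [h5]
  nlinarith

/-- Proof (`M = 2`).  `C = CC`.
(1) `P2 ≤ 1/2`.  By `w1` and `S ≤ √P2 U`:
`W - tau q ≤ T + (11/100)P3 - tau (P2/2) - (s3 - C P2 - C U - 0.66 √P2) U`; the coefficient is
`≥ s3 - (3/2)C P2 - 0.66√P2 ≥ 0` (`U ≤ P2/2`, at `P2 = 1/2`: `0.0533`).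
 (1a) `P2 ≥ 0.2757`: `T + 0.11P3 - tau (P2/2) ≤ 0.13398P2 - 0.48599P2² ≤ 0`.
 (1b) `P2 ≤ 0.2757`: it is `≤ 0.0088863 - 0.97402 r² - 0.48599 r⁴ + 2.1214 r³ =: K(r)`, negative
 for `0.012 ≤ r² ≤ 0.1646`.  So `r² ≤ 0.012`, and
 `(1.3015 - 1.61603 U) U < 0.0088863`, `U ≤ 0.0616`, hence `U < 0.0069`, `r²/2 + U ≤ 0.0129`.
(2) `P2 ≥ 1/2`: `q ≥ 1/4`, `T ≤ 1/4`, `w2`: `W ≤ 1/4 + 0.44 q√q ≤ tau q` on `[1/4, 1-c0]`. -/
theorem ap2_real {r P3 T U W S q : ℝ} (hr : 0 ≤ r) (hr' : r ^ 2 ≤ 8 / 9) (hU : 0 ≤ U)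
    (hU2 : U ≤ 1 / 2 * (1 / 9 + r ^ 2)) (hq : q = (1 / 9 + r ^ 2) / 2 + U) (hq1 : q ≤ 1 - c0)
    (hT1 : T ≤ (1 / 9 + r ^ 2) - P3) (hT2 : T ≤ 1 / 9 - P3 + 2.1214 * r ^ 3)
    (hP : (1 / 9 + r ^ 2) ^ 2 ≤ P3) (hS : S ≤ Real.sqrt (1 / 9 + r ^ 2) * U)
    (w1 : W ≤ T + 11 / 25 * (P3 / 4 + 3 / 2 * S)) (w2 : W ≤ T + 11 / 25 * q * Real.sqrt q)
    (hpos : tau q < W) : r ^ 2 ≤ 0.012 ∧ r ^ 2 / 2 + U ≤ 0.0129 := by
  have hs1 := s3_lo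
  have hs2 := s3_hi
  obtain ⟨s, hs⟩ : ∃ s, s = s3 := ⟨_, rfl⟩
  have htau : tau q = s * q - (3 + 2 * s) / 4 * q ^ 2 := by rw [hs]; rfl
  rw [← hs] at hs1 hs2
  rw [htau] at hpos
  have hc0 : c0 = 2 * s - 3 := by rw [hs]; rfl
  rw [hc0] at hq1
  obtain ⟨P, hPd⟩ : ∃ P, P = 1 / 9 + r ^ 2 := ⟨_, rfl⟩
  rw [← hPd] at hU2 hq hT1 hP hS
  have hP0 : 1 / 9 ≤ P := by
    rw [hPd]
    linarith [sq_nonneg r]
  rcases le_or_gt P (1 / 2) with h | h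
  · obtain ⟨y, hyd⟩ : ∃ y, y = Real.sqrt P := ⟨_, rfl⟩
    have hy0 : 0 ≤ y := by rw [hyd]; exact Real.sqrt_nonneg _
    have hy2 : y ^ 2 = P := by rw [hyd]; exact Real.sq_sqrt (by linarith)
    rw [← hyd] at hS
    have hy1 : y ≤ 0.7072 := Ap2R_sq (by norm_num) (by rw [hy2]; norm_num; linarith)
    have h1 : 0 < T + 11 / 100 * P3 - (s * (P / 2) - (3 + 2 * s) / 4 * (P / 2) ^ 2)
        - (s - (3 + 2 * s) / 4 * P - (3 + 2 * s) / 4 * U - 33 / 50 * y) * U := by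
      have e1 : s * q - (3 + 2 * s) / 4 * q ^ 2 = (s * (P / 2) - (3 + 2 * s) / 4 * (P / 2) ^ 2)
          + (s - (3 + 2 * s) / 4 * P - (3 + 2 * s) / 4 * U) * U := by rw [hq]; ring
      have e2 : (s - (3 + 2 * s) / 4 * P - (3 + 2 * s) / 4 * U - 33 / 50 * y) * U
          = (s - (3 + 2 * s) / 4 * P - (3 + 2 * s) / 4 * U) * U - 33 / 50 * (y * U) := by ring
      rw [e1] at hpos
      rw [e2]
      linarith
    have hC1 : (3 + 2 * s) / 4 ≤ 1.6161 := by linarith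
    have hC0 : 0 ≤ (3 + 2 * s) / 4 := by linarith
    have hcoef : 0 ≤ s - (3 + 2 * s) / 4 * P - (3 + 2 * s) / 4 * U - 33 / 50 * y := by
      have e3 : (3 + 2 * s) / 4 * (P + U) ≤ 1.6161 * (3 / 2 * P) :=
        mul_le_mul hC1 (by linarith) (by linarith) (by norm_num)
      linarith
    have hcU := mul_nonneg hcoef hU
    rcases le_or_gt P 0.2757 with h2 | h2
    · have hK : T + 11 / 100 * P3 - (s * (P / 2) - (3 + 2 * s) / 4 * (P / 2) ^ 2) ≤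
          0.0088864 - 0.974 * r ^ 2 - 0.4859 * r ^ 4 + 2.1214 * r ^ 3 := by
        have h3 : T + 11 / 100 * P3 ≤ 1 / 9 - 0.89 * P ^ 2 + 2.1214 * r ^ 3 := by linarith
        linarith [Ap2R_aux5 hs1 hPd h]
      have hr2 : r ^ 2 ≤ 0.1646 := by linarith
      have hr3 : r ≤ 0.4058 := Ap2R_sq (by norm_num) (by norm_num; linarith)
      have hKpos : 0 < 0.0088864 - 0.974 * r ^ 2 - 0.4859 * r ^ 4 + 2.1214 * r ^ 3 := by
        linarith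
      have hr4 : r ^ 2 ≤ 0.012 := by
        by_contra hcon
        have hcon' : 0.012 < r ^ 2 := lt_of_not_ge hcon
        linarith [Ap2R_aux2 hr hcon' hr3]
      refine ⟨hr4, ?_⟩
      have hr5 : r ≤ 0.1096 := Ap2R_sq (by norm_num) (by norm_num; linarith)
      have hK2 := Ap2R_aux3 hr5
      have hP1 : P ≤ 0.1232 := by linarith
      have hy3 : y ≤ 0.351 := Ap2R_sq (by norm_num) (by rw [hy2]; norm_num; linarith)
      have hU3 : U ≤ 0.0616 := by linarith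
      have h6 : (s - (3 + 2 * s) / 4 * P - (3 + 2 * s) / 4 * U - 33 / 50 * y) * U < 0.0088864 := by
        linarith
      have h7 : 1.3012 - 1.6161 * U ≤
          s - (3 + 2 * s) / 4 * P - (3 + 2 * s) / 4 * U - 33 / 50 * y := by
        have e3 : (3 + 2 * s) / 4 * P ≤ 1.6161 * 0.1232 :=
          mul_le_mul hC1 hP1 (by linarith) (by norm_num)
        have e4 : (3 + 2 * s) / 4 * U ≤ 1.6161 * U := mul_le_mul_of_nonneg_right hC1 hU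
        linarith
      have h8 : (1.3012 - 1.6161 * U) * U < 0.0088864 :=
        lt_of_le_of_lt (mul_le_mul_of_nonneg_right h7 hU) h6
      have h9 := Ap2R_aux4 hU3 h8
      linarith
    · exfalso
      have h3 : T + 11 / 100 * P3 ≤ P - 0.89 * P ^ 2 := by linarith
      linarith [Ap2R_aux6 hs1 h2 h]
  · exfalso
    have hT : T ≤ 1 / 4 := by linarith [sq_nonneg (P - 1 / 2), (by ring : (P - 1 / 2) ^ 2 = P ^ 2 - P + 1 / 4)]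
    have hq2 : 1 / 4 ≤ q := by rw [hq]; linarith
    obtain ⟨t, htd⟩ : ∃ t, t = Real.sqrt q := ⟨_, rfl⟩
    have ht0 : 0 ≤ t := by rw [htd]; exact Real.sqrt_nonneg _
    have ht2 : t ^ 2 = q := by rw [htd]; exact Real.sq_sqrt (by linarith)
    rw [← htd] at w2
    have ht3 : 1 / 2 ≤ t := Ap2R_sq ht0 (by rw [ht2]; norm_num; linarith)
    have ht4 : t ≤ 0.7321 := Ap2R_sq (by norm_num) (by rw [ht2]; norm_num; linarith)
    have h1 := Ap2R_aux1 hs1 ht3 ht4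
    rw [← ht2] at w2 hpos
    have h2 : 11 / 25 * t ^ 2 * t = 11 / 25 * t ^ 3 := by ring
    rw [h2] at w2
    linarith

end W880b64
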