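import Pool.Agent.W_880b64_h21.EMc

/-!
# Bounds for `T6 (EM M)` by the part sums (task D4)
-/

namespace W880b64

open Finset BigOperators

variable {M : ℕ} [NeZero M]

omit [NeZero M] in
theorem EMd_ne (hM : 2 ≤ M) (a b : ZMod M) : -a - b ≠ 1 - a - b := by
  intro h
  have h1 : (0 : ZMod M) = 1 := by
    have h2 : -a - b + (a + b) = 1 - a - b + (a + b) := by rw [h]
    have h3 : -a - b + (a + b) = 0 := by ring
    have h4 : 1 - a - b + (a + b) = 1 := by ring
    rw [h3, h4] at h2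
    exact h2
  have : Fact (1 < M) := ⟨by omega⟩
  exact zero_ne_one h1

theorem EMd_prod (x : VV M → ℝ) (i j k : P9) :
    prt x i * prt x j * prt x k =
      ∑ a : ZMod M, ∑ b : ZMod M, x (i, a) * x (j, b) * prt x k := by
  have h : prt x i * prt x j = ∑ a : ZMod M, ∑ b : ZMod M, x (i, a) * x (j, b) := by
    unfold prt
    rw [Finset.sum_mul_sum]
  rw [h, Finset.sum_mul]
  refine Finset.sum_congr rfl fun a _ => ?_
  rw [Finset.sum_mul]

/-- For `x ≥ 0`: the edges over a line are some of the triples over this line. -/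
theorem T6_EM_le_TP (hM : 2 ≤ M) {x : VV M → ℝ} (hx : ∀ v, 0 ≤ x v) :
    T6 (EM M) x ≤ TP (prt x) := by
  rw [T6_EM hM]
  unfold TP
  refine Finset.sum_le_sum fun i _ => Finset.sum_le_sum fun j _ => ?_
  split_ifs with hij
  · exact le_rfl
  · rw [EMd_prod]
    refine Finset.sum_le_sum fun a _ => Finset.sum_le_sum fun b _ => ?_
    refine mul_le_mul_of_nonneg_left ?_ (mul_nonneg (hx _) (hx _))
    have h1 := Finset.sum_le_univ_sum_of_nonneg (s := ({-a - b, 1 - a - b} : Finset (ZMod M)))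
      (f := fun c => x (-i - j, c)) (fun c => hx _)
    rw [Finset.sum_pair (EMd_ne hM a b)] at h1
    exact h1

theorem EMd_two (y : ZMod 2 → ℝ) (t : ZMod 2) : y t + y (t + 1) = ∑ c, y c := by
  have h : ∀ t : ZMod 2, t = 0 ∨ t = 1 := by decide
  have h0 : (∑ c, y c) = y 0 + y 1 := Fin.sum_univ_two y
  rw [h0]
  rcases h t with h1 | h1
  · rw [h1, zero_add]
  · rw [h1]
    have h2 : (1 + 1 : ZMod 2) = 0 := by decide
    rw [h2, add_comm]

/-- For `M = 2` all triples over a line are edges. -/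
theorem T6_EM_two (x : VV 2 → ℝ) : T6 (EM 2) x = TP (prt x) := by
  rw [T6_EM le_rfl]
  unfold TP
  refine Finset.sum_congr rfl fun i _ => Finset.sum_congr rfl fun j _ => ?_
  split_ifs with hij
  · rfl
  · rw [EMd_prod]
    refine Finset.sum_congr rfl fun a _ => Finset.sum_congr rfl fun b _ => ?_
    have h1 := EMd_two (fun c => x (-i - j, c)) (-a - b)
    have h2 : -a - b + 1 = 1 - a - b := by ring
    rw [h2] at h1
    rw [h1]
    rfl

/-- from `T6_EM`: `72 · M² · 2/(9M)³`. -/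
theorem T6_unif (hM : 2 ≤ M) : T6 (EM M) (unif M) = 16 / (81 * M) := by
  have hM0 : (M : ℝ) ≠ 0 := EMc_M
  rw [T6_EM hM]
  obtain ⟨c, hc⟩ : ∃ c : ℝ, c = 2 / (729 * (M : ℝ)) := ⟨_, rfl⟩
  have h1 : ∀ i j : P9, (if i = j then (0 : ℝ) else
      ∑ a : ZMod M, ∑ b : ZMod M,
        unif M (i, a) * unif M (j, b) * (unif M (-i - j, -a - b) + unif M (-i - j, 1 - a - b))) =
      c - if i = j then c else 0 := by
    intro i j
    split_ifs
    · ring
    · unfold unif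
      rw [Finset.sum_const, Finset.sum_const, Finset.card_univ, ZMod.card, nsmul_eq_mul,
        nsmul_eq_mul, hc]
      field_simp
      norm_num
  simp only [h1]
  have h9 : (Finset.univ : Finset P9).card = 9 := by decide
  have h2 : ∀ i : P9, (∑ j : P9, (c - if i = j then c else 0)) = 8 * c := by
    intro i
    rw [Finset.sum_sub_distrib, Finset.sum_const, Finset.sum_ite_eq, if_pos (Finset.mem_univ i)]
    rw [h9, nsmul_eq_mul]
    push_cast
    ring
  simp only [h2]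
  rw [Finset.sum_const, h9, nsmul_eq_mul, hc]
  field_simp
  norm_num

theorem EMd_cube {ι : Type} (s : Finset ι) (y : ι → ℝ) (hy : ∀ a ∈ s, 0 ≤ y a) :
    ∑ a ∈ s, y a ^ 3 ≤ (∑ a ∈ s, y a) ^ 3 := by
  have h1 : ∀ a ∈ s, y a ^ 3 ≤ y a * (∑ a ∈ s, y a) ^ 2 := by
    intro a ha
    have h2 : y a ≤ ∑ a ∈ s, y a := Finset.single_le_sum hy ha
    have h3 : y a ^ 2 ≤ (∑ a ∈ s, y a) ^ 2 := pow_le_pow_left₀ (hy a ha) h2 2
    calc y a ^ 3 = y a * y a ^ 2 := by ring
      _ ≤ y a * (∑ a ∈ s, y a) ^ 2 := mul_le_mul_of_nonneg_left h3 (hy a ha)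
  refine (Finset.sum_le_sum h1).trans (le_of_eq ?_)
  rw [← Finset.sum_mul]
  ring

/-- `T̂ ≤ TP + (11/25)∑ x³ ≤ P2 - P3 + (11/25)P3 ≤ P2 - (14/25)P2² ≤ 25/56 < c0`
(`∑_a x(i,a)³ ≤ (prt x i)³`, `TP_le1`, `P3_ge`). -/
theorem Th_le_c0 (hM : 2 ≤ M) {E : Finset (Finset (VV M))} (hE : E ⊆ EM M) {s : VV M → ℝ}
    (hs : ∀ v, 0 ≤ s v ∧ s v ≤ 11 / 25) {x : VV M → ℝ} (hx : x ∈ stdSimplex ℝ (VV M)) :
    Th E s x ≤ c0 := by
  have hp := prt_mem hx
  have h1 : T6 E x ≤ TP (prt x) := (T6_mono hE hx.1).trans (T6_EM_le_TP hM hx.1)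
  have h2 : ∑ v, s v * x v ^ 3 ≤ 11 / 25 * ∑ i, prt x i ^ 3 := by
    calc ∑ v, s v * x v ^ 3 ≤ ∑ v, 11 / 25 * x v ^ 3 := by
          refine Finset.sum_le_sum fun v _ => ?_
          exact mul_le_mul_of_nonneg_right (hs v).2 (pow_nonneg (hx.1 v) 3)
      _ = 11 / 25 * ∑ i, ∑ a, x (i, a) ^ 3 := by
          rw [← Finset.mul_sum, Fintype.sum_prod_type]
      _ ≤ 11 / 25 * ∑ i, prt x i ^ 3 := by
          refine mul_le_mul_of_nonneg_left ?_ (by norm_num)
          refine Finset.sum_le_sum fun i _ => ?_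
          exact EMd_cube Finset.univ (fun a => x (i, a)) fun a _ => hx.1 _
  have h3 := TP_le1 hp
  have h4 := P3_ge hp
  have h5 := c0_lo
  unfold Th
  set P2 := ∑ i, prt x i ^ 2 with hP2
  set P3 := ∑ i, prt x i ^ 3 with hP3
  nlinarith [sq_nonneg (P2 - 25 / 28)]

end W880b64
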