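import Pool.Agent.W_880b64_h21.P9c
import Pool.Agent.W_880b64_h21.EMd
import Pool.Agent.W_880b64_h21.Ap2R

/-!
# A priori bounds for `M = 2` (task H6)
-/

namespace W880b64

open Finset BigOperators

section aux
variable {M : ℕ} [NeZero M]

theorem Ap2_ui (x : VV M → ℝ) (i : P9) :
    ui x i = ∑ a, x (i, a) ^ 2 - prt x i ^ 2 / M := by
  have hM : (M : ℝ) ≠ 0 := Nat.cast_ne_zero.2 (NeZero.ne M)
  have h2 : ∀ a : ZMod M, (x (i, a) - prt x i / M) ^ 2 =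
      x (i, a) ^ 2 - 2 * (prt x i / M) * x (i, a) + (prt x i / M) ^ 2 := fun a => by ring
  unfold ui
  simp only [h2]
  rw [Finset.sum_add_distrib, Finset.sum_sub_distrib, ← Finset.mul_sum, Finset.sum_const,
    Finset.card_univ, ZMod.card, nsmul_eq_mul]
  have h3 : ∑ a, x (i, a) = prt x i := rfl
  rw [h3]
  field_simp
  ring

theorem Ap2_le_prt {x : VV M → ℝ} (hx : ∀ v, 0 ≤ x v) (i : P9) (a : ZMod M) :
    x (i, a) ≤ prt x i :=
  Finset.single_le_sum (f := fun a => x (i, a)) (fun b _ => hx (i, b)) (Finset.mem_univ a)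

theorem Ap2_sq {x : VV M → ℝ} (hx : ∀ v, 0 ≤ x v) (i : P9) :
    ∑ a, x (i, a) ^ 2 ≤ prt x i ^ 2 := by
  have h : ∑ a, x (i, a) ^ 2 ≤ ∑ a, prt x i * x (i, a) := by
    refine Finset.sum_le_sum fun a _ => ?_
    nlinarith [hx (i, a), Ap2_le_prt hx i a]
  rw [← Finset.mul_sum] at h
  have h3 : ∑ a, x (i, a) = prt x i := rfl
  rw [h3] at h
  nlinarith

theorem Ap2_Th {E : Finset (Finset (VV M))} (hE : E ⊆ EM M) {s : VV M → ℝ}
    (hs : ∀ v, 0 ≤ s v ∧ s v ≤ 11 / 25) {x : VV M → ℝ} (hx : ∀ v, 0 ≤ x v) :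
    Th E s x ≤ T6 (EM M) x + 11 / 25 * ∑ v, x v ^ 3 := by
  unfold Th
  have h1 := T6_mono hE hx
  have h2 : ∑ v, s v * x v ^ 3 ≤ 11 / 25 * ∑ v, x v ^ 3 := by
    rw [Finset.mul_sum]
    exact Finset.sum_le_sum fun v _ =>
      mul_le_mul_of_nonneg_right (hs v).2 (pow_nonneg (hx v) 3)
  linarith

theorem Ap2_cube (x : VV M → ℝ) :
    ∑ v, x v ^ 3 ≤ sq2 x * Real.sqrt (sq2 x) := by
  have h1 : ∀ v, x v ≤ Real.sqrt (sq2 x) := by
    intro v
    refine Real.le_sqrt_of_sq_le ?_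
    exact Finset.single_le_sum (f := fun v => x v ^ 2) (fun b _ => sq_nonneg _)
      (Finset.mem_univ v)
  have h2 : ∑ v, x v ^ 3 ≤ ∑ v, x v ^ 2 * Real.sqrt (sq2 x) := by
    refine Finset.sum_le_sum fun v _ => ?_
    rw [pow_succ]
    exact mul_le_mul_of_nonneg_left (h1 v) (sq_nonneg _)
  rw [← Finset.sum_mul] at h2
  exact h2

theorem Ap2_T1 {π : P9 → ℝ} (hπ : π ∈ stdSimplex ℝ P9) :
    TP π ≤ (1 / 9 + rho π) - ∑ i, π i ^ 3 := by
  have h := TP_le1 hπ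
  unfold rho
  linarith

theorem Ap2_T2 {π : P9 → ℝ} (hπ : π ∈ stdSimplex ℝ P9) :
    TP π ≤ 1 / 9 - ∑ i, π i ^ 3 + 2.1214 * Real.sqrt (rho π) ^ 3 := by
  have h := TP_le2 hπ
  have h1 : Real.sqrt (rho π) ^ 2 = rho π := Real.sq_sqrt (rho_nonneg hπ)
  have h2 : Real.sqrt (rho π) ^ 3 = rho π * Real.sqrt (rho π) := by
    rw [pow_succ, h1]
  rw [h2]
  linarith

end aux

theorem Ap2_two {x : VV 2 → ℝ} (i : P9) :
    ∑ a, x (i, a) ^ 3 = prt x i ^ 3 / 4 + 3 / 2 * (prt x i * ui x i) := by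
  have e : ∀ f : ZMod 2 → ℝ, ∑ a, f a = f 0 + f 1 := by
    intro f
    exact Fin.sum_univ_two f
  have h1 : prt x i = x (i, 0) + x (i, 1) := e _
  have h2 := Ap2_ui x i
  rw [e fun a => x (i, a) ^ 2, h1] at h2
  rw [e fun a => x (i, a) ^ 3, h1, h2]
  push_cast
  ring

/-- Proof: `ap2_real` with `S = ∑ π_i u_i` (`π_i ≤ √P2`).  `w1`: `T6_EM_two`,
`x(i,0)³ + x(i,1)³ = π_i³/4 + (3/2) π_i u_i`. -/
theorem ap2 {E : Finset (Finset (VV 2))} (hE : E ⊆ EM 2) {s : VV 2 → ℝ}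
    (hs : ∀ v, 0 ≤ s v ∧ s v ≤ 11 / 25) {x : VV 2 → ℝ} (hx : x ∈ stdSimplex ℝ (VV 2))
    (hq : sq2 x ≤ 1 - c0) (hpos : tau (sq2 x) < Th E s x) :
    rho (prt x) ≤ 0.012 ∧ sq2 x - 1 / 18 ≤ 0.0129 := by
  have hx0 : ∀ v, 0 ≤ x v := hx.1
  have hπ := prt_mem hx
  have hρ := rho_nonneg hπ
  have hr2 : Real.sqrt (rho (prt x)) ^ 2 = rho (prt x) := Real.sq_sqrt hρ
  have hU := UU_nonneg x
  have hqe := sq2_eq x
  have hqe' : sq2 x = (1 / 9 + rho (prt x)) / 2 + UU x := by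
    rw [hqe]
    push_cast
    ring
  have hP2 : ∑ i, prt x i ^ 2 = 1 / 9 + rho (prt x) := by
    unfold rho
    ring
  have hU2 : UU x ≤ 1 / 2 * (1 / 9 + rho (prt x)) := by
    rw [← hP2, Finset.mul_sum]
    refine Finset.sum_le_sum fun i _ => ?_
    have h1 := Ap2_ui x i
    have h2 := Ap2_sq hx0 i
    push_cast at h1
    linarith
  have hS : ∑ i, prt x i * ui x i ≤ Real.sqrt (1 / 9 + rho (prt x)) * UU x := by
    unfold UU
    rw [Finset.mul_sum]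
    refine Finset.sum_le_sum fun i _ => mul_le_mul_of_nonneg_right ?_ (ui_nonneg x i)
    refine Real.le_sqrt_of_sq_le ?_
    rw [← hP2]
    exact Finset.single_le_sum (f := fun i => prt x i ^ 2) (fun b _ => sq_nonneg _)
      (Finset.mem_univ i)
  have hTh := Ap2_Th hE hs hx0
  have w1 : Th E s x ≤ TP (prt x) +
      11 / 25 * ((∑ i, prt x i ^ 3) / 4 + 3 / 2 * ∑ i, prt x i * ui x i) := by
    rw [T6_EM_two] at hTh
    have h3 : ∑ v, x v ^ 3 = (∑ i, prt x i ^ 3) / 4 + 3 / 2 * ∑ i, prt x i * ui x i := by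
      rw [Fintype.sum_prod_type, Finset.sum_div, Finset.mul_sum, ← Finset.sum_add_distrib]
      exact Finset.sum_congr rfl fun i _ => Ap2_two i
    rw [h3] at hTh
    exact hTh
  have w2 : Th E s x ≤ TP (prt x) + 11 / 25 * sq2 x * Real.sqrt (sq2 x) := by
    rw [T6_EM_two] at hTh
    have := Ap2_cube x
    linarith
  have hP := P3_ge hπ
  rw [hP2] at hP
  have key := ap2_real (r := Real.sqrt (rho (prt x))) (P3 := ∑ i, prt x i ^ 3)
    (T := TP (prt x)) (U := UU x) (W := Th E s x) (S := ∑ i, prt x i * ui x i) (q := sq2 x)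
    (Real.sqrt_nonneg _) (by rw [hr2]; exact rho_le hπ) hU (by rw [hr2]; exact hU2)
    (by rw [hr2]; exact hqe') hq (by rw [hr2]; exact Ap2_T1 hπ) (Ap2_T2 hπ)
    (by rw [hr2]; exact hP) (by rw [hr2]; exact hS) w1 w2 hpos
  rw [hr2] at key
  refine ⟨key.1, ?_⟩
  rw [hqe']
  linarith [key.2]

end W880b64
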