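import Pool.Agent.W_880b64_h21.Base

/-!
# A priori bounds for `M = 3`: the real inequality (task H3)

`r = √ρ`, `P2 = 1/9 + r²`, `P3 = ∑π³`, `T = TP π`, `W = T̂`, `q = P2/M + U`.
-/

namespace W880b64


theorem Ap3R_lt {r c : ℝ} (hc : 0 ≤ c) (h : r ^ 2 < c ^ 2) : r < c :=
  lt_of_pow_lt_pow_left₀ 2 hc h

theorem Ap3R_le {r c : ℝ} (hr : 0 ≤ r) (h : c ^ 2 ≤ r ^ 2) : c ≤ r :=
  le_of_sq_le_sq h hr

theorem Ap3R_chord {t : ℝ} (ht1 : 0.4636 ≤ t) (ht2 : t ≤ 0.7321) :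
    t ^ 3 ≤ 0.91185 * t ^ 2 - 0.0963396 := by
  have h2 : 0 ≤ (t - 0.4636) * (0.7321 - t) := mul_nonneg (by linarith) (by linarith)
  have h3 : 0 ≤ (t - 0.4636) * (0.7321 - t) * (t + 0.28385) := mul_nonneg h2 (by linarith)
  nlinarith [h3, h2, ht1, ht2]

theorem Ap3R_cubic {r : ℝ} (h1 : 0.1072 ≤ r) (h2 : r < 0.38894) :
    0.0057213 ≤ r ^ 2 * (0.653 - 1.41427 * r) := by
  rcases le_or_gt r 0.3 with h3 | h3
  · have h4 : 0 ≤ (r - 0.1072) * (0.653 * (r + 0.1072) -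
        1.41427 * (r ^ 2 + r * 0.1072 + 0.1072 ^ 2)) := by
      refine mul_nonneg (by linarith) ?_
      nlinarith
    nlinarith
  · have h4 : 0.1029 ≤ 0.653 - 1.41427 * r := by linarith
    have h5 : 0.09 ≤ r ^ 2 := by nlinarith
    nlinarith

theorem Ap3R_stepU {K U a b : ℝ} (ha : a ≤ K) (hk : K * U < 0.0057213) (hb : 0 < b)
    (hab : 0.0057213 ≤ a * b) (ha0 : 0 < a) : U ≤ b := by
  by_contra hcon
  push Not at hcon
  have h1 : a * b ≤ K * U := mul_le_mul ha hcon.le hb.le (ha0.le.trans ha)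
  linarith

theorem Ap3R_aux1 {q : ℝ} (h0 : 0.215 ≤ q) (h1 : q ≤ 0.5358984) :
    1 / 4 + 11 / 25 * q * Real.sqrt q ≤ tau q := by
  obtain ⟨t, ht⟩ : ∃ t, t = Real.sqrt q := ⟨_, rfl⟩
  have hq : t ^ 2 = q := by rw [ht]; exact Real.sq_sqrt (by linarith)
  have ht0 : 0 ≤ t := by rw [ht]; exact Real.sqrt_nonneg q
  have ht1 : 0.4636 ≤ t := by
    rw [ht]
    apply Real.le_sqrt_of_sq_le
    norm_num
    linarith
  have ht2 : t ≤ 0.7321 := by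
    rw [ht, Real.sqrt_le_left (by norm_num)]
    norm_num
    linarith
  rw [← ht]
  have h4 : q * t ≤ 0.91185 * q - 0.0963396 := by
    have h5 : q * t = t ^ 3 := by rw [← hq]; ring
    rw [h5, ← hq]
    exact Ap3R_chord ht1 ht2
  have h6 : 0 ≤ (q - 0.215) * (0.5358984 - q) := mul_nonneg (by linarith) (by linarith)
  unfold tau CC
  have hs := s3_lo
  have hs' := s3_hi
  have h7 : (3 + 2 * s3) / 4 * q ^ 2 ≤ 1.6160255 * q ^ 2 :=
    mul_le_mul_of_nonneg_right (by linarith) (sq_nonneg q)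
  have h8 : 1.7320508 * q ≤ s3 * q := mul_le_mul_of_nonneg_right hs.le (by linarith)
  have h9 : (q - 0.215) * (0.5358984 - q) = 0.7508984 * q - q ^ 2 - 0.115218156 := by ring
  have h10 : 11 / 25 * q * t = 11 / 25 * (q * t) := by ring
  rw [h9] at h6
  rw [h10]
  linarith

/-- Proof (`M = 3`).  `C = CC`.
(1) `P2 ≤ 0.33`.  By `w1` and `tau (P2/3 + U) = tau (P2/3) + (s3 - 2C P2/3) U - C U²`:
`W - tau q ≤ (2/3)T + (11/75)P3 - tau (P2/3) - (s3 - 1 - (2C/3)P2 - C U) U`; the coefficient is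
`≥ 0` because `U ≤ (2/3)P2` and `0.73205 - 2.1548·0.33 > 0`.
 (1a) if `P2 ≥ 0.2625`: `hT1, hP`: `(2/3)T + (11/75)P3 - tau (P2/3) ≤ 0.08932 P2 - 0.34044 P2² ≤ 0`.
 (1b) `P2 ≤ 0.2625`: `hT2, hP`: it is `≤ 0.005722 - 0.653 r² - 0.3404 r⁴ + 1.41427 r³ =: K(r)`,
 negative for `0.0115 ≤ r² ≤ 0.1514`.  So `r² ≤ 0.0115`, and then
 `(0.59995 - 1.61603 U) U < K(r) ≤ 0.005722` with `U ≤ (2/3)(0.1227)`, so `U < 0.0098`,
 `r²/3 + U ≤ 0.01365`.
(2) `P2 ≥ 0.33`, `q ≤ 0.215`: `W - tau q ≤ 0.08932P2 - 0.34044P2² - (s3-1-(2C/3)P2-CU)U`, the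
coefficient is `≥ 0.73205 - 1.07735P2 - 1.61603(0.215 - P2/3) ≥ 0` (`P2 ≤ 0.645`), and
`0.08932P2 - 0.34044P2² < 0`.
(3) `q ≥ 0.215`: `T ≤ P2 - P2² ≤ 1/4`, `w2`: `W ≤ 1/4 + 0.44 q√q ≤ tau q` on `[0.215, 1-c0]`
(with `t = √q`: `s3 t² - C t⁴ - 0.44 t³ - 1/4 ≥ 0` for `0.4636 ≤ t ≤ 0.7321`). -/
theorem ap3_real {r P3 T U W q : ℝ} (hr : 0 ≤ r) (hr' : r ^ 2 ≤ 8 / 9) (hU : 0 ≤ U)
    (hU2 : U ≤ 2 / 3 * (1 / 9 + r ^ 2)) (hq : q = (1 / 9 + r ^ 2) / 3 + U) (hq1 : q ≤ 1 - c0)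
    (hT1 : T ≤ (1 / 9 + r ^ 2) - P3) (hT2 : T ≤ 1 / 9 - P3 + 2.1214 * r ^ 3)
    (hP : (1 / 9 + r ^ 2) ^ 2 ≤ P3)
    (w1 : W ≤ 2 / 3 * T + 11 / 75 * P3 + U) (w2 : W ≤ T + 11 / 25 * q * Real.sqrt q)
    (hpos : tau q < W) : r ^ 2 ≤ 0.0115 ∧ r ^ 2 / 3 + U ≤ 0.01365 := by
  have hs := s3_lo
  have hs' := s3_hi
  have hc := c0_lo
  obtain ⟨P, hPdef⟩ : ∃ P, P = 1 / 9 + r ^ 2 := ⟨_, rfl⟩
  have hP0 : 1 / 9 ≤ P := by
    have := sq_nonneg r
    linarith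
  rw [← hPdef] at hU2 hq hT1 hP
  -- case (3)
  have hq2 : q < 0.215 := by
    by_contra hcon
    push Not at hcon
    have h1 := Ap3R_aux1 hcon (by linarith)
    have h2 : T ≤ 1 / 4 := by nlinarith [sq_nonneg (P - 1 / 2)]
    linarith
  have hq0 : 0 ≤ q := by rw [hq]; linarith
  have hPle : P ≤ 0.645 := by linarith
  -- the coefficient
  obtain ⟨K, hK⟩ : ∃ K, K = s3 - 1 - (3 + 2 * s3) / 4 / 3 * P - (3 + 2 * s3) / 4 * q := ⟨_, rfl⟩
  have hK0 : 0 ≤ K := by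
    rw [hK]
    have h1 : (3 + 2 * s3) / 4 / 3 * P ≤ 0.5386753 * P :=
      mul_le_mul_of_nonneg_right (by linarith) (by linarith)
    have h2 : (3 + 2 * s3) / 4 * q ≤ 1.6160255 * q :=
      mul_le_mul_of_nonneg_right (by linarith) hq0
    linarith
  have hKU : 0 ≤ K * U := mul_nonneg hK0 hU
  have htau : tau q = s3 / 3 * P - (3 + 2 * s3) / 36 * P ^ 2 + U + K * U := by
    unfold tau CC
    rw [hK, hq]
    ring
  have hPP : P ^ 2 ≤ P3 := hP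
  have hT1' : 2 / 3 * T + 11 / 75 * P3 ≤ 2 / 3 * P - 39 / 75 * P ^ 2 := by linarith
  have hPlt : P < 0.26237 := by
    have h1 : s3 / 3 * P - (3 + 2 * s3) / 36 * P ^ 2 < 2 / 3 * P - 39 / 75 * P ^ 2 := by linarith
    have h2 : 1.7320508 * P ≤ s3 * P := mul_le_mul_of_nonneg_right hs.le (by linarith)
    have h3 : (3 + 2 * s3) / 36 * P ^ 2 ≤ 0.1795585 * P ^ 2 :=
      mul_le_mul_of_nonneg_right (by linarith) (sq_nonneg P)
    have h4 : 0 < P * (0.0893165 - 0.3404415 * P) := by linarith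
    by_contra hcon
    push Not at hcon
    have h5 : P * (0.0893165 - 0.3404415 * P) ≤ 0 :=
      mul_nonpos_of_nonneg_of_nonpos (by linarith) (by linarith)
    linarith
  have hr2 : r ^ 2 < 0.15127 := by linarith
  have hrlt : r < 0.38894 := Ap3R_lt (by norm_num) (by norm_num; linarith)
  have hr3 : 0 ≤ r ^ 3 := pow_nonneg hr 3
  -- main inequality
  have hmain : K * U < 0.0057213 - 0.653 * r ^ 2 + 1.41427 * r ^ 3 := by
    have h1 : 2 / 3 * T + 11 / 75 * P3 ≤ 2 / 27 - 39 / 75 * P ^ 2 + 2 / 3 * 2.1214 * r ^ 3 := by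
      linarith
    have h2 : K * U < 2 / 27 - 39 / 75 * P ^ 2 + 2 / 3 * 2.1214 * r ^ 3 - s3 / 3 * P +
        (3 + 2 * s3) / 36 * P ^ 2 := by linarith
    have h3 : (3 + 2 * s3) / 36 * P ^ 2 ≤ 0.1795585 * P ^ 2 :=
      mul_le_mul_of_nonneg_right (by linarith) (sq_nonneg P)
    have h4 : 1.7320508 * P ≤ s3 * P := mul_le_mul_of_nonneg_right hs.le (by linarith)
    have h5 : P ^ 2 = 1 / 81 + 2 / 9 * r ^ 2 + r ^ 4 := by rw [hPdef]; ring
    have h6 : 0 ≤ r ^ 4 := by positivity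
    rw [hPdef] at h4
    rw [h5] at h2 h3
    rw [hPdef] at h2
    linarith
  have hr0 : r ^ 2 ≤ 0.0115 := by
    by_contra hcon
    push Not at hcon
    have h1 : 0.1072 ≤ r := Ap3R_le hr (by norm_num; linarith)
    have h2 := Ap3R_cubic h1 hrlt
    linarith
  refine ⟨hr0, ?_⟩
  have hk : K * U < 0.0057213 := by
    have h1 : r < 0.2 := Ap3R_lt (by norm_num) (by norm_num; linarith)
    have h2 : 0 ≤ r ^ 2 * (0.653 - 1.41427 * r) := mul_nonneg (sq_nonneg r) (by linarith)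
    linarith
  have hKlow : 0.59993 - 1.61603 * U ≤ K := by
    rw [hK, hq]
    have h1 : P ≤ 0.122612 := by linarith
    have h2 : (3 + 2 * s3) / 4 / 3 * P ≤ 0.5386753 * P :=
      mul_le_mul_of_nonneg_right (by linarith) (by linarith)
    have h3 : (3 + 2 * s3) / 4 * (P / 3 + U) ≤ 1.6160255 * (P / 3 + U) :=
      mul_le_mul_of_nonneg_right (by linarith) (by linarith)
    linarith
  have hU1 : U ≤ 0.0818 := by linarith
  have hU3 : U ≤ 0.01225 := Ap3R_stepU (a := 0.4677) (by linarith) hk (by norm_num) (by norm_num)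
    (by norm_num)
  have hU4 : U ≤ 0.00987 := Ap3R_stepU (a := 0.5801) (by linarith) hk (by norm_num) (by norm_num)
    (by norm_num)
  have hU5 : U ≤ 0.0098 := Ap3R_stepU (a := 0.58396) (by linarith) hk (by norm_num) (by norm_num)
    (by norm_num)
  linarith

end W880b64
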