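import Pool.Agent.W_880b64_h21.P9a

/-!
# The quadratic form `Rt` (task C3)

`Rt π v = ∑_{i ≠ j} √(π_i v_i) √(π_j v_j) = (∑ √(π_i v_i))² - ∑ π_i v_i`.
-/

namespace W880b64

open Finset BigOperators

theorem P9b_card : (Finset.univ : Finset P9).card = 9 := by
  rw [Finset.card_univ, Fintype.card_prod, ZMod.card]

theorem P9b_eq {π v : P9 → ℝ} (hπ : ∀ i, 0 ≤ π i) (hv : ∀ i, 0 ≤ v i) :
    Rt π v = (∑ i, Real.sqrt (π i * v i)) ^ 2 - ∑ i, π i * v i := by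
  unfold Rt
  have h2 : ∀ i j : P9, (if i = j then 0 else Real.sqrt (π i * v i) * Real.sqrt (π j * v j)) =
      Real.sqrt (π i * v i) * Real.sqrt (π j * v j) -
        if i = j then Real.sqrt (π i * v i) * Real.sqrt (π j * v j) else 0 := by
    intro i j
    split_ifs <;> ring
  simp only [h2, Finset.sum_sub_distrib, Finset.sum_ite_eq, Finset.mem_univ, if_true]
  rw [sq, Finset.sum_mul_sum]
  congr 1
  apply Finset.sum_congr rfl
  intro i _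
  exact Real.mul_self_sqrt (mul_nonneg (hπ i) (hv i))

/-- `(∑ √(π_i v_i))² ≤ (∑ π)(∑ v) = ∑ v`. -/
theorem Rt_le {π v : P9 → ℝ} (hπ : π ∈ stdSimplex ℝ P9) (hv : ∀ i, 0 ≤ v i) :
    Rt π v ≤ ∑ i, v i - ∑ i, π i * v i := by
  rw [P9b_eq hπ.1 hv]
  have h1 := Finset.sum_mul_sq_le_sq_mul_sq (Finset.univ : Finset P9)
    (fun i => Real.sqrt (π i)) (fun i => Real.sqrt (v i))
  have h2 : ∀ i, Real.sqrt (π i) * Real.sqrt (v i) = Real.sqrt (π i * v i) := fun i =>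
    (Real.sqrt_mul (hπ.1 i) _).symm
  have h3 : ∀ i, Real.sqrt (π i) ^ 2 = π i := fun i => Real.sq_sqrt (hπ.1 i)
  have h4 : ∀ i, Real.sqrt (v i) ^ 2 = v i := fun i => Real.sq_sqrt (hv i)
  simp only [h2, h3, h4] at h1
  rw [hπ.2, one_mul] at h1
  linarith

theorem P9b_elem {x lam : ℝ} (hx0 : 0 ≤ x) (hx1 : x ≤ 1) (hl : 0 < lam) :
    x / (lam + x) ≤ 1 - lam * (1 / (lam + 1 / 9) - (x - 1 / 9) / (lam + 1 / 9) ^ 2 +
      (x - 1 / 9) ^ 2 / ((lam + 1 / 9) ^ 2 * (lam + 1))) := by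
  have hs : 0 < lam + 1 / 9 := by linarith
  have hx : 0 < lam + x := by linarith
  have h1 : x / (lam + x) = 1 - lam * (1 / (lam + x)) := by
    field_simp
    ring
  have h2 : 1 / (lam + x) = 1 / (lam + 1 / 9) - (x - 1 / 9) / (lam + 1 / 9) ^ 2 +
      (x - 1 / 9) ^ 2 / ((lam + 1 / 9) ^ 2 * (lam + x)) := by
    field_simp
    ring
  have h3 : (x - 1 / 9) ^ 2 / ((lam + 1 / 9) ^ 2 * (lam + 1)) ≤
      (x - 1 / 9) ^ 2 / ((lam + 1 / 9) ^ 2 * (lam + x)) := by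
    apply div_le_div_of_nonneg_left (sq_nonneg _) (by positivity)
    exact mul_le_mul_of_nonneg_left (by linarith) (by positivity)
  rw [h1, h2]
  have h4 : lam * (1 / (lam + 1 / 9) - (x - 1 / 9) / (lam + 1 / 9) ^ 2 +
      (x - 1 / 9) ^ 2 / ((lam + 1 / 9) ^ 2 * (lam + 1))) ≤
      lam * (1 / (lam + 1 / 9) - (x - 1 / 9) / (lam + 1 / 9) ^ 2 +
      (x - 1 / 9) ^ 2 / ((lam + 1 / 9) ^ 2 * (lam + x))) :=
    mul_le_mul_of_nonneg_left (by linarith) hl.le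
  linarith

theorem P9b_sum {π : P9 → ℝ} (hπ : π ∈ stdSimplex ℝ P9) (hx1 : ∀ i, π i ≤ 1)
    (h0 : 0 ≤ rho π) (h1 : rho π ≤ 8 / 9) :
    ∑ i, π i / (8 / 9 - 9 / 20 * rho π + π i) ≤ 1 := by
  set lam : ℝ := 8 / 9 - 9 / 20 * rho π with hlam
  have hl : 0 < lam := by rw [hlam]; linarith
  have hs : 0 < lam + 1 / 9 := by linarith
  have hle : ∑ i, π i / (lam + π i) ≤ ∑ i, (1 - lam * (1 / (lam + 1 / 9) -
      (π i - 1 / 9) / (lam + 1 / 9) ^ 2 +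
      (π i - 1 / 9) ^ 2 / ((lam + 1 / 9) ^ 2 * (lam + 1)))) :=
    Finset.sum_le_sum fun i _ => P9b_elem (hπ.1 i) (hx1 i) hl
  have hd : ∑ i, (π i - 1 / 9) = 0 := by
    rw [Finset.sum_sub_distrib, hπ.2, Finset.sum_const, P9b_card]
    norm_num
  have hd2 : ∑ i, (π i - 1 / 9) ^ 2 = rho π := by
    have : ∀ i, (π i - 1 / 9) ^ 2 = π i ^ 2 - 2 / 9 * π i + 1 / 81 := fun i => by ring
    simp only [this]
    rw [Finset.sum_add_distrib, Finset.sum_sub_distrib, ← Finset.mul_sum, hπ.2, Finset.sum_const,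
      P9b_card]
    unfold rho
    norm_num
    ring
  have hsum : ∑ i, (1 - lam * (1 / (lam + 1 / 9) -
      (π i - 1 / 9) / (lam + 1 / 9) ^ 2 +
      (π i - 1 / 9) ^ 2 / ((lam + 1 / 9) ^ 2 * (lam + 1)))) =
      9 - lam * (9 / (lam + 1 / 9) + rho π / ((lam + 1 / 9) ^ 2 * (lam + 1))) := by
    rw [Finset.sum_sub_distrib, ← Finset.mul_sum, Finset.sum_add_distrib, Finset.sum_sub_distrib,
      ← Finset.sum_div, ← Finset.sum_div, ← Finset.sum_div, hd, hd2, Finset.sum_const,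
      P9b_card]
    rw [nsmul_eq_mul]
    push_cast
    ring
  rw [hsum] at hle
  refine le_trans hle ?_
  have key : 8 ≤ lam * (9 / (lam + 1 / 9) + rho π / ((lam + 1 / 9) ^ 2 * (lam + 1))) := by
    have h2 : lam * (9 / (lam + 1 / 9) + rho π / ((lam + 1 / 9) ^ 2 * (lam + 1))) =
        lam * (9 * (lam + 1 / 9) * (lam + 1) + rho π) / ((lam + 1 / 9) ^ 2 * (lam + 1)) := by
      have : lam + 1 ≠ 0 := by linarith
      field_simp
    rw [h2, le_div_iff₀ (by positivity)]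
    have hr : rho π = (1 - (lam + 1 / 9)) * (20 / 9) := by rw [hlam]; ring
    have hs1 : lam + 1 / 9 ≤ 1 := by rw [hlam]; linarith
    have hs2 : 0.6 ≤ lam + 1 / 9 := by rw [hlam]; linarith
    have h3 : lam * (9 * (lam + 1 / 9) * (lam + 1) + rho π) -
        8 * ((lam + 1 / 9) ^ 2 * (lam + 1)) =
        (1 - (lam + 1 / 9)) * (20 / 9 * lam - (lam + 1 / 9) * (lam + 1)) := by
      rw [hr]; ring
    have h4 : 0 ≤ 20 / 9 * lam - (lam + 1 / 9) * (lam + 1) := by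
      nlinarith [mul_nonneg (sub_nonneg.mpr hs1) (sub_nonneg.mpr hs2)]
    have h5 : 0 ≤ (1 - (lam + 1 / 9)) * (20 / 9 * lam - (lam + 1 / 9) * (lam + 1)) :=
      mul_nonneg (by linarith) h4
    linarith
  linarith

/-- Let `ρ = ∑ π² - 1/9 ∈ [0, 8/9]`, `s = 1 - (9/20)ρ`, `λ = s - 1/9 = 8/9 - (9/20)ρ > 0`.
Cauchy–Schwarz: `(∑ √(π_i v_i))² ≤ (∑ π_i/(λ+π_i)) (∑ (λ+π_i) v_i)`, so it is enough that
`∑ π_i/(λ+π_i) ≤ 1`.  Now `π/(λ+π) = 1 - λ/(λ+π)` and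
`1/(λ+π) = 1/s - (π-1/9)/s² + (π-1/9)²/(s²(λ+π)) ≥ 1/s - (π-1/9)/s² + (π-1/9)²/(s²(λ+1))`
(`s = λ + 1/9`, `π ≤ 1`), so `∑ π_i/(λ+π_i) ≤ 9 - λ (9/s + ρ/(s²(λ+1)))`, and this is `≤ 1`
iff `8 s²(λ+1) ≤ λ (9 s (λ+1) + ρ)`, which (with `ρ = (1-s)20/9`) is
`(1-s)[(20/9)(s - 1/9) - s(s+8/9)] ≥ 0`, true for `s ∈ [0.6, 1]`. -/
theorem Rt_le_lam {π v : P9 → ℝ} (hπ : π ∈ stdSimplex ℝ P9) (hv : ∀ i, 0 ≤ v i) :
    Rt π v ≤ (8 / 9 - 9 / 20 * rho π) * ∑ i, v i := by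
  rw [P9b_eq hπ.1 hv]
  have h0 := rho_nonneg hπ
  have h1 := rho_le hπ
  have hx1 : ∀ i, π i ≤ 1 := by
    intro i
    rw [← hπ.2]
    exact Finset.single_le_sum (fun j _ => hπ.1 j) (Finset.mem_univ i)
  have hS := P9b_sum hπ hx1 h0 h1
  set lam : ℝ := 8 / 9 - 9 / 20 * rho π with hlam
  have hl : 0 < lam := by rw [hlam]; linarith
  have hlp : ∀ i, 0 < lam + π i := fun i => by linarith [hπ.1 i]
  have hcs := Finset.sum_mul_sq_le_sq_mul_sq (Finset.univ : Finset P9)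
    (fun i => Real.sqrt (π i / (lam + π i))) (fun i => Real.sqrt ((lam + π i) * v i))
  have h2 : ∀ i, Real.sqrt (π i / (lam + π i)) * Real.sqrt ((lam + π i) * v i) =
      Real.sqrt (π i * v i) := by
    intro i
    rw [← Real.sqrt_mul (div_nonneg (hπ.1 i) (hlp i).le)]
    congr 1
    rw [← mul_assoc, div_mul_cancel₀ _ (hlp i).ne']
  have h3 : ∀ i, Real.sqrt (π i / (lam + π i)) ^ 2 = π i / (lam + π i) := fun i =>
    Real.sq_sqrt (div_nonneg (hπ.1 i) (hlp i).le)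
  have h4 : ∀ i, Real.sqrt ((lam + π i) * v i) ^ 2 = (lam + π i) * v i := fun i =>
    Real.sq_sqrt (mul_nonneg (hlp i).le (hv i))
  simp only [h2, h3, h4] at hcs
  have h5 : (0 : ℝ) ≤ ∑ i, (lam + π i) * v i :=
    Finset.sum_nonneg fun i _ => mul_nonneg (hlp i).le (hv i)
  have h6 : (∑ i, Real.sqrt (π i * v i)) ^ 2 ≤ ∑ i, (lam + π i) * v i := by
    refine le_trans hcs ?_
    calc (∑ i, π i / (lam + π i)) * ∑ i, (lam + π i) * v i ≤ 1 * ∑ i, (lam + π i) * v i :=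
          mul_le_mul_of_nonneg_right hS h5
      _ = _ := one_mul _
  have h7 : ∑ i, (lam + π i) * v i = lam * ∑ i, v i + ∑ i, π i * v i := by
    rw [Finset.mul_sum, ← Finset.sum_add_distrib]
    apply Finset.sum_congr rfl
    intro i _
    ring
  rw [h7] at h6
  linarith

end W880b64
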