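import Pool.Agent.W_880b64_h21.P9a

/-!
# Inequalities on `AG(2,3)`, lines (task C2)
-/

namespace W880b64

open Finset BigOperators

theorem P9c_sum (f : P9 → ℝ) : ∑ i, f i = f (0, 0) + f (0, 1) + f (0, 2) + f (1, 0) + f (1, 1) +
    f (1, 2) + f (2, 0) + f (2, 1) + f (2, 2) := by
  have h : ∀ g : ZMod 3 → ℝ, ∑ i, g i = g 0 + g 1 + g 2 := fun g => Fin.sum_univ_three g
  rw [Fintype.sum_prod_type]
  simp only [h]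
  ring

theorem P9c_TP (π : P9 → ℝ) : TP π =
    6 * (π (0, 0) * π (0, 1) * π (0, 2) + π (0, 0) * π (1, 0) * π (2, 0) +
      π (0, 0) * π (1, 1) * π (2, 2) + π (0, 0) * π (1, 2) * π (2, 1) +
      π (0, 1) * π (1, 0) * π (2, 2) + π (0, 1) * π (1, 1) * π (2, 1) +
      π (0, 1) * π (1, 2) * π (2, 0) + π (0, 2) * π (1, 0) * π (2, 1) +
      π (0, 2) * π (1, 1) * π (2, 0) + π (0, 2) * π (1, 2) * π (2, 2) +
      π (1, 0) * π (1, 1) * π (1, 2) + π (2, 0) * π (2, 1) * π (2, 2)) := by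
  unfold TP
  rw [P9c_sum]
  simp only [P9c_sum]
  simp only [if_true,

    if_neg (by decide : ¬ ((((0 : ZMod 3), (0 : ZMod 3)) : P9) = ((0 : ZMod 3), (1 : ZMod 3)))),
    if_neg (by decide : ¬ ((((0 : ZMod 3), (0 : ZMod 3)) : P9) = ((0 : ZMod 3), (2 : ZMod 3)))),
    if_neg (by decide : ¬ ((((0 : ZMod 3), (0 : ZMod 3)) : P9) = ((1 : ZMod 3), (0 : ZMod 3)))),
    if_neg (by decide : ¬ ((((0 : ZMod 3), (0 : ZMod 3)) : P9) = ((1 : ZMod 3), (1 : ZMod 3)))),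
    if_neg (by decide : ¬ ((((0 : ZMod 3), (0 : ZMod 3)) : P9) = ((1 : ZMod 3), (2 : ZMod 3)))),
    if_neg (by decide : ¬ ((((0 : ZMod 3), (0 : ZMod 3)) : P9) = ((2 : ZMod 3), (0 : ZMod 3)))),
    if_neg (by decide : ¬ ((((0 : ZMod 3), (0 : ZMod 3)) : P9) = ((2 : ZMod 3), (1 : ZMod 3)))),
    if_neg (by decide : ¬ ((((0 : ZMod 3), (0 : ZMod 3)) : P9) = ((2 : ZMod 3), (2 : ZMod 3)))),
    if_neg (by decide : ¬ ((((0 : ZMod 3), (1 : ZMod 3)) : P9) = ((0 : ZMod 3), (0 : ZMod 3)))),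
    if_neg (by decide : ¬ ((((0 : ZMod 3), (1 : ZMod 3)) : P9) = ((0 : ZMod 3), (2 : ZMod 3)))),
    if_neg (by decide : ¬ ((((0 : ZMod 3), (1 : ZMod 3)) : P9) = ((1 : ZMod 3), (0 : ZMod 3)))),
    if_neg (by decide : ¬ ((((0 : ZMod 3), (1 : ZMod 3)) : P9) = ((1 : ZMod 3), (1 : ZMod 3)))),
    if_neg (by decide : ¬ ((((0 : ZMod 3), (1 : ZMod 3)) : P9) = ((1 : ZMod 3), (2 : ZMod 3)))),
    if_neg (by decide : ¬ ((((0 : ZMod 3), (1 : ZMod 3)) : P9) = ((2 : ZMod 3), (0 : ZMod 3)))),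
    if_neg (by decide : ¬ ((((0 : ZMod 3), (1 : ZMod 3)) : P9) = ((2 : ZMod 3), (1 : ZMod 3)))),
    if_neg (by decide : ¬ ((((0 : ZMod 3), (1 : ZMod 3)) : P9) = ((2 : ZMod 3), (2 : ZMod 3)))),
    if_neg (by decide : ¬ ((((0 : ZMod 3), (2 : ZMod 3)) : P9) = ((0 : ZMod 3), (0 : ZMod 3)))),
    if_neg (by decide : ¬ ((((0 : ZMod 3), (2 : ZMod 3)) : P9) = ((0 : ZMod 3), (1 : ZMod 3)))),
    if_neg (by decide : ¬ ((((0 : ZMod 3), (2 : ZMod 3)) : P9) = ((1 : ZMod 3), (0 : ZMod 3)))),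
    if_neg (by decide : ¬ ((((0 : ZMod 3), (2 : ZMod 3)) : P9) = ((1 : ZMod 3), (1 : ZMod 3)))),
    if_neg (by decide : ¬ ((((0 : ZMod 3), (2 : ZMod 3)) : P9) = ((1 : ZMod 3), (2 : ZMod 3)))),
    if_neg (by decide : ¬ ((((0 : ZMod 3), (2 : ZMod 3)) : P9) = ((2 : ZMod 3), (0 : ZMod 3)))),
    if_neg (by decide : ¬ ((((0 : ZMod 3), (2 : ZMod 3)) : P9) = ((2 : ZMod 3), (1 : ZMod 3)))),
    if_neg (by decide : ¬ ((((0 : ZMod 3), (2 : ZMod 3)) : P9) = ((2 : ZMod 3), (2 : ZMod 3)))),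
    if_neg (by decide : ¬ ((((1 : ZMod 3), (0 : ZMod 3)) : P9) = ((0 : ZMod 3), (0 : ZMod 3)))),
    if_neg (by decide : ¬ ((((1 : ZMod 3), (0 : ZMod 3)) : P9) = ((0 : ZMod 3), (1 : ZMod 3)))),
    if_neg (by decide : ¬ ((((1 : ZMod 3), (0 : ZMod 3)) : P9) = ((0 : ZMod 3), (2 : ZMod 3)))),
    if_neg (by decide : ¬ ((((1 : ZMod 3), (0 : ZMod 3)) : P9) = ((1 : ZMod 3), (1 : ZMod 3)))),
    if_neg (by decide : ¬ ((((1 : ZMod 3), (0 : ZMod 3)) : P9) = ((1 : ZMod 3), (2 : ZMod 3)))),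
    if_neg (by decide : ¬ ((((1 : ZMod 3), (0 : ZMod 3)) : P9) = ((2 : ZMod 3), (0 : ZMod 3)))),
    if_neg (by decide : ¬ ((((1 : ZMod 3), (0 : ZMod 3)) : P9) = ((2 : ZMod 3), (1 : ZMod 3)))),
    if_neg (by decide : ¬ ((((1 : ZMod 3), (0 : ZMod 3)) : P9) = ((2 : ZMod 3), (2 : ZMod 3)))),
    if_neg (by decide : ¬ ((((1 : ZMod 3), (1 : ZMod 3)) : P9) = ((0 : ZMod 3), (0 : ZMod 3)))),
    if_neg (by decide : ¬ ((((1 : ZMod 3), (1 : ZMod 3)) : P9) = ((0 : ZMod 3), (1 : ZMod 3)))),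
    if_neg (by decide : ¬ ((((1 : ZMod 3), (1 : ZMod 3)) : P9) = ((0 : ZMod 3), (2 : ZMod 3)))),
    if_neg (by decide : ¬ ((((1 : ZMod 3), (1 : ZMod 3)) : P9) = ((1 : ZMod 3), (0 : ZMod 3)))),
    if_neg (by decide : ¬ ((((1 : ZMod 3), (1 : ZMod 3)) : P9) = ((1 : ZMod 3), (2 : ZMod 3)))),
    if_neg (by decide : ¬ ((((1 : ZMod 3), (1 : ZMod 3)) : P9) = ((2 : ZMod 3), (0 : ZMod 3)))),
    if_neg (by decide : ¬ ((((1 : ZMod 3), (1 : ZMod 3)) : P9) = ((2 : ZMod 3), (1 : ZMod 3)))),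
    if_neg (by decide : ¬ ((((1 : ZMod 3), (1 : ZMod 3)) : P9) = ((2 : ZMod 3), (2 : ZMod 3)))),
    if_neg (by decide : ¬ ((((1 : ZMod 3), (2 : ZMod 3)) : P9) = ((0 : ZMod 3), (0 : ZMod 3)))),
    if_neg (by decide : ¬ ((((1 : ZMod 3), (2 : ZMod 3)) : P9) = ((0 : ZMod 3), (1 : ZMod 3)))),
    if_neg (by decide : ¬ ((((1 : ZMod 3), (2 : ZMod 3)) : P9) = ((0 : ZMod 3), (2 : ZMod 3)))),
    if_neg (by decide : ¬ ((((1 : ZMod 3), (2 : ZMod 3)) : P9) = ((1 : ZMod 3), (0 : ZMod 3)))),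
    if_neg (by decide : ¬ ((((1 : ZMod 3), (2 : ZMod 3)) : P9) = ((1 : ZMod 3), (1 : ZMod 3)))),
    if_neg (by decide : ¬ ((((1 : ZMod 3), (2 : ZMod 3)) : P9) = ((2 : ZMod 3), (0 : ZMod 3)))),
    if_neg (by decide : ¬ ((((1 : ZMod 3), (2 : ZMod 3)) : P9) = ((2 : ZMod 3), (1 : ZMod 3)))),
    if_neg (by decide : ¬ ((((1 : ZMod 3), (2 : ZMod 3)) : P9) = ((2 : ZMod 3), (2 : ZMod 3)))),
    if_neg (by decide : ¬ ((((2 : ZMod 3), (0 : ZMod 3)) : P9) = ((0 : ZMod 3), (0 : ZMod 3)))),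
    if_neg (by decide : ¬ ((((2 : ZMod 3), (0 : ZMod 3)) : P9) = ((0 : ZMod 3), (1 : ZMod 3)))),
    if_neg (by decide : ¬ ((((2 : ZMod 3), (0 : ZMod 3)) : P9) = ((0 : ZMod 3), (2 : ZMod 3)))),
    if_neg (by decide : ¬ ((((2 : ZMod 3), (0 : ZMod 3)) : P9) = ((1 : ZMod 3), (0 : ZMod 3)))),
    if_neg (by decide : ¬ ((((2 : ZMod 3), (0 : ZMod 3)) : P9) = ((1 : ZMod 3), (1 : ZMod 3)))),
    if_neg (by decide : ¬ ((((2 : ZMod 3), (0 : ZMod 3)) : P9) = ((1 : ZMod 3), (2 : ZMod 3)))),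
    if_neg (by decide : ¬ ((((2 : ZMod 3), (0 : ZMod 3)) : P9) = ((2 : ZMod 3), (1 : ZMod 3)))),
    if_neg (by decide : ¬ ((((2 : ZMod 3), (0 : ZMod 3)) : P9) = ((2 : ZMod 3), (2 : ZMod 3)))),
    if_neg (by decide : ¬ ((((2 : ZMod 3), (1 : ZMod 3)) : P9) = ((0 : ZMod 3), (0 : ZMod 3)))),
    if_neg (by decide : ¬ ((((2 : ZMod 3), (1 : ZMod 3)) : P9) = ((0 : ZMod 3), (1 : ZMod 3)))),
    if_neg (by decide : ¬ ((((2 : ZMod 3), (1 : ZMod 3)) : P9) = ((0 : ZMod 3), (2 : ZMod 3)))),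
    if_neg (by decide : ¬ ((((2 : ZMod 3), (1 : ZMod 3)) : P9) = ((1 : ZMod 3), (0 : ZMod 3)))),
    if_neg (by decide : ¬ ((((2 : ZMod 3), (1 : ZMod 3)) : P9) = ((1 : ZMod 3), (1 : ZMod 3)))),
    if_neg (by decide : ¬ ((((2 : ZMod 3), (1 : ZMod 3)) : P9) = ((1 : ZMod 3), (2 : ZMod 3)))),
    if_neg (by decide : ¬ ((((2 : ZMod 3), (1 : ZMod 3)) : P9) = ((2 : ZMod 3), (0 : ZMod 3)))),
    if_neg (by decide : ¬ ((((2 : ZMod 3), (1 : ZMod 3)) : P9) = ((2 : ZMod 3), (2 : ZMod 3)))),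
    if_neg (by decide : ¬ ((((2 : ZMod 3), (2 : ZMod 3)) : P9) = ((0 : ZMod 3), (0 : ZMod 3)))),
    if_neg (by decide : ¬ ((((2 : ZMod 3), (2 : ZMod 3)) : P9) = ((0 : ZMod 3), (1 : ZMod 3)))),
    if_neg (by decide : ¬ ((((2 : ZMod 3), (2 : ZMod 3)) : P9) = ((0 : ZMod 3), (2 : ZMod 3)))),
    if_neg (by decide : ¬ ((((2 : ZMod 3), (2 : ZMod 3)) : P9) = ((1 : ZMod 3), (0 : ZMod 3)))),
    if_neg (by decide : ¬ ((((2 : ZMod 3), (2 : ZMod 3)) : P9) = ((1 : ZMod 3), (1 : ZMod 3)))),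
    if_neg (by decide : ¬ ((((2 : ZMod 3), (2 : ZMod 3)) : P9) = ((1 : ZMod 3), (2 : ZMod 3)))),
    if_neg (by decide : ¬ ((((2 : ZMod 3), (2 : ZMod 3)) : P9) = ((2 : ZMod 3), (0 : ZMod 3)))),
    if_neg (by decide : ¬ ((((2 : ZMod 3), (2 : ZMod 3)) : P9) = ((2 : ZMod 3), (1 : ZMod 3))))]
  simp only [

    (by decide : (-((0 : ZMod 3), (0 : ZMod 3)) - ((0 : ZMod 3), (1 : ZMod 3)) : P9) = ((0 : ZMod 3), (2 : ZMod 3))),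
    (by decide : (-((0 : ZMod 3), (0 : ZMod 3)) - ((0 : ZMod 3), (2 : ZMod 3)) : P9) = ((0 : ZMod 3), (1 : ZMod 3))),
    (by decide : (-((0 : ZMod 3), (0 : ZMod 3)) - ((1 : ZMod 3), (0 : ZMod 3)) : P9) = ((2 : ZMod 3), (0 : ZMod 3))),
    (by decide : (-((0 : ZMod 3), (0 : ZMod 3)) - ((1 : ZMod 3), (1 : ZMod 3)) : P9) = ((2 : ZMod 3), (2 : ZMod 3))),
    (by decide : (-((0 : ZMod 3), (0 : ZMod 3)) - ((1 : ZMod 3), (2 : ZMod 3)) : P9) = ((2 : ZMod 3), (1 : ZMod 3))),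
    (by decide : (-((0 : ZMod 3), (0 : ZMod 3)) - ((2 : ZMod 3), (0 : ZMod 3)) : P9) = ((1 : ZMod 3), (0 : ZMod 3))),
    (by decide : (-((0 : ZMod 3), (0 : ZMod 3)) - ((2 : ZMod 3), (1 : ZMod 3)) : P9) = ((1 : ZMod 3), (2 : ZMod 3))),
    (by decide : (-((0 : ZMod 3), (0 : ZMod 3)) - ((2 : ZMod 3), (2 : ZMod 3)) : P9) = ((1 : ZMod 3), (1 : ZMod 3))),
    (by decide : (-((0 : ZMod 3), (1 : ZMod 3)) - ((0 : ZMod 3), (0 : ZMod 3)) : P9) = ((0 : ZMod 3), (2 : ZMod 3))),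
    (by decide : (-((0 : ZMod 3), (1 : ZMod 3)) - ((0 : ZMod 3), (2 : ZMod 3)) : P9) = ((0 : ZMod 3), (0 : ZMod 3))),
    (by decide : (-((0 : ZMod 3), (1 : ZMod 3)) - ((1 : ZMod 3), (0 : ZMod 3)) : P9) = ((2 : ZMod 3), (2 : ZMod 3))),
    (by decide : (-((0 : ZMod 3), (1 : ZMod 3)) - ((1 : ZMod 3), (1 : ZMod 3)) : P9) = ((2 : ZMod 3), (1 : ZMod 3))),
    (by decide : (-((0 : ZMod 3), (1 : ZMod 3)) - ((1 : ZMod 3), (2 : ZMod 3)) : P9) = ((2 : ZMod 3), (0 : ZMod 3))),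
    (by decide : (-((0 : ZMod 3), (1 : ZMod 3)) - ((2 : ZMod 3), (0 : ZMod 3)) : P9) = ((1 : ZMod 3), (2 : ZMod 3))),
    (by decide : (-((0 : ZMod 3), (1 : ZMod 3)) - ((2 : ZMod 3), (1 : ZMod 3)) : P9) = ((1 : ZMod 3), (1 : ZMod 3))),
    (by decide : (-((0 : ZMod 3), (1 : ZMod 3)) - ((2 : ZMod 3), (2 : ZMod 3)) : P9) = ((1 : ZMod 3), (0 : ZMod 3))),
    (by decide : (-((0 : ZMod 3), (2 : ZMod 3)) - ((0 : ZMod 3), (0 : ZMod 3)) : P9) = ((0 : ZMod 3), (1 : ZMod 3))),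
    (by decide : (-((0 : ZMod 3), (2 : ZMod 3)) - ((0 : ZMod 3), (1 : ZMod 3)) : P9) = ((0 : ZMod 3), (0 : ZMod 3))),
    (by decide : (-((0 : ZMod 3), (2 : ZMod 3)) - ((1 : ZMod 3), (0 : ZMod 3)) : P9) = ((2 : ZMod 3), (1 : ZMod 3))),
    (by decide : (-((0 : ZMod 3), (2 : ZMod 3)) - ((1 : ZMod 3), (1 : ZMod 3)) : P9) = ((2 : ZMod 3), (0 : ZMod 3))),
    (by decide : (-((0 : ZMod 3), (2 : ZMod 3)) - ((1 : ZMod 3), (2 : ZMod 3)) : P9) = ((2 : ZMod 3), (2 : ZMod 3))),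
    (by decide : (-((0 : ZMod 3), (2 : ZMod 3)) - ((2 : ZMod 3), (0 : ZMod 3)) : P9) = ((1 : ZMod 3), (1 : ZMod 3))),
    (by decide : (-((0 : ZMod 3), (2 : ZMod 3)) - ((2 : ZMod 3), (1 : ZMod 3)) : P9) = ((1 : ZMod 3), (0 : ZMod 3))),
    (by decide : (-((0 : ZMod 3), (2 : ZMod 3)) - ((2 : ZMod 3), (2 : ZMod 3)) : P9) = ((1 : ZMod 3), (2 : ZMod 3))),
    (by decide : (-((1 : ZMod 3), (0 : ZMod 3)) - ((0 : ZMod 3), (0 : ZMod 3)) : P9) = ((2 : ZMod 3), (0 : ZMod 3))),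
    (by decide : (-((1 : ZMod 3), (0 : ZMod 3)) - ((0 : ZMod 3), (1 : ZMod 3)) : P9) = ((2 : ZMod 3), (2 : ZMod 3))),
    (by decide : (-((1 : ZMod 3), (0 : ZMod 3)) - ((0 : ZMod 3), (2 : ZMod 3)) : P9) = ((2 : ZMod 3), (1 : ZMod 3))),
    (by decide : (-((1 : ZMod 3), (0 : ZMod 3)) - ((1 : ZMod 3), (1 : ZMod 3)) : P9) = ((1 : ZMod 3), (2 : ZMod 3))),
    (by decide : (-((1 : ZMod 3), (0 : ZMod 3)) - ((1 : ZMod 3), (2 : ZMod 3)) : P9) = ((1 : ZMod 3), (1 : ZMod 3))),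
    (by decide : (-((1 : ZMod 3), (0 : ZMod 3)) - ((2 : ZMod 3), (0 : ZMod 3)) : P9) = ((0 : ZMod 3), (0 : ZMod 3))),
    (by decide : (-((1 : ZMod 3), (0 : ZMod 3)) - ((2 : ZMod 3), (1 : ZMod 3)) : P9) = ((0 : ZMod 3), (2 : ZMod 3))),
    (by decide : (-((1 : ZMod 3), (0 : ZMod 3)) - ((2 : ZMod 3), (2 : ZMod 3)) : P9) = ((0 : ZMod 3), (1 : ZMod 3))),
    (by decide : (-((1 : ZMod 3), (1 : ZMod 3)) - ((0 : ZMod 3), (0 : ZMod 3)) : P9) = ((2 : ZMod 3), (2 : ZMod 3))),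
    (by decide : (-((1 : ZMod 3), (1 : ZMod 3)) - ((0 : ZMod 3), (1 : ZMod 3)) : P9) = ((2 : ZMod 3), (1 : ZMod 3))),
    (by decide : (-((1 : ZMod 3), (1 : ZMod 3)) - ((0 : ZMod 3), (2 : ZMod 3)) : P9) = ((2 : ZMod 3), (0 : ZMod 3))),
    (by decide : (-((1 : ZMod 3), (1 : ZMod 3)) - ((1 : ZMod 3), (0 : ZMod 3)) : P9) = ((1 : ZMod 3), (2 : ZMod 3))),
    (by decide : (-((1 : ZMod 3), (1 : ZMod 3)) - ((1 : ZMod 3), (2 : ZMod 3)) : P9) = ((1 : ZMod 3), (0 : ZMod 3))),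
    (by decide : (-((1 : ZMod 3), (1 : ZMod 3)) - ((2 : ZMod 3), (0 : ZMod 3)) : P9) = ((0 : ZMod 3), (2 : ZMod 3))),
    (by decide : (-((1 : ZMod 3), (1 : ZMod 3)) - ((2 : ZMod 3), (1 : ZMod 3)) : P9) = ((0 : ZMod 3), (1 : ZMod 3))),
    (by decide : (-((1 : ZMod 3), (1 : ZMod 3)) - ((2 : ZMod 3), (2 : ZMod 3)) : P9) = ((0 : ZMod 3), (0 : ZMod 3))),
    (by decide : (-((1 : ZMod 3), (2 : ZMod 3)) - ((0 : ZMod 3), (0 : ZMod 3)) : P9) = ((2 : ZMod 3), (1 : ZMod 3))),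
    (by decide : (-((1 : ZMod 3), (2 : ZMod 3)) - ((0 : ZMod 3), (1 : ZMod 3)) : P9) = ((2 : ZMod 3), (0 : ZMod 3))),
    (by decide : (-((1 : ZMod 3), (2 : ZMod 3)) - ((0 : ZMod 3), (2 : ZMod 3)) : P9) = ((2 : ZMod 3), (2 : ZMod 3))),
    (by decide : (-((1 : ZMod 3), (2 : ZMod 3)) - ((1 : ZMod 3), (0 : ZMod 3)) : P9) = ((1 : ZMod 3), (1 : ZMod 3))),
    (by decide : (-((1 : ZMod 3), (2 : ZMod 3)) - ((1 : ZMod 3), (1 : ZMod 3)) : P9) = ((1 : ZMod 3), (0 : ZMod 3))),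
    (by decide : (-((1 : ZMod 3), (2 : ZMod 3)) - ((2 : ZMod 3), (0 : ZMod 3)) : P9) = ((0 : ZMod 3), (1 : ZMod 3))),
    (by decide : (-((1 : ZMod 3), (2 : ZMod 3)) - ((2 : ZMod 3), (1 : ZMod 3)) : P9) = ((0 : ZMod 3), (0 : ZMod 3))),
    (by decide : (-((1 : ZMod 3), (2 : ZMod 3)) - ((2 : ZMod 3), (2 : ZMod 3)) : P9) = ((0 : ZMod 3), (2 : ZMod 3))),
    (by decide : (-((2 : ZMod 3), (0 : ZMod 3)) - ((0 : ZMod 3), (0 : ZMod 3)) : P9) = ((1 : ZMod 3), (0 : ZMod 3))),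
    (by decide : (-((2 : ZMod 3), (0 : ZMod 3)) - ((0 : ZMod 3), (1 : ZMod 3)) : P9) = ((1 : ZMod 3), (2 : ZMod 3))),
    (by decide : (-((2 : ZMod 3), (0 : ZMod 3)) - ((0 : ZMod 3), (2 : ZMod 3)) : P9) = ((1 : ZMod 3), (1 : ZMod 3))),
    (by decide : (-((2 : ZMod 3), (0 : ZMod 3)) - ((1 : ZMod 3), (0 : ZMod 3)) : P9) = ((0 : ZMod 3), (0 : ZMod 3))),
    (by decide : (-((2 : ZMod 3), (0 : ZMod 3)) - ((1 : ZMod 3), (1 : ZMod 3)) : P9) = ((0 : ZMod 3), (2 : ZMod 3))),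
    (by decide : (-((2 : ZMod 3), (0 : ZMod 3)) - ((1 : ZMod 3), (2 : ZMod 3)) : P9) = ((0 : ZMod 3), (1 : ZMod 3))),
    (by decide : (-((2 : ZMod 3), (0 : ZMod 3)) - ((2 : ZMod 3), (1 : ZMod 3)) : P9) = ((2 : ZMod 3), (2 : ZMod 3))),
    (by decide : (-((2 : ZMod 3), (0 : ZMod 3)) - ((2 : ZMod 3), (2 : ZMod 3)) : P9) = ((2 : ZMod 3), (1 : ZMod 3))),
    (by decide : (-((2 : ZMod 3), (1 : ZMod 3)) - ((0 : ZMod 3), (0 : ZMod 3)) : P9) = ((1 : ZMod 3), (2 : ZMod 3))),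
    (by decide : (-((2 : ZMod 3), (1 : ZMod 3)) - ((0 : ZMod 3), (1 : ZMod 3)) : P9) = ((1 : ZMod 3), (1 : ZMod 3))),
    (by decide : (-((2 : ZMod 3), (1 : ZMod 3)) - ((0 : ZMod 3), (2 : ZMod 3)) : P9) = ((1 : ZMod 3), (0 : ZMod 3))),
    (by decide : (-((2 : ZMod 3), (1 : ZMod 3)) - ((1 : ZMod 3), (0 : ZMod 3)) : P9) = ((0 : ZMod 3), (2 : ZMod 3))),
    (by decide : (-((2 : ZMod 3), (1 : ZMod 3)) - ((1 : ZMod 3), (1 : ZMod 3)) : P9) = ((0 : ZMod 3), (1 : ZMod 3))),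
    (by decide : (-((2 : ZMod 3), (1 : ZMod 3)) - ((1 : ZMod 3), (2 : ZMod 3)) : P9) = ((0 : ZMod 3), (0 : ZMod 3))),
    (by decide : (-((2 : ZMod 3), (1 : ZMod 3)) - ((2 : ZMod 3), (0 : ZMod 3)) : P9) = ((2 : ZMod 3), (2 : ZMod 3))),
    (by decide : (-((2 : ZMod 3), (1 : ZMod 3)) - ((2 : ZMod 3), (2 : ZMod 3)) : P9) = ((2 : ZMod 3), (0 : ZMod 3))),
    (by decide : (-((2 : ZMod 3), (2 : ZMod 3)) - ((0 : ZMod 3), (0 : ZMod 3)) : P9) = ((1 : ZMod 3), (1 : ZMod 3))),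
    (by decide : (-((2 : ZMod 3), (2 : ZMod 3)) - ((0 : ZMod 3), (1 : ZMod 3)) : P9) = ((1 : ZMod 3), (0 : ZMod 3))),
    (by decide : (-((2 : ZMod 3), (2 : ZMod 3)) - ((0 : ZMod 3), (2 : ZMod 3)) : P9) = ((1 : ZMod 3), (2 : ZMod 3))),
    (by decide : (-((2 : ZMod 3), (2 : ZMod 3)) - ((1 : ZMod 3), (0 : ZMod 3)) : P9) = ((0 : ZMod 3), (1 : ZMod 3))),
    (by decide : (-((2 : ZMod 3), (2 : ZMod 3)) - ((1 : ZMod 3), (1 : ZMod 3)) : P9) = ((0 : ZMod 3), (0 : ZMod 3))),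
    (by decide : (-((2 : ZMod 3), (2 : ZMod 3)) - ((1 : ZMod 3), (2 : ZMod 3)) : P9) = ((0 : ZMod 3), (2 : ZMod 3))),
    (by decide : (-((2 : ZMod 3), (2 : ZMod 3)) - ((2 : ZMod 3), (0 : ZMod 3)) : P9) = ((2 : ZMod 3), (1 : ZMod 3))),
    (by decide : (-((2 : ZMod 3), (2 : ZMod 3)) - ((2 : ZMod 3), (1 : ZMod 3)) : P9) = ((2 : ZMod 3), (0 : ZMod 3)))]
  ring

/-- for three reals with sum `0` -/
theorem P9c_cubic (a b c R ρ : ℝ) (h : a + b + c = 0) (hR : 0 ≤ R) (hρ : R ^ 2 = ρ)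
    (hS : a ^ 2 + b ^ 2 + c ^ 2 ≤ 3 * ρ) :
    a ^ 3 + b ^ 3 + c ^ 3 ≤ 2.1214 / 3 * R * (a ^ 2 + b ^ 2 + c ^ 2) := by
  obtain rfl : c = -a - b := by linarith
  set S := a ^ 2 + b ^ 2 + (-a - b) ^ 2 with hSdef
  have hS0 : 0 ≤ S := by positivity
  have h1 : (a ^ 3 + b ^ 3 + (-a - b) ^ 3) ^ 2 * 6 ≤ S ^ 3 := by
    have h2 : 0 ≤ ((a - b) * (2 * a + b) * (a + 2 * b)) ^ 2 := sq_nonneg _
    rw [hSdef]
    nlinarith [h2]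
  have h3 : S ^ 3 ≤ S ^ 2 * (3 * ρ) := by
    rw [pow_succ]
    exact mul_le_mul_of_nonneg_left hS (sq_nonneg S)
  refine abs_le_of_sq_le_sq' ?_ (by positivity) |>.2
  rw [mul_pow, mul_pow, hρ]
  have h4 : 0 ≤ ρ * S ^ 2 := by
    rw [← hρ]
    positivity
  nlinarith [h1, h3, h4]

/-- `TP π ≤ 2/9`-type bound with the deviation `ρ = ∑ π² - 1/9`.

Proof.  The 12 lines fall into 4 parallel classes of 3 lines.  Identity (each point is on 4 lines,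
each pair of points on one line, `∑ π = 1`):
`∑_{lines l} π(l)³ = TP π + ∑ π³ + 3 ∑ π²` and `∑_l π(l)² = 3 ∑ π² + 1`, `∑_l π(l) = 4`, where
`π(l) = ∑_{i ∈ l} π_i`.  With `π(l) = 1/3 + w(l)`: `∑_l w(l) = 0` in every class,
`∑_l w(l)² = 3ρ`, and `TP π + ∑ π³ = 1/9 + ∑_l w(l)³`.
For three reals with sum `0` and sum of squares `S`: `a³+b³+c³ = 3abc ≤ S√S/√6`
(`(abc)² ≤ S³/54`, because the discriminant of the cubic with roots `a,b,c` is `≥ 0`).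
Summing over the four classes: `∑_l w(l)³ ≤ (3ρ)√(3ρ)/√6 = 2.12132.. ρ√ρ`. -/
theorem TP_le2 {π : P9 → ℝ} (hπ : π ∈ stdSimplex ℝ P9) :
    TP π ≤ 1 / 9 - ∑ i, π i ^ 3 + 2.1214 * rho π * Real.sqrt (rho π) := by
  have hρ0 := rho_nonneg hπ
  have hR := Real.sqrt_nonneg (rho π)
  have hR2 := Real.sq_sqrt hρ0
  have hs : ∑ i, π i = 1 := hπ.2
  have hρ : rho π = ∑ i, π i ^ 2 - 1 / 9 := rfl
  set R := Real.sqrt (rho π) with hRdef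
  rw [P9c_TP]
  rw [P9c_sum] at hs hρ ⊢
  obtain ⟨w00, hw00⟩ : ∃ w, w = π (0, 0) + π (0, 1) + π (0, 2) - 1 / 3 := ⟨_, rfl⟩
  obtain ⟨w01, hw01⟩ : ∃ w, w = π (1, 0) + π (1, 1) + π (1, 2) - 1 / 3 := ⟨_, rfl⟩
  obtain ⟨w02, hw02⟩ : ∃ w, w = π (2, 0) + π (2, 1) + π (2, 2) - 1 / 3 := ⟨_, rfl⟩
  obtain ⟨w10, hw10⟩ : ∃ w, w = π (0, 0) + π (1, 0) + π (2, 0) - 1 / 3 := ⟨_, rfl⟩
  obtain ⟨w11, hw11⟩ : ∃ w, w = π (0, 1) + π (1, 1) + π (2, 1) - 1 / 3 := ⟨_, rfl⟩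
  obtain ⟨w12, hw12⟩ : ∃ w, w = π (0, 2) + π (1, 2) + π (2, 2) - 1 / 3 := ⟨_, rfl⟩
  obtain ⟨w20, hw20⟩ : ∃ w, w = π (0, 0) + π (1, 2) + π (2, 1) - 1 / 3 := ⟨_, rfl⟩
  obtain ⟨w21, hw21⟩ : ∃ w, w = π (0, 1) + π (1, 0) + π (2, 2) - 1 / 3 := ⟨_, rfl⟩
  obtain ⟨w22, hw22⟩ : ∃ w, w = π (0, 2) + π (1, 1) + π (2, 0) - 1 / 3 := ⟨_, rfl⟩
  obtain ⟨w30, hw30⟩ : ∃ w, w = π (0, 0) + π (1, 1) + π (2, 2) - 1 / 3 := ⟨_, rfl⟩
  obtain ⟨w31, hw31⟩ : ∃ w, w = π (0, 2) + π (1, 0) + π (2, 1) - 1 / 3 := ⟨_, rfl⟩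
  obtain ⟨w32, hw32⟩ : ∃ w, w = π (0, 1) + π (1, 2) + π (2, 0) - 1 / 3 := ⟨_, rfl⟩
  have hQ : w00 ^ 2 + w01 ^ 2 + w02 ^ 2 + w10 ^ 2 + w11 ^ 2 + w12 ^ 2 +
      w20 ^ 2 + w21 ^ 2 + w22 ^ 2 + w30 ^ 2 + w31 ^ 2 + w32 ^ 2 = 3 * rho π := by
    rw [hρ, hw00, hw01, hw02, hw10, hw11, hw12, hw20, hw21, hw22, hw30, hw31, hw32]
    have h2 : π (2, 2) = 1 - (π (0, 0) + π (0, 1) + π (0, 2) + π (1, 0) + π (1, 1) + π (1, 2) +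
        π (2, 0) + π (2, 1)) := by linarith
    rw [h2]
    ring
  have hc0 := P9c_cubic w00 w01 w02 R (rho π) (by rw [hw00, hw01, hw02]; linarith) hR hR2 (by
    linarith [sq_nonneg w10, sq_nonneg w11, sq_nonneg w12, sq_nonneg w20, sq_nonneg w21, sq_nonneg w22, sq_nonneg w30, sq_nonneg w31, sq_nonneg w32])
  have hc1 := P9c_cubic w10 w11 w12 R (rho π) (by rw [hw10, hw11, hw12]; linarith) hR hR2 (by
    linarith [sq_nonneg w00, sq_nonneg w01, sq_nonneg w02, sq_nonneg w20, sq_nonneg w21, sq_nonneg w22, sq_nonneg w30, sq_nonneg w31, sq_nonneg w32])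
  have hc2 := P9c_cubic w20 w21 w22 R (rho π) (by rw [hw20, hw21, hw22]; linarith) hR hR2 (by
    linarith [sq_nonneg w00, sq_nonneg w01, sq_nonneg w02, sq_nonneg w10, sq_nonneg w11, sq_nonneg w12, sq_nonneg w30, sq_nonneg w31, sq_nonneg w32])
  have hc3 := P9c_cubic w30 w31 w32 R (rho π) (by rw [hw30, hw31, hw32]; linarith) hR hR2 (by
    linarith [sq_nonneg w00, sq_nonneg w01, sq_nonneg w02, sq_nonneg w10, sq_nonneg w11, sq_nonneg w12, sq_nonneg w20, sq_nonneg w21, sq_nonneg w22])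
  have hT :
    6 * (π (0, 0) * π (0, 1) * π (0, 2) + π (0, 0) * π (1, 0) * π (2, 0) +
      π (0, 0) * π (1, 1) * π (2, 2) + π (0, 0) * π (1, 2) * π (2, 1) +
      π (0, 1) * π (1, 0) * π (2, 2) + π (0, 1) * π (1, 1) * π (2, 1) +
      π (0, 1) * π (1, 2) * π (2, 0) + π (0, 2) * π (1, 0) * π (2, 1) +
      π (0, 2) * π (1, 1) * π (2, 0) + π (0, 2) * π (1, 2) * π (2, 2) +
      π (1, 0) * π (1, 1) * π (1, 2) + π (2, 0) * π (2, 1) * π (2, 2)) = 1 / 9 - (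
      π (0, 0) ^ 3 + π (0, 1) ^ 3 + π (0, 2) ^ 3 + π (1, 0) ^ 3 + π (1, 1) ^ 3 +
      π (1, 2) ^ 3 + π (2, 0) ^ 3 + π (2, 1) ^ 3 + π (2, 2) ^ 3) + (
      w00 ^ 3 + w01 ^ 3 + w02 ^ 3 + w10 ^ 3 + w11 ^ 3 + w12 ^ 3 +
      w20 ^ 3 + w21 ^ 3 + w22 ^ 3 + w30 ^ 3 + w31 ^ 3 + w32 ^ 3) := by
    rw [hw00, hw01, hw02, hw10, hw11, hw12, hw20, hw21, hw22, hw30, hw31, hw32]
    have h2 : π (2, 2) = 1 - (π (0, 0) + π (0, 1) + π (0, 2) + π (1, 0) + π (1, 1) + π (1, 2) +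
        π (2, 0) + π (2, 1)) := by linarith
    rw [h2]
    ring
  rw [hT]
  have hfin : 2.1214 / 3 * R * (3 * rho π) = 2.1214 * rho π * R := by ring
  rw [← hQ] at hfin
  rw [← hfin]
  linarith [hc0, hc1, hc2, hc3]

/-- Proof: `∑ π³ = 1/81 + ρ/3 + ∑ ψ³` with `ψ = π - 1/9`, and `∑ ψ³ ≥ -ρ√ρ` since `∑ ψ² = ρ`;
insert this into `TP_le2`. -/
theorem TP_le3 {π : P9 → ℝ} (hπ : π ∈ stdSimplex ℝ P9) :
    TP π ≤ 8 / 81 - rho π / 3 + 3.13 * rho π * Real.sqrt (rho π) := by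
  have h1 := TP_le2 hπ
  have hρ0 := rho_nonneg hπ
  have hR := Real.sqrt_nonneg (rho π)
  have hR2 := Real.sq_sqrt hρ0
  have hs : ∑ i, π i = 1 := hπ.2
  have hρ : ∑ i, (π i - 1 / 9) ^ 2 = rho π := by
    have h2 : ∑ i, (π i - 1 / 9) ^ 2 = ∑ i, π i ^ 2 - 2 / 9 * ∑ i, π i + 1 / 9 := by
      simp only [P9c_sum]
      ring
    rw [h2, hs, rho]
    ring
  have hcub : ∑ i, π i ^ 3 = 1 / 81 + rho π / 3 + ∑ i, (π i - 1 / 9) ^ 3 := by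
    rw [← hρ]
    have h2 : ∑ i, π i ^ 3 = ∑ i, (π i - 1 / 9) ^ 3 + 1 / 3 * ∑ i, (π i - 1 / 9) ^ 2 +
        1 / 27 * ∑ i, π i - 1 / 9 * (2 / 9) * (1 / 1) := by
      simp only [P9c_sum]
      ring
    rw [h2, hs]
    ring
  have hlow : - (rho π * Real.sqrt (rho π)) ≤ ∑ i, (π i - 1 / 9) ^ 3 := by
    rw [← hρ, Finset.sum_mul, ← Finset.sum_neg_distrib]
    refine Finset.sum_le_sum fun i _ => ?_
    rw [hρ]
    have h3 : (π i - 1 / 9) ^ 2 ≤ rho π := by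
      rw [← hρ]
      exact Finset.single_le_sum (f := fun i => (π i - 1 / 9) ^ 2) (fun _ _ => sq_nonneg _)
        (Finset.mem_univ i)
    have h4 : - Real.sqrt (rho π) ≤ π i - 1 / 9 := by
      refine (abs_le_of_sq_le_sq' ?_ hR).1
      rw [hR2]
      exact h3
    nlinarith [mul_nonneg (sq_nonneg (π i - 1 / 9)) (sub_nonneg.2 h4)]
  have h5 : 0 ≤ rho π * Real.sqrt (rho π) := mul_nonneg hρ0 hR
  nlinarith [h1, hcub, hlow, h5]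

end W880b64
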