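import Pool.Agent.W_880b64_h21.FourF2
import Pool.Agent.W_880b64_h21.P9b
import Pool.Agent.W_880b64_h21.P9c
import Pool.Agent.W_880b64_h21.EMd
import Pool.Agent.W_880b64_h21.Ap3R

/-!
# A priori bounds for `M = 3` (task H5)
-/

namespace W880b64

open Finset BigOperators

section aux
variable {M : ℕ} [NeZero M]

theorem Ap3_ui (x : VV M → ℝ) (i : P9) :
    ui x i = ∑ a, x (i, a) ^ 2 - prt x i ^ 2 / M := by
  have hM : (M : ℝ) ≠ 0 := Nat.cast_ne_zero.2 (NeZero.ne M)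
  have h2 : ∀ a : ZMod M, (x (i, a) - prt x i / M) ^ 2 =
      x (i, a) ^ 2 - 2 * (prt x i / M) * x (i, a) + (prt x i / M) ^ 2 := fun a => by ring
  unfold ui
  simp only [h2]
  rw [Finset.sum_add_distrib, Finset.sum_sub_distrib, ← Finset.mul_sum, Finset.sum_const,
    Finset.card_univ, ZMod.card, nsmul_eq_mul]
  have h3 : ∑ a, x (i, a) = prt x i := rfl
  rw [h3]
  field_simp
  ring

theorem Ap3_le_prt {x : VV M → ℝ} (hx : ∀ v, 0 ≤ x v) (i : P9) (a : ZMod M) :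
    x (i, a) ≤ prt x i :=
  Finset.single_le_sum (f := fun a => x (i, a)) (fun b _ => hx (i, b)) (Finset.mem_univ a)

theorem Ap3_sq {x : VV M → ℝ} (hx : ∀ v, 0 ≤ x v) (i : P9) :
    ∑ a, x (i, a) ^ 2 ≤ prt x i ^ 2 := by
  have h : ∑ a, x (i, a) ^ 2 ≤ ∑ a, prt x i * x (i, a) := by
    refine Finset.sum_le_sum fun a _ => ?_
    nlinarith [hx (i, a), Ap3_le_prt hx i a]
  rw [← Finset.mul_sum] at h
  have h3 : ∑ a, x (i, a) = prt x i := rfl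
  rw [h3] at h
  nlinarith

theorem Ap3_Th {E : Finset (Finset (VV M))} (hE : E ⊆ EM M) {s : VV M → ℝ}
    (hs : ∀ v, 0 ≤ s v ∧ s v ≤ 11 / 25) {x : VV M → ℝ} (hx : ∀ v, 0 ≤ x v) :
    Th E s x ≤ T6 (EM M) x + 11 / 25 * ∑ v, x v ^ 3 := by
  unfold Th
  have h1 := T6_mono hE hx
  have h2 : ∑ v, s v * x v ^ 3 ≤ 11 / 25 * ∑ v, x v ^ 3 := by
    rw [Finset.mul_sum]
    exact Finset.sum_le_sum fun v _ =>
      mul_le_mul_of_nonneg_right (hs v).2 (pow_nonneg (hx v) 3)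
  linarith

theorem Ap3_cube (x : VV M → ℝ) :
    ∑ v, x v ^ 3 ≤ sq2 x * Real.sqrt (sq2 x) := by
  have h1 : ∀ v, x v ≤ Real.sqrt (sq2 x) := by
    intro v
    refine Real.le_sqrt_of_sq_le ?_
    exact Finset.single_le_sum (f := fun v => x v ^ 2) (fun b _ => sq_nonneg _)
      (Finset.mem_univ v)
  have h2 : ∑ v, x v ^ 3 ≤ ∑ v, x v ^ 2 * Real.sqrt (sq2 x) := by
    refine Finset.sum_le_sum fun v _ => ?_
    rw [pow_succ]
    exact mul_le_mul_of_nonneg_left (h1 v) (sq_nonneg _)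
  rw [← Finset.sum_mul] at h2
  exact h2

theorem Ap3_T1 {π : P9 → ℝ} (hπ : π ∈ stdSimplex ℝ P9) :
    TP π ≤ (1 / 9 + rho π) - ∑ i, π i ^ 3 := by
  have h := TP_le1 hπ
  unfold rho
  linarith

theorem Ap3_T2 {π : P9 → ℝ} (hπ : π ∈ stdSimplex ℝ P9) :
    TP π ≤ 1 / 9 - ∑ i, π i ^ 3 + 2.1214 * Real.sqrt (rho π) ^ 3 := by
  have h := TP_le2 hπ
  have h1 : Real.sqrt (rho π) ^ 2 = rho π := Real.sq_sqrt (rho_nonneg hπ)
  have h2 : Real.sqrt (rho π) ^ 3 = rho π * Real.sqrt (rho π) := by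
    rw [pow_succ, h1]
  rw [h2]
  linarith

end aux

/-- Proof: `ap3_real` with `W = Th E s x`.  `w1`: `Th ≤ T6 (EM 3) x + (11/25)∑x³`,
`F2_three`, `Rt_le`, and `∑_a x(i,a)³ ≤ π_i ∑_a x(i,a)² = π_i(π_i²/3 + u_i)`:
`W ≤ (2/3)T + U - ∑πu + (11/25)(P3/3 + ∑πu)`.
`w2`: `T6_EM_le_TP`, `∑ x³ ≤ q√q`.  `hU2`: `u_i ≤ π_i² - π_i²/3`. -/
theorem ap3 {E : Finset (Finset (VV 3))} (hE : E ⊆ EM 3) {s : VV 3 → ℝ}
    (hs : ∀ v, 0 ≤ s v ∧ s v ≤ 11 / 25) {x : VV 3 → ℝ} (hx : x ∈ stdSimplex ℝ (VV 3))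
    (hq : sq2 x ≤ 1 - c0) (hpos : tau (sq2 x) < Th E s x) :
    rho (prt x) ≤ 0.0115 ∧ sq2 x - 1 / 27 ≤ 0.01365 := by
  have hx0 : ∀ v, 0 ≤ x v := hx.1
  have hπ := prt_mem hx
  have hρ := rho_nonneg hπ
  have hr2 : Real.sqrt (rho (prt x)) ^ 2 = rho (prt x) := Real.sq_sqrt hρ
  have hU := UU_nonneg x
  have hqe := sq2_eq x
  have hqe' : sq2 x = (1 / 9 + rho (prt x)) / 3 + UU x := by
    rw [hqe]
    push_cast
    ring
  have hP2 : ∑ i, prt x i ^ 2 = 1 / 9 + rho (prt x) := by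
    unfold rho
    ring
  have hU2 : UU x ≤ 2 / 3 * (1 / 9 + rho (prt x)) := by
    rw [← hP2, Finset.mul_sum]
    refine Finset.sum_le_sum fun i _ => ?_
    have h1 := Ap3_ui x i
    have h2 := Ap3_sq hx0 i
    push_cast at h1
    linarith
  have hπ0 : ∀ i, 0 ≤ prt x i := hπ.1
  have hpu : 0 ≤ ∑ i, prt x i * ui x i :=
    Finset.sum_nonneg fun i _ => mul_nonneg (hπ0 i) (ui_nonneg x i)
  have hTh := Ap3_Th hE hs hx0
  have hcu : ∑ v, x v ^ 3 ≤ (∑ i, prt x i ^ 3) / 3 + ∑ i, prt x i * ui x i := by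
    rw [Fintype.sum_prod_type, Finset.sum_div, ← Finset.sum_add_distrib]
    refine Finset.sum_le_sum fun i _ => ?_
    have h1 : ∑ a, x (i, a) ^ 3 ≤ ∑ a, prt x i * x (i, a) ^ 2 := by
      refine Finset.sum_le_sum fun a _ => ?_
      rw [pow_succ, mul_comm]
      exact mul_le_mul_of_nonneg_right (Ap3_le_prt hx0 i a) (sq_nonneg _)
    rw [← Finset.mul_sum] at h1
    have h2 := Ap3_ui x i
    push_cast at h2
    have h3 : ∑ a, x (i, a) ^ 2 = ui x i + prt x i ^ 2 / 3 := by linarith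
    rw [h3] at h1
    linarith
  have w1 : Th E s x ≤ 2 / 3 * TP (prt x) + 11 / 75 * (∑ i, prt x i ^ 3) + UU x := by
    have h1 := F2_three hx0
    have h2 := Rt_le hπ (v := ui x) (ui_nonneg x)
    have h3 : ∑ i, ui x i = UU x := rfl
    rw [h3] at h2
    linarith
  have w2 : Th E s x ≤ TP (prt x) + 11 / 25 * sq2 x * Real.sqrt (sq2 x) := by
    have h1 := Ap3_cube x
    have h2 := T6_EM_le_TP (M := 3) (by norm_num) hx0
    linarith
  have hP := P3_ge hπ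
  rw [hP2] at hP
  have key := ap3_real (r := Real.sqrt (rho (prt x))) (P3 := ∑ i, prt x i ^ 3)
    (T := TP (prt x)) (U := UU x) (W := Th E s x) (q := sq2 x)
    (Real.sqrt_nonneg _) (by rw [hr2]; exact rho_le hπ) hU (by rw [hr2]; exact hU2)
    (by rw [hr2]; exact hqe') hq (by rw [hr2]; exact Ap3_T1 hπ) (Ap3_T2 hπ)
    (by rw [hr2]; exact hP) w1 w2 hpos
  rw [hr2] at key
  refine ⟨key.1, ?_⟩
  rw [hqe']
  linarith [key.2]

end W880b64
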