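import Mathlib
import Pool.Agent.W_MP_880b64_co.Tri

/-!
# MP_880b64_co: definitions for `A_3 ∩ [2√3 - 3, 1] = {1}`

The Lagrangian density of a finite 3-graph `G` (helper86's `TG.lagr`) is `max_x T_G(x)` over the
simplex; `Lam` is the set of all of them.  The target is `Set.Icc c0 1 ⊆ closure Lam` for
`c0 = 2√3 - 3`.

Plan.  `IsOp f` collects the properties of the maps `t ↦ max_w [P(w) + t ∑_{slots} w_s^3]` given
by patterns.  Gap principle: if for every `y ∈ (c0,1)` there is an operation `f` with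
`f c0 ≤ y < f y` then `[c0,1] ⊆ closure Lam`.
-/

namespace W880b64

open Finset BigOperators
open W_MP_880b64_co (TG Lam)

/-- `√3` -/
noncomputable def s3 : ℝ := Real.sqrt 3

/-- the base point `c0 = 2√3 - 3 = 0.4641...` -/
noncomputable def c0 : ℝ := 2 * s3 - 3

/-- the constant `C = (3 + 2√3)/4 = 1.6160...` -/
noncomputable def CC : ℝ := (3 + 2 * s3) / 4

/-- `τ(q) = √3 q - C q²` -/
noncomputable def tau (q : ℝ) : ℝ := s3 * q - CC * q ^ 2

lemma s3_sq : s3 ^ 2 = 3 := Real.sq_sqrt (by norm_num)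

lemma s3_pos : 0 < s3 := Real.sqrt_pos.2 (by norm_num)

lemma s3_lo : 1.7320508 < s3 := by
  unfold s3
  rw [Real.lt_sqrt (by norm_num)]
  norm_num

lemma s3_hi : s3 < 1.7320509 := by
  unfold s3
  rw [Real.sqrt_lt' (by norm_num)]
  norm_num

lemma c0_lo : 0.4641016 < c0 := by unfold c0; linarith [s3_lo]
lemma c0_hi : c0 < 0.4641018 := by unfold c0; linarith [s3_hi]
lemma CC_lo : 1.6160254 < CC := by unfold CC; linarith [s3_lo]
lemma CC_hi : CC < 1.61602545 := by unfold CC; linarith [s3_hi]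

/-- properties of an operation on the set of (limits of) Lagrangian densities -/
structure IsOp (f : ℝ → ℝ) : Prop where
  cont : Continuous f
  mono : Monotone f
  ge : ∀ t, t ≤ f t
  contr : ∀ s t, s < t → t < f t → f t - f s < t - s
  maps : ∀ l ∈ Lam, f l ∈ Lam

/-! ### Hidden structures: pattern `AAB` with a 3-graph `E` inside `A` -/

section hidden
variable {V : Type} [Fintype V] [DecidableEq V]

/-- `6 ∑_{e ∈ E} ∏_{v ∈ e} x_v` -/
noncomputable def T6 (E : Finset (Finset V)) (x : V → ℝ) : ℝ := 6 * ∑ e ∈ E, ∏ v ∈ e, x v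

/-- `∑ x_v²` -/
noncomputable def sq2 (x : V → ℝ) : ℝ := ∑ v, x v ^ 2

/-- hidden value with slots: `T_E(x) + ∑ s_v x_v³` -/
noncomputable def Th (E : Finset (Finset V)) (s : V → ℝ) (x : V → ℝ) : ℝ :=
  T6 E x + ∑ v, s v * x v ^ 3

/-- value of the configuration `(E,s)` with the weight `a x_v` on the vertices of `A` and the
weight `1 - a` on the slot `B`, which is filled with `c0`. -/
noncomputable def fv (E : Finset (Finset V)) (s : V → ℝ) (a : ℝ) (x : V → ℝ) : ℝ :=
  3 * a ^ 2 * (1 - a) * (1 - sq2 x) + a ^ 3 * Th E s x + c0 * (1 - a) ^ 3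

/-- the maximum of `fv E s` -/
noncomputable def VC (E : Finset (Finset V)) (s : V → ℝ) : ℝ :=
  sSup ((fun p : ℝ × (V → ℝ) => fv E s p.1 p.2) '' (Set.Icc (0:ℝ) 1 ×ˢ stdSimplex ℝ V))

end hidden

/-! ### The structures `E_M = AG(2,3) × Z_M` -/

/-- the points of `AG(2,3)` -/
abbrev P9 := ZMod 3 × ZMod 3

/-- the vertices of the hidden structure: 9 parts of size `M` -/
abbrev VV (M : ℕ) := P9 × ZMod M

/-- the edges `{(i,x),(j,y),(k,z)}`, `{i,j,k}` a line of `AG(2,3)`, `x+y+z ∈ {0,1}` -/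
noncomputable def EM (M : ℕ) [NeZero M] : Finset (Finset (VV M)) :=
  by classical exact
    univ.filter (fun e => ∃ u v w : VV M, e = {u, v, w} ∧ u.1 ≠ v.1 ∧ u.1 + v.1 + w.1 = 0 ∧
      (u.2 + v.2 + w.2 = 0 ∨ u.2 + v.2 + w.2 = 1))

/-- the ordered triple sum over the lines of `AG(2,3)` -/
noncomputable def TP (π : P9 → ℝ) : ℝ :=
  ∑ i, ∑ j, if i = j then 0 else π i * π j * π (-i - j)

/-- `P2 - 1/9` -/
noncomputable def rho (π : P9 → ℝ) : ℝ := ∑ i, π i ^ 2 - 1 / 9

section parts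
variable {M : ℕ} [NeZero M]

/-- part sums -/
noncomputable def prt (x : VV M → ℝ) (i : P9) : ℝ := ∑ a, x (i, a)

/-- the deviation inside a part -/
noncomputable def ui (x : VV M → ℝ) (i : P9) : ℝ := ∑ a, (x (i, a) - prt x i / M) ^ 2

/-- the total deviation inside the parts -/
noncomputable def UU (x : VV M → ℝ) : ℝ := ∑ i, ui x i

end parts

/-- the sum `∑_{i ≠ j} √(π_i v_i) √(π_j v_j)` -/
noncomputable def Rt (π v : P9 → ℝ) : ℝ :=
  ∑ i, ∑ j, if i = j then 0 else Real.sqrt (π i * v i) * Real.sqrt (π j * v j)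

/-- the gain `g(1/p)` of the structure `E_p` -/
noncomputable def gg (m : ℝ) : ℝ := (16 / 81 - s3 / 9) * m + CC / 81 * m ^ 2

end W880b64
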