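import Pool.Agent.W_880b64_h21.HidOp

/-!
# `c0` is a limit of Lagrangian densities (task A5)
-/

namespace W880b64

open Finset BigOperators
open W_MP_880b64_co (TG Lam)

private lemma bm_c0_eq : c0 ^ 2 + 6 * c0 = 3 := by
  unfold c0
  nlinarith [s3_sq]

private lemma bm_id (a : ℝ) :
    4 * c0 * (c0 - 3 * a ^ 2 * (1 - a) - c0 * (1 - a) ^ 3) =
      3 * a * (2 * c0 - (1 + c0) * a) ^ 2 := by
  linear_combination (a ^ 3) * bm_c0_eq

private lemma bm_fv {V : Type} [Fintype V] [DecidableEq V] (a : ℝ) (x : V → ℝ) :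
    fv (∅ : Finset (Finset V)) (fun _ => 0) a x =
      3 * a ^ 2 * (1 - a) * (1 - sq2 x) + c0 * (1 - a) ^ 3 := by
  simp [fv, Th, T6]

private lemma bm_VC {V : Type} [Fintype V] [DecidableEq V] [Nonempty V] :
    VC (∅ : Finset (Finset V)) (fun _ => 0) ≤ c0 := by
  obtain ⟨⟨a, ha, x, hx, h⟩, -⟩ := VC_spec (∅ : Finset (Finset V)) (fun _ => (0 : ℝ))
  rw [← h, bm_fv]
  have h1 : 0 ≤ sq2 x := Finset.sum_nonneg fun v _ => sq_nonneg _
  have h2 : 0 ≤ 3 * a ^ 2 * (1 - a) := mul_nonneg (by positivity) (by linarith [ha.2])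
  have h3 := bm_id a
  have hc : 0 < c0 := by linarith [c0_lo]
  have h4 : 0 ≤ 3 * a * (2 * c0 - (1 + c0) * a) ^ 2 :=
    mul_nonneg (by linarith [ha.1]) (sq_nonneg _)
  have h5 : 0 ≤ c0 - 3 * a ^ 2 * (1 - a) - c0 * (1 - a) ^ 3 := by
    rw [← h3] at h4
    exact nonneg_of_mul_nonneg_right h4 (by linarith)
  nlinarith [mul_nonneg h2 h1]

/-- `c0 ∈ closure Lam`.

Proof.  Let `u` be the largest element of the compact set `closure Lam ∩ [0, c0]` (it contains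
`0`, `W_MP_880b64_co.zero_mem_Lam`).  For every `m ≥ 1` let `f_m` be the operation of `hid_op` for `V = Fin m`, `E = ∅`,
`s = 0`.  `VC ∅ 0 ≤ c0`: `fv ∅ 0 a x = 3a²(1-a)(1 - sq2 x) + c0 (1-a)³ ≤ c0` (the identity
`c0 - 3a²(1-a) - c0(1-a)³ = (3a/(4c0)) (2c0 - (1+c0)a)²`, from `c0² + 6c0 = 3`, so the left side is
`≥ 0` for `a ∈ [0,1]`).  So `f_m u ≤ f_m c0 ≤ c0`, `f_m u ∈ closure Lam`, hence `f_m u ≤ u`.
On the other hand with `a = 2c0/(1+c0)` and `x = 1/m`: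
`f_m u ≥ 3a²(1-a)(1-1/m) + c0 (1-a)³ + (u - c0)(1-a)³ = c0 - 3a²(1-a)/m - (c0-u)(1-a)³`.
Letting `m → ∞`: `u ≥ c0 - (c0-u)(1-a)³`, so `(c0-u)(1-(1-a)³) ≤ 0`, `u ≥ c0`. -/
theorem c0_mem : c0 ∈ closure Lam := by
  have hc : 0 < c0 := by linarith [c0_lo]
  have hK : IsCompact (closure Lam ∩ Set.Icc 0 c0) := isCompact_Icc.inter_left isClosed_closure
  have hne : (closure Lam ∩ Set.Icc 0 c0).Nonempty :=
    ⟨0, subset_closure W_MP_880b64_co.zero_mem_Lam, le_refl _, hc.le⟩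
  obtain ⟨u, ⟨hu, hu0, huc⟩, hmax⟩ := hK.exists_isGreatest hne
  set a : ℝ := 2 * c0 / (1 + c0) with ha
  have ha0 : 0 < a := by rw [ha]; positivity
  have ha1 : a < 1 := by
    rw [ha, div_lt_one (by linarith)]
    linarith [c0_hi]
  have haeq : 2 * c0 - (1 + c0) * a = 0 := by
    rw [ha]
    field_simp
    ring
  have hid : 3 * a ^ 2 * (1 - a) + c0 * (1 - a) ^ 3 = c0 := by
    have h := bm_id a
    rw [haeq] at h
    have h2 : c0 - 3 * a ^ 2 * (1 - a) - c0 * (1 - a) ^ 3 = 0 := by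
      have h3 : 4 * c0 * (c0 - 3 * a ^ 2 * (1 - a) - c0 * (1 - a) ^ 3) = 0 := by
        rw [h]; ring
      rcases mul_eq_zero.1 h3 with h4 | h4
      · exact absurd h4 (by positivity)
      · exact h4
    linarith
  have key : ∀ m : ℕ, (c0 - u) * (1 - (1 - a) ^ 3) ≤ 3 * a ^ 2 * (1 - a) * (1 / ((m : ℝ) + 1)) := by
    intro m
    obtain ⟨f, hf, hfc, hb⟩ := hid_op (V := Fin (m + 1)) ∅ (by simp) (fun _ => 0)
      (fun _ => W_MP_880b64_co.zero_mem_Lam)
    have h1 : f u ≤ c0 := (hf.mono huc).trans (by rw [hfc]; exact bm_VC)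
    have h2 : f u ∈ closure Lam := map_mem_closure hf.cont hu (fun l hl => hf.maps l hl)
    have h3 : f u ≤ u := hmax ⟨h2, hu0.trans (hf.ge u), h1⟩
    have h4 := hb u a ⟨ha0.le, ha1.le⟩ (fun _ => 1 / ((m : ℝ) + 1)) ⟨fun _ => by positivity, by
      simp only [Finset.sum_const, Finset.card_univ, Fintype.card_fin, nsmul_eq_mul]
      push_cast
      field_simp⟩
    rw [bm_fv] at h4
    have h5 : sq2 (fun _ : Fin (m + 1) => 1 / ((m : ℝ) + 1)) = 1 / ((m : ℝ) + 1) := by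
      simp only [sq2, Finset.sum_const, Finset.card_univ, Fintype.card_fin, nsmul_eq_mul]
      push_cast
      field_simp
    rw [h5] at h4
    nlinarith [h3, h4, hid]
  have hlim : Filter.Tendsto (fun m : ℕ => 3 * a ^ 2 * (1 - a) * (1 / ((m : ℝ) + 1)))
      Filter.atTop (nhds (3 * a ^ 2 * (1 - a) * 0)) :=
    tendsto_one_div_add_atTop_nhds_zero_nat.const_mul _
  have hle : (c0 - u) * (1 - (1 - a) ^ 3) ≤ 3 * a ^ 2 * (1 - a) * 0 :=
    ge_of_tendsto' hlim key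
  have hpos : 0 < 1 - (1 - a) ^ 3 := by
    have : (1 - a) ^ 3 < 1 := pow_lt_one₀ (by linarith) (by linarith) (by norm_num)
    linarith
  have hfin : c0 ≤ u := by
    by_contra hlt
    push Not at hlt
    have := mul_pos (sub_pos.2 hlt) hpos
    linarith
  have : u = c0 := le_antisymm huc hfin
  rwa [this] at hu

end W880b64
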