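import Pool.Agent.W_880b64_h21.Exp

/-!
# The chains of removed edges (task H14)
-/

namespace W880b64

open Finset BigOperators

/-- the edge `{((a,b),x) : b}` -/
def e1 (M : ℕ) [NeZero M] (a : ZMod 3) (x : ZMod M) : Finset (VV M) :=
  univ.image (fun b : ZMod 3 => (((a, b), x) : VV M))

/-- the edge `{((a,b),x) : a}` -/
def e2 (M : ℕ) [NeZero M] (b : ZMod 3) (x : ZMod M) : Finset (VV M) :=
  univ.image (fun a : ZMod 3 => (((a, b), x) : VV M))

/-- `M = 3`: the first `j` edges of the perfect matching `e1` -/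
def Ra3 (j : ℕ) : Finset (Finset (VV 3)) :=
  ([e1 3 0 0, e1 3 0 1, e1 3 0 2, e1 3 1 0, e1 3 1 1, e1 3 1 2, e1 3 2 0, e1 3 2 1,
    e1 3 2 2].take j).toFinset

/-- `M = 3`: then up to three edges of the matching `e2` -/
def Rb3 (j : ℕ) : Finset (Finset (VV 3)) :=
  ([e2 3 0 0, e2 3 0 1, e2 3 0 2].take (j - 9)).toFinset

/-- `M = 2`: the first `j ≤ 4` edges of a perfect matching -/
def R2 (j : ℕ) : Finset (Finset (VV 2)) :=
  ([e1 2 0 0, e1 2 0 1, e1 2 1 0, e1 2 1 1].take j).toFinset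

theorem ChainSets_d1 : ∀ x : ZMod 3, x + x + x = 0 := by decide

theorem ChainSets_d2 : ∀ x : ZMod 2, x + x + x = 0 ∨ x + x + x = 1 := by decide

theorem ChainSets_d3 : ∀ b : ZMod 3, b + 1 ≠ b := by decide

theorem ChainSets_d4 : (0 : ZMod 3) ≠ 1 := by decide

theorem ChainSets_d5 : (0 + 1 + 2 : ZMod 3) = 0 := by decide

theorem ChainSets_e1_mem {M : ℕ} [NeZero M] (a : ZMod 3) (x : ZMod M) (v : VV M) :
    v ∈ e1 M a x ↔ v.1.1 = a ∧ v.2 = x := by
  unfold e1
  simp only [mem_image, mem_univ, true_and]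
  constructor
  · rintro ⟨b, rfl⟩
    exact ⟨rfl, rfl⟩
  · rintro ⟨h1, h2⟩
    exact ⟨v.1.2, by ext <;> simp [h1, h2]⟩

theorem ChainSets_e2_mem {M : ℕ} [NeZero M] (b : ZMod 3) (x : ZMod M) (v : VV M) :
    v ∈ e2 M b x ↔ v.1.2 = b ∧ v.2 = x := by
  unfold e2
  simp only [mem_image, mem_univ, true_and]
  constructor
  · rintro ⟨a, rfl⟩
    exact ⟨rfl, rfl⟩
  · rintro ⟨h1, h2⟩
    exact ⟨v.1.1, by ext <;> simp [h1, h2]⟩

theorem ChainSets_e1_EM {M : ℕ} [NeZero M] (a : ZMod 3) (x : ZMod M)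
    (hx : x + x + x = 0 ∨ x + x + x = 1) : e1 M a x ∈ EM M := by
  unfold EM
  simp only [mem_filter, mem_univ, true_and]
  refine ⟨((a, 0), x), ((a, 1), x), ((a, 2), x), ?_, ?_, ?_, hx⟩
  · ext v
    rw [ChainSets_e1_mem]
    simp only [mem_insert, mem_singleton]
    constructor
    · rintro ⟨h1, h2⟩
      obtain ⟨⟨p, q⟩, r⟩ := v
      simp only at h1 h2
      subst h1 h2
      fin_cases q
      · left; rfl
      · right; left; rfl
      · right; right; rfl
    · rintro (h | h | h) <;> rw [h] <;> exact ⟨rfl, rfl⟩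
  · intro h
    have h2 : (0 : ZMod 3) = 1 := congrArg Prod.snd h
    exact ChainSets_d4 h2
  · exact Prod.ext (ChainSets_d1 a) ChainSets_d5

theorem ChainSets_e2_EM {M : ℕ} [NeZero M] (b : ZMod 3) (x : ZMod M)
    (hx : x + x + x = 0 ∨ x + x + x = 1) : e2 M b x ∈ EM M := by
  unfold EM
  simp only [mem_filter, mem_univ, true_and]
  refine ⟨((0, b), x), ((1, b), x), ((2, b), x), ?_, ?_, ?_, hx⟩
  · ext v
    rw [ChainSets_e2_mem]
    simp only [mem_insert, mem_singleton]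
    constructor
    · rintro ⟨h1, h2⟩
      obtain ⟨⟨p, q⟩, r⟩ := v
      simp only at h1 h2
      subst h1 h2
      fin_cases p
      · left; rfl
      · right; left; rfl
      · right; right; rfl
    · rintro (h | h | h) <;> rw [h] <;> exact ⟨rfl, rfl⟩
  · intro h
    have h2 : (0 : ZMod 3) = 1 := congrArg Prod.fst h
    exact ChainSets_d4 h2
  · exact Prod.ext ChainSets_d5 (ChainSets_d1 b)

theorem ChainSets_e1_inj {M : ℕ} [NeZero M] {a a' : ZMod 3} {x x' : ZMod M}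
    (h : e1 M a x = e1 M a' x') : a = a' ∧ x = x' := by
  have h1 : (((a, 0), x) : VV M) ∈ e1 M a x := (ChainSets_e1_mem _ _ _).2 ⟨rfl, rfl⟩
  rw [h, ChainSets_e1_mem] at h1
  exact h1

theorem ChainSets_e2_inj {M : ℕ} [NeZero M] {b b' : ZMod 3} {x x' : ZMod M}
    (h : e2 M b x = e2 M b' x') : b = b' ∧ x = x' := by
  have h1 : (((0, b), x) : VV M) ∈ e2 M b x := (ChainSets_e2_mem _ _ _).2 ⟨rfl, rfl⟩
  rw [h, ChainSets_e2_mem] at h1
  exact h1

theorem ChainSets_e1_ne_e2 {M : ℕ} [NeZero M] (a b : ZMod 3) (x x' : ZMod M) :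
    e1 M a x ≠ e2 M b x' := by
  intro h
  have h1 : (((a, b + 1), x) : VV M) ∈ e1 M a x := (ChainSets_e1_mem _ _ _).2 ⟨rfl, rfl⟩
  rw [h, ChainSets_e2_mem] at h1
  exact ChainSets_d3 b h1.1

/-- a set of `e1` edges is a matching -/
theorem ChainSets_e1_pd {M : ℕ} [NeZero M] {R : Finset (Finset (VV M))}
    (hR : ∀ e ∈ R, ∃ a x, e = e1 M a x) : (R : Set (Finset (VV M))).PairwiseDisjoint id := by
  intro e he f hf hne
  obtain ⟨a, x, rfl⟩ := hR e (Finset.mem_coe.1 he)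
  obtain ⟨a', x', rfl⟩ := hR f (Finset.mem_coe.1 hf)
  change Disjoint (e1 M a x) (e1 M a' x')
  rw [Finset.disjoint_left]
  intro v hv hv'
  rw [ChainSets_e1_mem] at hv hv'
  apply hne
  rw [← hv.1, ← hv.2, ← hv'.1, ← hv'.2]

theorem ChainSets_e2_pd {M : ℕ} [NeZero M] {R : Finset (Finset (VV M))}
    (hR : ∀ e ∈ R, ∃ a x, e = e2 M a x) : (R : Set (Finset (VV M))).PairwiseDisjoint id := by
  intro e he f hf hne
  obtain ⟨a, x, rfl⟩ := hR e (Finset.mem_coe.1 he)
  obtain ⟨a', x', rfl⟩ := hR f (Finset.mem_coe.1 hf)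
  change Disjoint (e2 M a x) (e2 M a' x')
  rw [Finset.disjoint_left]
  intro v hv hv'
  rw [ChainSets_e2_mem] at hv hv'
  apply hne
  rw [← hv.1, ← hv.2, ← hv'.1, ← hv'.2]

theorem ChainSets_Ra3_form (j : ℕ) : ∀ e ∈ Ra3 j, ∃ a x, e = e1 3 a x := by
  intro e he
  unfold Ra3 at he
  rw [List.mem_toFinset] at he
  have h := List.mem_of_mem_take he
  simp only [List.mem_cons, List.not_mem_nil, or_false] at h
  rcases h with h | h | h | h | h | h | h | h | h <;> exact ⟨_, _, h⟩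

theorem ChainSets_Rb3_form (j : ℕ) : ∀ e ∈ Rb3 j, ∃ a x, e = e2 3 a x := by
  intro e he
  unfold Rb3 at he
  rw [List.mem_toFinset] at he
  have h := List.mem_of_mem_take he
  simp only [List.mem_cons, List.not_mem_nil, or_false] at h
  rcases h with h | h | h <;> exact ⟨_, _, h⟩

theorem ChainSets_R2_form (j : ℕ) : ∀ e ∈ R2 j, ∃ a x, e = e1 2 a x := by
  intro e he
  unfold R2 at he
  rw [List.mem_toFinset] at he
  have h := List.mem_of_mem_take he
  simp only [List.mem_cons, List.not_mem_nil, or_false] at h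
  rcases h with h | h | h | h <;> exact ⟨_, _, h⟩

theorem ChainSets_nodup1 : ([e1 3 0 0, e1 3 0 1, e1 3 0 2, e1 3 1 0, e1 3 1 1, e1 3 1 2, e1 3 2 0,
    e1 3 2 1, e1 3 2 2] : List (Finset (VV 3))).Nodup := by
  have : ([e1 3 0 0, e1 3 0 1, e1 3 0 2, e1 3 1 0, e1 3 1 1, e1 3 1 2, e1 3 2 0,
    e1 3 2 1, e1 3 2 2] : List (Finset (VV 3))) =
    ([(0,0),(0,1),(0,2),(1,0),(1,1),(1,2),(2,0),(2,1),(2,2)] : List (ZMod 3 × ZMod 3)).map
      (fun p => e1 3 p.1 p.2) := rfl
  rw [this]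
  apply List.Nodup.map
  · rintro ⟨a, x⟩ ⟨a', x'⟩ h
    obtain ⟨h1, h2⟩ := ChainSets_e1_inj h
    exact Prod.ext h1 h2
  · decide

theorem ChainSets_nodup2 : ([e2 3 0 0, e2 3 0 1, e2 3 0 2] : List (Finset (VV 3))).Nodup := by
  have : ([e2 3 0 0, e2 3 0 1, e2 3 0 2] : List (Finset (VV 3))) =
    ([(0,0),(0,1),(0,2)] : List (ZMod 3 × ZMod 3)).map (fun p => e2 3 p.1 p.2) := rfl
  rw [this]
  apply List.Nodup.map
  · rintro ⟨a, x⟩ ⟨a', x'⟩ h
    obtain ⟨h1, h2⟩ := ChainSets_e2_inj h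
    exact Prod.ext h1 h2
  · decide

theorem ChainSets_nodup3 : ([e1 2 0 0, e1 2 0 1, e1 2 1 0, e1 2 1 1] :
    List (Finset (VV 2))).Nodup := by
  have : ([e1 2 0 0, e1 2 0 1, e1 2 1 0, e1 2 1 1] : List (Finset (VV 2))) =
    ([(0,0),(0,1),(1,0),(1,1)] : List (ZMod 3 × ZMod 2)).map (fun p => e1 2 p.1 p.2) := rfl
  rw [this]
  apply List.Nodup.map
  · rintro ⟨a, x⟩ ⟨a', x'⟩ h
    obtain ⟨h1, h2⟩ := ChainSets_e1_inj h
    exact Prod.ext h1 h2
  · decide

theorem ChainSets_card_a (j : ℕ) : (Ra3 j).card = min j 9 := by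
  unfold Ra3
  rw [List.toFinset_card_of_nodup (ChainSets_nodup1.sublist (List.take_sublist _ _)),
    List.length_take]
  rfl

theorem ChainSets_card_b (j : ℕ) : (Rb3 j).card = min (j - 9) 3 := by
  unfold Rb3
  rw [List.toFinset_card_of_nodup (ChainSets_nodup2.sublist (List.take_sublist _ _)),
    List.length_take]
  rfl

theorem ChainSets_card_2 (j : ℕ) : (R2 j).card = min j 4 := by
  unfold R2
  rw [List.toFinset_card_of_nodup (ChainSets_nodup3.sublist (List.take_sublist _ _)),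
    List.length_take]
  rfl

/-- in a matching each vertex has degree 0 or 1 -/
theorem ChainSets_rv01 {V : Type} [Fintype V] [DecidableEq V] {R : Finset (Finset V)}
    (hd : (R : Set (Finset V)).PairwiseDisjoint id) (v : V) : rv R v = 0 ∨ rv R v = 1 := by
  have h := rv_le_one hd v
  unfold rv at h ⊢
  have h' : (R.filter (fun e => v ∈ e)).card ≤ 1 := by exact_mod_cast h
  interval_cases hc : (R.filter (fun e => v ∈ e)).card
  · left; simp
  · right; simp

theorem ChainSets_rv1 {V : Type} [Fintype V] [DecidableEq V] {R : Finset (Finset V)}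
    (hd : (R : Set (Finset V)).PairwiseDisjoint id) (v : V) (h : ∃ e ∈ R, v ∈ e) :
    rv R v = 1 := by
  rcases ChainSets_rv01 hd v with h0 | h1
  · exfalso
    obtain ⟨e, he, hv⟩ := h
    unfold rv at h0
    have h0' : (R.filter (fun e => v ∈ e)).card = 0 := by exact_mod_cast h0
    rw [Finset.card_eq_zero] at h0'
    have : e ∈ R.filter (fun e => v ∈ e) := Finset.mem_filter.2 ⟨he, hv⟩
    rw [h0'] at this
    exact absurd this (Finset.notMem_empty _)
  · exact h1

theorem ChainSets_rv0 {V : Type} [Fintype V] [DecidableEq V] {R : Finset (Finset V)} (v : V)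
    (h : ∀ e ∈ R, v ∉ e) : rv R v = 0 := by
  unfold rv
  rw [Finset.filter_false_of_mem h]
  simp

theorem ChainSets_Ra3_full (j : ℕ) (hj : 9 ≤ j) (a x : ZMod 3) : e1 3 a x ∈ Ra3 j := by
  unfold Ra3
  rw [List.take_of_length_le (by simpa using hj), List.mem_toFinset]
  simp only [List.mem_cons, List.not_mem_nil, or_false]
  fin_cases a <;> fin_cases x
  · left; rfl
  · right; left; rfl
  · right; right; left; rfl
  · right; right; right; left; rfl
  · right; right; right; right; left; rfl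
  · right; right; right; right; right; left; rfl
  · right; right; right; right; right; right; left; rfl
  · right; right; right; right; right; right; right; left; rfl
  · right; right; right; right; right; right; right; right; rfl

theorem ChainSets_rva (j : ℕ) (hj : 9 ≤ j) (v : VV 3) : rv (Ra3 j) v = 1 :=
  ChainSets_rv1 (ChainSets_e1_pd (ChainSets_Ra3_form j)) v
    ⟨e1 3 v.1.1 v.2, ChainSets_Ra3_full j hj _ _, (ChainSets_e1_mem _ _ _).2 ⟨rfl, rfl⟩⟩

theorem ChainSets_rvb (v : VV 3) : rv (Rb3 12) v = if v.1.2 = 0 then 1 else 0 := by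
  have hmem : ∀ e, e ∈ Rb3 12 ↔ e = e2 3 0 0 ∨ e = e2 3 0 1 ∨ e = e2 3 0 2 := by
    intro e
    unfold Rb3
    rw [List.take_of_length_le (by simp), List.mem_toFinset]
    simp only [List.mem_cons, List.not_mem_nil, or_false]
  by_cases h : v.1.2 = 0
  · rw [if_pos h]
    refine ChainSets_rv1 (ChainSets_e2_pd (ChainSets_Rb3_form 12)) v
      ⟨e2 3 0 v.2, ?_, (ChainSets_e2_mem _ _ _).2 ⟨h, rfl⟩⟩
    rw [hmem]
    generalize v.2 = y
    fin_cases y
    · left; rfl
    · right; left; rfl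
    · right; right; rfl
  · rw [if_neg h]
    apply ChainSets_rv0
    intro e he hv
    rw [hmem] at he
    rcases he with he | he | he <;> rw [he, ChainSets_e2_mem] at hv <;> exact h hv.1

/-- Everything about the sets `Ra3, Rb3` (finite checks; membership in `EM 3`: the second
coordinates of an edge `e1 3 a x` or `e2 3 b x` sum up to `3x = 0`, the first coordinates to
`(3a, 0+1+2) = 0`). -/
theorem chain3 (j : ℕ) (hj : j ≤ 12) :
    Ra3 j ⊆ EM 3 ∧ Rb3 j ⊆ EM 3 ∧ Disjoint (Ra3 j) (Rb3 j) ∧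
    (Ra3 j : Set (Finset (VV 3))).PairwiseDisjoint id ∧
    (Rb3 j : Set (Finset (VV 3))).PairwiseDisjoint id ∧ (Ra3 j ∪ Rb3 j).card = j ∧
    ∃ k : ℝ, ∀ v, rv (Ra3 j) v + rv (Rb3 j) v = k ∨ rv (Ra3 j) v + rv (Rb3 j) v = k + 1 := by
  refine ⟨?_, ?_, ?_, ChainSets_e1_pd (ChainSets_Ra3_form j),
    ChainSets_e2_pd (ChainSets_Rb3_form j), ?_, ?_⟩
  · intro e he
    obtain ⟨a, x, rfl⟩ := ChainSets_Ra3_form j e he
    exact ChainSets_e1_EM a x (Or.inl (ChainSets_d1 x))
  · intro e he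
    obtain ⟨a, x, rfl⟩ := ChainSets_Rb3_form j e he
    exact ChainSets_e2_EM a x (Or.inl (ChainSets_d1 x))
  · rw [Finset.disjoint_left]
    intro e he he'
    obtain ⟨a, x, rfl⟩ := ChainSets_Ra3_form j e he
    obtain ⟨b, y, h⟩ := ChainSets_Rb3_form j _ he'
    exact ChainSets_e1_ne_e2 _ _ _ _ h
  · rw [Finset.card_union_of_disjoint, ChainSets_card_a, ChainSets_card_b]
    · omega
    · rw [Finset.disjoint_left]
      intro e he he'
      obtain ⟨a, x, rfl⟩ := ChainSets_Ra3_form j e he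
      obtain ⟨b, y, h⟩ := ChainSets_Rb3_form j _ he'
      exact ChainSets_e1_ne_e2 _ _ _ _ h
  · rcases le_total j 9 with h | h
    · refine ⟨0, fun v => ?_⟩
      have hb : rv (Rb3 j) v = 0 := by
        apply ChainSets_rv0
        intro e he
        unfold Rb3 at he
        rw [Nat.sub_eq_zero_of_le h] at he
        simp at he
      rw [hb, add_zero, zero_add]
      exact ChainSets_rv01 (ChainSets_e1_pd (ChainSets_Ra3_form j)) v
    · refine ⟨1, fun v => ?_⟩
      rw [ChainSets_rva j h v]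
      rcases ChainSets_rv01 (ChainSets_e2_pd (ChainSets_Rb3_form j)) v with h0 | h1
      · left; rw [h0]; norm_num
      · right; rw [h1]

/-- `j = 12`: the vertices `((a,0),x)` have degree 2, all others degree 1. -/
theorem chain3_12 :
    ∑ v, (rv (Ra3 12) v + rv (Rb3 12) v - (∑ u, (rv (Ra3 12) u + rv (Rb3 12) u)) / 27) ^ 2 ≤ 6 ∧
    ∀ v, (∑ u, (rv (Ra3 12) u + rv (Rb3 12) u)) / 27 - (rv (Ra3 12) v + rv (Rb3 12) v)
      ≤ 1 / 3 := by
  have hv : ∀ v : VV 3, rv (Ra3 12) v + rv (Rb3 12) v = if v.1.2 = 0 then 2 else 1 := by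
    intro v
    rw [ChainSets_rva 12 (by norm_num) v, ChainSets_rvb v]
    split_ifs <;> norm_num
  have hc1 : (univ.filter (fun v : VV 3 => v.1.2 = 0)).card = 9 := by decide
  have hc2 : (univ.filter (fun v : VV 3 => ¬ v.1.2 = 0)).card = 18 := by decide
  have hs : ∑ u : VV 3, (rv (Ra3 12) u + rv (Rb3 12) u) = 36 := by
    rw [Finset.sum_congr rfl (fun u _ => hv u), Finset.sum_ite, Finset.sum_const,
      Finset.sum_const, hc1, hc2]
    norm_num
  rw [hs]
  refine ⟨?_, ?_⟩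
  · have h2 : ∀ v : VV 3, (rv (Ra3 12) v + rv (Rb3 12) v - 36 / 27) ^ 2 =
        if v.1.2 = 0 then (4 / 9 : ℝ) else 1 / 9 := by
      intro v
      rw [hv v]
      split_ifs <;> norm_num
    rw [Finset.sum_congr rfl (fun u _ => h2 u), Finset.sum_ite, Finset.sum_const,
      Finset.sum_const, hc1, hc2]
    norm_num
  · intro v
    rw [hv v]
    split_ifs <;> norm_num

/-- The same for `M = 2`. -/
theorem chain2 (j : ℕ) (hj : j ≤ 4) :
    R2 j ⊆ EM 2 ∧ (R2 j : Set (Finset (VV 2))).PairwiseDisjoint id ∧ (R2 j).card = j ∧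
    ∀ v, rv (R2 j) v = 0 ∨ rv (R2 j) v = 0 + 1 := by
  refine ⟨?_, ChainSets_e1_pd (ChainSets_R2_form j), ?_, ?_⟩
  · intro e he
    obtain ⟨a, x, rfl⟩ := ChainSets_R2_form j e he
    exact ChainSets_e1_EM a x (ChainSets_d2 x)
  · rw [ChainSets_card_2]
    omega
  · intro v
    rw [zero_add]
    exact ChainSets_rv01 (ChainSets_e1_pd (ChainSets_R2_form j)) v

theorem chain3_zero : Ra3 0 ∪ Rb3 0 = ∅ := by
  simp [Ra3, Rb3]

end W880b64
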