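import Pool.Agent.W_880b64_h21.Loc2
import Pool.Agent.W_880b64_h21.ChainSets

/-!
# Edge steps, `M = 2` (task H18)
-/

namespace W880b64

open Finset BigOperators
open W_MP_880b64_co (TG Lam)

/-- `EM 2` minus the first `j` edges of the chain -/
noncomputable def E2 (j : ℕ) : Finset (Finset (VV 2)) := EM 2 \ R2 j

/-- the facts at a maximiser with all slots `0` -/
theorem C2a_aux1 {j : ℕ} (hj : j ≤ 4) {a : ℝ} {x : VV 2 → ℝ} (ha : a ∈ Set.Icc (0:ℝ) 1)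
    (hx : x ∈ stdSimplex ℝ (VV 2)) (hmax : fv (E2 j) (fun _ => 0) a x = VC (E2 j) (fun _ => 0))
    (hgt : c0 < VC (E2 j) (fun _ => 0)) :
    ∃ t : ℝ, 0 ≤ t ∧ t ≤ 0.1136 ∧ t ^ 2 = sq2 x - 1 / 18 ∧ sq2 x < 1 - c0 ∧
      sq2 x - 1 / 18 ≤ 0.0129 ∧ 0 < Th (E2 j) (fun _ => 0) x - tau (sq2 x) ∧
      Th (E2 j) (fun _ => 0) x - tau (sq2 x) ≤
        PsiU 2 (j : ℝ) 0 + (0.039284 * t - (1.2933 - 1.779 * t) * t ^ 2) ∧ 0 < a ∧
      a ≤ 2 * c0 / (1 + c0 - sq2 x)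
        + 4 * c0 * a * (Th (E2 j) (fun _ => 0) x - tau (sq2 x)) / (1 + c0 - sq2 x) ^ 2 ∧
      VC (E2 j) (fun _ => 0) - c0 ≤ a ^ 3 * (Th (E2 j) (fun _ => 0) x - tau (sq2 x)) := by
  obtain ⟨hR, hd, hcard, hrv⟩ := chain2 j hj
  have hs : ∀ v : VV 2, 0 ≤ (fun _ : VV 2 => (0:ℝ)) v ∧ (fun _ : VV 2 => (0:ℝ)) v ≤ 11 / 25 :=
    fun v => ⟨le_rfl, by norm_num⟩
  have hTc : Th (E2 j) (fun _ => 0) x ≤ c0 := Th_le_c0 le_rfl Finset.sdiff_subset hs hx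
  obtain ⟨ha0, ha1, hq, hpos, hab, hVC⟩ := max_facts ha hx hTc hmax hgt
  obtain ⟨hD, hval⟩ := value2 hR hd hs hx hq.le hpos
  have e18 : (9 * ((2 : ℕ) : ℝ)) = 18 := by norm_num
  have hdev := dev_sq (M := 2) hx
  rw [e18] at hdev
  have hsum0 : ∑ v : VV 2, (x v - 1 / 18) = 0 := by
    rw [Finset.sum_sub_distrib, hx.2, Finset.sum_const, Finset.card_univ, nsmul_eq_mul, EMc_card]
    norm_num
  have hcardV : (Fintype.card (VV 2) : ℝ) = 18 := by rw [EMc_card]; norm_num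
  have hcardV0 : 0 < Fintype.card (VV 2) := Fintype.card_pos
  have hnl := (norm_l (f := rv (R2 j)) (g := fun _ : VV 2 => (0:ℝ)) (k := 0) (β := 0) (d := 0)
    (A := 6 / 324) (B := 0) hcardV0 hrv (fun v => Or.inl rfl) le_rfl (by norm_num) (by norm_num)
    le_rfl).1
  have hsq18 : Real.sqrt 18 ≤ 4.24265 := by
    rw [Real.sqrt_le_left (by norm_num)]; norm_num
  have hsq18' : 0 ≤ Real.sqrt 18 := Real.sqrt_nonneg _
  have hlam : ((6 / 324 + 2 / 9 * 0) * Real.sqrt (Fintype.card (VV 2)) / 2 : ℝ) ≤ 0.039284 := by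
    rw [hcardV]
    nlinarith
  have hlam0 : 0 ≤ ((6 / 324 + 2 / 9 * 0) * Real.sqrt (Fintype.card (VV 2)) / 2 : ℝ) := by
    positivity
  have hnl' := hnl.trans (pow_le_pow_left₀ hlam0 hlam 2)
  have hlin := lin_le (δ := fun v : VV 2 => x v - 1 / 18) hnl' (by norm_num)
  rw [hdev] at hlin
  have hlineq : ∑ v, (-(6 / 324) * (rv (R2 j) v - (∑ u, rv (R2 j) u) / (Fintype.card (VV 2) : ℝ))
      + 0 * ((0:ℝ) - (∑ u : VV 2, (0:ℝ)) / (Fintype.card (VV 2) : ℝ))) * (x v - 1 / 18) =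
      ∑ v, (-(6 / 324) * rv (R2 j) v + 3 / 324 * (0:ℝ)) * (x v - 1 / 18) := by
    have h1 : ∀ v, (-(6 / 324) * (rv (R2 j) v - (∑ u, rv (R2 j) u) / (Fintype.card (VV 2) : ℝ))
      + 0 * ((0:ℝ) - (∑ u : VV 2, (0:ℝ)) / (Fintype.card (VV 2) : ℝ))) * (x v - 1 / 18) =
      (-(6 / 324) * rv (R2 j) v + 3 / 324 * (0:ℝ)) * (x v - 1 / 18) +
      (6 / 324 * ((∑ u, rv (R2 j) u) / (Fintype.card (VV 2) : ℝ))) * (x v - 1 / 18) := by
      intro v; ring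
    rw [Finset.sum_congr rfl fun v _ => h1 v, Finset.sum_add_distrib, ← Finset.mul_sum, hsum0]
    ring
  have hP : ∑ v : VV 2, (fun _ : VV 2 => (0:ℝ)) v = 0 := by simp
  rw [hP, hcard] at hval
  rw [← hlineq] at hval
  refine ⟨Real.sqrt (sq2 x - 1 / 18), Real.sqrt_nonneg _, ?_, ?_, hq, hD, ?_, ?_, ha0, hab, hVC⟩
  · rw [Real.sqrt_le_left (by norm_num)]
    refine hD.trans ?_
    norm_num
  · rw [Real.sq_sqrt]
    rw [← hdev]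
    exact Finset.sum_nonneg fun _ _ => sq_nonneg _
  · linarith
  · rw [Real.sq_sqrt (by rw [← hdev]; exact Finset.sum_nonneg fun _ _ => sq_nonneg _)]
    have hval' : Th (E2 j) (fun _ => 0) x - tau (sq2 x) ≤ _ := hval
    linarith [hval', hlin]

/-- the one variable inequality -/
theorem C2a_aux2 {t : ℝ} (h0 : 0 ≤ t) (h1 : t ≤ 0.1136) :
    0.039284 * t - (1.27868 - 1.779 * t) * t ^ 2 ≤ 0.0003292 := by
  rcases le_total t 0.05 with h | h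
  · have h2 : 1.779 * t * t ^ 2 ≤ 0.08895 * t ^ 2 :=
      mul_le_mul_of_nonneg_right (by linarith) (sq_nonneg _)
    nlinarith [sq_nonneg (t - 0.01651)]
  · have h2 : 1.779 * t * t ^ 2 ≤ 0.20210 * t ^ 2 :=
      mul_le_mul_of_nonneg_right (by linarith) (sq_nonneg _)
    nlinarith

/-- **Edge step for `M = 2`.**  As `c1_3`: `lam = (6/324)√18/2 ≤ 0.039284`, `t ≤ 0.1136`,
`P' - P = (11/25)/324 - 6/5832 ≥ 0.0003292`, `0 ≤ P' ≤ 0.00683`, and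
`0.039284 t - (1.2933 - 0.01462 - 1.779 t) t² ≤ 0.0003292` (maximum `0.0003085` at
`t = 0.0159`). -/
theorem c1_2 (j : ℕ) (hj : 2 ≤ j) (hj' : j ≤ 3) :
    VC (E2 j) (fun _ => 0) ≤ VC (E2 (j + 1)) (fun _ => 11 / 25) := by
  rcases le_or_gt (VC (E2 j) (fun _ => 0)) c0 with hle | hgt
  · exact hle.trans (c0_le_VC _ _)
  obtain ⟨⟨a, ha, x, hx, hmax⟩, -⟩ := VC_spec (E2 j) (fun _ => 0)
  obtain ⟨t, ht0, ht1, ht2, hq, hD, hpos, hval, ha0, -, -⟩ :=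
    C2a_aux1 (by omega) ha hx hmax hgt
  rw [← hmax]
  obtain ⟨hR', -, hcard', -⟩ := chain2 (j + 1) (by omega)
  have e18 : (9 * ((2 : ℕ) : ℝ)) = 18 := by norm_num
  have hu := sq2_unif (M := 2)
  rw [e18] at hu
  have hc1 := c0_lo
  have hc2 := c0_hi
  have hThu := Th_unif (M := 2) le_rfl hR' (fun _ => (11 / 25 : ℝ))
  have hsum : ∑ v : VV 2, (fun _ : VV 2 => (11 / 25 : ℝ)) v = 198 / 25 := by
    simp only
    rw [Finset.sum_const, Finset.card_univ, nsmul_eq_mul, EMc_card]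
    norm_num
  rw [hsum, hcard'] at hThu
  refine compare ha unif_mem (by rw [hu]; nlinarith [sq_nonneg t]) (by linarith) ?_
  have hThu' : Th (E2 (j + 1)) (fun _ => 11 / 25) (unif 2) - tau (sq2 (unif 2)) =
      PsiU 2 ((j + 1 : ℕ) : ℝ) (198 / 25) := hThu
  rw [hThu', hu]
  have hPP : PsiU 2 ((j + 1 : ℕ) : ℝ) (198 / 25) =
      PsiU 2 (j : ℝ) 0 + (198 / 25 - 6) / 5832 := by
    unfold PsiU
    push_cast
    ring
  have hj1 : (2:ℝ) ≤ j := by exact_mod_cast hj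
  have hP'hi : PsiU 2 ((j + 1 : ℕ) : ℝ) (198 / 25) ≤ 0.00683 := by
    unfold PsiU tau CC
    push_cast
    norm_num
    linarith [s3_lo, s3_hi]
  have hj2 : (j:ℝ) ≤ 3 := by exact_mod_cast hj'
  have hP'lo : 0 ≤ PsiU 2 ((j + 1 : ℕ) : ℝ) (198 / 25) := by
    unfold PsiU tau CC
    push_cast
    norm_num
    linarith [s3_lo, s3_hi]
  obtain ⟨P', hP'⟩ : ∃ P', P' = PsiU 2 ((j + 1 : ℕ) : ℝ) (198 / 25) := ⟨_, rfl⟩
  rw [← hP'] at hPP hP'hi hP'lo ⊢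
  have hratio : 1 - 2.14 * t ^ 2 ≤ ((1 + c0 - sq2 x) / (1 + c0 - 1 / 18)) ^ 3 := by
    have hA : 0 < 1 + c0 - 1 / 18 := by linarith
    have e1 : (1 + c0 - sq2 x) / (1 + c0 - 1 / 18) = 1 - t ^ 2 / (1 + c0 - 1 / 18) := by
      rw [ht2, eq_sub_iff_add_eq, ← add_div, div_eq_one_iff_eq hA.ne']
      ring
    have h3 : t ^ 2 / (1 + c0 - 1 / 18) ≤ 0.7133 * t ^ 2 := by
      rw [div_le_iff₀ hA]
      nlinarith [sq_nonneg t]
    have h4 : 0 ≤ t ^ 2 / (1 + c0 - 1 / 18) := by positivity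
    rw [e1]
    obtain ⟨u, hu'⟩ : ∃ u, u = t ^ 2 / (1 + c0 - 1 / 18) := ⟨_, rfl⟩
    rw [← hu'] at h3 h4 ⊢
    have h5 : u ≤ 1 := by nlinarith
    nlinarith [mul_nonneg h4 h4, mul_nonneg (mul_nonneg h4 h4) (by linarith : 0 ≤ 3 - u)]
  have hmul := mul_le_mul_of_nonneg_right hratio hP'lo
  refine le_trans hval (le_trans ?_ hmul)
  have h6 := C2a_aux2 ht0 ht1
  have h7 : 2.14 * t ^ 2 * P' ≤ 2.14 * t ^ 2 * 0.00683 :=
    mul_le_mul_of_nonneg_left hP'hi (by positivity)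
  nlinarith [sq_nonneg t]

/-- As `b3`: `Th - tau ≤ PsiU 2 4 0 + 0.00031 ≤ 0.003724`, `a ≤ 0.6676`, `a³ ≤ 0.2976`. -/
theorem b2 : VC (E2 4) (fun _ => 0) ≤ c0 + 0.00124 := by
  rcases le_or_gt (VC (E2 4) (fun _ => 0)) c0 with hle | hgt
  · linarith
  obtain ⟨⟨a, ha, x, hx, hmax⟩, -⟩ := VC_spec (E2 4) (fun _ => 0)
  obtain ⟨t, ht0, ht1, ht2, hq, hD, hpos, hval, ha0, hab, hVC⟩ :=
    C2a_aux1 le_rfl ha hx hmax hgt
  have hc1 := c0_lo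
  have hc2 := c0_hi
  have h6 := C2a_aux2 ht0 ht1
  have hPsi : PsiU 2 ((4 : ℕ) : ℝ) 0 ≤ 0.003413 := by
    unfold PsiU tau CC
    push_cast
    norm_num
    linarith [s3_lo, s3_hi]
  obtain ⟨Ψ, hΨ⟩ : ∃ Ψ, Ψ = Th (E2 4) (fun _ => 0) x - tau (sq2 x) := ⟨_, rfl⟩
  rw [← hΨ] at hpos hval hab hVC
  have hΨ' : Ψ ≤ 0.003743 := by nlinarith [sq_nonneg t]
  have hA : 1.3956 ≤ 1 + c0 - sq2 x := by linarith
  obtain ⟨A, hA'⟩ : ∃ A, A = 1 + c0 - sq2 x := ⟨_, rfl⟩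
  rw [← hA'] at hA hab
  have hA0 : 0 < A := by linarith
  have h8 : 2 * c0 / A ≤ 0.66512 := by
    rw [div_le_iff₀ hA0]
    nlinarith
  have h9 : 4 * c0 * a * Ψ / A ^ 2 ≤ 0.0036 := by
    rw [div_le_iff₀ (by positivity)]
    have h10 : a * Ψ ≤ 1 * 0.003743 := mul_le_mul ha.2 hΨ' hpos.le (by norm_num)
    have h11 : 1.9476 ≤ A ^ 2 := by nlinarith
    have h12 : c0 * (a * Ψ) ≤ 0.4641018 * 0.003743 := by
      have : 0 ≤ a * Ψ := by positivity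
      nlinarith
    nlinarith
  have h13 : a ≤ 0.66873 := by linarith
  have h14 : a ^ 3 ≤ 0.66873 ^ 3 := pow_le_pow_left₀ ha0.le h13 3
  have h15 : a ^ 3 * Ψ ≤ 0.66873 ^ 3 * 0.003743 := mul_le_mul h14 hΨ' hpos.le (by norm_num)
  norm_num at h15 ⊢
  linarith

end W880b64
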