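import Pool.Agent.W_880b64_h21.UnifVal
import Pool.Agent.W_880b64_h21.ChainSets

/-!
# Lower bounds, `M = 2` (task H19)
-/

namespace W880b64

open Finset BigOperators
open W_MP_880b64_co (TG Lam)

/-- `fv (EM 2 \ R2 2) (11/25) 0.659 (unif 2)`: `PsiU 2 2 (18·11/25) = 0.0068285..`, value
`c0 + 0.001954`. -/
theorem top2 : 0.466 ≤ VC (EM 2 \ R2 2) (fun _ => 11 / 25) := by
  obtain ⟨h1, -, h3, -⟩ := chain2 2 (by norm_num)
  have h4 := unif_value (M := 2) le_rfl h1 (fun _ => 11 / 25) (a := 659 / 1000)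
    ⟨by norm_num, by norm_num⟩
  refine le_trans ?_ h4
  have hs : ∑ v : VV 2, (fun _ => (11 / 25 : ℝ)) v = 198 / 25 := by
    have hcard : (Fintype.card (VV 2) : ℝ) = 18 := by
      have h : Fintype.card (VV 2) = 18 := by
        rw [Fintype.card_prod, Fintype.card_prod, ZMod.card, ZMod.card]
      rw [h]
      norm_num
    rw [Finset.sum_const, Finset.card_univ, nsmul_eq_mul, hcard]
    norm_num
  rw [hs, h3]
  have hlo := s3_lo
  have hhi := s3_hi
  have hc1 := c0_lo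
  have hc2 := c0_hi
  have hpsi : (0.00682 : ℝ) ≤ PsiU 2 ((2 : ℕ) : ℝ) (198 / 25) := by
    unfold PsiU tau CC
    push_cast
    norm_num
    linarith
  obtain ⟨d, hd⟩ : ∃ d : ℝ, d = 2 * c0 - (1 + c0 - 1 / (9 * ((2 : ℕ) : ℝ))) * (659 / 1000) :=
    ⟨_, rfl⟩
  rw [← hd]
  have hd1 : d ≤ 0.0001 := by
    rw [hd]
    push_cast
    norm_num
    linarith
  have hd2 : -0.0001 ≤ d := by
    rw [hd]
    push_cast
    norm_num
    linarith
  have hd3 : d ^ 2 ≤ 0.00000001 := by nlinarith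
  have hq : 3 * (659 / 1000 : ℝ) / (4 * c0) ≤ 2 := by
    rw [div_le_iff₀ (by linarith)]
    linarith
  have hq0 : 0 ≤ 3 * (659 / 1000 : ℝ) / (4 * c0) := by
    apply div_nonneg
    · norm_num
    · linarith
  have hlast : 3 * (659 / 1000 : ℝ) / (4 * c0) * d ^ 2 ≤ 2 * 0.00000001 :=
    mul_le_mul hq hd3 (sq_nonneg d) (by norm_num)
  have hfirst : (659 / 1000 : ℝ) ^ 3 * 0.00682 ≤
      (659 / 1000 : ℝ) ^ 3 * PsiU 2 ((2 : ℕ) : ℝ) (198 / 25) :=
    mul_le_mul_of_nonneg_left hpsi (by norm_num)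
  norm_num at hfirst hlast ⊢
  linarith

end W880b64
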