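import Pool.Agent.W_880b64_h21.Base

/-!
# Localisation, abstract (task H2)
-/

namespace W880b64

open Finset BigOperators

section
variable {V : Type} [Fintype V] [DecidableEq V]

/-- **Upper bound without localisation.**  For `0 ≤ t ≤ r0` and `α, β ≥ 0`:
`∑ l δ - (α - β t) t² ≤ lam t - (α - β t) t²`; here `t = √(∑ δ²)` (Cauchy–Schwarz). -/
theorem lin_le {δ l : V → ℝ} {lam : ℝ} (hl : ∑ v, l v ^ 2 ≤ lam ^ 2) (hlam : 0 ≤ lam) :
    ∑ v, l v * δ v ≤ lam * Real.sqrt (∑ v, δ v ^ 2) := by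
  have h1 := Real.sum_mul_le_sqrt_mul_sqrt Finset.univ l δ
  refine h1.trans ?_
  apply mul_le_mul_of_nonneg_right _ (Real.sqrt_nonneg _)
  rw [Real.sqrt_le_left hlam]
  exact hl

/-- **Localisation, abstract form.**

Proof.  `D = ∑ δ²`, `t = √D`.  Cauchy–Schwarz: `∑ l δ ≤ lam t`.  If `t > 0` then
`(α - β t) t ≤ lam`.  The function `φ t = (α - β t) t` is concave, `φ r1 ≥ lam`, `φ r0 > lam`, so
`φ > lam` on `(r1, r0]`; hence `t ≤ r1` (also if `t = 0`).  Put `c = α - β r1 > 0`; then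
`c D ≤ ∑ l δ`, so `∑ (δ - l/(2c))² = D - (∑ l δ)/c + ∑ l²/(4c²) ≤ lam²/(4c²)`, and
`δ v - l v/(2c) ≤ lam/(2c)`. -/
theorem loc_abs {δ l : V → ℝ} {lam α β r0 r1 : ℝ}
    (hkey : (α - β * Real.sqrt (∑ v, δ v ^ 2)) * ∑ v, δ v ^ 2 ≤ ∑ v, l v * δ v)
    (hl : ∑ v, l v ^ 2 ≤ lam ^ 2) (hlam : 0 ≤ lam) (hβ : 0 ≤ β)
    (hr0 : Real.sqrt (∑ v, δ v ^ 2) ≤ r0) (h0 : lam < (α - β * r0) * r0)
    (h1 : lam ≤ (α - β * r1) * r1) (hr1 : 0 < r1) (hr01 : r1 ≤ r0) (hc : 0 < α - β * r1) :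
    Real.sqrt (∑ v, δ v ^ 2) ≤ r1 ∧ ∀ v : V, δ v ≤ (l v + lam) / (2 * (α - β * r1)) := by
  have hlin := lin_le (δ := δ) hl hlam
  have hD0 : 0 ≤ ∑ v, δ v ^ 2 := Finset.sum_nonneg (fun v _ => sq_nonneg _)
  have hts : Real.sqrt (∑ v, δ v ^ 2) ^ 2 = ∑ v, δ v ^ 2 := Real.sq_sqrt hD0
  have ht0 : 0 ≤ Real.sqrt (∑ v, δ v ^ 2) := Real.sqrt_nonneg _
  generalize ht : Real.sqrt (∑ v, δ v ^ 2) = t at *
  generalize hD : ∑ v, δ v ^ 2 = D at *
  have hle : t ≤ r1 := by
    by_contra hcon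
    push Not at hcon
    have htpos : 0 < t := lt_trans hr1 hcon
    have h2 : (α - β * t) * t ≤ lam := by
      have h3 : ((α - β * t) * t) * t ≤ lam * t := by
        calc ((α - β * t) * t) * t = (α - β * t) * t ^ 2 := by ring
          _ = (α - β * t) * D := by rw [hts]
          _ ≤ _ := hkey.trans hlin
      exact le_of_mul_le_mul_right h3 htpos
    have h4 : 0 ≤ β * ((t - r1) * (r0 - t)) :=
      mul_nonneg hβ (mul_nonneg (by linarith) (by linarith))
    have h5 : (α - β * t) * t * (r0 - r1) =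
      (α - β * r1) * r1 * (r0 - t) + (α - β * r0) * r0 * (t - r1) +
        β * ((t - r1) * (r0 - t)) * (r0 - r1) := by ring
    have h6 : 0 < r0 - r1 := by linarith
    have h7 : lam * (r0 - t) ≤ (α - β * r1) * r1 * (r0 - t) :=
      mul_le_mul_of_nonneg_right h1 (by linarith)
    have h8 : lam * (t - r1) < (α - β * r0) * r0 * (t - r1) :=
      mul_lt_mul_of_pos_right h0 (by linarith)
    have h9 : (α - β * t) * t * (r0 - r1) ≤ lam * (r0 - r1) :=
      mul_le_mul_of_nonneg_right h2 h6.le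
    have h10 : 0 ≤ β * ((t - r1) * (r0 - t)) * (r0 - r1) := mul_nonneg h4 h6.le
    nlinarith
  refine ⟨hle, fun v => ?_⟩
  set c := α - β * r1 with hcdef
  have hcD : c * D ≤ ∑ v, l v * δ v := by
    refine le_trans ?_ hkey
    apply mul_le_mul_of_nonneg_right _ hD0
    have := mul_le_mul_of_nonneg_left hle hβ
    linarith
  have hsum : ∑ v, (2 * c * δ v - l v) ^ 2 ≤ lam ^ 2 := by
    have e : ∑ v, (2 * c * δ v - l v) ^ 2 =
        4 * c * (c * D) - 4 * c * (∑ v, l v * δ v) + ∑ v, l v ^ 2 := by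
      rw [← hD, Finset.mul_sum, Finset.mul_sum, Finset.mul_sum, ← Finset.sum_sub_distrib,
        ← Finset.sum_add_distrib]
      exact Finset.sum_congr rfl (fun v _ => by ring)
    rw [e]
    have := mul_le_mul_of_nonneg_left hcD (by linarith : (0:ℝ) ≤ 4 * c)
    linarith
  have hv : (2 * c * δ v - l v) ^ 2 ≤ lam ^ 2 :=
    (Finset.single_le_sum (f := fun v => (2 * c * δ v - l v) ^ 2)
      (fun v _ => sq_nonneg _) (Finset.mem_univ v)).trans hsum
  have h11 := abs_le_of_sq_le_sq hv hlam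
  rw [le_div_iff₀ (by linarith)]
  have := (abs_le.1 h11).2
  linarith

omit [DecidableEq V] in
/-- mean and variance of a function with two values -/
theorem two_val {f : V → ℝ} {k d : ℝ} (hV : 0 < Fintype.card V) (hd : 0 ≤ d)
    (hf : ∀ v, f v = k ∨ f v = k + d) :
    k ≤ (∑ u, f u) / Fintype.card V ∧ (∑ u, f u) / Fintype.card V ≤ k + d ∧
      ∑ v, (f v - (∑ u, f u) / Fintype.card V) ^ 2 ≤ d ^ 2 * Fintype.card V / 4 := by
  have hN : (0:ℝ) < Fintype.card V := by exact_mod_cast hV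
  have h1 : k * Fintype.card V ≤ ∑ u, f u := by
    calc k * Fintype.card V = ∑ _u : V, k := by simp [mul_comm]
      _ ≤ _ := Finset.sum_le_sum (fun u _ => by rcases hf u with h | h <;> rw [h]; linarith)
  have h2 : ∑ u, f u ≤ (k + d) * Fintype.card V := by
    calc ∑ u, f u ≤ ∑ _u : V, (k + d) :=
          Finset.sum_le_sum (fun u _ => by rcases hf u with h | h <;> rw [h]; linarith)
      _ = _ := by simp [mul_comm]; ring
  refine ⟨by rwa [le_div_iff₀ hN], by rwa [div_le_iff₀ hN], ?_⟩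
  have hm : (∑ u, f u) = (∑ u, f u) / Fintype.card V * Fintype.card V := by field_simp
  generalize (∑ u, f u) / Fintype.card V = m at hm ⊢
  have e : ∀ v, (f v - m) ^ 2 = (2 * k + d - 2 * m) * f v + (m ^ 2 - k * (k + d)) := by
    intro v
    rcases hf v with h | h <;> rw [h] <;> ring
  rw [Finset.sum_congr rfl (fun v _ => e v), Finset.sum_add_distrib, ← Finset.mul_sum, hm]
  simp only [Finset.sum_const, Finset.card_univ, nsmul_eq_mul]
  have h3 : 0 ≤ (Fintype.card V : ℝ) * (2 * m - 2 * k - d) ^ 2 := by positivity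
  nlinarith

/-- **The norm of the linear form.**  `f` takes two adjacent values `k, k+1`, `g` takes two values
`β, β + d` with `0 ≤ d ≤ 2/9`; `l = -A (f - mean f) + B (g - mean g)`, `A, B ≥ 0`.
A 0/1 function on `N` points has `∑ (f - mean)² ≤ N/4`; Minkowski. -/
theorem norm_l {f g : V → ℝ} {k β d A B : ℝ} (hV : 0 < Fintype.card V)
    (hf : ∀ v, f v = k ∨ f v = k + 1) (hg : ∀ v, g v = β ∨ g v = β + d) (hd0 : 0 ≤ d)
    (hd : d ≤ 2 / 9) (hA : 0 ≤ A) (hB : 0 ≤ B) :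
    ∑ v, (-A * (f v - (∑ u, f u) / Fintype.card V) + B * (g v - (∑ u, g u) / Fintype.card V)) ^ 2
      ≤ ((A + 2 / 9 * B) * Real.sqrt (Fintype.card V) / 2) ^ 2 ∧
    ∀ v, -A * (f v - (∑ u, f u) / Fintype.card V) + B * (g v - (∑ u, g u) / Fintype.card V)
      ≤ A + 2 / 9 * B := by
  have hN : (0:ℝ) < Fintype.card V := by exact_mod_cast hV
  obtain ⟨f1, f2, f3⟩ := two_val (d := 1) hV zero_le_one hf
  obtain ⟨g1, g2, g3⟩ := two_val hV hd0 hg
  generalize (∑ u, f u) / (Fintype.card V : ℝ) = mf at f1 f2 f3 ⊢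
  generalize (∑ u, g u) / (Fintype.card V : ℝ) = mg at g1 g2 g3 ⊢
  constructor
  · have hcs := Real.sum_mul_le_sqrt_mul_sqrt Finset.univ (fun v => -(f v - mf))
      (fun v => g v - mg)
    have hF : Real.sqrt (∑ v, (-(f v - mf)) ^ 2) ≤ Real.sqrt (Fintype.card V) / 2 := by
      rw [Real.sqrt_le_left (by positivity), div_pow, Real.sq_sqrt hN.le]
      calc ∑ v, (-(f v - mf)) ^ 2 = ∑ v, (f v - mf) ^ 2 :=
            Finset.sum_congr rfl (fun v _ => by ring)
        _ ≤ _ := by linarith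
    have hG : Real.sqrt (∑ v, (g v - mg) ^ 2) ≤ 2 / 9 * (Real.sqrt (Fintype.card V) / 2) := by
      rw [Real.sqrt_le_left (by positivity), mul_pow, div_pow, div_pow, Real.sq_sqrt hN.le]
      refine g3.trans ?_
      have : d ^ 2 ≤ (2 / 9) ^ 2 := by gcongr
      nlinarith
    have hprod : ∑ v, -(f v - mf) * (g v - mg) ≤
        Real.sqrt (Fintype.card V) / 2 * (2 / 9 * (Real.sqrt (Fintype.card V) / 2)) :=
      hcs.trans (mul_le_mul hF hG (Real.sqrt_nonneg _) (by positivity))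
    have hs : Real.sqrt (Fintype.card V) ^ 2 = Fintype.card V := Real.sq_sqrt hN.le
    have hF2 : ∑ v, (f v - mf) ^ 2 ≤ Real.sqrt (Fintype.card V) ^ 2 / 4 := by
      rw [hs]; linarith
    have hG2 : ∑ v, (g v - mg) ^ 2 ≤ (2 / 9) ^ 2 * Real.sqrt (Fintype.card V) ^ 2 / 4 := by
      rw [hs]
      refine g3.trans ?_
      have : d ^ 2 ≤ (2 / 9) ^ 2 := by gcongr
      nlinarith
    have e : ∑ v, (-A * (f v - mf) + B * (g v - mg)) ^ 2 =
        A ^ 2 * ∑ v, (f v - mf) ^ 2 + 2 * A * B * ∑ v, -(f v - mf) * (g v - mg) +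
          B ^ 2 * ∑ v, (g v - mg) ^ 2 := by
      rw [Finset.mul_sum, Finset.mul_sum, Finset.mul_sum, ← Finset.sum_add_distrib,
        ← Finset.sum_add_distrib]
      exact Finset.sum_congr rfl (fun v _ => by ring)
    rw [e]
    have i1 := mul_le_mul_of_nonneg_left hF2 (sq_nonneg A)
    have i2 := mul_le_mul_of_nonneg_left hprod (by positivity : 0 ≤ 2 * A * B)
    have i3 := mul_le_mul_of_nonneg_left hG2 (sq_nonneg B)
    nlinarith
  · intro v
    have j1 : -(f v - mf) ≤ 1 := by rcases hf v with h | h <;> rw [h] <;> linarith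
    have j2 : g v - mg ≤ 2 / 9 := by rcases hg v with h | h <;> rw [h] <;> linarith
    have k1 := mul_le_mul_of_nonneg_left j1 hA
    have k2 := mul_le_mul_of_nonneg_left j2 hB
    linarith

end

end W880b64
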