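import Pool.Agent.W_880b64_h21.Key3
import Pool.Agent.W_880b64_h21.LocAbs
import Pool.Agent.W_880b64_h21.ChainSets

/-!
# Edge steps, `M = 3` (task H15)
-/

namespace W880b64

open Finset BigOperators
open W_MP_880b64_co (TG Lam)

/-- `EM 3` minus the first `j` edges of the chain -/
noncomputable def E3 (j : ℕ) : Finset (Finset (VV 3)) := EM 3 \ (Ra3 j ∪ Rb3 j)

theorem C3a_psi (j σ : ℝ) : PsiU 3 j σ =
    16 / 243 - (s3 / 27 - (3 + 2 * s3) / 4 / 729) - 6 * j / 19683 + σ / 19683 := by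
  unfold PsiU tau CC
  norm_num
  ring

theorem C3a_card : (Fintype.card (VV 3) : ℝ) = 27 := by
  rw [Fintype.card_prod, Fintype.card_prod, ZMod.card]
  norm_num

/-- sum of the deviations -/
theorem C3a_sum {x : VV 3 → ℝ} (hx : x ∈ stdSimplex ℝ (VV 3)) : ∑ v, (x v - 1 / 27) = 0 := by
  rw [Finset.sum_sub_distrib, hx.2, Finset.sum_const, Finset.card_univ, nsmul_eq_mul, C3a_card]
  norm_num

theorem C3a_dev {x : VV 3 → ℝ} (hx : x ∈ stdSimplex ℝ (VV 3)) :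
    ∑ v, (x v - 1 / 27) ^ 2 = sq2 x - 1 / 27 := by
  have h := dev_sq (M := 3) hx
  have e : (1 : ℝ) / (9 * ((3 : ℕ) : ℝ)) = 1 / 27 := by norm_num
  rw [e] at h
  exact h

/-- the linear term -/
theorem C3a_lin {f : VV 3 → ℝ} {x : VV 3 → ℝ} (hx : x ∈ stdSimplex ℝ (VV 3)) {lam : ℝ}
    (hlam : 0 ≤ lam)
    (hn : ∑ v, (-(6 / 729) * (f v - (∑ u, f u) / 27)) ^ 2 ≤ lam ^ 2) :
    ∑ v, (-(6 / 729) * f v + 3 / 729 * (0 : ℝ)) * (x v - 1 / 27) ≤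
      lam * Real.sqrt (sq2 x - 1 / 27) := by
  have h := lin_le (δ := fun v => x v - 1 / 27) hn hlam
  rw [C3a_dev hx] at h
  have e : ∑ v, (-(6 / 729) * f v + 3 / 729 * (0 : ℝ)) * (x v - 1 / 27) =
      ∑ v, -(6 / 729) * (f v - (∑ u, f u) / 27) * (x v - 1 / 27) := by
    have e1 : ∀ v, (-(6 / 729) * f v + 3 / 729 * (0 : ℝ)) * (x v - 1 / 27) =
        -(6 / 729) * (f v - (∑ u, f u) / 27) * (x v - 1 / 27) +
        (-(6 / 729) * ((∑ u, f u) / 27)) * (x v - 1 / 27) := fun v => by ring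
    rw [Finset.sum_congr rfl fun v _ => e1 v, Finset.sum_add_distrib, ← Finset.mul_sum,
      C3a_sum hx, mul_zero, add_zero]
  rw [e]
  exact h

/-- facts at a maximiser of the chain -/
theorem C3a_max (j : ℕ) (hj : j ≤ 12) (hgt : c0 < VC (E3 j) (fun _ => 0)) {lam : ℝ}
    (hlam : 0 ≤ lam)
    (hn : ∑ v, (-(6 / 729) * ((rv (Ra3 j) v + rv (Rb3 j) v) -
      (∑ u, (rv (Ra3 j) u + rv (Rb3 j) u)) / 27)) ^ 2 ≤ lam ^ 2) :
    ∃ a x t, a ∈ Set.Icc (0:ℝ) 1 ∧ 0 < a ∧ x ∈ stdSimplex ℝ (VV 3) ∧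
      fv (E3 j) (fun _ => 0) a x = VC (E3 j) (fun _ => 0) ∧ 0 ≤ t ∧ t ≤ 0.11684 ∧
      sq2 x = 1 / 27 + t ^ 2 ∧ sq2 x ≤ 1 - c0 ∧
      Th (E3 j) (fun _ => 0) x - tau (sq2 x) ≤ PsiU 3 j 0 + lam * t
        - (1.3365 - 6.205 * t) * t ^ 2 ∧ 0 < Th (E3 j) (fun _ => 0) x - tau (sq2 x) ∧
      a ≤ 2 * c0 / (1 + c0 - sq2 x)
        + 4 * c0 * a * (Th (E3 j) (fun _ => 0) x - tau (sq2 x)) / (1 + c0 - sq2 x) ^ 2 ∧
      VC (E3 j) (fun _ => 0) - c0 ≤ a ^ 3 * (Th (E3 j) (fun _ => 0) x - tau (sq2 x)) := by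
  obtain ⟨hRa, hRb, hab, hda, hdb, hcard, _⟩ := chain3 j hj
  obtain ⟨a, ha, x, hx, hmax⟩ := (VC_spec (E3 j) (fun _ => 0)).1
  have hs : ∀ v : VV 3, 0 ≤ (fun _ => (0 : ℝ)) v ∧ (fun _ => (0 : ℝ)) v ≤ 11 / 25 := by
    intro v
    exact ⟨le_refl _, by norm_num⟩
  have hsub : E3 j ⊆ EM 3 := Finset.sdiff_subset
  have hT := Th_le_c0 (M := 3) (by norm_num) hsub hs hx
  obtain ⟨ha0, ha1, hq, hpos, hale, hval⟩ := max_facts ha hx hT hmax hgt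
  obtain ⟨hD, hTh⟩ := value3 hRa hRb hab hda hdb hs hx hq.le hpos
  have hD0 : 0 ≤ sq2 x - 1 / 27 := by
    rw [← C3a_dev hx]
    exact Finset.sum_nonneg fun v _ => sq_nonneg _
  have hlin := C3a_lin hx hlam hn
  have ht2 : Real.sqrt (sq2 x - 1 / 27) ^ 2 = sq2 x - 1 / 27 := Real.sq_sqrt hD0
  refine ⟨a, x, Real.sqrt (sq2 x - 1 / 27), ha, ha0, hx, hmax, Real.sqrt_nonneg _, ?_, ?_, hq.le,
    ?_, by linarith, hale, hval⟩
  · rw [Real.sqrt_le_left (by norm_num)]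
    refine hD.trans (by norm_num)
  · rw [ht2]
    ring
  · rw [ht2]
    have e0 : (∑ _v : VV 3, (0 : ℝ)) = 0 := Finset.sum_const_zero
    rw [hcard, e0] at hTh
    have e : E3 j = EM 3 \ (Ra3 j ∪ Rb3 j) := rfl
    rw [e]
    linarith

/-- the ratio -/
theorem C3a_ratio {q t : ℝ} (hq : q = 1 / 27 + t ^ 2) (ht : 0 ≤ t) (ht' : t ≤ 0.11684) :
    1 - 2.14 * t ^ 2 ≤ ((1 + c0 - q) / (1 + c0 - 1 / 27)) ^ 3 := by
  have hlo := c0_lo
  have hA : 0 < 1 + c0 - 1 / 27 := by linarith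
  have ht2 : t ^ 2 ≤ 0.11684 ^ 2 := pow_le_pow_left₀ ht ht' 2
  have e : (1 + c0 - q) / (1 + c0 - 1 / 27) = 1 - t ^ 2 / (1 + c0 - 1 / 27) := by
    rw [eq_sub_iff_add_eq, ← add_div, hq]
    rw [div_eq_one_iff_eq hA.ne']
    ring
  have h1 : t ^ 2 / (1 + c0 - 1 / 27) ≤ 0.71 * t ^ 2 := by
    rw [div_le_iff₀ hA]
    have h2 : 1 ≤ 0.71 * (1 + c0 - 1 / 27) := by linarith
    have h3 := mul_le_mul_of_nonneg_right h2 (sq_nonneg t)
    linarith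
  have h0 : 0 ≤ t ^ 2 / (1 + c0 - 1 / 27) := by positivity
  rw [e]
  have h3 : (1 - 0.71 * t ^ 2) ^ 3 ≤ (1 - t ^ 2 / (1 + c0 - 1 / 27)) ^ 3 :=
    pow_le_pow_left₀ (by nlinarith) (by linarith) 3
  refine le_trans ?_ h3
  have h4 : 0 ≤ t ^ 2 := sq_nonneg t
  have h5 : t ^ 2 ≤ 0.0137 := ht2.trans (by norm_num)
  nlinarith [mul_nonneg h4 h4, mul_nonneg h4 (sub_nonneg.2 h5), pow_nonneg h4 3]

/-- the quadratic bound -/
theorem C3a_quad {lam t d : ℝ} (ht : 0 ≤ t) (ht' : t ≤ 0.11684) (hd : 0 ≤ d)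
    (h : lam ^ 2 ≤ 4 * 0.6 * d) : lam * t - (1.3365 - 0.00968 - 6.205 * t) * t ^ 2 ≤ d := by
  have h1 : lam * t - 0.6 * t ^ 2 ≤ d := by
    nlinarith [sq_nonneg (lam - 1.2 * t)]
  have h2 : 0.6 * t ^ 2 ≤ (1.3365 - 0.00968 - 6.205 * t) * t ^ 2 :=
    mul_le_mul_of_nonneg_right (by linarith) (sq_nonneg t)
  linarith

/-- **Edge step.**

Proof.  If `VC (E3 j) 0 ≤ c0` use `c0_le_VC`.  Otherwise let `(a,x)` be a maximiser; `max_facts`,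
`value3` (with `s = 0`), `norm_l` with `g = 0`, `lin_le`: with `t = √D ≤ √0.01365 ≤ 0.11684`,
`Th - tau ≤ P + lam t - (1.3365 - 6.205 t) t²`, `lam = (6/729)√27/2 ≤ 0.021384`,
`P = PsiU 3 j 0`.  Let `P' = PsiU 3 (j+1) (27·11/25) = P - 6/19683 + (11/25)/729 ≥ P + 0.0002987`,
`0 ≤ P' ≤ 0.00452`.  `ratio³ ≥ 1 - 2.14 t²`, so it is enough that
`0.021384 t - (1.3365 - 0.00968 - 6.205 t) t² ≤ 0.0002987` for `0 ≤ t ≤ 0.11684` (maximum about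
`0.00009` at `t = 0.0083`); then `compare` with `x' = unif 3` (`Th_unif`). -/
theorem c1_3 (j : ℕ) (hj : j ≤ 11) :
    VC (E3 j) (fun _ => 0) ≤ VC (E3 (j + 1)) (fun _ => 11 / 25) := by
  rcases le_or_gt (VC (E3 j) fun _ => 0) c0 with h0 | hgt
  · exact h0.trans (c0_le_VC _ _)
  obtain ⟨hRa, hRb, hab, hda, hdb, hcard, k, hk⟩ := chain3 j (by omega)
  obtain ⟨hRa', hRb', _, _, _, hcard', _⟩ := chain3 (j + 1) (by omega)
  have h27 : Real.sqrt 27 ^ 2 = 27 := Real.sq_sqrt (by norm_num)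
  have hn : ∑ v, (-(6 / 729) * ((rv (Ra3 j) v + rv (Rb3 j) v) -
      (∑ u, (rv (Ra3 j) u + rv (Rb3 j) u)) / 27)) ^ 2 ≤ (6 / 729 * Real.sqrt 27 / 2) ^ 2 := by
    have h := (norm_l (V := VV 3) (f := fun v => rv (Ra3 j) v + rv (Rb3 j) v)
      (g := fun _ => (0 : ℝ)) (k := k) (β := 0) (d := 0) (A := 6 / 729) (B := 0)
      Fintype.card_pos hk (fun _ => Or.inl rfl) le_rfl (by norm_num) (by norm_num) le_rfl).1
    rw [C3a_card] at h
    refine le_trans (le_of_eq ?_) (h.trans (le_of_eq ?_))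
    · refine Finset.sum_congr rfl fun v _ => ?_
      ring
    · ring
  obtain ⟨a, x, t, ha, ha0, hx, hmax, ht0, ht1, hqt, hq, hTh, hpos, -, -⟩ :=
    C3a_max j (by omega) hgt (by positivity) hn
  rw [← hmax]
  have hlo := c0_lo
  refine compare ha (unif_mem (M := 3)) ?_ (by linarith) ?_
  · rw [sq2_unif, hqt]
    norm_num
    positivity
  · have e : (E3 (j + 1)) = EM 3 \ (Ra3 (j + 1) ∪ Rb3 (j + 1)) := rfl
    have hs : ∑ _v : VV 3, (11 / 25 : ℝ) = 27 * (11 / 25) := by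
      rw [Finset.sum_const, Finset.card_univ, nsmul_eq_mul, C3a_card]
    rw [e, Th_unif (by norm_num) (Finset.union_subset hRa' hRb'), hcard', hs, sq2_unif]
    have e27 : (1 : ℝ) / (9 * ((3 : ℕ) : ℝ)) = 1 / 27 := by norm_num
    rw [e27]
    have hr := C3a_ratio hqt ht0 ht1
    have hP : PsiU 3 ((j + 1 : ℕ) : ℝ) (27 * (11 / 25)) = PsiU 3 j 0 + 5.88 / 19683 := by
      rw [C3a_psi, C3a_psi]
      push_cast
      ring
    have hs3l := s3_lo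
    have hs3h := s3_hi
    have hj0 : (0 : ℝ) ≤ j := Nat.cast_nonneg j
    have hj' : (j : ℝ) ≤ 11 := by exact_mod_cast hj
    have hPhi : PsiU 3 ((j + 1 : ℕ) : ℝ) (27 * (11 / 25)) ≤ 0.00452 := by
      rw [C3a_psi]
      push_cast
      linarith
    have hPlo : 0 ≤ PsiU 3 ((j + 1 : ℕ) : ℝ) (27 * (11 / 25)) := by
      rw [C3a_psi]
      push_cast
      linarith
    have h1 := mul_le_mul_of_nonneg_right hr hPlo
    refine le_trans ?_ h1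
    have h2 : 2.14 * t ^ 2 * PsiU 3 ((j + 1 : ℕ) : ℝ) (27 * (11 / 25)) ≤ 2.14 * t ^ 2 * 0.00452 :=
      mul_le_mul_of_nonneg_left hPhi (by positivity)
    have h3 := C3a_quad (lam := 6 / 729 * Real.sqrt 27 / 2) (d := 0.00028) ht0 ht1 (by norm_num)
      (by
        have : (6 / 729 * Real.sqrt 27 / 2) ^ 2 = (6 / 729 / 2) ^ 2 * Real.sqrt 27 ^ 2 := by ring
        rw [this, h27]
        norm_num)
    have h4 : 0 ≤ t ^ 2 := sq_nonneg t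
    nlinarith [h1, h2, h3, h4, hTh, hP]

/-- **Bottom.**  As in `c1_3`, with the norm `lam = (6/729)√6 ≤ 0.020161` (`chain3_12`):
`Th - tau ≤ PsiU 3 12 0 + max (0.020161 t - (1.3365 - 6.205t)t²) ≤ 0.0002525 + 0.00008`, and
`VC - c0 ≤ a³ (Th - tau)`, `a ≤ 0.66`. -/
theorem b3 : VC (E3 12) (fun _ => 0) ≤ c0 + 0.000163 := by
  rcases le_or_gt (VC (E3 12) fun _ => 0) c0 with h0 | hgt
  · refine h0.trans ?_
    norm_num
  have h6 : Real.sqrt 6 ^ 2 = 6 := Real.sq_sqrt (by norm_num)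
  have hn : ∑ v, (-(6 / 729) * ((rv (Ra3 12) v + rv (Rb3 12) v) -
      (∑ u, (rv (Ra3 12) u + rv (Rb3 12) u)) / 27)) ^ 2 ≤ (6 / 729 * Real.sqrt 6) ^ 2 := by
    have h := chain3_12.1
    have e : ∑ v, (-(6 / 729) * ((rv (Ra3 12) v + rv (Rb3 12) v) -
        (∑ u, (rv (Ra3 12) u + rv (Rb3 12) u)) / 27)) ^ 2 = (6 / 729) ^ 2 *
        ∑ v, ((rv (Ra3 12) v + rv (Rb3 12) v) -
        (∑ u, (rv (Ra3 12) u + rv (Rb3 12) u)) / 27) ^ 2 := by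
      rw [Finset.mul_sum]
      refine Finset.sum_congr rfl fun v _ => ?_
      ring
    rw [e, mul_pow, h6]
    exact mul_le_mul_of_nonneg_left h (by positivity)
  obtain ⟨a, x, t, ha, ha0, hx, hmax, ht0, ht1, hqt, hq, hTh, hpos, hale, hval⟩ :=
    C3a_max 12 le_rfl hgt (by positivity) hn
  have hlo := c0_lo
  have hhi := c0_hi
  have hs3l := s3_lo
  have hs3h := s3_hi
  have h3 := C3a_quad (lam := 6 / 729 * Real.sqrt 6) (d := 0.00017) ht0 ht1 (by norm_num)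
    (by
      have : (6 / 729 * Real.sqrt 6) ^ 2 = (6 / 729) ^ 2 * Real.sqrt 6 ^ 2 := by ring
      rw [this, h6]
      norm_num)
  have hP : PsiU 3 ((12 : ℕ) : ℝ) 0 ≤ 0.00026 := by
    rw [C3a_psi]
    push_cast
    linarith
  have ht2 : t ^ 2 ≤ 0.01366 := (pow_le_pow_left₀ ht0 ht1 2).trans (by norm_num)
  have hb : Th (E3 12) (fun _ => 0) x - tau (sq2 x) ≤ 0.00043 := by
    have h4 : 0 ≤ t ^ 2 := sq_nonneg t
    nlinarith [h3, hTh, hP, h4]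
  set Y := Th (E3 12) (fun _ => 0) x - tau (sq2 x) with hY
  have hA : 1.4133 ≤ 1 + c0 - sq2 x := by
    rw [hqt]
    linarith
  have h5 : 2 * c0 / (1 + c0 - sq2 x) ≤ 0.657 := by
    rw [div_le_iff₀ (by linarith)]
    linarith
  have h7 : 4 * c0 * a * Y / (1 + c0 - sq2 x) ^ 2 ≤ 0.001 := by
    rw [div_le_iff₀ (by positivity)]
    have h8 : (1.4133 : ℝ) ^ 2 ≤ (1 + c0 - sq2 x) ^ 2 := pow_le_pow_left₀ (by norm_num) hA 2
    have h9 : 4 * c0 * a * Y ≤ 4 * 0.4641018 * 1 * 0.00043 := by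
      have := ha.2
      gcongr
    norm_num at h8 h9 ⊢
    linarith
  have h10 : a ≤ 0.66 := by linarith
  have h11 : a ^ 3 * Y ≤ 0.66 ^ 3 * 0.00043 := by
    have := pow_le_pow_left₀ ha0.le h10 3
    exact mul_le_mul this hb hpos.le (by norm_num)
  norm_num at h11 ⊢
  linarith

end W880b64
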