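import Pool.Agent.W_880b64_h21.UnifVal
import Pool.Agent.W_880b64_h21.ChainSets

/-!
# Lower bounds, `M = 3` (task H16)
-/

namespace W880b64

open Finset BigOperators
open W_MP_880b64_co (TG Lam)

theorem C3b_sum : ∑ _v : VV 3, (11 / 25 : ℝ) = 27 * (11 / 25) := by
  rw [Finset.sum_const, Finset.card_univ, Fintype.card_prod, Fintype.card_prod, ZMod.card,
    nsmul_eq_mul]
  norm_num

theorem C3b_psi (j : ℝ) : PsiU 3 j (27 * (11 / 25)) =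
    16 / 243 - (s3 / 27 - (3 + 2 * s3) / 4 / 729) - 6 * j / 19683 + 11.88 / 19683 := by
  unfold PsiU tau CC
  norm_num
  ring

theorem C3b_aux (j : ℕ) (hj : j ≤ 12) :
    c0 + 0.6504 ^ 3 * PsiU 3 j (27 * (11 / 25)) - 5 / 10 ^ 9 ≤
      VC (EM 3 \ (Ra3 j ∪ Rb3 j)) (fun _ => 11 / 25) := by
  obtain ⟨h1, h2, _, _, _, h6, _⟩ := chain3 j hj
  have h := unif_value (M := 3) (by norm_num) (Finset.union_subset h1 h2)
    (fun _ => (11 / 25 : ℝ)) (a := 0.6504) ⟨by norm_num, by norm_num⟩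
  rw [h6, C3b_sum] at h
  have hlo := c0_lo
  have hhi := c0_hi
  have hc : 0 < c0 := by linarith
  have hd : |2 * c0 - (1 + c0 - 1 / (9 * ((3 : ℕ) : ℝ))) * 0.6504| ≤ 0.00005 := by
    rw [abs_le]
    constructor
    · push_cast
      linarith
    · push_cast
      linarith
  have hsq : (2 * c0 - (1 + c0 - 1 / (9 * ((3 : ℕ) : ℝ))) * 0.6504) ^ 2 ≤ 25 / 10 ^ 10 := by
    rw [← sq_abs]
    calc _ ≤ (0.00005 : ℝ) ^ 2 := pow_le_pow_left₀ (abs_nonneg _) hd 2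
      _ = 25 / 10 ^ 10 := by norm_num
  have hq : 3 * 0.6504 / (4 * c0) ≤ 2 := by
    rw [div_le_iff₀ (by linarith)]
    linarith
  have hq0 : 0 ≤ 3 * 0.6504 / (4 * c0) := by positivity
  have hprod : 3 * 0.6504 / (4 * c0) *
      (2 * c0 - (1 + c0 - 1 / (9 * ((3 : ℕ) : ℝ))) * 0.6504) ^ 2 ≤ 2 * (25 / 10 ^ 10) :=
    mul_le_mul hq hsq (sq_nonneg _) (by norm_num)
  linarith

/-- `fv (EM 3 \ (Ra3 j ∪ Rb3 j)) (11/25) 0.6504 (unif 3)`; `PsiU 3 j (27·11/25) ≥ 0.0008559` for `j ≤ 12`. -/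
theorem t3 (j : ℕ) (hj : j ≤ 12) : c0 + 0.000235 ≤ VC (EM 3 \ (Ra3 j ∪ Rb3 j)) (fun _ => 11 / 25) := by
  have h := C3b_aux j hj
  have hs := s3_hi
  have hj' : (j : ℝ) ≤ 12 := by exact_mod_cast hj
  have hp : 0.0008555 ≤ PsiU 3 j (27 * (11 / 25)) := by
    rw [C3b_psi]
    linarith
  have : (0.6504 : ℝ) ^ 3 * 0.0008555 ≤ 0.6504 ^ 3 * PsiU 3 j (27 * (11 / 25)) :=
    mul_le_mul_of_nonneg_left hp (by norm_num)
  norm_num at this h ⊢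
  linarith

/-- `fv (EM 3 \ (Ra3 0 ∪ Rb3 0)) (11/25) 0.6504 (unif 3)`; `PsiU 3 0 (27·11/25) = 0.0045139..`. -/
theorem top3 : c0 + 0.001241 ≤ VC (EM 3 \ (Ra3 0 ∪ Rb3 0)) (fun _ => 11 / 25) := by
  have h := C3b_aux 0 (by norm_num)
  have hs := s3_hi
  have hp : 0.0045136 ≤ PsiU 3 ((0 : ℕ) : ℝ) (27 * (11 / 25)) := by
    rw [C3b_psi]
    push_cast
    linarith
  have : (0.6504 : ℝ) ^ 3 * 0.0045136 ≤ 0.6504 ^ 3 * PsiU 3 ((0 : ℕ) : ℝ) (27 * (11 / 25)) :=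
    mul_le_mul_of_nonneg_left hp (by norm_num)
  norm_num at this h ⊢
  linarith

end W880b64
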