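import Pool.Agent.W_880b64_h21.HidOp

/-!
# Climbing the slots (task A7)
-/

namespace W880b64

open Finset BigOperators
open W_MP_880b64_co (TG Lam)

section
variable {V : Type} [Fintype V] [DecidableEq V] [Nonempty V]

omit [Nonempty V] in
/-- A function of sets which crosses `y` crosses it in one step. -/
theorem Climb_aux1 {y : ℝ} (F : Finset V → ℝ) (h0 : F ∅ ≤ y) (h1 : y < F univ) :
    ∃ (S : Finset V) (v : V), v ∉ S ∧ F S ≤ y ∧ y < F (insert v S) := by
  by_contra hcon
  push Not at hcon
  have h : ∀ S : Finset V, F S ≤ y := by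
    intro S
    induction S using Finset.induction_on with
    | empty => exact h0
    | insert v S hv ih => exact hcon S v hv ih
  exact absurd (h univ) (not_le.mpr h1)

/-- **Climbing the slots.** From all slots `0` to all slots `2/9`, then to all slots `11/25`,
one slot at a time: if `VC E 0 ≤ y < VC E (11/25)`, some step crosses `y`.

Proof.  Induction along an enumeration of `V` (e.g. `Finset.induction_on` for the statement
`VC E (indicator of S times 2/9) ≤ y` for all `S` or its failure), twice. -/
theorem climb (E : Finset (Finset V)) {y : ℝ} (h0 : VC E (fun _ => 0) ≤ y)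
    (h1 : y < VC E (fun _ => 11 / 25)) :
    ∃ (s0 s1 : V → ℝ) (v : V), (∀ u, u ≠ v → s1 u = s0 u) ∧
      s0 v ≤ s1 v ∧ s1 v ≤ s0 v + 2 / 9 ∧ (∀ u, s0 u = 0 ∨ s0 u = 2 / 9 ∨ s0 u = 11 / 25) ∧
      ((∀ u, s1 u = 0 ∨ s1 u = 2 / 9) ∨ (∀ u, s1 u = 2 / 9 ∨ s1 u = 11 / 25)) ∧
      VC E s0 ≤ y ∧ y < VC E s1 := by
  classical
  rcases lt_or_ge y (VC E (fun _ => 2 / 9)) with hy | hy
  · obtain ⟨S, v, hv, hS, hS'⟩ := Climb_aux1
      (fun S : Finset V => VC E (fun u => if u ∈ S then 2 / 9 else 0)) (y := y)
      (by simpa using h0) (by simpa using hy)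
    refine ⟨fun u => if u ∈ S then 2 / 9 else 0, fun u => if u ∈ insert v S then 2 / 9 else 0, v,
      ?_, ?_, ?_, ?_, Or.inl ?_, hS, hS'⟩
    · intro u hu
      simp only [Finset.mem_insert, hu, false_or]
    · simp only [hv, if_false, Finset.mem_insert_self, if_true]
      norm_num
    · simp only [hv, if_false, Finset.mem_insert_self, if_true]
      norm_num
    · intro u
      by_cases hu : u ∈ S
      · right; left; simp only [hu, if_true]
      · left; simp only [hu, if_false]
    · intro u
      by_cases hu : u ∈ insert v S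
      · right; simp only [hu, if_true]
      · left; simp only [hu, if_false]
  · obtain ⟨S, v, hv, hS, hS'⟩ := Climb_aux1
      (fun S : Finset V => VC E (fun u => if u ∈ S then 11 / 25 else 2 / 9)) (y := y)
      (by simpa using hy) (by simpa using h1)
    refine ⟨fun u => if u ∈ S then 11 / 25 else 2 / 9,
      fun u => if u ∈ insert v S then 11 / 25 else 2 / 9, v,
      ?_, ?_, ?_, ?_, Or.inr ?_, hS, hS'⟩
    · intro u hu
      simp only [Finset.mem_insert, hu, false_or]
    · simp only [hv, if_false, Finset.mem_insert_self, if_true]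
      norm_num
    · simp only [hv, if_false, Finset.mem_insert_self, if_true]
      norm_num
    · intro u
      by_cases hu : u ∈ S
      · right; right; simp only [hu, if_true]
      · right; left; simp only [hu, if_false]
    · intro u
      by_cases hu : u ∈ insert v S
      · right; simp only [hu, if_true]
      · left; simp only [hu, if_false]

end

end W880b64
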