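import Pool.Agent.W_880b64_h21.PatOp
import Pool.Agent.W_MP_880b64_co.Join

/-!
# Cones (task A8)
-/

namespace W880b64

open Finset BigOperators
open W_MP_880b64_co (TG Lam)

/-- the edgeless 3-graph -/
def ConeA_E (V : Type) : TG V := ⟨fun _ _ _ => False, by simp, by simp, by simp⟩

lemma ConeA_E_T {V : Type} [Fintype V] (x : V → ℝ) : (ConeA_E V).T x = 0 := by
  classical
  simp [ConeA_E, TG.T]

/-- the cone over `k` points, the apex is `Sum.inr ()` -/
def ConeA_K (k : ℕ) : TG (Fin k ⊕ Unit) := W_MP_880b64_co.join (ConeA_E (Fin k)) (ConeA_E Unit)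

/-- the class map: `true` on the base, `false` on the apex -/
def ConeA_cls (k : ℕ) : Fin k ⊕ Unit → Bool := Sum.elim (fun _ => true) (fun _ => false)

lemma ConeA_hK (k : ℕ) (a b c : Fin k ⊕ Unit) (h : (ConeA_K k).r a b c) :
    ¬ (ConeA_cls k a = ConeA_cls k b ∧ ConeA_cls k b = ConeA_cls k c) := by
  rcases a with a | a <;> rcases b with b | b <;> rcases c with c | c <;>
    simp_all [ConeA_K, W_MP_880b64_co.join, W_MP_880b64_co.jr, ConeA_cls, ConeA_E]

lemma ConeA_patV (k : ℕ) (t : ℝ) (y : Fin k ⊕ Unit → ℝ) :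
    patV (ConeA_K k) (ConeA_cls k) (fun i => if i = true then t else 0) y
      = 3 * y (Sum.inr ()) * ((∑ i, y (Sum.inl i)) ^ 2 - ∑ i, y (Sum.inl i) ^ 2)
        + t * (∑ i, y (Sum.inl i)) ^ 3 := by
  unfold patV ConeA_K
  rw [W_MP_880b64_co.T_join, ConeA_E_T, ConeA_E_T]
  simp [ConeA_cls]

/-- **Cones.**  Pattern on `Option (Fin k)`: apex `none`, edges `{none, some i, some j}`, `i ≠ j`;
two classes: the apex alone (filled with `0`), and all `some i` together (variable).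

With `b = ∑ y (some i)`, `y none = 1 - b`: `K.T y = 3 (1-b) (b² - ∑ y(some i)²)
≤ 3 (1-b) b² (1 - 1/k)`, equality for `y (some i) = b/k`. -/
theorem cone_op (k : ℕ) (hk : 2 ≤ k) : ∃ f : ℝ → ℝ, IsOp f ∧
    (∀ t B : ℝ, (∀ b ∈ Set.Icc (0:ℝ) 1, t * b ^ 3 + 3 * (1 - 1 / (k:ℝ)) * (1 - b) * b ^ 2 ≤ B) →
      f t ≤ B) ∧
    (∀ t : ℝ, ∀ b ∈ Set.Icc (0:ℝ) 1, t * b ^ 3 + 3 * (1 - 1 / (k:ℝ)) * (1 - b) * b ^ 2 ≤ f t) := by
  classical
  have hk0 : (0:ℝ) < k := by
    have : 0 < k := by omega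
    exact_mod_cast this
  haveI : Nonempty (Fin k ⊕ Unit) := ⟨Sum.inr ()⟩
  refine ⟨fun t => patPhi (ConeA_K k) (ConeA_cls k) (fun i => if i = true then t else 0), ?_, ?_, ?_⟩
  · apply isOp_pat (ConeA_K k) (ConeA_cls k) (ConeA_hK k) (fun i => i = true)
      (Sum.inl ⟨0, by omega⟩) rfl (fun _ => 0)
    intro i _
    exact W_MP_880b64_co.zero_mem_Lam
  · intro t B hB
    obtain ⟨⟨y, hy, he⟩, -⟩ := patPhi_spec (ConeA_K k) (ConeA_cls k)
      (fun i => if i = true then t else 0)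
    change patPhi (ConeA_K k) (ConeA_cls k) (fun i => if i = true then t else 0) ≤ B
    rw [← he, ConeA_patV]
    have hsum : (∑ i, y (Sum.inl i)) + y (Sum.inr ()) = 1 := by
      have := hy.2
      rw [Fintype.sum_sum_type] at this
      simpa using this
    set b : ℝ := ∑ i, y (Sum.inl i) with hb
    have hb0 : 0 ≤ b := Finset.sum_nonneg fun i _ => hy.1 _
    have hr0 : 0 ≤ y (Sum.inr ()) := hy.1 _
    have hbI : b ∈ Set.Icc (0:ℝ) 1 := ⟨hb0, by linarith⟩
    have hcs : b ^ 2 ≤ k * ∑ i, y (Sum.inl i) ^ 2 := by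
      have := sq_sum_le_card_mul_sum_sq (s := (univ : Finset (Fin k)))
        (f := fun i => y (Sum.inl i))
      simpa using this
    have hcs' : b ^ 2 / k ≤ ∑ i, y (Sum.inl i) ^ 2 := by
      rw [div_le_iff₀ hk0]
      linarith
    have h1 := hB b hbI
    have h2 : y (Sum.inr ()) = 1 - b := by linarith
    rw [h2] at hr0 ⊢
    have h3 : 3 * (1 - b) * (b ^ 2 - ∑ i, y (Sum.inl i) ^ 2) ≤ 3 * (1 - b) * (b ^ 2 - b ^ 2 / k) := by
      apply mul_le_mul_of_nonneg_left _ (by linarith)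
      linarith
    have h4 : 3 * (1 - b) * (b ^ 2 - b ^ 2 / k) = 3 * (1 - 1 / (k:ℝ)) * (1 - b) * b ^ 2 := by
      ring
    linarith
  · intro t b hb
    change _ ≤ patPhi (ConeA_K k) (ConeA_cls k) (fun i => if i = true then t else 0)
    have hmem : (Sum.elim (fun _ => b / k) (fun _ => 1 - b) : Fin k ⊕ Unit → ℝ)
        ∈ stdSimplex ℝ (Fin k ⊕ Unit) := by
      refine ⟨?_, ?_⟩
      · rintro (i | i)
        · exact div_nonneg hb.1 hk0.le
        · exact sub_nonneg.2 hb.2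
      · rw [Fintype.sum_sum_type]
        simp only [Sum.elim_inl, Sum.elim_inr, Finset.sum_const, Finset.card_univ, Fintype.card_fin,
          nsmul_eq_mul, Fintype.card_unit, Nat.cast_one, one_mul]
        field_simp
        ring
    refine le_trans (le_of_eq ?_) ((patPhi_spec (ConeA_K k) (ConeA_cls k)
      (fun i => if i = true then t else 0)).2 _ hmem)
    rw [ConeA_patV]
    simp only [Sum.elim_inl, Sum.elim_inr, Finset.sum_const, Finset.card_univ, Fintype.card_fin,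
      nsmul_eq_mul]
    field_simp
    ring

end W880b64
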