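import Pool.Agent.W_880b64_h21.GermB

/-!
# The germ `(c0, c0 + 0.00016)` (task G4)
-/

namespace W880b64

open Finset BigOperators
open W_MP_880b64_co (TG Lam)

theorem Germ_mono {a b : ℝ} (ha : 0 ≤ a) (hab : a ≤ b) : gg a ≤ gg b := by
  unfold gg
  have h1 : 0 ≤ 16 / 81 - s3 / 9 := by linarith [s3_hi]
  have h2 : 0 ≤ CC / 81 := by linarith [CC_lo]
  have h3 : a ^ 2 ≤ b ^ 2 := pow_le_pow_left₀ ha hab 2
  exact add_le_add (mul_le_mul_of_nonneg_left hab h1) (mul_le_mul_of_nonneg_left h3 h2)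

theorem Germ_le {a : ℝ} (ha : 0 ≤ a) (ha1 : a ≤ 1) : gg a ≤ a := by
  unfold gg
  have h1 : a ^ 2 ≤ a := by nlinarith
  have h2 : (16 / 81 - s3 / 9) * a ≤ 0.1 * a :=
    mul_le_mul_of_nonneg_right (by linarith [s3_lo]) ha
  have h3 : CC / 81 * a ^ 2 ≤ 0.1 * a ^ 2 :=
    mul_le_mul_of_nonneg_right (by linarith [CC_hi]) (sq_nonneg a)
  nlinarith

theorem Germ_step (p p' : ℕ) [Fact p.Prime] [Fact p'.Prime] (hp : 11 ≤ p) (hp' : 2 ≤ p') {y : ℝ}
    (hy0 : c0 < y) (hy : y < VC (EM p) (fun _ => 0)) (hy' : VC (EM p') (fun _ => 0) ≤ y)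
    (hnum : 5.56 * (s3 * (1 / (9 * p) + 4 / 5 * gg (1 / p)) + gg (1 / p)) ≤
      8 * (p : ℝ) ^ 2 * (0.2548 * gg (1 / p'))) :
    ∃ f, IsOp f ∧ f c0 ≤ y ∧ y < f y := by
  refine germ_p p hp hy0 hy (le_trans hnum ?_)
  have h1 := VC_p_lower p' hp'
  apply mul_le_mul_of_nonneg_left _ (by positivity)
  linarith

theorem Germ_num1 : 5.56 * (s3 * (1 / (9 * 11) + 4 / 5 * gg (1 / 11)) + gg (1 / 11)) ≤
    8 * (11 : ℝ) ^ 2 * (0.2548 * gg (1 / 13)) := by
  unfold gg CC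
  have h := s3_sq
  have h1 := s3_lo
  have h2 := s3_hi
  nlinarith

theorem Germ_num2 : 5.56 * (s3 * (1 / (9 * 13) + 4 / 5 * gg (1 / 13)) + gg (1 / 13)) ≤
    8 * (13 : ℝ) ^ 2 * (0.2548 * gg (1 / 17)) := by
  unfold gg CC
  have h := s3_sq
  have h1 := s3_lo
  have h2 := s3_hi
  nlinarith

theorem Germ_num3 {P Q : ℝ} (hP : 17 ≤ P) (hQ0 : 0 < Q) (hQ : Q ≤ 2 * P) :
    5.56 * (s3 * (1 / (9 * P) + 4 / 5 * gg (1 / P)) + gg (1 / P)) ≤
      8 * P ^ 2 * (0.2548 * gg (1 / Q)) := by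
  have hP0 : 0 < P := by linarith
  set t := 1 / P with ht
  have ht0 : 0 < t := by rw [ht]; positivity
  have htP : t * P = 1 := by rw [ht]; field_simp
  have ht1 : t ≤ 1 / 17 := by
    rw [ht]
    exact one_div_le_one_div_of_le (by norm_num) hP
  have e1 : 1 / (9 * P) = t / 9 := by rw [ht]; field_simp
  have h1 : gg t ≤ 0.0062546 * t := by
    unfold gg
    have h2 : (16 / 81 - s3 / 9) * t ≤ 0.0050809 * t :=
      mul_le_mul_of_nonneg_right (by linarith [s3_lo]) ht0.le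
    have h3 : CC / 81 * t ^ 2 ≤ 0.0199510 * t ^ 2 :=
      mul_le_mul_of_nonneg_right (by linarith [CC_hi]) (sq_nonneg t)
    have h4 : t ^ 2 ≤ 1 / 17 * t := by
      rw [pow_two]
      exact mul_le_mul_of_nonneg_right ht1 ht0.le
    linarith
  have h2 : 0.00254 * t ≤ gg (1 / Q) := by
    have h3 : t / 2 ≤ 1 / Q := by
      rw [le_div_iff₀ hQ0]
      nlinarith
    have h4 := Germ_mono (by positivity) h3
    refine le_trans ?_ h4
    unfold gg
    have h5 : 0.00508 * (t / 2) ≤ (16 / 81 - s3 / 9) * (t / 2) :=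
      mul_le_mul_of_nonneg_right (by linarith [s3_hi]) (by positivity)
    have h6 : 0 ≤ CC / 81 * (t / 2) ^ 2 := by
      have := CC_lo
      have h7 : 0 ≤ CC / 81 := by linarith
      exact mul_nonneg h7 (sq_nonneg _)
    linarith
  rw [e1]
  have h3 : s3 * (t / 9 + 4 / 5 * gg t) ≤ 1.7320509 * (t / 9 + 4 / 5 * (0.0062546 * t)) := by
    apply mul_le_mul s3_hi.le (by linarith) _ (by norm_num)
    have h5 : 0 ≤ gg t := by
      have h6 := Germ_mono le_rfl ht0.le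
      have h7 : gg 0 = 0 := by unfold gg; ring
      linarith
    positivity
  have h4 : 5.56 * (s3 * (t / 9 + 4 / 5 * gg t) + gg t) ≤ 1.1531 * t := by linarith
  have h5 : 8 * P ^ 2 * (0.2548 * (0.00254 * t)) ≤ 8 * P ^ 2 * (0.2548 * gg (1 / Q)) := by
    apply mul_le_mul_of_nonneg_left _ (by positivity)
    linarith
  have h6 : 8 * P ^ 2 * (0.2548 * (0.00254 * t)) = 8 * 0.2548 * 0.00254 * P := by
    have : P ^ 2 * t = P := by
      calc P ^ 2 * t = P * (t * P) := by ring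
        _ = P := by rw [htP, mul_one]
    calc 8 * P ^ 2 * (0.2548 * (0.00254 * t)) = 8 * 0.2548 * 0.00254 * (P ^ 2 * t) := by ring
      _ = _ := by rw [this]
  refine h4.trans (le_trans ?_ h5)
  rw [h6]
  nlinarith

/-- one step in the sequence of primes -/
theorem Germ_next {y : ℝ} (hy0 : c0 < y) (hno : ¬ ∃ f, IsOp f ∧ f c0 ≤ y ∧ y < f y) (p : ℕ)
    [Fact p.Prime] (hp : 11 ≤ p) (hy : y < VC (EM p) (fun _ => 0)) :
    ∃ q : ℕ, p < q ∧ ∃ _ : Fact q.Prime, y < VC (EM q) (fun _ => 0) := by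
  have hpp : p.Prime := Fact.out
  have main : ∀ q : ℕ, ∀ hq : Fact q.Prime, 2 ≤ q →
      5.56 * (s3 * (1 / (9 * p) + 4 / 5 * gg (1 / p)) + gg (1 / p)) ≤
        8 * (p : ℝ) ^ 2 * (0.2548 * gg (1 / q)) → y < VC (EM q) (fun _ => 0) := by
    intro q hq h2 hnum
    by_contra hcon
    push Not at hcon
    exact hno (Germ_step p q hp h2 hy0 hy hcon hnum)
  rcases Nat.lt_or_ge p 17 with h17 | h17
  · have hcases : p = 11 ∨ p = 13 := by
      interval_cases p
      · left; rfl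
      · exact absurd hpp (by norm_num)
      · right; rfl
      · exact absurd hpp (by norm_num)
      · exact absurd hpp (by norm_num)
      · exact absurd hpp (by norm_num)
    rcases hcases with rfl | rfl
    · have hq : Fact (Nat.Prime 13) := ⟨by norm_num⟩
      refine ⟨13, by norm_num, hq, main 13 hq (by norm_num) ?_⟩
      have := Germ_num1
      push_cast
      exact this
    · have hq : Fact (Nat.Prime 17) := ⟨by norm_num⟩
      refine ⟨17, by norm_num, hq, main 17 hq (by norm_num) ?_⟩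
      have := Germ_num2
      push_cast
      exact this
  · obtain ⟨q, hqp, hlt, hle⟩ := Nat.exists_prime_lt_and_le_two_mul p (by omega)
    have hq : Fact q.Prime := ⟨hqp⟩
    refine ⟨q, hlt, hq, main q hq hqp.two_le ?_⟩
    apply Germ_num3
    · exact_mod_cast h17
    · exact_mod_cast hqp.pos
    · exact_mod_cast hle

/-- Proof.  `VC (EM p) 0 → c0` (`VC_p_upper`), so there is a largest prime `p ≥ 11` with
`y < VC (EM p) 0`.  Let `p'` be the next prime; `y ≥ VC (EM p') 0 ≥ c0 + 0.2548 gg (1/p')`.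
`p' = 13` for `p = 11`, `p' = 17` for `p = 13`, `p' ≤ 2p` for `p ≥ 17` (Bertrand,
`Nat.exists_prime_lt_and_le_two_mul`; `gg` is increasing on `[0,1]`).
Check `hY` of `germ_p`: `gg (1/13) ≥ 0.0005088`, `gg (1/17) ≥ 0.00036787`:
`p = 11`: left `0.1056`, right `≥ 8·121·0.2548·0.0005088 = 0.1254`;
`p = 13`: left `0.0891`, right `≥ 8·169·0.2548·0.00036787 = 0.1267`;
`p ≥ 17`: left `≤ 1.1531/p`, right `≥ 8p²·0.2548·0.0050808/(2p) ≥ 0.005178 p`, `p² ≥ 289`. -/
theorem cover_germ {y : ℝ} (hy0 : c0 < y) (hy : y < VC (EM 11) (fun _ => 0)) :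
    ∃ f, IsOp f ∧ f c0 ≤ y ∧ y < f y := by
  by_contra hno
  have hall : ∀ N : ℕ, ∃ q : ℕ, N ≤ q ∧ 11 ≤ q ∧ ∃ _ : Fact q.Prime,
      y < VC (EM q) (fun _ => 0) := by
    intro N
    induction N with
    | zero =>
      have h11 : Fact (Nat.Prime 11) := ⟨by norm_num⟩
      exact ⟨11, by norm_num, le_rfl, h11, hy⟩
    | succ N ih =>
      obtain ⟨q, hN, hq11, hq, hyq⟩ := ih
      obtain ⟨r, hr, hrp, hyr⟩ := Germ_next hy0 hno q hq11 hyq
      exact ⟨r, by omega, by omega, hrp, hyr⟩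
  obtain ⟨N, hN⟩ := exists_nat_gt (1 / (y - c0))
  obtain ⟨q, hNq, hq11, hq, hyq⟩ := hall N
  have h1 := VC_p_upper q hq11
  have hd : 0 < y - c0 := by linarith
  have hq0 : (0 : ℝ) < q := by exact_mod_cast (by omega : 0 < q)
  have h2 : gg (1 / (q : ℝ)) ≤ 1 / q := by
    apply Germ_le (by positivity)
    rw [div_le_one hq0]
    exact_mod_cast (by omega : 1 ≤ q)
  have h3 : 1 / (q : ℝ) < y - c0 := by
    rw [div_lt_iff₀ hq0]
    have h4 : (N : ℝ) ≤ q := by exact_mod_cast hNq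
    have h5 : 1 < N * (y - c0) := by rwa [div_lt_iff₀ hd] at hN
    nlinarith
  linarith

end W880b64
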