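import Pool.Agent.W_880b64_h21.Key3
import Pool.Agent.W_880b64_h21.LocAbs

/-!
# Localisation of maximisers, `M = 3`, 12 removed edges (task H12)
-/

namespace W880b64

open Finset BigOperators

theorem Loc3b_a {a q Ψ : ℝ} (ha0 : 0 < a) (ha1 : a < 1) (hq : q ≤ 1 / 27 + 0.0186 ^ 2)
    (hΨ : Ψ ≤ 0.00128)
    (h : a ≤ 2 * c0 / (1 + c0 - q) + 4 * c0 * a * Ψ / (1 + c0 - q) ^ 2) :
    a ^ 3 ≤ 6.53 * (1 - a) ^ 3 := by
  have hc1 := c0_lo
  have hc2 := c0_hi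
  have hA : 1.426718 ≤ 1 + c0 - q := by
    norm_num at hq ⊢
    linarith
  have hA2 : 1.426718 ^ 2 ≤ (1 + c0 - q) ^ 2 := pow_le_pow_left₀ (by norm_num) hA 2
  have hA0 : 0 < 1 + c0 - q := lt_of_lt_of_le (by norm_num) hA
  have h1 : 2 * c0 / (1 + c0 - q) ≤ 0.650588 := by
    rw [div_le_iff₀ hA0]
    norm_num at hq ⊢
    linarith
  have h2 : 4 * c0 * a * Ψ / (1 + c0 - q) ^ 2 ≤ 0.001168 * a := by
    rw [div_le_iff₀ (by positivity)]
    have h3 : 4 * c0 * a * Ψ ≤ 4 * c0 * a * 0.00128 :=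
      mul_le_mul_of_nonneg_left hΨ (by positivity)
    have h4 : 0.001168 * a * 1.426718 ^ 2 ≤ 0.001168 * a * (1 + c0 - q) ^ 2 :=
      mul_le_mul_of_nonneg_left hA2 (by positivity)
    have h5 : 4 * c0 * a * 0.00128 ≤ 4 * 0.4641018 * a * 0.00128 := by
      have : c0 * a ≤ 0.4641018 * a := mul_le_mul_of_nonneg_right hc2.le ha0.le
      linarith
    have h6 : 4 * 0.4641018 * a * 0.00128 ≤ 0.001168 * a * 1.426718 ^ 2 := by
      have : (4 * 0.4641018 * 0.00128 : ℝ) ≤ 0.001168 * 1.426718 ^ 2 := by norm_num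
      nlinarith
    linarith
  have h3 : a ≤ 0.65136 := by
    norm_num at h1 h2 h ⊢
    linarith
  have h4 : a ^ 3 ≤ 0.65136 ^ 3 := pow_le_pow_left₀ ha0.le h3 3
  have h5 : (0.34864 : ℝ) ^ 3 ≤ (1 - a) ^ 3 := by
    apply pow_le_pow_left₀ (by norm_num)
    norm_num at h3 ⊢
    linarith
  have h6 : (0.65136 : ℝ) ^ 3 ≤ 6.53 * 0.34864 ^ 3 := by norm_num
  have h7 : 6.53 * (0.34864 : ℝ) ^ 3 ≤ 6.53 * (1 - a) ^ 3 :=
    mul_le_mul_of_nonneg_left h5 (by norm_num)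
  linarith

theorem Loc3b_cs {V : Type} [Fintype V] {p q : V → ℝ} (hp : ∑ v, p v ^ 2 ≤ 6)
    (hq : ∑ v, q v ^ 2 ≤ 1 / 3) :
    ∑ v, (6 / 729 * p v + 3 / 729 * q v) ^ 2 ≤ 0.022537 ^ 2 := by
  have h1 : ∑ v, (6 / 729 * p v + 3 / 729 * q v) ^ 2 =
      (6 / 729) ^ 2 * ∑ v, p v ^ 2 + 2 * (6 / 729) * (3 / 729) * ∑ v, p v * q v +
        (3 / 729) ^ 2 * ∑ v, q v ^ 2 := by
    rw [mul_sum, mul_sum, mul_sum, ← sum_add_distrib, ← sum_add_distrib]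
    refine sum_congr rfl (fun v _ => ?_)
    ring
  have h2 : (∑ v, p v * q v) ^ 2 ≤ 2 := by
    refine (sum_mul_sq_le_sq_mul_sq univ p q).trans ?_
    have hp0 : 0 ≤ ∑ v, p v ^ 2 := sum_nonneg (fun v _ => sq_nonneg _)
    have hq0 : 0 ≤ ∑ v, q v ^ 2 := sum_nonneg (fun v _ => sq_nonneg _)
    nlinarith
  have h3 : ∑ v, p v * q v ≤ 1.41422 := by
    by_contra h
    push Not at h
    have : (1.41422 : ℝ) ^ 2 < (∑ v, p v * q v) ^ 2 := pow_lt_pow_left₀ h (by norm_num) (by norm_num)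
    norm_num at this
    linarith
  rw [h1]
  norm_num at h3 ⊢
  linarith

/-- **Localisation for `M = 3`, 12 removed edges** (`f = rv Ra + rv Rb` is `2` on 9 vertices, `1` on
the other 18: hypotheses `hf1`, `hf2`).

Proof.  As `loc3a`, with the norm of `-(6/729)(f - mean f)` at most `(6/729)√6` and
`-(f v - mean f) ≤ 1/3`; Minkowski: `lam = (6/729)√6 + (2/9)(3/729)√27/2 = 0.0225364`,
`l v ≤ (6/729)/3 + (2/9)(3/729) = 0.0036580`.  `loc_abs` with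
`α = 1.3365 - 2.14·0.00086 = 1.33465`, `r1 = 0.0186`: `(α-βr1) r1 = 0.022677 ≥ lam`;
`x v ≤ 1/27 + (0.003658 + 0.0225364)/(2·1.21923) ≤ 0.0478`.
`Th - tau ≤ 0.00086 + 0.0225364·0.0186 ≤ 0.00128`, `a ≤ 0.650588 + 0.001168 a`, `a ≤ 0.65136`,
`(a/(1-a))³ ≤ 6.522`. -/
theorem loc3b {Ra Rb : Finset (Finset (VV 3))} (hRa : Ra ⊆ EM 3) (hRb : Rb ⊆ EM 3)
    (hab : Disjoint Ra Rb) (hda : (Ra : Set (Finset (VV 3))).PairwiseDisjoint id)
    (hdb : (Rb : Set (Finset (VV 3))).PairwiseDisjoint id) {s : VV 3 → ℝ}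
    (hs : ∀ v, 0 ≤ s v ∧ s v ≤ 11 / 25) {a : ℝ} (ha : a ∈ Set.Icc (0:ℝ) 1) {x : VV 3 → ℝ}
    (hx : x ∈ stdSimplex ℝ (VV 3))
    (hmax : fv (EM 3 \ (Ra ∪ Rb)) s a x = VC (EM 3 \ (Ra ∪ Rb)) s)
    (hgt : c0 < VC (EM 3 \ (Ra ∪ Rb)) s) (hP : 0 ≤ PsiU 3 (Ra ∪ Rb).card (∑ v, s v))
    (hP' : PsiU 3 (Ra ∪ Rb).card (∑ v, s v) ≤ 0.00086)
    (hf1 : ∑ v, (rv Ra v + rv Rb v - (∑ u, (rv Ra u + rv Rb u)) / 27) ^ 2 ≤ 6)
    (hf2 : ∀ v, (∑ u, (rv Ra u + rv Rb u)) / 27 - (rv Ra v + rv Rb v) ≤ 1 / 3)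
    {β d : ℝ} (hg : ∀ v, s v = β ∨ s v = β + d) (hd0 : 0 ≤ d) (hd : d ≤ 2 / 9) :
    (∀ v, x v ≤ 0.0478) ∧ a ^ 3 ≤ 6.53 * (1 - a) ^ 3 := by
  have h3 : (2:ℕ) ≤ 3 := by norm_num
  have hT : Th (EM 3 \ (Ra ∪ Rb)) s x ≤ c0 := Th_le_c0 h3 sdiff_subset hs hx
  obtain ⟨ha0, ha1, hq1, htau, hma, -⟩ := max_facts ha hx hT hmax hgt
  obtain ⟨hD13, hval⟩ := value3 hRa hRb hab hda hdb hs hx hq1.le htau
  have hkey := key3 hRa hRb hab hda hdb hs ha hx hmax hgt hP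
  set P := PsiU 3 (Ra ∪ Rb).card (∑ v, s v) with hPdef
  -- the deviation
  have h27 : (1 / (9 * ((3:ℕ):ℝ))) = 1 / 27 := by norm_num
  have hD : ∑ v, (x v - 1 / 27) ^ 2 = sq2 x - 1 / 27 := by
    have h := dev_sq (M := 3) hx
    rw [h27] at h
    exact h
  have hD0 : 0 ≤ sq2 x - 1 / 27 := by
    rw [← hD]
    exact sum_nonneg (fun v _ => sq_nonneg _)
  have hcard : Fintype.card (VV 3) = 27 := by
    simp [VV, P9, Fintype.card_prod, ZMod.card]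
  have hsum : ∑ v, (x v - 1 / 27) = 0 := by
    rw [sum_sub_distrib, hx.2, sum_const, card_univ, hcard]
    norm_num
  -- the linear form
  set mf := (∑ u, (rv Ra u + rv Rb u)) / 27 with hmf
  set mg := (∑ u, s u) / 27 with hmg
  obtain ⟨l, hl⟩ : ∃ l : VV 3 → ℝ, l = fun v =>
      6 / 729 * (mf - (rv Ra v + rv Rb v)) + 3 / 729 * (s v - mg) := ⟨_, rfl⟩
  have hlin : ∑ v, (-(6 / 729) * (rv Ra v + rv Rb v) + 3 / 729 * s v) * (x v - 1 / 27) =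
      ∑ v, l v * (x v - 1 / 27) := by
    have h1 : ∑ v, l v * (x v - 1 / 27) =
        ∑ v, (-(6 / 729) * (rv Ra v + rv Rb v) + 3 / 729 * s v) * (x v - 1 / 27) +
          (6 / 729 * mf - 3 / 729 * mg) * ∑ v, (x v - 1 / 27) := by
      rw [mul_sum, ← sum_add_distrib]
      refine sum_congr rfl (fun v _ => ?_)
      rw [hl]
      ring
    rw [h1, hsum]
    ring
  obtain ⟨hn1, hn2⟩ := norm_l (V := VV 3) (f := fun _ => 0) (g := s) (k := 0) (β := β) (d := d)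
    (A := 0) (B := 1) (by rw [hcard]; norm_num) (fun v => Or.inl rfl) hg hd0 hd le_rfl
    (by norm_num)
  rw [hcard] at hn1
  have hcast : (((27 : ℕ)) : ℝ) = 27 := by norm_num
  rw [hcast] at hn1
  have hq2 : ∑ v, (s v - mg) ^ 2 ≤ 1 / 3 := by
    have e1 : ∑ v, (s v - mg) ^ 2 ≤ ((0 + 2 / 9 * 1) * Real.sqrt 27 / 2) ^ 2 := by
      refine le_trans (le_of_eq ?_) hn1
      refine sum_congr rfl (fun v _ => ?_)
      rw [hmg]
      ring
    refine e1.trans (le_of_eq ?_)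
    have e2 : Real.sqrt 27 ^ 2 = 27 := Real.sq_sqrt (by norm_num)
    calc ((0 + 2 / 9 * 1) * Real.sqrt 27 / 2) ^ 2 = (1 / 9) ^ 2 * Real.sqrt 27 ^ 2 := by ring
      _ = 1 / 3 := by rw [e2]; norm_num
  have hsv : ∀ v, s v - mg ≤ 2 / 9 := by
    intro v
    have e1 := hn2 v
    rw [hcard, hcast] at e1
    rw [hmg]
    linarith
  have hll : ∑ v, l v ^ 2 ≤ 0.022537 ^ 2 := by
    rw [hl]
    refine Loc3b_cs (p := fun v => mf - (rv Ra v + rv Rb v)) (q := fun v => s v - mg) ?_ hq2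
    refine le_trans (le_of_eq ?_) hf1
    refine sum_congr rfl (fun v _ => ?_)
    ring
  have hlv : ∀ v, l v ≤ 0.003658 := by
    intro v
    have e1 := hf2 v
    have e2 := hsv v
    rw [hl]
    show 6 / 729 * (mf - (rv Ra v + rv Rb v)) + 3 / 729 * (s v - mg) ≤ 0.003658
    norm_num
    linarith
  -- localisation
  have hkey' : (1.33465 - 6.205 * Real.sqrt (∑ v, (x v - 1 / 27) ^ 2)) *
      ∑ v, (x v - 1 / 27) ^ 2 ≤ ∑ v, l v * (x v - 1 / 27) := by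
    rw [← hlin, hD]
    refine le_trans ?_ hkey
    apply mul_le_mul_of_nonneg_right _ hD0
    norm_num at hP' ⊢
    linarith
  have hr0 : Real.sqrt (∑ v, (x v - 1 / 27) ^ 2) ≤ 0.11684 := by
    rw [hD]
    refine Real.sqrt_le_iff.2 ⟨by norm_num, ?_⟩
    refine hD13.trans ?_
    norm_num
  obtain ⟨hr1, hdel⟩ := loc_abs (δ := fun v => x v - 1 / 27) (l := l) (lam := 0.022537)
    (α := 1.33465) (β := 6.205) (r0 := 0.11684) (r1 := 0.0186) hkey' hll (by norm_num)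
    (by norm_num) hr0 (by norm_num) (by norm_num) (by norm_num) (by norm_num) (by norm_num)
  have hr1' : Real.sqrt (sq2 x - 1 / 27) ≤ 0.0186 := by
    rw [← hD]
    exact hr1
  constructor
  · intro v
    have e1 : x v - 1 / 27 ≤ (l v + 0.022537) / (2 * (1.33465 - 6.205 * 0.0186)) := hdel v
    have e2 := hlv v
    have e3 : (l v + 0.022537) / (2 * (1.33465 - 6.205 * 0.0186)) ≤ 0.01075 := by
      rw [div_le_iff₀ (by norm_num)]
      norm_num at e2 ⊢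
      linarith
    norm_num at e1 e3 ⊢
    linarith
  · have hsq : sq2 x ≤ 1 / 27 + 0.0186 ^ 2 := by
      have e1 := Real.sq_sqrt hD0
      have e2 : Real.sqrt (sq2 x - 1 / 27) ^ 2 ≤ 0.0186 ^ 2 :=
        pow_le_pow_left₀ (Real.sqrt_nonneg _) hr1' 2
      rw [e1] at e2
      linarith
    refine Loc3b_a ha0 ha1 hsq ?_ hma
    have e1 := lin_le (δ := fun v => x v - 1 / 27) (l := l) (lam := 0.022537) hll (by norm_num)
    have e2 : ∑ v, l v * (x v - 1 / 27) ≤ 0.022537 * Real.sqrt (sq2 x - 1 / 27) := by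
      rw [← hD]
      exact e1
    rw [hlin] at hval
    have e3 : 0 ≤ (1.3365 - 6.205 * Real.sqrt (sq2 x - 1 / 27)) * (sq2 x - 1 / 27) := by
      apply mul_nonneg _ hD0
      norm_num at hr1' ⊢
      linarith
    norm_num at hP' hval e2 e3 hr1' ⊢
    linarith

end W880b64
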