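import Pool.Agent.W_880b64_h21.Loc3a
import Pool.Agent.W_880b64_h21.Loc3b
import Pool.Agent.W_880b64_h21.C3a
import Pool.Agent.W_880b64_h21.C3b
import Pool.Agent.W_880b64_h21.Germ
import Pool.Agent.W_880b64_h21.Climb

/-!
# The range covered by `M = 3` (task H17)
-/

namespace W880b64

open Finset BigOperators
open W_MP_880b64_co (TG Lam)

theorem Cover3_psi (j σ : ℝ) : PsiU 3 j σ =
    16 / 243 - (s3 / 27 - (3 + 2 * s3) / 4 / 729) - 6 * j / 19683 + σ / 19683 := by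
  unfold PsiU tau CC
  norm_num
  ring

theorem Cover3_sum {s : VV 3 → ℝ} (hs : ∀ v, 0 ≤ s v ∧ s v ≤ 11 / 25) :
    0 ≤ ∑ v, s v ∧ ∑ v, s v ≤ 27 * (11 / 25) := by
  constructor
  · exact Finset.sum_nonneg fun v _ => (hs v).1
  · rw [← C3b_sum]
    exact Finset.sum_le_sum fun v _ => (hs v).2

/-- the step of one slot -/
theorem Cover3_step {E : Finset (Finset (VV 3))} {s0 s1 : VV 3 → ℝ} {v : VV 3}
    (huv : ∀ u, u ≠ v → s1 u = s0 u) (x : VV 3 → ℝ) :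
    Th E s1 x - Th E s0 x = (s1 v - s0 v) * x v ^ 3 := by
  unfold Th
  rw [add_sub_add_left_eq_sub, ← Finset.sum_sub_distrib]
  rw [Finset.sum_eq_single v]
  · ring
  · intro u _ hu
    rw [huv u hu]
    ring
  · intro h
    exact absurd (Finset.mem_univ v) h

/-- **The range of `M = 3`.**

Proof.  Let `j ≤ 12` be maximal with `y < VC (E3 j) (11/25)` (`j = 0` is possible).  Then
`VC (E3 j) 0 ≤ y`: for `j = 12` by `b3`, `VC_11_lower`; for `j < 12` by `c1_3` and maximality.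
`climb` gives `s0, s1, v`.  Let `(a,x)` be a maximiser for `(E3 j, s1)`.  `step_op` needs
`a³ (s1 v - s0 v) (x v)³ ≤ (y - c0)(1-a)³`; here `s1 v - s0 v ≤ 2/9`.
`j ≤ 11`: `y - c0 ≥ 0.000235` by maximality and `t3`; `loc3a`: `(2/9)·6.75·0.0508³ ≤ 0.0001967`.
`j = 12`: `y - c0 ≥ 0.000163`; `loc3b`: `(2/9)·6.53·0.0478³ ≤ 0.0001586`.
(The hypotheses of `loc3a/loc3b`: `chain3`, `chain3_12`; `PsiU 3 j σ = 0.0039103.. - 0.000304832 j
+ σ/19683 ∈ [0, 0.00452]` for `0 ≤ σ ≤ 27·11/25`, and `≤ 0.00086` for `j = 12`;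
`2/9 + d = 11/25` with `d = 49/225 ≤ 2/9`; slots `0, 2/9, 11/25` are in `Lam`: `zero_mem_Lam`,
`two_ninths_mem`, `s44_mem`.) -/
theorem cover3 {y : ℝ} (h0 : VC (EM 11) (fun _ => 0) ≤ y)
    (h1 : y < VC (E3 0) (fun _ => 11 / 25)) : ∃ f, IsOp f ∧ f c0 ≤ y ∧ y < f y := by
  classical
  have hy163 : 0.000163 ≤ y - c0 := by linarith [VC_11_lower]
  -- the last structure of the chain above `y`
  obtain ⟨j, hj, hPj, hmax⟩ : ∃ j ≤ 12, y < VC (E3 j) (fun _ => 11 / 25) ∧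
      (j < 12 → ¬ y < VC (E3 (j + 1)) (fun _ => 11 / 25)) := by
    refine ⟨Nat.findGreatest (fun j => y < VC (E3 j) (fun _ => 11 / 25)) 12,
      Nat.findGreatest_le 12, ?_, ?_⟩
    · exact Nat.findGreatest_spec (P := fun j => y < VC (E3 j) (fun _ => 11 / 25)) (m := 0)
        (by omega) h1
    · intro hlt
      exact Nat.findGreatest_is_greatest (Nat.lt_succ_self _) hlt
  have hlow : VC (E3 j) (fun _ => 0) ≤ y := by
    rcases Nat.lt_or_ge j 12 with h | h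
    · exact (c1_3 j (by omega)).trans (not_lt.1 (hmax h))
    · have : j = 12 := by omega
      subst this
      linarith [b3]
  obtain ⟨s0, s1, v, huv, hs01, hs29, hs0, hs1, hV0, hV1⟩ := climb (E3 j) hlow hPj
  obtain ⟨⟨a, ha, x, hx, hax⟩, -⟩ := VC_spec (E3 j) s1
  have hcard : ∀ e ∈ E3 j, e.card = 3 := by
    intro e he
    exact EM_card3 e (Finset.mem_sdiff.1 he).1
  have hs0L : ∀ u, s0 u ∈ Lam := by
    intro u
    rcases hs0 u with h | h | h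
    · rw [h]; exact W_MP_880b64_co.zero_mem_Lam
    · rw [h]; exact two_ninths_mem
    · rw [h]; exact s44_mem
  apply step_op hcard hs0L hV0 hV1 ha hx hax
  rw [Cover3_step huv]
  have hs1b : ∀ u, 0 ≤ s1 u ∧ s1 u ≤ 11 / 25 := by
    intro u
    rcases hs1 with h | h
    · rcases h u with h | h <;> rw [h] <;> constructor <;> norm_num
    · rcases h u with h | h <;> rw [h] <;> constructor <;> norm_num
  obtain ⟨hσ0, hσ1⟩ := Cover3_sum hs1b
  obtain ⟨c1, c2, c3, c4, c5, c6, k, c7⟩ := chain3 j hj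
  have hg : ∃ β d : ℝ, (∀ u, s1 u = β ∨ s1 u = β + d) ∧ 0 ≤ d ∧ d ≤ 2 / 9 := by
    rcases hs1 with h | h
    · refine ⟨0, 2 / 9, ?_, by norm_num, le_rfl⟩
      intro u
      rw [zero_add]
      exact h u
    · refine ⟨2 / 9, 49 / 225, ?_, by norm_num, by norm_num⟩
      intro u
      rcases h u with h | h
      · exact Or.inl h
      · right
        rw [h]
        norm_num
  obtain ⟨β, d, hg, hd0, hd⟩ := hg
  have hgt : c0 < VC (EM 3 \ (Ra3 j ∪ Rb3 j)) s1 := by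
    have : y < VC (EM 3 \ (Ra3 j ∪ Rb3 j)) s1 := hV1
    linarith
  have hjr : (j : ℝ) ≤ 12 := by exact_mod_cast hj
  have hj0 : (0 : ℝ) ≤ j := Nat.cast_nonneg j
  have hlo := s3_lo
  have hhi := s3_hi
  have hP : 0 ≤ PsiU 3 (Ra3 j ∪ Rb3 j).card (∑ u, s1 u) := by
    rw [c6, Cover3_psi]
    have : 0 ≤ (∑ u, s1 u) / 19683 := by positivity
    have h2 : 6 * (j : ℝ) / 19683 ≤ 6 * 12 / 19683 := by
      apply div_le_div_of_nonneg_right _ (by norm_num)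
      linarith
    norm_num at h2 ⊢
    linarith
  have hx0 : 0 ≤ x v := hx.1 v
  have ha1 : 0 ≤ 1 - a := by linarith [ha.2]
  have ha3 : 0 ≤ a ^ 3 := pow_nonneg ha.1 3
  have hb3 : 0 ≤ (1 - a) ^ 3 := pow_nonneg ha1 3
  have hds : s1 v - s0 v ≤ 2 / 9 := by linarith
  have hds0 : 0 ≤ s1 v - s0 v := by linarith
  -- the final estimate
  have fin : ∀ (X A Y : ℝ), x v ≤ X → a ^ 3 ≤ A * (1 - a) ^ 3 → 0 ≤ A → A * (2 / 9 * X ^ 3) ≤ Y →
      Y ≤ y - c0 → a ^ 3 * ((s1 v - s0 v) * x v ^ 3) ≤ (y - c0) * (1 - a) ^ 3 := by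
    intro X A Y hX hA hA0 hY hYy
    have e1 : x v ^ 3 ≤ X ^ 3 := pow_le_pow_left₀ hx0 hX 3
    have e2 : (s1 v - s0 v) * x v ^ 3 ≤ 2 / 9 * X ^ 3 :=
      mul_le_mul hds e1 (pow_nonneg hx0 3) (by norm_num)
    have e3 : 0 ≤ 2 / 9 * X ^ 3 := le_trans (mul_nonneg hds0 (pow_nonneg hx0 3)) e2
    calc a ^ 3 * ((s1 v - s0 v) * x v ^ 3) ≤ a ^ 3 * (2 / 9 * X ^ 3) :=
          mul_le_mul_of_nonneg_left e2 ha3
      _ ≤ A * (1 - a) ^ 3 * (2 / 9 * X ^ 3) := mul_le_mul_of_nonneg_right hA e3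
      _ = A * (2 / 9 * X ^ 3) * (1 - a) ^ 3 := by ring
      _ ≤ Y * (1 - a) ^ 3 := mul_le_mul_of_nonneg_right hY hb3
      _ ≤ (y - c0) * (1 - a) ^ 3 := mul_le_mul_of_nonneg_right hYy hb3
  rcases Nat.lt_or_ge j 12 with h | h
  · have hy235 : 0.000235 ≤ y - c0 := by
      have h2 : VC (EM 3 \ (Ra3 (j + 1) ∪ Rb3 (j + 1))) (fun _ => 11 / 25) ≤ y :=
        not_lt.1 (hmax h)
      have h3 := t3 (j + 1) (by omega)
      linarith
    have hP' : PsiU 3 (Ra3 j ∪ Rb3 j).card (∑ u, s1 u) ≤ 0.00452 := by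
      rw [c6, Cover3_psi]
      have h1 : (∑ u, s1 u) / 19683 ≤ 27 * (11 / 25) / 19683 :=
        div_le_div_of_nonneg_right hσ1 (by norm_num)
      have h2 : 0 ≤ 6 * (j : ℝ) / 19683 := by positivity
      norm_num at h1 ⊢
      linarith
    obtain ⟨l1, l2⟩ := loc3a c1 c2 c3 c4 c5 hs1b ha hx hax hgt hP hP' c7 hg hd0 hd
    exact fin 0.0508 6.75 0.0002 (l1 v) l2 (by norm_num) (by norm_num) (by linarith)
  · have hj12 : j = 12 := by omega
    have hP' : PsiU 3 (Ra3 j ∪ Rb3 j).card (∑ u, s1 u) ≤ 0.00086 := by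
      rw [c6, Cover3_psi]
      have h1 : (∑ u, s1 u) / 19683 ≤ 27 * (11 / 25) / 19683 :=
        div_le_div_of_nonneg_right hσ1 (by norm_num)
      rw [hj12]
      push_cast
      norm_num at h1 ⊢
      linarith
    have hf := chain3_12
    rw [← hj12] at hf
    obtain ⟨l1, l2⟩ := loc3b c1 c2 c3 c4 c5 hs1b ha hx hax hgt hP hP' hf.1 hf.2 hg hd0 hd
    exact fin 0.0478 6.53 0.000163 (l1 v) l2 (by norm_num) (by norm_num) hy163

end W880b64
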