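import Pool.Agent.W_880b64_h21.C2a
import Pool.Agent.W_880b64_h21.C2b
import Pool.Agent.W_880b64_h21.Cover3

/-!
# The range covered by `M = 2` (task H20)
-/

namespace W880b64

open Finset BigOperators
open W_MP_880b64_co (TG Lam)

/-- the values at the uniform point -/
theorem Cover2_psi {j : ℕ} (hj2 : 2 ≤ j) (hj4 : j ≤ 4) {σ : ℝ} (h0 : 0 ≤ σ)
    (h1 : σ ≤ 18 * (11 / 25)) : 0 ≤ PsiU 2 j σ ∧ PsiU 2 j σ ≤ 0.00683 := by
  have e : PsiU 2 j σ = 8 / 81 - s3 / 18 + (3 + 2 * s3) / 4 / 324 - 6 * j / 5832 + σ / 5832 := by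
    unfold PsiU tau CC
    push_cast
    norm_num
    ring
  have hj2' : (2 : ℝ) ≤ j := by exact_mod_cast hj2
  have hj4' : (j : ℝ) ≤ 4 := by exact_mod_cast hj4
  have h3 := s3_lo
  have h4 := s3_hi
  rw [e]
  constructor
  · linarith
  · linarith

/-- one step inside a level -/
theorem Cover2_step {y : ℝ} (hy : c0 + 0.001241 ≤ y) {j : ℕ} (hj2 : 2 ≤ j) (hj4 : j ≤ 4)
    (h0 : VC (E2 j) (fun _ => 0) ≤ y) (h1 : y < VC (E2 j) (fun _ => 11 / 25)) :
    ∃ f, IsOp f ∧ f c0 ≤ y ∧ y < f y := by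
  obtain ⟨s0, s1, v, hne, hle, hle2, hs0, hs1, hV0, hV1⟩ := climb (E2 j) h0 h1
  obtain ⟨hRs, hRd, hRc, hRf⟩ := chain2 j hj4
  obtain ⟨⟨a, ha, x, hx, hax⟩, -⟩ := VC_spec (E2 j) s1
  have hs1' : ∀ u, 0 ≤ s1 u ∧ s1 u ≤ 11 / 25 := by
    intro u
    rcases hs1 with h | h <;> rcases h u with h | h <;> rw [h] <;> norm_num
  have hσ0 : 0 ≤ ∑ u, s1 u := Finset.sum_nonneg fun u _ => (hs1' u).1
  have hσ1 : ∑ u, s1 u ≤ 18 * (11 / 25) := by
    have h := Finset.sum_le_sum fun u (_ : u ∈ (Finset.univ : Finset (VV 2))) => (hs1' u).2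
    rw [Finset.sum_const, Finset.card_univ, nsmul_eq_mul] at h
    have hcard : (Fintype.card (VV 2) : ℝ) = 18 := by
      have h : Fintype.card (VV 2) = 18 := by
        rw [Fintype.card_prod, Fintype.card_prod, ZMod.card, ZMod.card]
      rw [h]
      norm_num
    rw [hcard] at h
    exact h
  obtain ⟨hP, hP'⟩ := Cover2_psi hj2 hj4 hσ0 hσ1
  obtain ⟨β, d, hg, hd0, hd⟩ : ∃ β d : ℝ, (∀ u, s1 u = β ∨ s1 u = β + d) ∧ 0 ≤ d ∧ d ≤ 2 / 9 := by
    rcases hs1 with h | h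
    · exact ⟨0, 2 / 9, fun u => by rw [zero_add]; exact h u, by norm_num, le_rfl⟩
    · refine ⟨2 / 9, 49 / 225, fun u => ?_, by norm_num, by norm_num⟩
      rw [show (2 / 9 + 49 / 225 : ℝ) = 11 / 25 by norm_num]
      exact h u
  have hgt : c0 < VC (E2 j) s1 := by linarith
  obtain ⟨hxv, ha3⟩ := loc2 hRs hRd hs1' ha hx hax hgt (by rw [hRc]; exact hP)
    (by rw [hRc]; exact hP') hRf hg hd0 hd
  refine step_op (E0 := E2 j) (fun e he => EM_card3 e (Finset.sdiff_subset he)) ?_ hV0 hV1 ha hx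
    hax ?_
  · intro u
    rcases hs0 u with h | h | h <;> rw [h]
    · exact W_MP_880b64_co.zero_mem_Lam
    · exact two_ninths_mem
    · exact s44_mem
  · have e : Th (E2 j) s1 x - Th (E2 j) s0 x = (s1 v - s0 v) * x v ^ 3 := by
      unfold Th
      have h2 : ∑ u, s1 u * x u ^ 3 - ∑ u, s0 u * x u ^ 3 = (s1 v - s0 v) * x v ^ 3 := by
        rw [← Finset.sum_sub_distrib, Finset.sum_eq_single v]
        · ring
        · intro u _ hu
          rw [hne u hu]; ring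
        · intro h; exact absurd (Finset.mem_univ _) h
      linarith
    rw [e]
    have hx0 : 0 ≤ x v := hx.1 v
    have hx3 : x v ^ 3 ≤ 0.0823 ^ 3 := pow_le_pow_left₀ hx0 (hxv v) 3
    have hx30 : 0 ≤ x v ^ 3 := by positivity
    have hA : (s1 v - s0 v) * x v ^ 3 ≤ 2 / 9 * 0.0823 ^ 3 :=
      mul_le_mul (by linarith) hx3 hx30 (by norm_num)
    have hA0 : 0 ≤ (s1 v - s0 v) * x v ^ 3 := mul_nonneg (by linarith) hx30
    have h1a : 0 ≤ (1 - a) ^ 3 := by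
      have : 0 ≤ 1 - a := by linarith [ha.2]
      positivity
    have h2 : a ^ 3 * ((s1 v - s0 v) * x v ^ 3) ≤ 7.85 * (1 - a) ^ 3 * (2 / 9 * 0.0823 ^ 3) :=
      mul_le_mul ha3 hA hA0 (by positivity)
    have h3 : 0.001241 * (1 - a) ^ 3 ≤ (y - c0) * (1 - a) ^ 3 :=
      mul_le_mul_of_nonneg_right (by linarith) h1a
    have h4 : 7.85 * (1 - a) ^ 3 * (2 / 9 * 0.0823 ^ 3) ≤ 0.001241 * (1 - a) ^ 3 := by
      have : (7.85 * (2 / 9 * 0.0823 ^ 3) : ℝ) ≤ 0.001241 := by norm_num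
      nlinarith
    linarith

/-- **The range of `M = 2`.**  Proof: as `cover3`, with `j ∈ {2,3,4}` maximal such that
`y < VC (E2 j) (11/25)`; `j = 4`: `VC (E2 4) 0 ≤ c0 + 0.00124 ≤ y` by `b2`, `top3`;
always `y - c0 ≥ 0.001241` by `top3`; `loc2`: `(2/9)·7.85·0.0823³ ≤ 0.000973`. -/
theorem cover2 {y : ℝ} (h0 : VC (E3 0) (fun _ => 11 / 25) ≤ y) (h1 : y < 0.466) :
    ∃ f, IsOp f ∧ f c0 ≤ y ∧ y < f y := by
  have hy : c0 + 0.001241 ≤ y := top3.trans h0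
  have h2 : y < VC (E2 2) (fun _ => 11 / 25) := h1.trans_le top2
  by_cases h3 : y < VC (E2 3) (fun _ => 11 / 25)
  · by_cases h4 : y < VC (E2 4) (fun _ => 11 / 25)
    · refine Cover2_step hy (j := 4) (by norm_num) le_rfl ?_ h4
      exact b2.trans (by linarith)
    · exact Cover2_step hy (j := 3) (by norm_num) (by norm_num)
        ((c1_2 3 (by norm_num) le_rfl).trans (not_lt.1 h4)) h3
  · exact Cover2_step hy (j := 2) le_rfl (by norm_num)
      ((c1_2 2 le_rfl (by norm_num)).trans (not_lt.1 h3)) h2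

end W880b64
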