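import Pool.Agent.W_880b64_h21.P9a

/-!
# Combinatorics of `E_M` (task D1)
-/

namespace W880b64

open Finset BigOperators

section gen
variable {V : Type} [Fintype V] [DecidableEq V]

theorem T6_mono {E F : Finset (Finset V)} (h : E ⊆ F) {x : V → ℝ} (hx : ∀ v, 0 ≤ x v) :
    T6 E x ≤ T6 F x := by
  unfold T6
  have := Finset.sum_le_sum_of_subset_of_nonneg (f := fun e => ∏ v ∈ e, x v) h
    (fun e _ _ => Finset.prod_nonneg fun v _ => hx v)
  linarith

theorem T6_sdiff {E R : Finset (Finset V)} (h : R ⊆ E) (x : V → ℝ) :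
    T6 (E \ R) x = T6 E x - T6 R x := by
  unfold T6
  have := Finset.sum_sdiff (f := fun e => ∏ v ∈ e, x v) h
  linarith

theorem T6_empty (x : V → ℝ) : T6 (∅ : Finset (Finset V)) x = 0 := by simp [T6]

theorem EMa_fiber {a b c : V} (hab : a ≠ b) (hac : a ≠ c) (hbc : b ≠ c) :
    (Finset.univ : Finset (V × V × V)).filter (fun p => (p.1 ≠ p.2.1 ∧ p.2.1 ≠ p.2.2 ∧
      p.1 ≠ p.2.2) ∧ ({p.1, p.2.1, p.2.2} : Finset V) = {a, b, c}) =
      {(a, b, c), (a, c, b), (b, a, c), (b, c, a), (c, a, b), (c, b, a)} := by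
  ext ⟨u, v, w⟩
  simp only [Finset.mem_filter, Finset.mem_univ, true_and, Finset.mem_insert,
    Finset.mem_singleton, Prod.mk.injEq]
  constructor
  · rintro ⟨⟨h1, h2, h3⟩, h⟩
    have hu : u ∈ ({a, b, c} : Finset V) := h ▸ by simp
    have hv : v ∈ ({a, b, c} : Finset V) := h ▸ by simp
    have hw : w ∈ ({a, b, c} : Finset V) := h ▸ by simp
    simp only [Finset.mem_insert, Finset.mem_singleton] at hu hv hw
    rcases hu with rfl | rfl | rfl <;> rcases hv with rfl | rfl | rfl <;>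
      rcases hw with rfl | rfl | rfl <;> simp_all
  · have key : ∀ u v w : V, ({u, v, w} : Finset V) = {v, u, w} ∧
        ({u, v, w} : Finset V) = {u, w, v} := by
      intro u v w
      constructor
      · exact Finset.insert_comm _ _ _
      · rw [Finset.pair_comm v w]
    rintro (⟨rfl, rfl, rfl⟩ | ⟨rfl, rfl, rfl⟩ | ⟨rfl, rfl, rfl⟩ | ⟨rfl, rfl, rfl⟩ |
      ⟨rfl, rfl, rfl⟩ | ⟨rfl, rfl, rfl⟩)
    · exact ⟨⟨hab, hbc, hac⟩, rfl⟩
    · exact ⟨⟨hac, hbc.symm, hab⟩, (key _ _ _).2⟩
    · exact ⟨⟨hab.symm, hac, hbc⟩, (key _ _ _).1⟩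
    · exact ⟨⟨hbc, hac.symm, hab.symm⟩, by rw [(key _ _ _).2, (key _ _ _).1]⟩
    · exact ⟨⟨hac.symm, hab, hbc.symm⟩, by rw [(key _ _ _).1, (key _ _ _).2]⟩
    · exact ⟨⟨hbc.symm, hab.symm, hac.symm⟩, by rw [(key _ _ _).1, (key _ _ _).2, (key _ _ _).1]⟩

/-- `T6 E x` as an ordered triple sum (each 3-set has 6 orderings). -/
theorem T6_ordered {E : Finset (Finset V)} (hE : ∀ e ∈ E, e.card = 3) (x : V → ℝ) :
    T6 E x = ∑ u, ∑ v, ∑ w, if u ≠ v ∧ v ≠ w ∧ u ≠ w ∧ ({u, v, w} : Finset V) ∈ E then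
      x u * x v * x w else 0 := by
  have h1 : (∑ u, ∑ v, ∑ w, if u ≠ v ∧ v ≠ w ∧ u ≠ w ∧ ({u, v, w} : Finset V) ∈ E then
      x u * x v * x w else 0) = ∑ p ∈ (Finset.univ : Finset (V × V × V)).filter
        (fun p => p.1 ≠ p.2.1 ∧ p.2.1 ≠ p.2.2 ∧ p.1 ≠ p.2.2 ∧
          ({p.1, p.2.1, p.2.2} : Finset V) ∈ E), x p.1 * x p.2.1 * x p.2.2 := by
    rw [Finset.sum_filter, Fintype.sum_prod_type]
    refine Finset.sum_congr rfl fun u _ => ?_
    rw [Fintype.sum_prod_type]
  rw [h1, ← Finset.sum_fiberwise_of_maps_to (t := E)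
    (g := fun p : V × V × V => ({p.1, p.2.1, p.2.2} : Finset V))
    (fun p hp => (Finset.mem_filter.1 hp).2.2.2.2)]
  unfold T6
  rw [Finset.mul_sum]
  refine Finset.sum_congr rfl fun e he => ?_
  obtain ⟨a, b, c, hab, hac, hbc, rfl⟩ := Finset.card_eq_three.1 (hE e he)
  have h2 : Finset.filter (fun p : V × V × V => ({p.1, p.2.1, p.2.2} : Finset V) = {a, b, c})
      ((Finset.univ : Finset (V × V × V)).filter
        (fun p => p.1 ≠ p.2.1 ∧ p.2.1 ≠ p.2.2 ∧ p.1 ≠ p.2.2 ∧
          ({p.1, p.2.1, p.2.2} : Finset V) ∈ E)) =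
      {(a, b, c), (a, c, b), (b, a, c), (b, c, a), (c, a, b), (c, b, a)} := by
    rw [← EMa_fiber hab hac hbc, Finset.filter_filter]
    refine Finset.filter_congr fun p _ => ?_
    constructor
    · rintro ⟨⟨h3, h4, h5, _⟩, h7⟩
      exact ⟨⟨h3, h4, h5⟩, h7⟩
    · rintro ⟨⟨h3, h4, h5⟩, h7⟩
      exact ⟨⟨h3, h4, h5, h7 ▸ he⟩, h7⟩
  rw [h2]
  have n1 : ∀ p q r : V, p ≠ q → (p, r) ≠ (q, r) := by
    intro p q r h h'
    exact h (Prod.mk.inj h').1
  rw [Finset.sum_insert, Finset.sum_insert, Finset.sum_insert, Finset.sum_insert,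
    Finset.sum_insert, Finset.sum_singleton, Finset.prod_insert, Finset.prod_insert,
    Finset.prod_singleton]
  · ring
  all_goals simp [hab, hac, hbc, hab.symm, hac.symm, hbc.symm]

end gen

variable {M : ℕ} [NeZero M]

theorem EMa_parts {a b c : P9} (h : a ≠ b) (h0 : a + b + c = 0) : a ≠ c ∧ b ≠ c := by
  have h3 : ∀ a : P9, a + a + a = 0 := by decide
  constructor
  · rintro rfl
    apply h
    have h1 := h3 a
    have h2 : a + b + a = a + a + a := by rw [h0, h1]
    have h4 : a + b = a + a := add_right_cancel h2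
    exact (add_left_cancel h4).symm
  · rintro rfl
    apply h
    have h1 := h3 b
    have h2 : a + b + b = b + b + b := by rw [h0, h1]
    exact add_right_cancel (add_right_cancel h2)

theorem EMa_sum3 {V R : Type} [DecidableEq V] [AddCommMonoid R] {f : V → R} {u v w : V}
    (huv : u ≠ v) (huw : u ≠ w) (hvw : v ≠ w) :
    ∑ z ∈ ({u, v, w} : Finset V), f z = f u + f v + f w := by
  rw [Finset.sum_insert (by simp [huv, huw]), Finset.sum_insert (by simp [hvw]),
    Finset.sum_singleton, add_assoc]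

/-- In an edge `{u,v,w}` with `u.1 ≠ v.1`, `u.1+v.1+w.1 = 0` the three parts are distinct. -/
theorem EM_card3 : ∀ e ∈ EM M, e.card = 3 := by
  intro e he
  unfold EM at he
  rw [Finset.mem_filter] at he
  obtain ⟨_, u, v, w, rfl, h1, h2, _⟩ := he
  obtain ⟨h3, h4⟩ := EMa_parts h1 h2
  rw [Finset.card_eq_three]
  exact ⟨u, v, w, fun h => h1 (h ▸ rfl), fun h => h3 (h ▸ rfl), fun h => h4 (h ▸ rfl), rfl⟩

theorem EMa_mem {u v w : VV M} (huv : u ≠ v) (hvw : v ≠ w) (huw : u ≠ w) :
    ({u, v, w} : Finset (VV M)) ∈ EM M ↔ u.1 ≠ v.1 ∧ u.1 + v.1 + w.1 = 0 ∧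
      (u.2 + v.2 + w.2 = 0 ∨ u.2 + v.2 + w.2 = 1) := by
  constructor
  · intro he
    unfold EM at he
    rw [Finset.mem_filter] at he
    obtain ⟨_, u', v', w', h0, h1, h2, h5⟩ := he
    obtain ⟨h3, h4⟩ := EMa_parts h1 h2
    have huv' : u' ≠ v' := fun h => h1 (h ▸ rfl)
    have huw' : u' ≠ w' := fun h => h3 (h ▸ rfl)
    have hvw' : v' ≠ w' := fun h => h4 (h ▸ rfl)
    have hs1 : u.1 + v.1 + w.1 = u'.1 + v'.1 + w'.1 := by
      have e1 := congrArg (fun e : Finset (VV M) => ∑ z ∈ e, z.1) h0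
      beta_reduce at e1
      rw [EMa_sum3 huv huw hvw, EMa_sum3 huv' huw' hvw'] at e1
      exact e1
    have hs2 : u.2 + v.2 + w.2 = u'.2 + v'.2 + w'.2 := by
      have e1 := congrArg (fun e : Finset (VV M) => ∑ z ∈ e, z.2) h0
      beta_reduce at e1
      rw [EMa_sum3 huv huw hvw, EMa_sum3 huv' huw' hvw'] at e1
      exact e1
    rw [hs1, hs2]
    refine ⟨?_, h2, h5⟩
    have hu : u ∈ ({u', v', w'} : Finset (VV M)) := h0 ▸ by simp
    have hv : v ∈ ({u', v', w'} : Finset (VV M)) := h0 ▸ by simp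
    simp only [Finset.mem_insert, Finset.mem_singleton] at hu hv
    rcases hu with hu | hu | hu <;> rcases hv with hv | hv | hv <;> rw [hu, hv] at huv ⊢
    · exact absurd rfl huv
    · exact h1
    · exact h3
    · exact h1.symm
    · exact absurd rfl huv
    · exact h4
    · exact h3.symm
    · exact h4.symm
    · exact absurd rfl huv
  · rintro ⟨h1, h2, h3⟩
    unfold EM
    rw [Finset.mem_filter]
    exact ⟨Finset.mem_univ _, u, v, w, rfl, h1, h2, h3⟩

theorem EMa_inner (hM : 2 ≤ M) (x : VV M → ℝ) (i j : P9) (a b : ZMod M) :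
    (∑ w : VV M, if ((i, a) : VV M) ≠ (j, b) ∧ ((j, b) : VV M) ≠ w ∧ ((i, a) : VV M) ≠ w ∧
      ({(i, a), (j, b), w} : Finset (VV M)) ∈ EM M then x (i, a) * x (j, b) * x w else 0) =
      if i = j then 0 else
        x (i, a) * x (j, b) * (x (-i - j, -a - b) + x (-i - j, 1 - a - b)) := by
  have : Fact (1 < M) := ⟨by omega⟩
  by_cases hij : i = j
  · rw [if_pos hij]
    refine Finset.sum_eq_zero fun w _ => ?_
    rw [if_neg]
    rintro ⟨h1, h2, h3, h4⟩
    exact ((EMa_mem h1 h2 h3).1 h4).1 hij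
  · rw [if_neg hij]
    have hne : (-a - b : ZMod M) ≠ 1 - a - b := by
      intro h
      have h' : (0 : ZMod M) = 1 := by
        have h2 : (-a - b : ZMod M) + (a + b) = (1 - a - b) + (a + b) := by rw [h]
        ring_nf at h2
        exact h2
      exact zero_ne_one h'
    have hw : ∀ w : VV M, (if ((i, a) : VV M) ≠ (j, b) ∧ ((j, b) : VV M) ≠ w ∧
        ((i, a) : VV M) ≠ w ∧ ({(i, a), (j, b), w} : Finset (VV M)) ∈ EM M then
          x (i, a) * x (j, b) * x w else 0) =
        (if w = (-i - j, -a - b) then x (i, a) * x (j, b) * x w else 0) +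
        (if w = (-i - j, 1 - a - b) then x (i, a) * x (j, b) * x w else 0) := by
      intro w
      have hcond : (((i, a) : VV M) ≠ (j, b) ∧ ((j, b) : VV M) ≠ w ∧
          ((i, a) : VV M) ≠ w ∧ ({(i, a), (j, b), w} : Finset (VV M)) ∈ EM M) ↔
          (w = (-i - j, -a - b) ∨ w = (-i - j, 1 - a - b)) := by
        constructor
        · rintro ⟨h1, h2, h3, h4⟩
          obtain ⟨_, h5, h6⟩ := (EMa_mem h1 h2 h3).1 h4
          have e1 : w.1 = -i - j := by
            have h7 : i + j + w.1 = 0 := h5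
            linear_combination h7
          rcases h6 with h6 | h6
          · left
            have e2 : w.2 = -a - b := by
              have h7 : a + b + w.2 = 0 := h6
              linear_combination h7
            exact Prod.ext e1 e2
          · right
            have e2 : w.2 = 1 - a - b := by
              have h7 : a + b + w.2 = 1 := h6
              linear_combination h7
            exact Prod.ext e1 e2
        · intro h
          have e1 : w.1 = -i - j := by
            rcases h with h | h <;> rw [h]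
          have e0 : i + j + w.1 = 0 := by
            rw [e1]
            abel
          obtain ⟨p1, p2⟩ := EMa_parts hij e0
          have h1 : ((i, a) : VV M) ≠ (j, b) := fun h' => hij (Prod.mk.inj h').1
          have h2 : ((j, b) : VV M) ≠ w := fun h' => p2 (congrArg Prod.fst h')
          have h3 : ((i, a) : VV M) ≠ w := fun h' => p1 (congrArg Prod.fst h')
          refine ⟨h1, h2, h3, (EMa_mem h1 h2 h3).2 ⟨hij, e0, ?_⟩⟩
          rcases h with h | h
          · left
            show a + b + w.2 = 0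
            rw [h]
            ring
          · right
            show a + b + w.2 = 1
            rw [h]
            ring
      by_cases c1 : w = (-i - j, -a - b)
      · have c2 : w ≠ (-i - j, 1 - a - b) := by
          rw [c1]
          intro h
          exact hne (Prod.mk.inj h).2
        rw [if_pos (hcond.2 (Or.inl c1)), if_pos c1, if_neg c2, add_zero]
      · by_cases c2 : w = (-i - j, 1 - a - b)
        · rw [if_pos (hcond.2 (Or.inr c2)), if_neg c1, if_pos c2, zero_add]
        · rw [if_neg (fun h => (hcond.1 h).elim c1 c2), if_neg c1, if_neg c2, add_zero]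
    simp_rw [hw]
    rw [Finset.sum_add_distrib, Finset.sum_ite_eq', Finset.sum_ite_eq', if_pos (Finset.mem_univ _),
      if_pos (Finset.mem_univ _)]
    ring

/-- For distinct `u,v,w`: `{u,v,w} ∈ EM M ↔ u.1 ≠ v.1 ∧ u.1+v.1+w.1 = 0 ∧ (sum of the second
coordinates is 0 or 1)`; the ordered sum over `(u,v,w)` with `u = (i,a)`, `v = (j,b)`,
`w = (-i-j, -a-b)` or `(-i-j, 1-a-b)` (these two are different because `0 ≠ 1` in `ZMod M`). -/
theorem T6_EM (hM : 2 ≤ M) (x : VV M → ℝ) :
    T6 (EM M) x = ∑ i : P9, ∑ j : P9, if i = j then 0 else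
      ∑ a : ZMod M, ∑ b : ZMod M,
        x (i, a) * x (j, b) * (x (-i - j, -a - b) + x (-i - j, 1 - a - b)) := by
  rw [T6_ordered EM_card3 x, Fintype.sum_prod_type]
  refine Finset.sum_congr rfl fun i _ => ?_
  have h1 : ∀ a : ZMod M, (∑ v : VV M, ∑ w : VV M, if ((i, a) : VV M) ≠ v ∧ v ≠ w ∧
      ((i, a) : VV M) ≠ w ∧ ({(i, a), v, w} : Finset (VV M)) ∈ EM M then
        x (i, a) * x v * x w else 0) = ∑ j : P9, ∑ b : ZMod M, if i = j then 0 else
        x (i, a) * x (j, b) * (x (-i - j, -a - b) + x (-i - j, 1 - a - b)) := by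
    intro a
    rw [Fintype.sum_prod_type]
    refine Finset.sum_congr rfl fun j _ => Finset.sum_congr rfl fun b _ => ?_
    exact EMa_inner hM x i j a b
  rw [Finset.sum_congr rfl fun a _ => h1 a, Finset.sum_comm]
  refine Finset.sum_congr rfl fun j _ => ?_
  by_cases hij : i = j
  · simp [hij]
  · simp [hij]

end W880b64
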