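import Pool.Agent.W_880b64_h21.EMa

/-!
# Degrees in `E_M` and Cauchy–Schwarz (task D2)
-/

namespace W880b64

open Finset BigOperators

variable {M : ℕ} [NeZero M]

theorem EMb_p9 : ∀ i j : P9, (i = j ↔ i = -i - j) := by decide

theorem EMb_p9' : ∀ i j : P9, i ≠ j → -i - j ≠ i ∧ -i - j ≠ j ∧ i + j + (-i - j) = 0 := by decide

/-- an edge containing `v` written with `v` as the first vertex -/
theorem EMb_edge {v : VV M} {e : Finset (VV M)} (he : e ∈ EM M) (hv : v ∈ e) :
    ∃ p q : VV M, e = {v, p, q} ∧ p.1 ≠ v.1 ∧ q.1 ≠ v.1 ∧ p.1 ≠ q.1 ∧ v.1 + p.1 + q.1 = 0 ∧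
      (v.2 + p.2 + q.2 = 0 ∨ v.2 + p.2 + q.2 = 1) := by
  classical
  unfold EM at he
  obtain ⟨u, w, t, rfl, h1, h2, h3⟩ := (Finset.mem_filter.1 he).2
  have ht : t.1 = -u.1 - w.1 := by
    rw [← sub_eq_zero, ← h2]
    ring
  obtain ⟨h4, h5, -⟩ := EMb_p9' u.1 w.1 h1
  rw [← ht] at h4 h5
  rcases Finset.mem_insert.1 hv with rfl | hv
  · exact ⟨w, t, rfl, h1.symm, h4, h5.symm, h2, h3⟩
  · rcases Finset.mem_insert.1 hv with rfl | hv
    · refine ⟨u, t, ?_, h1, h5, h4.symm, ?_, ?_⟩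
      · rw [Finset.insert_comm]
      · rw [← h2]
        ring
      · have h6 : v.2 + u.2 + t.2 = u.2 + v.2 + t.2 := by ring
        rw [h6]
        exact h3
    · have hvt : v = t := Finset.mem_singleton.1 hv
      subst hvt
      refine ⟨u, w, ?_, h4.symm, h5.symm, h1, ?_, ?_⟩
      · ext x
        simp only [Finset.mem_insert, Finset.mem_singleton]
        tauto
      · rw [← h2]
        ring
      · have h6 : v.2 + u.2 + w.2 = u.2 + w.2 + v.2 := by ring
        rw [h6]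
        exact h3

/-- the parametrisation of the edges containing `v` -/
noncomputable def EMb_f (v : VV M) (t : P9 × ZMod M × Bool) : Finset (VV M) :=
  {v, (t.1, t.2.1), (-v.1 - t.1, (if t.2.2 then 1 else 0) - v.2 - t.2.1)}

theorem EMb_f_mem (v : VV M) (t : P9 × ZMod M × Bool) (ht : t.1 ≠ v.1) :
    EMb_f v t ∈ (EM M).filter (fun e => v ∈ e) := by
  classical
  refine Finset.mem_filter.2 ⟨?_, Finset.mem_insert_self _ _⟩
  unfold EM
  refine Finset.mem_filter.2 ⟨Finset.mem_univ _, v, (t.1, t.2.1),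
    (-v.1 - t.1, (if t.2.2 then 1 else 0) - v.2 - t.2.1), rfl, ht.symm, ?_, ?_⟩
  · exact (EMb_p9' v.1 t.1 ht.symm).2.2
  · by_cases hb : t.2.2 = true
    · refine Or.inr ?_
      show v.2 + t.2.1 + ((if t.2.2 = true then (1 : ZMod M) else 0) - v.2 - t.2.1) = 1
      rw [if_pos hb]
      ring
    · refine Or.inl ?_
      show v.2 + t.2.1 + ((if t.2.2 = true then (1 : ZMod M) else 0) - v.2 - t.2.1) = 0
      rw [if_neg hb]
      ring

theorem EMb_f_eq (v p q : VV M) (h1 : v.1 + p.1 + q.1 = 0)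
    (h2 : v.2 + p.2 + q.2 = 0 ∨ v.2 + p.2 + q.2 = 1) :
    ∃ b : Bool, EMb_f v (p.1, p.2, b) = {v, p, q} := by
  have h3 : -v.1 - p.1 = q.1 := by
    rw [← sub_eq_zero]
    have h4 : -v.1 - p.1 - q.1 = -(v.1 + p.1 + q.1) := by ring
    rw [h4, h1, neg_zero]
  rcases h2 with h2 | h2
  · refine ⟨false, ?_⟩
    have h5 : (if false = true then (1 : ZMod M) else 0) - v.2 - p.2 = q.2 := by
      rw [if_neg (by decide), ← sub_eq_zero]
      have h4 : 0 - v.2 - p.2 - q.2 = -(v.2 + p.2 + q.2) := by ring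
      rw [h4, h2, neg_zero]
    show ({v, (p.1, p.2), (-v.1 - p.1, (if false = true then (1 : ZMod M) else 0) - v.2 - p.2)} :
      Finset (VV M)) = {v, p, q}
    rw [h3, h5]
  · refine ⟨true, ?_⟩
    have h5 : (if true = true then (1 : ZMod M) else 0) - v.2 - p.2 = q.2 := by
      rw [if_pos rfl, ← sub_eq_zero]
      have h4 : 1 - v.2 - p.2 - q.2 = 1 - (v.2 + p.2 + q.2) := by ring
      rw [h4, h2, sub_self]
    show ({v, (p.1, p.2), (-v.1 - p.1, (if true = true then (1 : ZMod M) else 0) - v.2 - p.2)} :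
      Finset (VV M)) = {v, p, q}
    rw [h3, h5]

/-- the sum over one family of third vertices -/
theorem EMb_sum (y : VV M → ℝ) (c : ZMod M) :
    ∑ i : P9, ∑ j : P9, (if i = j then 0 else
      ∑ a : ZMod M, ∑ b : ZMod M, y (-i - j, c - a - b) ^ 2) = 8 * M * sq2 y := by
  have h1 : ∀ i j : P9, ∑ a : ZMod M, ∑ b : ZMod M, y (-i - j, c - a - b) ^ 2 =
      M * ∑ d : ZMod M, y (-i - j, d) ^ 2 := by
    intro i j
    have h2 : ∀ a : ZMod M, ∑ b : ZMod M, y (-i - j, c - a - b) ^ 2 =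
        ∑ d : ZMod M, y (-i - j, d) ^ 2 := fun a =>
      Equiv.sum_comp (Equiv.subLeft (c - a)) (fun d => y (-i - j, d) ^ 2)
    simp only [h2]
    rw [Finset.sum_const, Finset.card_univ, ZMod.card, nsmul_eq_mul]
  have h3 : ∀ i : P9, ∑ j : P9, (if i = j then 0 else
      ∑ a : ZMod M, ∑ b : ZMod M, y (-i - j, c - a - b) ^ 2) =
      ∑ k : P9, if i = k then 0 else M * ∑ d : ZMod M, y (k, d) ^ 2 := by
    intro i
    rw [← Equiv.sum_comp (Equiv.subLeft (-i))
      (fun k => if i = k then 0 else M * ∑ d : ZMod M, y (k, d) ^ 2)]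
    refine Finset.sum_congr rfl fun j _ => ?_
    rw [h1]
    show (if i = j then 0 else (M : ℝ) * ∑ d : ZMod M, y (-i - j, d) ^ 2) =
      if i = -i - j then 0 else (M : ℝ) * ∑ d : ZMod M, y (-i - j, d) ^ 2
    by_cases h : i = j
    · rw [if_pos h, if_pos ((EMb_p9 i j).1 h)]
    · rw [if_neg h, if_neg (fun h4 => h ((EMb_p9 i j).2 h4))]
  simp only [h3]
  rw [Finset.sum_comm]
  have h4 : ∀ k : P9, ∑ i : P9, (if i = k then 0 else (M : ℝ) * ∑ d : ZMod M, y (k, d) ^ 2) =
      8 * M * ∑ d : ZMod M, y (k, d) ^ 2 := by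
    intro k
    have h5 : ∀ i : P9, (if i = k then 0 else (M : ℝ) * ∑ d : ZMod M, y (k, d) ^ 2) =
        M * ∑ d : ZMod M, y (k, d) ^ 2 - if i = k then (M : ℝ) * ∑ d : ZMod M, y (k, d) ^ 2
          else 0 := by
      intro i
      split_ifs <;> ring
    simp only [h5]
    rw [Finset.sum_sub_distrib, Finset.sum_const, Finset.sum_ite_eq', if_pos (Finset.mem_univ _),
      Finset.card_univ, nsmul_eq_mul]
    have h6 : Fintype.card P9 = 9 := by
      rw [Fintype.card_prod, ZMod.card]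
    rw [h6]
    push_cast
    ring
  simp only [h4]
  rw [← Finset.mul_sum]
  unfold sq2
  rw [Fintype.sum_prod_type (f := fun v : P9 × ZMod M => y v ^ 2)]

theorem EMb_sum4 (f : P9 × P9 × ZMod M × ZMod M → ℝ) :
    ∑ q, f q = ∑ i : P9, ∑ j : P9, ∑ a : ZMod M, ∑ b : ZMod M, f (i, j, a, b) := by
  rw [Fintype.sum_prod_type (f := f)]
  refine Finset.sum_congr rfl fun i _ => ?_
  rw [Fintype.sum_prod_type (f := fun q : P9 × ZMod M × ZMod M => f (i, q))]
  refine Finset.sum_congr rfl fun j _ => ?_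
  rw [Fintype.sum_prod_type (f := fun q : ZMod M × ZMod M => f (i, j, q))]

/-- Every vertex is in (at most) `8M` edges: 4 lines through its part, `M` choices of the second
vertex, 2 choices of the third.  (For instance: the edges containing `v = (i,c)` are images of the
pairs `(j, a, s)`, `j ≠ i`, `s ∈ {0,1}`, each edge is obtained twice: `16 M / 2`.) -/
theorem EM_deg (v : VV M) : ((EM M).filter (fun e => v ∈ e)).card ≤ 8 * M := by
  classical
  obtain ⟨T, hT⟩ : ∃ T : Finset (P9 × ZMod M × Bool), T = Finset.univ.filter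
    (fun t => t.1 ≠ v.1) := ⟨_, rfl⟩
  have hTc : T.card = 16 * M := by
    have h1 : T = (Finset.univ.filter (fun j : P9 => j ≠ v.1)) ×ˢ
        (Finset.univ : Finset (ZMod M × Bool)) := by
      rw [hT]
      ext t
      simp
    have h2 : ∀ i : P9, (Finset.univ.filter (fun j : P9 => j ≠ i)).card = 8 := by decide
    rw [h1, Finset.card_product, h2, Finset.card_univ, Fintype.card_prod, ZMod.card,
      Fintype.card_bool]
    ring
  have hmap : ∀ t ∈ T, EMb_f v t ∈ (EM M).filter (fun e => v ∈ e) := by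
    intro t ht
    rw [hT] at ht
    exact EMb_f_mem v t (Finset.mem_filter.1 ht).2
  have hfib : ∀ e ∈ (EM M).filter (fun e => v ∈ e), 2 ≤ (T.filter (fun t => EMb_f v t = e)).card := by
    intro e he
    obtain ⟨he1, he2⟩ := Finset.mem_filter.1 he
    obtain ⟨p, q, rfl, h1, h2, h3, h4, h5⟩ := EMb_edge he1 he2
    obtain ⟨b, hb⟩ := EMb_f_eq v p q h4 h5
    obtain ⟨b', hb'⟩ := EMb_f_eq v q p (by rw [← h4]; ring) (by
      have h6 : v.2 + q.2 + p.2 = v.2 + p.2 + q.2 := by ring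
      rw [h6]
      exact h5)
    have h6 : ({(p.1, p.2, b), (q.1, q.2, b')} : Finset (P9 × ZMod M × Bool)) ⊆
        T.filter (fun t => EMb_f v t = {v, p, q}) := by
      intro t ht
      rcases Finset.mem_insert.1 ht with rfl | ht
      · refine Finset.mem_filter.2 ⟨?_, hb⟩
        rw [hT]
        exact Finset.mem_filter.2 ⟨Finset.mem_univ _, h1⟩
      · rw [Finset.mem_singleton] at ht
        subst ht
        refine Finset.mem_filter.2 ⟨?_, ?_⟩
        · rw [hT]
          exact Finset.mem_filter.2 ⟨Finset.mem_univ _, h2⟩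
        · rw [hb']
          ext x
          simp only [Finset.mem_insert, Finset.mem_singleton]
          tauto
    refine le_trans ?_ (Finset.card_le_card h6)
    rw [Finset.card_pair]
    intro h7
    exact h3 (Prod.mk.inj h7).1
  have h1 := Finset.card_eq_sum_card_fiberwise hmap
  have h2 : ((EM M).filter (fun e => v ∈ e)).card * 2 ≤ T.card := by
    rw [h1, ← smul_eq_mul]
    exact Finset.card_nsmul_le_sum _ _ _ hfib
  omega

/-- Cauchy–Schwarz: by `T6_EM`, `T6 (EM M) y = ∑_{(i,a),(j,b), i≠j} y y' (z + z')`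
`≤ √(∑ y² y'²) √(∑ (z+z')²) ≤ S √(2 ∑ (z² + z'²)) ≤ S √(2 · 16 M · S)`, `S = sq2 y`
(every vertex is `z` or `z'` for at most `16M` ordered pairs). -/
theorem EM_cube (hM : 2 ≤ M) (y : VV M → ℝ) :
    T6 (EM M) y ≤ Real.sqrt (32 * M) * sq2 y * Real.sqrt (sq2 y) := by
  obtain ⟨A, hA⟩ : ∃ A : P9 × P9 × ZMod M × ZMod M → ℝ, A = fun q => if q.1 = q.2.1 then 0 else
    y (q.1, q.2.2.1) * y (q.2.1, q.2.2.2) := ⟨_, rfl⟩
  obtain ⟨B, hB⟩ : ∃ B : P9 × P9 × ZMod M × ZMod M → ℝ, B = fun q => if q.1 = q.2.1 then 0 else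
    y (-q.1 - q.2.1, -q.2.2.1 - q.2.2.2) + y (-q.1 - q.2.1, 1 - q.2.2.1 - q.2.2.2) := ⟨_, rfl⟩
  have hS : 0 ≤ sq2 y := Finset.sum_nonneg fun _ _ => sq_nonneg _
  have h1 : T6 (EM M) y = ∑ q, A q * B q := by
    rw [T6_EM hM, EMb_sum4]
    refine Finset.sum_congr rfl fun i _ => ?_
    refine Finset.sum_congr rfl fun j _ => ?_
    rw [hA, hB]
    by_cases h : i = j
    · simp only [if_pos h, mul_zero, Finset.sum_const_zero]
    · simp only [if_neg h]
  have h2 : ∑ q, A q ^ 2 ≤ sq2 y ^ 2 := by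
    have h3 : sq2 y ^ 2 = ∑ i : P9, ∑ j : P9, ∑ a : ZMod M, ∑ b : ZMod M,
        y (i, a) ^ 2 * y (j, b) ^ 2 := by
      have h4 : sq2 y = ∑ i : P9, ∑ a : ZMod M, y (i, a) ^ 2 := by
        unfold sq2
        rw [Fintype.sum_prod_type (f := fun v : P9 × ZMod M => y v ^ 2)]
      rw [h4, sq, Finset.sum_mul_sum]
      refine Finset.sum_congr rfl fun i _ => Finset.sum_congr rfl fun j _ => ?_
      rw [Finset.sum_mul_sum]
    rw [h3, EMb_sum4]
    refine Finset.sum_le_sum fun i _ => ?_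
    refine Finset.sum_le_sum fun j _ => ?_
    refine Finset.sum_le_sum fun a _ => Finset.sum_le_sum fun b _ => ?_
    rw [hA]
    dsimp only
    split_ifs with h
    · rw [zero_pow two_ne_zero]
      positivity
    · rw [mul_pow]
  have h3 : ∑ q, B q ^ 2 ≤ 32 * M * sq2 y := by
    have e1 := EMb_sum y (0 : ZMod M)
    have e2 := EMb_sum y (1 : ZMod M)
    have h4 : ∑ q, B q ^ 2 ≤ 2 * (∑ i : P9, ∑ j : P9, (if i = j then 0 else
        ∑ a : ZMod M, ∑ b : ZMod M, y (-i - j, 0 - a - b) ^ 2)) +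
        2 * (∑ i : P9, ∑ j : P9, (if i = j then 0 else
        ∑ a : ZMod M, ∑ b : ZMod M, y (-i - j, 1 - a - b) ^ 2)) := by
      rw [Finset.mul_sum, Finset.mul_sum, ← Finset.sum_add_distrib, EMb_sum4]
      refine Finset.sum_le_sum fun i _ => ?_
      rw [Finset.mul_sum, Finset.mul_sum, ← Finset.sum_add_distrib]
      refine Finset.sum_le_sum fun j _ => ?_
      rw [hB]
      by_cases h : i = j
      · simp only [if_pos h]
        norm_num
      · simp only [if_neg h, Finset.mul_sum, ← Finset.sum_add_distrib]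
        refine Finset.sum_le_sum fun a _ => Finset.sum_le_sum fun b _ => ?_
        rw [zero_sub]
        nlinarith [sq_nonneg (y (-i - j, -a - b) - y (-i - j, 1 - a - b))]
    rw [e1, e2] at h4
    linarith
  rw [h1]
  have h4 := Real.sum_mul_le_sqrt_mul_sqrt (Finset.univ : Finset (P9 × P9 × ZMod M × ZMod M)) A B
  refine h4.trans ?_
  have h5 : Real.sqrt (∑ q, A q ^ 2) ≤ sq2 y := by
    rw [← Real.sqrt_sq hS]
    exact Real.sqrt_le_sqrt h2
  have h6 : Real.sqrt (∑ q, B q ^ 2) ≤ Real.sqrt (32 * M) * Real.sqrt (sq2 y) := by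
    rw [← Real.sqrt_mul (by positivity)]
    exact Real.sqrt_le_sqrt h3
  calc Real.sqrt (∑ q, A q ^ 2) * Real.sqrt (∑ q, B q ^ 2)
      ≤ sq2 y * (Real.sqrt (32 * M) * Real.sqrt (sq2 y)) :=
        mul_le_mul h5 h6 (Real.sqrt_nonneg _) hS
    _ = _ := by ring

end W880b64
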