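import Pool.Agent.W_880b64_h21.EMa

/-!
# Part sums (task D3)
-/

namespace W880b64

open Finset BigOperators

variable {M : ℕ} [NeZero M]

theorem EMc_M : (M : ℝ) ≠ 0 := Nat.cast_ne_zero.2 (NeZero.ne M)

theorem EMc_card : (Fintype.card (VV M) : ℝ) = 9 * M := by
  have h : Fintype.card (VV M) = 9 * M := by
    rw [Fintype.card_prod, Fintype.card_prod, ZMod.card, ZMod.card]
  rw [h]
  push_cast
  rfl

theorem prt_mem {x : VV M → ℝ} (hx : x ∈ stdSimplex ℝ (VV M)) : prt x ∈ stdSimplex ℝ P9 := by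
  refine ⟨fun i => Finset.sum_nonneg fun a _ => hx.1 _, ?_⟩
  rw [← hx.2]
  exact (Fintype.sum_prod_type (f := fun v : P9 × ZMod M => x v)).symm

/-- `q = P2/M + U`. -/
theorem sq2_parts (x : VV M → ℝ) : sq2 x = (∑ i, prt x i ^ 2) / M + UU x := by
  have hM : (M : ℝ) ≠ 0 := EMc_M
  have h1 : ∀ i, ui x i = ∑ a, x (i, a) ^ 2 - prt x i ^ 2 / M := by
    intro i
    have h2 : ∀ a : ZMod M, (x (i, a) - prt x i / M) ^ 2 =
        x (i, a) ^ 2 - 2 * (prt x i / M) * x (i, a) + (prt x i / M) ^ 2 := fun a => by ring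
    unfold ui
    simp only [h2]
    rw [Finset.sum_add_distrib, Finset.sum_sub_distrib, ← Finset.mul_sum, Finset.sum_const,
      Finset.card_univ, ZMod.card, nsmul_eq_mul]
    have h3 : ∑ a, x (i, a) = prt x i := rfl
    rw [h3]
    field_simp
    ring
  unfold UU sq2
  simp only [h1]
  rw [Finset.sum_sub_distrib, Fintype.sum_prod_type, Finset.sum_div]
  ring

theorem ui_nonneg (x : VV M → ℝ) (i : P9) : 0 ≤ ui x i :=
  Finset.sum_nonneg fun _ _ => sq_nonneg _

theorem UU_nonneg (x : VV M → ℝ) : 0 ≤ UU x := Finset.sum_nonneg fun i _ => ui_nonneg x i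

/-- `q = 1/(9M) + ρ/M + U`, hence `q ≥ 1/(9M)` on the simplex. -/
theorem sq2_eq (x : VV M → ℝ) : sq2 x = 1 / (9 * M) + rho (prt x) / M + UU x := by
  have hM : (M : ℝ) ≠ 0 := EMc_M
  rw [sq2_parts]
  unfold rho
  field_simp
  ring

/-- the uniform point of the simplex -/
noncomputable def unif (M : ℕ) [NeZero M] : VV M → ℝ := fun _ => 1 / (9 * M)

theorem unif_mem : unif M ∈ stdSimplex ℝ (VV M) := by
  have hM : (M : ℝ) ≠ 0 := EMc_M
  refine ⟨fun v => ?_, ?_⟩
  · unfold unif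
    positivity
  · unfold unif
    rw [Finset.sum_const, Finset.card_univ, nsmul_eq_mul, EMc_card]
    field_simp

theorem sq2_unif : sq2 (unif M) = 1 / (9 * M) := by
  have hM : (M : ℝ) ≠ 0 := EMc_M
  unfold sq2 unif
  rw [Finset.sum_const, Finset.card_univ, nsmul_eq_mul, EMc_card]
  field_simp

end W880b64
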