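import Pool.Agent.W_880b64_h21.Base

/-!
# Expansion around the uniform point (task H1)
-/

namespace W880b64

open Finset BigOperators

section
variable {V : Type} [Fintype V] [DecidableEq V]

/-- the number of edges of `R` at `v` -/
noncomputable def rv (R : Finset (Finset V)) (v : V) : ℝ := ((R.filter (fun e => v ∈ e)).card : ℝ)

theorem rv_nonneg (R : Finset (Finset V)) (v : V) : 0 ≤ rv R v := by unfold rv; positivity

theorem Exp_count (R : Finset (Finset V)) (f : V → ℝ) :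
    ∑ e ∈ R, ∑ v ∈ e, f v = ∑ v, rv R v * f v := by
  unfold rv
  have h1 : ∀ e ∈ R, ∑ v ∈ e, f v = ∑ v, if v ∈ e then f v else 0 := by
    intro e _
    rw [← Finset.sum_filter, Finset.filter_mem_eq_inter, Finset.univ_inter]
  rw [Finset.sum_congr rfl h1, Finset.sum_comm]
  refine Finset.sum_congr rfl fun v _ => ?_
  rw [← Finset.sum_filter, Finset.sum_const, nsmul_eq_mul]

theorem Exp_amgm {A B C : ℝ} (hA : 0 ≤ A) (hB : 0 ≤ B) (hC : 0 ≤ C) :
    27 * (A * B * C) ≤ (A + B + C) ^ 3 := by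
  nlinarith [mul_nonneg (add_nonneg (add_nonneg hA hB) hC)
      (add_nonneg (add_nonneg (sq_nonneg (A - B)) (sq_nonneg (B - C))) (sq_nonneg (C - A))),
    mul_nonneg hA (sq_nonneg (B - C)), mul_nonneg hB (sq_nonneg (C - A)),
    mul_nonneg hC (sq_nonneg (A - B))]

theorem Exp_edge {a b c S D : ℝ} (hS : S = a ^ 2 + b ^ 2 + c ^ 2) (hD : S ≤ D) :
    -(1.1548 * S * Real.sqrt D) ≤ 6 * (a * b * c) := by
  have hS0 : 0 ≤ S := by rw [hS]; positivity
  have hD0 : 0 ≤ D := le_trans hS0 hD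
  have hs := Real.sq_sqrt hD0
  have hs0 := Real.sqrt_nonneg D
  have h1 : 27 * (a * b * c) ^ 2 ≤ S ^ 3 := by
    have := Exp_amgm (sq_nonneg a) (sq_nonneg b) (sq_nonneg c)
    rw [hS]
    nlinarith
  have h2 : S ^ 3 ≤ S ^ 2 * D := by
    have : S ^ 3 = S ^ 2 * S := by ring
    rw [this]
    exact mul_le_mul_of_nonneg_left hD (sq_nonneg S)
  have h3 : (6 * (a * b * c)) ^ 2 ≤ (1.1548 * S * Real.sqrt D) ^ 2 := by
    have e1 : (1.1548 * S * Real.sqrt D) ^ 2 = 1.1548 ^ 2 * (S ^ 2 * D) := by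
      rw [mul_pow, mul_pow, hs]
      ring
    rw [e1]
    have e2 : 0 ≤ S ^ 2 * D := mul_nonneg (sq_nonneg S) hD0
    nlinarith
  have h4 := abs_le_of_sq_le_sq h3 (by positivity)
  exact neg_le_of_abs_le h4

/-- In a matching every vertex has degree at most 1. -/
theorem Exp_rv {R : Finset (Finset V)} (hd : (R : Set (Finset V)).PairwiseDisjoint id) (v : V) :
    rv R v ≤ 1 := by
  unfold rv
  have h1 : (R.filter (fun e => v ∈ e)).card ≤ 1 := by
    rw [Finset.card_le_one]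
    intro e he e' he'
    rw [Finset.mem_filter] at he he'
    by_contra hne
    have h2 := hd (Finset.mem_coe.2 he.1) (Finset.mem_coe.2 he'.1) hne
    exact Finset.disjoint_left.1 h2 he.2 he'.2
  exact_mod_cast h1

/-- **Lower bound for a matching.**  Proof: for each edge
`∏_{v∈e} (1/n + δ_v) = 1/n³ + (1/n²) ∑_{v∈e} δ_v + (1/n) e2 + ∏ δ_v`, `e2 ≥ -(1/2) ∑_{v∈e} δ_v²`,
`|∏_{v∈e} δ_v| ≤ (S_e/3)^{3/2} ≤ S_e √D/√27`, `S_e = ∑_{v∈e} δ_v²`; the edges are disjoint so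
`∑_e S_e ≤ D = ∑ δ²`; `6/√27 = 1.1547..`. -/
theorem Rlow {R : Finset (Finset V)} (hR : ∀ e ∈ R, e.card = 3)
    (hd : (R : Set (Finset V)).PairwiseDisjoint id) {n : ℝ} (hn : 0 < n) (δ : V → ℝ) :
    6 * R.card / n ^ 3 + 6 / n ^ 2 * ∑ v, rv R v * δ v - 3 / n * ∑ v, rv R v * δ v ^ 2
      - 1.1548 * (∑ v, δ v ^ 2) * Real.sqrt (∑ v, δ v ^ 2) ≤ T6 R (fun v => 1 / n + δ v) := by
  set D := ∑ v, δ v ^ 2 with hD
  have hkey : ∀ e ∈ R, 1 / n ^ 3 + 1 / n ^ 2 * ∑ v ∈ e, δ v - 1 / (2 * n) * ∑ v ∈ e, δ v ^ 2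
      - 1.1548 / 6 * (∑ v ∈ e, δ v ^ 2) * Real.sqrt D ≤ ∏ v ∈ e, (1 / n + δ v) := by
    intro e he
    have hle : ∑ v ∈ e, δ v ^ 2 ≤ D :=
      Finset.sum_le_univ_sum_of_nonneg fun v => sq_nonneg _
    obtain ⟨a, b, c, hab, hac, hbc, rfl⟩ := Finset.card_eq_three.1 (hR e he)
    have hs1 : ∀ f : V → ℝ, ∑ v ∈ ({a, b, c} : Finset V), f v = f a + f b + f c := by
      intro f
      rw [Finset.sum_insert (by simp [hab, hac]), Finset.sum_insert (by simp [hbc]),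
        Finset.sum_singleton]
      ring
    have hp1 : ∏ v ∈ ({a, b, c} : Finset V), (1 / n + δ v) =
        (1 / n + δ a) * (1 / n + δ b) * (1 / n + δ c) := by
      rw [Finset.prod_insert (by simp [hab, hac]), Finset.prod_insert (by simp [hbc]),
        Finset.prod_singleton]
      ring
    rw [hs1 (fun v => δ v ^ 2)] at hle
    rw [hs1, hs1, hp1]
    have h1 := Exp_edge (a := δ a) (b := δ b) (c := δ c) rfl hle
    set t := 1 / n with ht
    have ht0 : 0 < t := by rw [ht]; positivity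
    have e1 : 1 / n ^ 3 = t ^ 3 := by rw [ht]; field_simp
    have e2 : 1 / n ^ 2 = t ^ 2 := by rw [ht]; field_simp
    have e3 : 1 / (2 * n) = t / 2 := by rw [ht]; field_simp
    rw [e1, e2, e3]
    have h2 : 0 ≤ t * (δ a + δ b + δ c) ^ 2 := by positivity
    nlinarith
  have hsum := Finset.sum_le_sum hkey
  rw [Finset.sum_sub_distrib, Finset.sum_sub_distrib, Finset.sum_add_distrib, Finset.sum_const,
    ← Finset.mul_sum, ← Finset.mul_sum, nsmul_eq_mul] at hsum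
  have hlast : ∑ e ∈ R, 1.1548 / 6 * (∑ v ∈ e, δ v ^ 2) * Real.sqrt D =
      1.1548 / 6 * (∑ e ∈ R, ∑ v ∈ e, δ v ^ 2) * Real.sqrt D := by
    rw [← Finset.sum_mul, ← Finset.mul_sum]
  rw [hlast, Exp_count, Exp_count] at hsum
  have hD2 : ∑ v, rv R v * δ v ^ 2 ≤ D :=
    Finset.sum_le_sum fun v _ => by
      have h1 := Exp_rv hd v
      nlinarith [sq_nonneg (δ v)]
  have hsq := Real.sqrt_nonneg D
  have h5 : (∑ v, rv R v * δ v ^ 2) * Real.sqrt D ≤ D * Real.sqrt D :=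
    mul_le_mul_of_nonneg_right hD2 hsq
  unfold T6
  have e1 : 6 * (R.card : ℝ) / n ^ 3 = 6 * ((R.card : ℝ) * (1 / n ^ 3)) := by ring
  have e2 : 6 / n ^ 2 * ∑ v, rv R v * δ v = 6 * (1 / n ^ 2 * ∑ v, rv R v * δ v) := by ring
  have e3 : 3 / n * ∑ v, rv R v * δ v ^ 2 = 6 * (1 / (2 * n) * ∑ v, rv R v * δ v ^ 2) := by
    field_simp
    ring
  rw [e1, e2, e3]
  nlinarith

/-- In a matching every vertex has degree at most 1. -/
theorem rv_le_one {R : Finset (Finset V)} (hd : (R : Set (Finset V)).PairwiseDisjoint id) (v : V) :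
    rv R v ≤ 1 :=
  Exp_rv hd v

/-- **Slots.**  `(1/n+δ)³ = 1/n³ + 3δ/n² + 3δ²/n + δ³`, `∑ s δ³ ≤ (11/25) ∑|δ|³ ≤
(11/25) D √D`. -/
theorem slot_up {s : V → ℝ} (hs : ∀ v, 0 ≤ s v ∧ s v ≤ 11 / 25) {n : ℝ} (hn : 0 < n)
    (δ : V → ℝ) :
    ∑ v, s v * (1 / n + δ v) ^ 3 ≤ (∑ v, s v) / n ^ 3 + 3 / n ^ 2 * ∑ v, s v * δ v
      + 33 / 25 / n * ∑ v, δ v ^ 2 + 11 / 25 * (∑ v, δ v ^ 2) * Real.sqrt (∑ v, δ v ^ 2) := by
  set D := ∑ v, δ v ^ 2 with hD
  have hD0 : 0 ≤ D := Finset.sum_nonneg fun v _ => sq_nonneg _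
  have hkey : ∀ v ∈ (Finset.univ : Finset V), s v * (1 / n + δ v) ^ 3 ≤
      s v * (1 / n ^ 3) + 3 / n ^ 2 * (s v * δ v) + 33 / 25 / n * δ v ^ 2 +
        11 / 25 * δ v ^ 2 * Real.sqrt D := by
    intro v _
    have hle : δ v ^ 2 ≤ D :=
      Finset.single_le_sum (f := fun v => δ v ^ 2) (fun v _ => sq_nonneg _) (Finset.mem_univ v)
    have habs : |δ v| ≤ Real.sqrt D := Real.abs_le_sqrt hle
    obtain ⟨h0, h1⟩ := hs v
    have h2 : s v * δ v ^ 3 ≤ 11 / 25 * δ v ^ 2 * Real.sqrt D := by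
      have h3 : δ v ≤ Real.sqrt D := le_trans (le_abs_self _) habs
      have hq := Real.sqrt_nonneg D
      have h4 : δ v ^ 2 * δ v ≤ δ v ^ 2 * Real.sqrt D :=
        mul_le_mul_of_nonneg_left h3 (sq_nonneg _)
      have h5 : s v * (δ v ^ 2 * δ v) ≤ s v * (δ v ^ 2 * Real.sqrt D) :=
        mul_le_mul_of_nonneg_left h4 h0
      have h6 : s v * (δ v ^ 2 * Real.sqrt D) ≤ 11 / 25 * (δ v ^ 2 * Real.sqrt D) :=
        mul_le_mul_of_nonneg_right h1 (mul_nonneg (sq_nonneg _) hq)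
      calc s v * δ v ^ 3 = s v * (δ v ^ 2 * δ v) := by ring
        _ ≤ 11 / 25 * (δ v ^ 2 * Real.sqrt D) := h5.trans h6
        _ = _ := by ring
    have h7 : s v * (3 / n * δ v ^ 2) ≤ 33 / 25 / n * δ v ^ 2 := by
      have h8 : 0 ≤ 3 / n * δ v ^ 2 := by positivity
      calc s v * (3 / n * δ v ^ 2) ≤ 11 / 25 * (3 / n * δ v ^ 2) :=
            mul_le_mul_of_nonneg_right h1 h8
        _ = _ := by ring
    have e : s v * (1 / n + δ v) ^ 3 = s v * (1 / n ^ 3) + 3 / n ^ 2 * (s v * δ v) +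
        s v * (3 / n * δ v ^ 2) + s v * δ v ^ 3 := by
      field_simp
      ring
    rw [e]
    linarith
  refine (Finset.sum_le_sum hkey).trans (le_of_eq ?_)
  rw [Finset.sum_add_distrib, Finset.sum_add_distrib, Finset.sum_add_distrib, ← Finset.sum_mul,
    ← Finset.mul_sum, ← Finset.mul_sum, ← Finset.sum_mul, ← Finset.mul_sum]
  ring

end

end W880b64
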