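import Pool.Agent.W_880b64_h21.Four

/-!
# The Fourier formula for `T6 (EM M)` (task E2)
-/

namespace W880b64

open Finset BigOperators

variable {M : ℕ} [NeZero M]

/-- the Fourier coefficient -/
noncomputable def FCore_h (f : ZMod M → ℝ) (r : ZMod M) : ℂ :=
  ∑ a : ZMod M, (f a : ℂ) * ZMod.stdAddChar (r * a)

theorem FCore_conv (f g h : ZMod M → ℝ) (s : ZMod M) :
    ∑ r, FCore_h f r * (FCore_h g r * (FCore_h h r * ZMod.stdAddChar (-(r * s)))) =
      (M : ℂ) * ((∑ a, ∑ b, f a * g b * h (s - a - b) : ℝ) : ℂ) := by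
  have h1 : ∀ r : ZMod M,
      FCore_h f r * (FCore_h g r * (FCore_h h r * ZMod.stdAddChar (-(r * s)))) =
      ∑ a, ∑ b, ∑ c, ((f a * g b * h c : ℝ) : ℂ) * ZMod.stdAddChar (r * (a + b + c - s)) := by
    intro r
    have h2 : ∀ a b c : ZMod M,
        ((f a * g b * h c : ℝ) : ℂ) * ZMod.stdAddChar (r * (a + b + c - s)) =
        ((f a : ℂ) * ZMod.stdAddChar (r * a)) * (((g b : ℂ) * ZMod.stdAddChar (r * b)) *
          (((h c : ℂ) * ZMod.stdAddChar (r * c)) * ZMod.stdAddChar (-(r * s)))) := by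
      intro a b c
      have h3 : r * (a + b + c - s) = r * a + r * b + r * c + -(r * s) := by ring
      rw [h3, AddChar.map_add_eq_mul, AddChar.map_add_eq_mul, AddChar.map_add_eq_mul]
      push_cast
      ring
    simp only [h2, ← Finset.mul_sum, ← Finset.sum_mul]
    rfl
  simp only [h1]
  rw [sum_comm]
  push_cast
  rw [mul_sum]
  apply sum_congr rfl
  intro a _
  rw [sum_comm, mul_sum]
  apply sum_congr rfl
  intro b _
  rw [sum_comm]
  have h4 : ∀ c ∈ (univ : Finset (ZMod M)),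
      ∑ r : ZMod M, ((f a : ℂ) * g b * h c) * ZMod.stdAddChar (r * (a + b + c - s)) =
      if c = s - a - b then (M : ℂ) * ((f a : ℂ) * g b * h c) else 0 := by
    intro c _
    rw [← mul_sum, AddChar.sum_mulShift _ (ZMod.isPrimitive_stdAddChar M), ZMod.card]
    by_cases hc : c = s - a - b
    · rw [if_pos hc, if_pos (by rw [hc]; ring)]
      ring
    · rw [if_neg hc, if_neg (by
        intro h5
        apply hc
        have : c = s - a - b + (a + b + c - s) := by ring
        rw [this, h5, add_zero])]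
      simp
  rw [sum_congr rfl h4, sum_ite_eq' univ (s - a - b), if_pos (mem_univ _)]

theorem FCore_tri (f g h : ZMod M → ℝ) :
    (M : ℂ) * ((∑ a, ∑ b, f a * g b * (h (-a - b) + h (1 - a - b)) : ℝ) : ℂ) =
      ∑ r, FCore_h f r * FCore_h g r * FCore_h h r * (1 + ZMod.stdAddChar (-r)) := by
  have h0 := FCore_conv f g h 0
  have h1 := FCore_conv f g h 1
  have h2 : (∑ a, ∑ b, f a * g b * (h (-a - b) + h (1 - a - b)) : ℝ) =
      (∑ a, ∑ b, f a * g b * h (0 - a - b)) + ∑ a, ∑ b, f a * g b * h (1 - a - b) := by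
    rw [← sum_add_distrib]
    apply sum_congr rfl
    intro a _
    rw [← sum_add_distrib]
    apply sum_congr rfl
    intro b _
    rw [zero_sub]
    ring
  rw [h2, Complex.ofReal_add, mul_add, ← h0, ← h1, ← sum_add_distrib]
  apply sum_congr rfl
  intro r _
  simp only [mul_zero, neg_zero, AddChar.map_zero_eq_one, mul_one]
  ring

theorem FCore_cw (r : ZMod M) : ‖(1 : ℂ) + ZMod.stdAddChar (-r)‖ = 2 * cw r := by
  have h1 : (1 : ℂ) + ZMod.stdAddChar (-r) =
      ZMod.stdAddChar (-r) * (1 + ZMod.stdAddChar r) := by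
    rw [mul_add, mul_one, ← AddChar.map_add_eq_mul, neg_add_cancel, AddChar.map_zero_eq_one]
    ring
  rw [h1, norm_mul, ZMod.stdAddChar_apply, Circle.norm_coe, one_mul]
  unfold cw
  ring

theorem FCore_one (x : VV M → ℝ) (i j k : P9) :
    ∑ a : ZMod M, ∑ b : ZMod M, x (i, a) * x (j, b) * (x (k, -a - b) + x (k, 1 - a - b)) ≤
      2 / M * (prt x i * prt x j * prt x k) +
      2 / M * ∑ r ∈ univ.erase (0 : ZMod M), cw r * (FF x i r * FF x j r * FF x k r) := by
  have hM : (0 : ℝ) < M := by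
    exact_mod_cast Nat.pos_of_ne_zero (NeZero.ne M)
  have h1 := FCore_tri (fun a => x (i, a)) (fun a => x (j, a)) (fun a => x (k, a))
  have h2 := congrArg Complex.re h1
  have h3 : ((M : ℂ) * ((∑ a : ZMod M, ∑ b : ZMod M,
      x (i, a) * x (j, b) * (x (k, -a - b) + x (k, 1 - a - b)) : ℝ) : ℂ)).re =
      M * ∑ a : ZMod M, ∑ b : ZMod M,
        x (i, a) * x (j, b) * (x (k, -a - b) + x (k, 1 - a - b)) := by
    rw [← Complex.ofReal_natCast, ← Complex.ofReal_mul, Complex.ofReal_re]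
  rw [h3, ← add_sum_erase univ (fun r : ZMod M => FCore_h (fun a => x (i, a)) r *
      FCore_h (fun a => x (j, a)) r * FCore_h (fun a => x (k, a)) r *
      (1 + ZMod.stdAddChar (-r))) (mem_univ (0 : ZMod M)), Complex.add_re, Complex.re_sum] at h2
  have h4 : ∀ l : P9, FCore_h (fun a => x (l, a)) 0 = ((prt x l : ℝ) : ℂ) := by
    intro l
    unfold FCore_h prt
    rw [Complex.ofReal_sum]
    apply sum_congr rfl
    intro a _
    rw [zero_mul, AddChar.map_zero_eq_one, mul_one]
  have h5 : (FCore_h (fun a => x (i, a)) 0 * FCore_h (fun a => x (j, a)) 0 *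
      FCore_h (fun a => x (k, a)) 0 * (1 + ZMod.stdAddChar (-(0 : ZMod M)))).re =
      2 * (prt x i * prt x j * prt x k) := by
    rw [h4, h4, h4, neg_zero, AddChar.map_zero_eq_one]
    have : ((prt x i : ℝ) : ℂ) * ((prt x j : ℝ) : ℂ) * ((prt x k : ℝ) : ℂ) * (1 + 1) =
        ((2 * (prt x i * prt x j * prt x k) : ℝ) : ℂ) := by
      push_cast
      ring
    rw [this, Complex.ofReal_re]
  have h6 : ∑ r ∈ univ.erase (0 : ZMod M), (FCore_h (fun a => x (i, a)) r *
      FCore_h (fun a => x (j, a)) r * FCore_h (fun a => x (k, a)) r *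
      (1 + ZMod.stdAddChar (-r))).re ≤
      ∑ r ∈ univ.erase (0 : ZMod M), 2 * (cw r * (FF x i r * FF x j r * FF x k r)) := by
    apply sum_le_sum
    intro r _
    refine (Complex.re_le_norm _).trans (le_of_eq ?_)
    rw [norm_mul, norm_mul, norm_mul, FCore_cw]
    unfold FCore_h FF
    ring
  rw [h5] at h2
  rw [← mul_sum] at h6
  set X := ∑ a : ZMod M, ∑ b : ZMod M,
        x (i, a) * x (j, b) * (x (k, -a - b) + x (k, 1 - a - b)) with hX
  set R := ∑ r ∈ univ.erase (0 : ZMod M), cw r * (FF x i r * FF x j r * FF x k r) with hR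
  have h7 : M * X ≤ 2 * (prt x i * prt x j * prt x k) + 2 * R := by linarith
  have h8 : 2 / (M : ℝ) * (prt x i * prt x j * prt x k) + 2 / M * R =
      (2 * (prt x i * prt x j * prt x k) + 2 * R) / M := by
    field_simp
  rw [h8, le_div_iff₀ hM]
  linarith

/-- Proof.  With `F_i(r) = ∑_a f_i(a) χ(r a)` (`χ = ZMod.stdAddChar`), orthogonality gives
`∑_{a+b+c=s} f g h = (1/M) ∑_r F G H(r) χ(-r s)`.  So by `T6_EM`
`T6 (EM M) x = (1/M) ∑_{i≠j} ∑_r F_i F_j F_{-i-j}(r) (1 + χ(-r))`.  The term `r = 0` is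
`(2/M) TP (prt x)`, the others are bounded by their absolute values, `‖1 + χ(-r)‖ = 2 cw r`. -/
theorem F_core (hM : 2 ≤ M) (x : VV M → ℝ) :
    T6 (EM M) x ≤ 2 / M * TP (prt x) + 2 / M * ∑ r ∈ univ.erase (0 : ZMod M),
      cw r * ∑ i : P9, ∑ j : P9, if i = j then 0 else FF x i r * FF x j r * FF x (-i - j) r := by
  rw [T6_EM hM]
  have h1 : ∀ i j : P9, (if i = j then (0 : ℝ) else ∑ a : ZMod M, ∑ b : ZMod M,
        x (i, a) * x (j, b) * (x (-i - j, -a - b) + x (-i - j, 1 - a - b))) ≤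
      2 / M * (if i = j then 0 else prt x i * prt x j * prt x (-i - j)) +
      2 / M * ∑ r ∈ univ.erase (0 : ZMod M), cw r *
        (if i = j then 0 else FF x i r * FF x j r * FF x (-i - j) r) := by
    intro i j
    by_cases hij : i = j
    · simp [hij]
    · simp only [if_neg hij]
      exact FCore_one x i j (-i - j)
  refine (sum_le_sum fun i _ => sum_le_sum fun j _ => h1 i j).trans (le_of_eq ?_)
  simp only [sum_add_distrib, ← mul_sum]
  unfold TP
  congr 2
  have h2 : ∀ i ∈ (univ : Finset P9), ∑ j : P9, ∑ r ∈ univ.erase (0 : ZMod M), cw r *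
      (if i = j then 0 else FF x i r * FF x j r * FF x (-i - j) r) =
      ∑ r ∈ univ.erase (0 : ZMod M), ∑ j : P9, cw r *
      (if i = j then 0 else FF x i r * FF x j r * FF x (-i - j) r) := fun i _ => sum_comm
  rw [sum_congr rfl h2, sum_comm]
  apply sum_congr rfl
  intro r _
  rw [mul_sum]
  apply sum_congr rfl
  intro i _
  rw [mul_sum]

end W880b64
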