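import Pool.Agent.W_880b64_h21.EMc

/-!
# Fourier analysis on `ZMod M` for `E_M` (task E1)
-/

namespace W880b64

open Finset BigOperators

variable {M : ℕ} [NeZero M]

/-- `|f̂_i(r)|` for `f_i a = x (i,a)` -/
noncomputable def FF (x : VV M → ℝ) (i : P9) (r : ZMod M) : ℝ :=
  ‖∑ a : ZMod M, (x (i, a) : ℂ) * ZMod.stdAddChar (r * a)‖

/-- `|1 + ζ^r|/2 = |cos(π r/M)|` -/
noncomputable def cw (r : ZMod M) : ℝ := ‖(1 : ℂ) + ZMod.stdAddChar r‖ / 2

theorem norm_chi (a : ZMod M) : ‖(ZMod.stdAddChar a : ℂ)‖ = 1 := by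
  rw [ZMod.stdAddChar_apply]
  exact Circle.norm_coe _

/-- the full Parseval identity -/
theorem FF_sq (x : VV M → ℝ) (i : P9) :
    ∑ r : ZMod M, FF x i r ^ 2 = M * ∑ a : ZMod M, x (i, a) ^ 2 := by
  have key : (∑ r : ZMod M, (FF x i r : ℂ) ^ 2) = (M : ℂ) * ∑ a : ZMod M, (x (i, a) : ℂ) ^ 2 := by
    have e : ∀ r : ZMod M, (FF x i r : ℂ) ^ 2 =
        ∑ a : ZMod M, ∑ b : ZMod M, (x (i, a) : ℂ) * (x (i, b) : ℂ) *
          ZMod.stdAddChar (r * (a - b)) := by
      intro r
      unfold FF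
      rw [← Complex.mul_conj', map_sum, Finset.sum_mul_sum]
      refine Finset.sum_congr rfl fun a _ => Finset.sum_congr rfl fun b _ => ?_
      rw [map_mul (starRingEnd ℂ), Complex.conj_ofReal, ← AddChar.map_neg_eq_conj,
        show r * (a - b) = r * a + -(r * b) by ring, AddChar.map_add_eq_mul]
      ring
    rw [Finset.sum_congr rfl fun r _ => e r, Finset.sum_comm]
    rw [Finset.mul_sum]
    refine Finset.sum_congr rfl fun a _ => ?_
    rw [Finset.sum_comm]
    have e2 : ∀ b : ZMod M, (∑ r : ZMod M, (x (i, a) : ℂ) * (x (i, b) : ℂ) *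
          (ZMod.stdAddChar (r * (a - b)) : ℂ)) =
        if a = b then (M : ℂ) * ((x (i, a) : ℂ) * (x (i, b) : ℂ)) else 0 := by
      intro b
      rw [← Finset.mul_sum, AddChar.sum_mulShift _ (ZMod.isPrimitive_stdAddChar M)]
      by_cases hab : a = b
      · subst hab
        simp [ZMod.card, mul_comm]
      · rw [if_neg (sub_ne_zero.2 hab), if_neg hab]
        simp
    rw [Finset.sum_congr rfl fun b _ => e2 b]
    simp [sq]
  exact_mod_cast key

theorem FF_zero (x : VV M → ℝ) (i : P9) : FF x i 0 = |prt x i| := by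
  unfold FF prt
  simp only [zero_mul, AddChar.map_zero_eq_one, mul_one]
  rw [← Complex.ofReal_sum, Complex.norm_real, Real.norm_eq_abs]

/-- Parseval: `∑_r ‖F_i(r)‖² = M ∑ f²`, and `F_i(0) = prt x i`;
`M ∑ f² - (prt)² = M · ui`. -/
theorem FF_parseval (x : VV M → ℝ) (i : P9) :
    ∑ r ∈ univ.erase (0 : ZMod M), FF x i r ^ 2 = M * ui x i := by
  have h1 := FF_sq x i
  rw [← Finset.add_sum_erase _ _ (Finset.mem_univ (0 : ZMod M)), FF_zero, sq_abs] at h1
  have hM : (M : ℝ) ≠ 0 := by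
    have := NeZero.ne M
    exact_mod_cast this
  have e : ui x i = ∑ a : ZMod M, x (i, a) ^ 2 - prt x i ^ 2 / M := by
    unfold ui
    have e2 : ∀ a : ZMod M, (x (i, a) - prt x i / M) ^ 2 =
      x (i, a) ^ 2 - (2 * prt x i / M) * x (i, a) + (prt x i / M) ^ 2 := fun a => by ring
    rw [Finset.sum_congr rfl fun a _ => e2 a, Finset.sum_add_distrib, Finset.sum_sub_distrib,
      ← Finset.mul_sum]
    change ∑ a, x (i, a) ^ 2 - 2 * prt x i / M * prt x i + ∑ _a : ZMod M, (prt x i / M) ^ 2 = _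
    simp only [Finset.sum_const, Finset.card_univ, ZMod.card, nsmul_eq_mul]
    field_simp
    ring
  rw [e, mul_sub]
  have e3 : (M : ℝ) * (prt x i ^ 2 / M) = prt x i ^ 2 := by field_simp
  rw [e3]
  linarith

theorem FF_nonneg (x : VV M → ℝ) (i : P9) (r : ZMod M) : 0 ≤ FF x i r := norm_nonneg _

theorem FF_le {x : VV M → ℝ} (hx : ∀ v, 0 ≤ x v) (i : P9) (r : ZMod M) :
    FF x i r ≤ prt x i := by
  unfold FF prt
  refine (norm_sum_le _ _).trans (Finset.sum_le_sum fun a _ => ?_)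
  rw [norm_mul, norm_chi, mul_one, Complex.norm_real, Real.norm_of_nonneg (hx _)]

/-- complex conjugation -/
theorem FF_neg (x : VV M → ℝ) (i : P9) (r : ZMod M) : FF x i (-r) = FF x i r := by
  unfold FF
  rw [← Complex.norm_conj (∑ a : ZMod M, (x (i, a) : ℂ) * ZMod.stdAddChar (r * a)), map_sum]
  congr 1
  refine Finset.sum_congr rfl fun a _ => ?_
  rw [map_mul (starRingEnd ℂ), Complex.conj_ofReal, ← AddChar.map_neg_eq_conj, neg_mul]

theorem cw_nonneg (r : ZMod M) : 0 ≤ cw r := by unfold cw; positivity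

theorem cw_le_one (r : ZMod M) : cw r ≤ 1 := by
  unfold cw
  have := norm_add_le (1 : ℂ) (ZMod.stdAddChar r)
  rw [norm_chi, norm_one] at this
  linarith

/-- `|1 + ω| = 1` for a primitive cube root of unity `ω`. -/
theorem cw_three (r : ZMod 3) (hr : r ≠ 0) : cw r = 1 / 2 := by
  unfold cw
  have h1 : (ZMod.stdAddChar r : ℂ) ≠ 1 := by
    intro h
    apply hr
    apply ZMod.injective_stdAddChar
    rw [h, AddChar.map_zero_eq_one]
  have h3 : (ZMod.stdAddChar r : ℂ) ^ 3 = 1 := by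
    rw [← AddChar.map_nsmul_eq_pow]
    have : (3 : ℕ) • r = 0 := by
      clear h1
      revert r
      decide
    rw [this, AddChar.map_zero_eq_one]
  have h4 : (1 : ℂ) + ZMod.stdAddChar r = -(ZMod.stdAddChar r) ^ 2 := by
    have h5 : ((ZMod.stdAddChar r : ℂ) - 1) *
      (1 + ZMod.stdAddChar r + (ZMod.stdAddChar r) ^ 2) = 0 := by
      linear_combination h3
    rcases mul_eq_zero.1 h5 with h | h
    · exact absurd (sub_eq_zero.1 h) h1
    · linear_combination h
  rw [h4, norm_neg, norm_pow, norm_chi, one_pow]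

end W880b64
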