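import Pool.Agent.W_880b64_h21.FCore
import Pool.Agent.W_880b64_h21.EMd

/-!
# The bound (F1) for `T6 (EM M)` (task E4)
-/

namespace W880b64

open Finset BigOperators

theorem FourF1_off (i : P9) (F : P9 → ℝ) :
    (∑ j, if i = j then 0 else F j) = ∑ j, F j - F i := by
  have h1 : ∀ j, (if i = j then 0 else F j) = F j - (if i = j then F j else 0) := by
    intro j
    split_ifs <;> ring
  rw [Finset.sum_congr rfl fun j _ => h1 j, Finset.sum_sub_distrib, Finset.sum_ite_eq,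
    if_pos (Finset.mem_univ _)]

theorem FourF1_card (c : ℝ) : ∑ _i : P9, c = 9 * c := by
  rw [Finset.sum_const, Finset.card_univ, show Fintype.card P9 = 9 from rfl]
  simp

theorem FourF1_sqf (a : P9 → ℝ) :
    ∑ p : P9 × P9, (if p.1 = p.2 then 0 else a p.1 * a p.2) ^ 2 =
      (∑ i, a i ^ 2) ^ 2 - ∑ i, (a i ^ 2) ^ 2 := by
  rw [Fintype.sum_prod_type]
  have h1 : ∀ i, ∑ j, (if (i, j).1 = (i, j).2 then 0 else a (i, j).1 * a (i, j).2) ^ 2 =
      a i ^ 2 * ∑ j, a j ^ 2 - (a i ^ 2) ^ 2 := by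
    intro i
    rw [Finset.mul_sum, sq (a i ^ 2), ← FourF1_off i fun j => a i ^ 2 * a j ^ 2]
    refine Finset.sum_congr rfl fun j _ => ?_
    show (if i = j then 0 else a i * a j) ^ 2 = _
    split_ifs
    · norm_num
    · ring
  rw [Finset.sum_congr rfl fun i _ => h1 i, Finset.sum_sub_distrib, ← Finset.sum_mul]
  ring

theorem FourF1_sqg (a : P9 → ℝ) :
    ∑ p : P9 × P9, (if p.1 = p.2 then 0 else a (-p.1 - p.2)) ^ 2 = 8 * ∑ i, a i ^ 2 := by
  rw [Fintype.sum_prod_type]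
  have h0 : ∀ i : P9, -i - i = i := by decide
  have h1 : ∀ i, ∑ j, (if (i, j).1 = (i, j).2 then 0 else a (-(i, j).1 - (i, j).2)) ^ 2 =
      ∑ j, a j ^ 2 - a i ^ 2 := by
    intro i
    have h2 : ∑ j, a (-i - j) ^ 2 = ∑ j, a j ^ 2 :=
      Equiv.sum_comp (Equiv.subLeft (-i)) fun j => a j ^ 2
    have h3 := FourF1_off i fun j => a (-i - j) ^ 2
    simp only [h0, h2] at h3
    rw [← h3]
    refine Finset.sum_congr rfl fun j _ => ?_
    show (if i = j then 0 else a (-i - j)) ^ 2 = _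
    split_ifs
    · norm_num
    · rfl
  rw [Finset.sum_congr rfl fun i _ => h1 i, Finset.sum_sub_distrib, FourF1_card]
  ring

/-- `∑_{i≠j} a_i a_j a_{-i-j} ≤ (8/3) S √S`, `S = ∑ a²`, for `a ≥ 0`:
Cauchy–Schwarz over ordered pairs `(i,j)`, `i ≠ j`:
`≤ √(∑_{i≠j} a_i² a_j²) √(∑_{i≠j} a_{-i-j}²) ≤ √(S² - ∑a⁴) √(8 S)`, `∑ a⁴ ≥ S²/9`. -/
theorem TP_cube {a : P9 → ℝ} (ha : ∀ i, 0 ≤ a i) :
    TP a ≤ 8 / 3 * (∑ i, a i ^ 2) * Real.sqrt (∑ i, a i ^ 2) := by
  set S := ∑ i, a i ^ 2 with hS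
  have hS0 : 0 ≤ S := Finset.sum_nonneg fun i _ => sq_nonneg _
  have hTP : TP a = ∑ p : P9 × P9, (if p.1 = p.2 then 0 else a p.1 * a p.2) *
      (if p.1 = p.2 then 0 else a (-p.1 - p.2)) := by
    rw [Fintype.sum_prod_type]
    unfold TP
    refine Finset.sum_congr rfl fun i _ => Finset.sum_congr rfl fun j _ => ?_
    show _ = (if i = j then 0 else a i * a j) * (if i = j then 0 else a (-i - j))
    split_ifs
    · norm_num
    · rfl
  have h1 : TP a ^ 2 ≤ (S ^ 2 - ∑ i, (a i ^ 2) ^ 2) * (8 * S) := by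
    rw [hTP, hS, ← FourF1_sqf a, ← FourF1_sqg a]
    exact Finset.sum_mul_sq_le_sq_mul_sq _ _ _
  have h2 : S ^ 2 ≤ 9 * ∑ i, (a i ^ 2) ^ 2 := by
    have h3 := sq_sum_le_card_mul_sum_sq (s := (Finset.univ : Finset P9)) (f := fun i => a i ^ 2)
    rw [Finset.card_univ, show Fintype.card P9 = 9 from rfl] at h3
    exact_mod_cast h3
  have h3 : TP a ^ 2 ≤ (8 / 3 * S * Real.sqrt S) ^ 2 := by
    have h4 : (8 / 3 * S * Real.sqrt S) ^ 2 = 64 / 9 * S ^ 2 * S := by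
      rw [mul_pow, Real.sq_sqrt hS0]
      ring
    rw [h4]
    refine h1.trans ?_
    have h5 : S ^ 2 - ∑ i, (a i ^ 2) ^ 2 ≤ 8 / 9 * S ^ 2 := by linarith
    calc (S ^ 2 - ∑ i, (a i ^ 2) ^ 2) * (8 * S) ≤ (8 / 9 * S ^ 2) * (8 * S) :=
          mul_le_mul_of_nonneg_right h5 (by positivity)
      _ = 64 / 9 * S ^ 2 * S := by ring
  exact (le_abs_self _).trans (abs_le_of_sq_le_sq h3 (by positivity))

theorem FourF1_sumA {M : ℕ} [NeZero M] (x : VV M → ℝ) :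
    ∑ r ∈ univ.erase (0 : ZMod M), ∑ i, FF x i r ^ 2 = M * UU x := by
  rw [Finset.sum_comm]
  unfold UU
  rw [Finset.mul_sum]
  exact Finset.sum_congr rfl fun i _ => FF_parseval x i

theorem FourF1_A_le {M : ℕ} [NeZero M] (hodd : Odd M) (x : VV M → ℝ) {r : ZMod M}
    (hr : r ≠ 0) : ∑ i, FF x i r ^ 2 ≤ M / 2 * UU x := by
  have h1 : -r ≠ r := by
    intro h
    rcases (ZMod.neg_eq_self_iff r).1 h with h2 | h2
    · exact hr h2
    · obtain ⟨k, hk⟩ := hodd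
      omega
  have h2 : ({r, -r} : Finset (ZMod M)) ⊆ univ.erase 0 := by
    intro s hs
    rw [Finset.mem_insert, Finset.mem_singleton] at hs
    rw [Finset.mem_erase]
    refine ⟨?_, Finset.mem_univ _⟩
    rcases hs with rfl | rfl
    · exact hr
    · exact neg_ne_zero.2 hr
  have h3 : ∑ s ∈ ({r, -r} : Finset (ZMod M)), ∑ i, FF x i s ^ 2 ≤ M * UU x := by
    rw [← FourF1_sumA x]
    exact Finset.sum_le_sum_of_subset_of_nonneg h2 fun s _ _ =>
      Finset.sum_nonneg fun i _ => sq_nonneg _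
  rw [Finset.sum_pair h1.symm] at h3
  have h4 : ∑ i, FF x i (-r) ^ 2 = ∑ i, FF x i r ^ 2 :=
    Finset.sum_congr rfl fun i _ => by rw [FF_neg]
  rw [h4] at h3
  linarith

theorem FourF1_UU_nonneg {M : ℕ} [NeZero M] (x : VV M → ℝ) : 0 ≤ UU x :=
  Finset.sum_nonneg fun _ _ => Finset.sum_nonneg fun _ _ => sq_nonneg _

theorem FourF1_main {M : ℕ} [NeZero M] (hM : 2 ≤ M) (hodd : Odd M) (x : VV M → ℝ) (c : ℝ)
    (hc : ∀ r : ZMod M, r ≠ 0 → cw r ≤ c) :
    T6 (EM M) x ≤ 2 / M * TP (prt x) + c * (16 / 3 * UU x * Real.sqrt (M / 2 * UU x)) := by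
  refine (F_core hM x).trans ?_
  have hM0 : (0 : ℝ) < M := by
    have : 0 < M := by omega
    exact_mod_cast this
  have hU := FourF1_UU_nonneg x
  have h1 : ∀ r ∈ univ.erase (0 : ZMod M), cw r * ∑ i : P9, ∑ j : P9,
      (if i = j then 0 else FF x i r * FF x j r * FF x (-i - j) r) ≤
      c * (8 / 3 * Real.sqrt (M / 2 * UU x)) * ∑ i, FF x i r ^ 2 := by
    intro r hr
    have hr0 : r ≠ 0 := Finset.ne_of_mem_erase hr
    have h2 := TP_cube (a := fun i => FF x i r) fun i => FF_nonneg x i r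
    have h3 := FourF1_A_le hodd x hr0
    have hA : 0 ≤ ∑ i, FF x i r ^ 2 := Finset.sum_nonneg fun i _ => sq_nonneg _
    have h4 : TP (fun i => FF x i r) ≤ 8 / 3 * Real.sqrt (M / 2 * UU x) * ∑ i, FF x i r ^ 2 := by
      refine h2.trans ?_
      have h5 := Real.sqrt_le_sqrt h3
      have h6 : 8 / 3 * (∑ i, FF x i r ^ 2) * Real.sqrt (∑ i, FF x i r ^ 2) ≤
          8 / 3 * (∑ i, FF x i r ^ 2) * Real.sqrt (M / 2 * UU x) :=
        mul_le_mul_of_nonneg_left h5 (by positivity)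
      linarith
    have h7 : 0 ≤ TP (fun i => FF x i r) := by
      unfold TP
      refine Finset.sum_nonneg fun i _ => Finset.sum_nonneg fun j _ => ?_
      split_ifs
      · exact le_rfl
      · exact mul_nonneg (mul_nonneg (FF_nonneg x i r) (FF_nonneg x j r)) (FF_nonneg x _ r)
    have hc0 : 0 ≤ c := (cw_nonneg r).trans (hc r hr0)
    show cw r * TP (fun i => FF x i r) ≤ _
    calc cw r * TP (fun i => FF x i r) ≤ c * TP (fun i => FF x i r) :=
          mul_le_mul_of_nonneg_right (hc r hr0) h7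
      _ ≤ c * (8 / 3 * Real.sqrt (M / 2 * UU x) * ∑ i, FF x i r ^ 2) :=
          mul_le_mul_of_nonneg_left h4 hc0
      _ = _ := by ring
  have h8 := Finset.sum_le_sum h1
  rw [← Finset.mul_sum, FourF1_sumA] at h8
  have h9 := mul_le_mul_of_nonneg_left h8 (show (0 : ℝ) ≤ 2 / M by positivity)
  have h10 : 2 / (M : ℝ) * (c * (8 / 3 * Real.sqrt (M / 2 * UU x)) * (M * UU x)) =
      c * (16 / 3 * UU x * Real.sqrt (M / 2 * UU x)) := by
    field_simp
    ring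
  rw [h10] at h9
  linarith

/-- Proof.  `F_core`; for `r ≠ 0` let `A(r) = ∑_i FF x i r ^ 2`; by `TP_cube` the inner sum is
`≤ (8/3) A √A`.  `∑_{r≠0} A(r) = M·UU x` (`FF_parseval`), `A(-r) = A(r)`, and `r ≠ -r` for `r ≠ 0`
(`M` odd), so `A(r) ≤ M·UU x/2`.  Hence the nontrivial part is
`≤ (2/M)(8/3) √(M U/2) M U = (16/3) U √(M U/2)` (`cw ≤ 1`). -/
theorem F1 {M : ℕ} [NeZero M] (hM : 2 ≤ M) (hodd : Odd M) (x : VV M → ℝ) :
    T6 (EM M) x ≤ 2 / M * TP (prt x) + 16 / 3 * UU x * Real.sqrt (M / 2 * UU x) := by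
  have h := FourF1_main hM hodd x 1 fun r _ => cw_le_one r
  rw [one_mul] at h
  exact h

/-- Same proof with `cw r = 1/2`: `(8/3) √(3/2) U √U = 3.26599.. U √U`. -/
theorem F1_three (x : VV 3 → ℝ) :
    T6 (EM 3) x ≤ 2 / 3 * TP (prt x) + 3.266 * UU x * Real.sqrt (UU x) := by
  have h := FourF1_main (M := 3) (by norm_num) (by decide) x (1 / 2) fun r hr =>
    (cw_three r hr).le
  have hU := FourF1_UU_nonneg x
  have h1 : Real.sqrt (((3 : ℕ) : ℝ) / 2 * UU x) = Real.sqrt (3 / 2) * Real.sqrt (UU x) := by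
    rw [← Real.sqrt_mul (by norm_num)]
    norm_num
  have h2 : Real.sqrt (3 / 2) ≤ 1.22475 := by
    rw [Real.sqrt_le_left (by norm_num)]
    norm_num
  rw [h1] at h
  have h3 : 0 ≤ UU x * Real.sqrt (UU x) := mul_nonneg hU (Real.sqrt_nonneg _)
  have h4 := mul_le_mul_of_nonneg_right h2 h3
  push_cast at h
  refine h.trans ?_
  have h5 : (1 : ℝ) / 2 * (16 / 3 * UU x * (Real.sqrt (3 / 2) * Real.sqrt (UU x))) =
      8 / 3 * (Real.sqrt (3 / 2) * (UU x * Real.sqrt (UU x))) := by ring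
  rw [h5]
  have h6 : 3.266 * UU x * Real.sqrt (UU x) = 3.266 * (UU x * Real.sqrt (UU x)) := by ring
  rw [h6]
  linarith

end W880b64
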