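import Pool.Agent.W_880b64_h21.Four

/-!
# A small value of `cw` (task E3b)
-/

namespace W880b64

open Finset BigOperators

/-- Proof: `r = (p-1)/2` (as an element of `ZMod p`), `χ(r) = exp(2πi (p-1)/(2p)) = -exp(-πi/p)`,
`‖1 - exp(-πi/p)‖ ≤ π/p ≤ π/11`, so `cw r ≤ π/22 < 0.143`. -/
theorem cw_half (p : ℕ) [Fact p.Prime] (hp : 11 ≤ p) : ∃ r : ZMod p, cw r < 0.167 := by
  have hodd : Odd p := (Fact.out : p.Prime).odd_of_ne_two (by omega)
  obtain ⟨m, hm⟩ := hodd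
  have hm5 : 5 ≤ m := by omega
  refine ⟨((m : ℤ) : ZMod p), ?_⟩
  unfold cw
  rw [ZMod.stdAddChar_coe]
  have hp0 : (p : ℝ) ≠ 0 := by positivity
  have hpC : (p : ℂ) ≠ 0 := by exact_mod_cast hp0
  have hpm : (p : ℂ) = 2 * m + 1 := by exact_mod_cast hm
  have e1 : (2 * Real.pi * Complex.I * ((m : ℤ) : ℂ) / (p : ℂ)) =
      Real.pi * Complex.I + Complex.I * ((-(Real.pi / p) : ℝ) : ℂ) := by
    push_cast
    rw [hpm] at hpC ⊢
    field_simp
    ring
  rw [e1, Complex.exp_add, Complex.exp_pi_mul_I]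
  have e2 : (1 : ℂ) + -1 * Complex.exp (Complex.I * ((-(Real.pi / p) : ℝ) : ℂ)) =
      -(Complex.exp (Complex.I * ((-(Real.pi / p) : ℝ) : ℂ)) - 1) := by ring
  rw [e2, norm_neg]
  have h1 := Real.norm_exp_I_mul_ofReal_sub_one_le (x := -(Real.pi / p))
  have h2 : ‖(-(Real.pi / p) : ℝ)‖ = Real.pi / p := by
    rw [norm_neg, Real.norm_of_nonneg (by positivity)]
  rw [h2] at h1
  have h3 : Real.pi / p ≤ 3.15 / 11 := by
    have hp11 : (11 : ℝ) ≤ p := by exact_mod_cast hp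
    exact div_le_div₀ (by norm_num) Real.pi_lt_d2.le (by norm_num) hp11
  have h4 : (3.15 : ℝ) / 11 / 2 < 0.167 := by norm_num
  linarith

end W880b64
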