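import Pool.Agent.W_880b64_h21.Base

/-!
# The counting part of the lemma `κ = 0.901` (task E3c)
-/

namespace W880b64

open Finset BigOperators

theorem KapC_aux1 {f g : ℝ} (hg : 0 ≤ g) (hgf : g ≤ f) (hf : f ≤ 1) :
    0.0199 * ((if (0.167:ℝ) ≤ g then (1:ℝ) else 0) - (if (0.875:ℝ) ≤ g then (1:ℝ) else 0))
      + 0.0611 * ((if (0.4042:ℝ) ≤ g then (1:ℝ) else 0) - (if (0.761:ℝ) ≤ g then (1:ℝ) else 0))
      - 0.099 * (if (0.901:ℝ) ≤ g then (1:ℝ) else 0) ≤ f ^ 2 * (901 / 1000 - g) := by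
  have hfg : g ^ 2 ≤ f ^ 2 := by nlinarith
  have hf2 : f ^ 2 ≤ 1 := by nlinarith
  have hf0 : 0 ≤ f ^ 2 := by positivity
  by_cases h1 : (0.901:ℝ) ≤ g
  · have a1 : (0.167:ℝ) ≤ g := by norm_num at h1 ⊢; linarith
    have a2 : (0.875:ℝ) ≤ g := by norm_num at h1 ⊢; linarith
    have a3 : (0.4042:ℝ) ≤ g := by norm_num at h1 ⊢; linarith
    have a4 : (0.761:ℝ) ≤ g := by norm_num at h1 ⊢; linarith
    rw [if_pos h1, if_pos a1, if_pos a2, if_pos a3, if_pos a4]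
    norm_num at h1 ⊢
    nlinarith
  · have h901 : g < 0.901 := not_le.1 h1
    have hk : 0 ≤ 901 / 1000 - g := by norm_num at h901 ⊢; linarith
    have hmul : g ^ 2 * (901 / 1000 - g) ≤ f ^ 2 * (901 / 1000 - g) :=
      mul_le_mul_of_nonneg_right hfg hk
    by_cases h2 : (0.875:ℝ) ≤ g
    · have a1 : (0.167:ℝ) ≤ g := by norm_num at h2 ⊢; linarith
      have a3 : (0.4042:ℝ) ≤ g := by norm_num at h2 ⊢; linarith
      have a4 : (0.761:ℝ) ≤ g := by norm_num at h2 ⊢; linarith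
      rw [if_neg h1, if_pos a1, if_pos h2, if_pos a3, if_pos a4]
      have := mul_nonneg hf0 hk
      linarith
    · have h875 : g < 0.875 := not_le.1 h2
      by_cases h3 : (0.761:ℝ) ≤ g
      · have a1 : (0.167:ℝ) ≤ g := by norm_num at h3 ⊢; linarith
        have a3 : (0.4042:ℝ) ≤ g := by norm_num at h3 ⊢; linarith
        rw [if_neg h1, if_pos a1, if_neg h2, if_pos a3, if_pos h3]
        have : (0.0199:ℝ) ≤ g ^ 2 * (901 / 1000 - g) := by
          norm_num at h3 h875 ⊢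
          nlinarith [mul_nonneg (sub_nonneg.2 h3) (sub_nonneg.2 h875.le), sq_nonneg g]
        linarith
      · have h761 : g < 0.761 := not_le.1 h3
        by_cases h4 : (0.4042:ℝ) ≤ g
        · have a1 : (0.167:ℝ) ≤ g := by norm_num at h4 ⊢; linarith
          rw [if_neg h1, if_pos a1, if_neg h2, if_pos h4, if_neg h3]
          have : (0.081:ℝ) ≤ g ^ 2 * (901 / 1000 - g) := by
            norm_num at h4 h761 ⊢
            nlinarith [mul_nonneg (sub_nonneg.2 h4) (sub_nonneg.2 h761.le), sq_nonneg g]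
          linarith
        · have h4042 : g < 0.4042 := not_le.1 h4
          by_cases h5 : (0.167:ℝ) ≤ g
          · rw [if_neg h1, if_pos h5, if_neg h2, if_neg h4, if_neg h3]
            have : (0.0199:ℝ) ≤ g ^ 2 * (901 / 1000 - g) := by
              norm_num at h5 h4042 ⊢
              nlinarith [mul_nonneg (sub_nonneg.2 h5) (sub_nonneg.2 h4042.le), sq_nonneg g]
            linarith
          · rw [if_neg h1, if_neg h5, if_neg h2, if_neg h4, if_neg h3]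
            have := mul_nonneg hf0 hk
            linarith

theorem KapC_aux2 {ι : Type} [Fintype ι] [DecidableEq ι] (z : ι) (G : ι → ℝ) (hz : G z = 1)
    {c : ℝ} (hc : c ≤ 1) :
    ∑ r ∈ univ.erase z, (if c ≤ G r then (1:ℝ) else 0) =
      ((univ.filter (fun r => c ≤ G r)).card : ℝ) - 1 := by
  have h1 : ∑ r ∈ univ.erase z, (if c ≤ G r then (1:ℝ) else 0) + (if c ≤ G z then (1:ℝ) else 0)
      = ∑ r, (if c ≤ G r then (1:ℝ) else 0) :=
    Finset.sum_erase_add _ _ (mem_univ z)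
  rw [if_pos (by rw [hz]; exact hc)] at h1
  rw [← Finset.sum_boole] 
  linarith

/-- The counting part of the lemma `κ`.

Proof.  Let `A, A2, B1, C1, B2, C2` be the level sets of `G` for `0.901, 0.6236, 0.875, 0.167,
0.761, 0.4042`, `n = |A| - 1` (`z ∈ A`).  `B1 ⊆ C1`, `B2 ⊆ C2`, so `|C1 \ B1| ≥ |A2| - 1 ≥ 2 n`
and `|C2 \ B2| ≥ n`; `z` is in none of these differences; `C2 \ B2 ⊆ C1 \ B1`
(`0.4042 ≥ 0.167`, `0.761 ≤ 0.875`).
With `κ = 0.901`: for `r ∈ C1 \ B1`: `G² (κ - G) ≥ 0.0199`, for `r ∈ C2 \ B2`: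
`G² (κ - G) ≥ 0.081` (the function `s²(κ-s)` increases up to `2κ/3` and decreases afterwards:
`0.167²·0.734 = 0.02047`, `0.875²·0.026 = 0.019906`, `0.4042²·0.4968 = 0.08116`,
`0.761²·0.14 = 0.08107`), and `F² ≥ G²`.  For `r ∈ A \ {z}`: `F²(κ - G) ≥ -(1-κ) = -0.099`
(`F ≤ 1`, `G ≤ F ≤ 1`).  For all other `r ≠ z` it is `≥ 0`.
So the sum is `≥ -0.099 n + 0.0199 · 2n + (0.081 - 0.0199) n = 0.0019 n ≥ 0`.
(For instance: pointwise `F²(κ-G) ≥ 0.0199·1_{C1\B1} + 0.0611·1_{C2\B2} - 0.099·1_A` for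
`r ≠ z`, and sum up.) -/
theorem kappa_count {ι : Type} [Fintype ι] [DecidableEq ι] (z : ι) (F G : ι → ℝ)
    (hG : ∀ r, 0 ≤ G r) (hGF : ∀ r, G r ≤ F r) (hF1 : ∀ r, F r ≤ 1) (hz : G z = 1)
    (h1 : (univ.filter (fun r => (0.901:ℝ) ≤ G r)).card + (univ.filter (fun r => (0.901:ℝ) ≤ G r)).card
      ≤ (univ.filter (fun r => (0.6236:ℝ) ≤ G r)).card + 1)
    (h2 : (univ.filter (fun r => (0.6236:ℝ) ≤ G r)).card
      + (univ.filter (fun r => (0.875:ℝ) ≤ G r)).card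
      ≤ (univ.filter (fun r => (0.167:ℝ) ≤ G r)).card + 1)
    (h3 : (univ.filter (fun r => (0.901:ℝ) ≤ G r)).card
      + (univ.filter (fun r => (0.761:ℝ) ≤ G r)).card
      ≤ (univ.filter (fun r => (0.4042:ℝ) ≤ G r)).card + 1) :
    0 ≤ ∑ r ∈ univ.erase z, F r ^ 2 * (901 / 1000 - G r) := by
  have hpt : ∑ r ∈ univ.erase z,
      (0.0199 * ((if (0.167:ℝ) ≤ G r then (1:ℝ) else 0) - (if (0.875:ℝ) ≤ G r then (1:ℝ) else 0))
      + 0.0611 * ((if (0.4042:ℝ) ≤ G r then (1:ℝ) else 0) - (if (0.761:ℝ) ≤ G r then (1:ℝ) else 0))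
      - 0.099 * (if (0.901:ℝ) ≤ G r then (1:ℝ) else 0))
      ≤ ∑ r ∈ univ.erase z, F r ^ 2 * (901 / 1000 - G r) :=
    Finset.sum_le_sum (fun r _ => KapC_aux1 (hG r) (hGF r) (hF1 r))
  refine le_trans ?_ hpt
  rw [Finset.sum_sub_distrib, Finset.sum_add_distrib, ← Finset.mul_sum, ← Finset.mul_sum,
    ← Finset.mul_sum, Finset.sum_sub_distrib, Finset.sum_sub_distrib,
    KapC_aux2 z G hz (by norm_num), KapC_aux2 z G hz (by norm_num), KapC_aux2 z G hz (by norm_num),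
    KapC_aux2 z G hz (by norm_num), KapC_aux2 z G hz (by norm_num)]
  have hA : 1 ≤ (univ.filter (fun r => (0.901:ℝ) ≤ G r)).card := by
    apply Finset.card_pos.2
    exact ⟨z, by simp only [mem_filter, mem_univ, true_and]; rw [hz]; norm_num⟩
  have hA' : (1:ℝ) ≤ ((univ.filter (fun r => (0.901:ℝ) ≤ G r)).card : ℝ) := by exact_mod_cast hA
  have h1' := (Nat.cast_le (α := ℝ)).2 h1
  have h2' := (Nat.cast_le (α := ℝ)).2 h2
  have h3' := (Nat.cast_le (α := ℝ)).2 h3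
  simp only [Nat.cast_add, Nat.cast_one] at h1' h2' h3'
  generalize ((univ.filter (fun r => (0.901:ℝ) ≤ G r)).card : ℝ) = a at *
  generalize ((univ.filter (fun r => (0.6236:ℝ) ≤ G r)).card : ℝ) = b at *
  generalize ((univ.filter (fun r => (0.875:ℝ) ≤ G r)).card : ℝ) = c at *
  generalize ((univ.filter (fun r => (0.167:ℝ) ≤ G r)).card : ℝ) = d at *
  generalize ((univ.filter (fun r => (0.761:ℝ) ≤ G r)).card : ℝ) = e at *
  generalize ((univ.filter (fun r => (0.4042:ℝ) ≤ G r)).card : ℝ) = f at *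
  norm_num
  linarith

end W880b64
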