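import Pool.Agent.W_880b64_h21.KapA
import Pool.Agent.W_880b64_h21.KapB
import Pool.Agent.W_880b64_h21.KapC

/-!
# The lemma `κ = 0.901` (task E3)
-/

namespace W880b64

open Finset BigOperators

/-- Fourier coefficients of the smoothed function -/
theorem Kappa_smooth {p : ℕ} [NeZero p] (f : ZMod p → ℝ) (r : ZMod p) :
    ‖hatF (fun a => (f a + f (a - 1)) / 2) r‖ = ‖hatF f r‖ * cw r := by
  have h1 : hatF (fun a => (f a + f (a - 1)) / 2) r =
      hatF f r * ((1 + ZMod.stdAddChar r) / 2) := by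
    unfold hatF
    have h2 : ∀ a ∈ (univ : Finset (ZMod p)),
        (((f a + f (a - 1)) / 2 : ℝ) : ℂ) * ZMod.stdAddChar (r * a) =
        ((f a : ℂ) * ZMod.stdAddChar (r * a)) / 2 +
          ((f (a - 1) : ℂ) * ZMod.stdAddChar (r * a)) / 2 := by
      intro a _
      push_cast
      ring
    rw [sum_congr rfl h2, sum_add_distrib]
    have h3 : ∑ a : ZMod p, ((f (a - 1) : ℂ) * ZMod.stdAddChar (r * a)) / 2 =
        ∑ a : ZMod p, ((f a : ℂ) * ZMod.stdAddChar (r * a)) * ZMod.stdAddChar r / 2 := by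
      rw [← Equiv.sum_comp (Equiv.subRight (1 : ZMod p))
        (fun a => ((f a : ℂ) * ZMod.stdAddChar (r * a)) * ZMod.stdAddChar r / 2)]
      apply sum_congr rfl
      intro a _
      have h4 : (ZMod.stdAddChar (r * a) : ℂ) =
          ZMod.stdAddChar (r * (a - 1)) * ZMod.stdAddChar r := by
        rw [← AddChar.map_add_eq_mul]
        congr 1
        ring
      rw [Equiv.subRight_apply, h4]
      ring
    rw [h3, ← sum_add_distrib, sum_mul]
    apply sum_congr rfl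
    intro a _
    ring
  rw [h1, norm_mul]
  congr 1
  unfold cw
  rw [norm_div]
  norm_num

theorem Kappa_norm {p : ℕ} [Fact p.Prime] (hp : 11 ≤ p) (f : ZMod p → ℝ) (hf : ∀ a, 0 ≤ f a)
    (h1 : ∑ a, f a = 1) :
    ∑ r ∈ univ.erase (0 : ZMod p), cw r * ‖hatF f r‖ ^ 3 ≤
    901 / 1000 * ∑ r ∈ univ.erase (0 : ZMod p), ‖hatF f r‖ ^ 2 := by
  set g : ZMod p → ℝ := fun a => (f a + f (a - 1)) / 2 with hg
  have hg0 : ∀ a, 0 ≤ g a := fun a => by
    have := hf a
    have := hf (a - 1)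
    simp only [hg]
    linarith
  have hg1 : ∑ a, g a = 1 := by
    simp only [hg]
    rw [← sum_div, sum_add_distrib, h1]
    have h2 : ∑ a : ZMod p, f (a - 1) = ∑ a, f a :=
      Equiv.sum_comp (Equiv.subRight (1 : ZMod p)) f
    rw [h2, h1]
    norm_num
  have hsm : ∀ r, ‖hatF g r‖ = ‖hatF f r‖ * cw r := Kappa_smooth f
  have hle1 : ∀ r, ‖hatF f r‖ ≤ 1 := hat_le_one hf h1
  obtain ⟨r0, hr0⟩ := cw_half p hp
  have hex0 : ‖hatF g r0‖ < 0.167 := by
    rw [hsm]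
    have h3 : ‖hatF f r0‖ * cw r0 ≤ 1 * cw r0 :=
      mul_le_mul_of_nonneg_right (hle1 r0) (cw_nonneg r0)
    linarith
  have hs1 : Real.sqrt (1 - (0.901 : ℝ) ^ 2) * Real.sqrt (1 - (0.901 : ℝ) ^ 2) =
      1 - (0.901 : ℝ) ^ 2 := Real.mul_self_sqrt (by norm_num)
  have hs2 : Real.sqrt (1 - (0.6236 : ℝ) ^ 2) * Real.sqrt (1 - (0.875 : ℝ) ^ 2) ≤ 0.3785 := by
    rw [← Real.sqrt_mul (by norm_num)]
    exact Real.sqrt_le_iff.2 ⟨by norm_num, by norm_num⟩
  have hs3 : Real.sqrt (1 - (0.901 : ℝ) ^ 2) * Real.sqrt (1 - (0.761 : ℝ) ^ 2) ≤ 0.28145 := by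
    rw [← Real.sqrt_mul (by norm_num)]
    exact Real.sqrt_le_iff.2 ⟨by norm_num, by norm_num⟩
  have k1 := level_card hg0 hg1 (a := 0.901) (b := 0.901) (c := 0.6236) (by norm_num)
    (by norm_num) (by norm_num) (by norm_num) (by rw [hs1]; norm_num)
    ⟨r0, by linarith⟩
  have k2 := level_card hg0 hg1 (a := 0.6236) (b := 0.875) (c := 0.167) (by norm_num)
    (by norm_num) (by norm_num) (by norm_num) (by linarith)
    ⟨r0, hex0⟩
  have k3 := level_card hg0 hg1 (a := 0.901) (b := 0.761) (c := 0.4042) (by norm_num)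
    (by norm_num) (by norm_num) (by norm_num) (by linarith)
    ⟨r0, by linarith⟩
  have hkc := kappa_count (0 : ZMod p) (fun r => ‖hatF f r‖) (fun r => ‖hatF g r‖)
    (fun r => norm_nonneg _)
    (fun r => by
      show ‖hatF g r‖ ≤ ‖hatF f r‖
      rw [hsm]
      have h3 : ‖hatF f r‖ * cw r ≤ ‖hatF f r‖ * 1 :=
        mul_le_mul_of_nonneg_left (cw_le_one r) (norm_nonneg _)
      linarith)
    hle1 (hat_zero hg1) k1 k2 k3
  rw [mul_sum, ← sub_nonneg, ← sum_sub_distrib]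
  refine hkc.trans (le_of_eq ?_)
  apply sum_congr rfl
  intro r _
  show ‖hatF f r‖ ^ 2 * (901 / 1000 - ‖hatF g r‖) = _
  rw [hsm]
  ring

/-- Proof.  Write `F(r) = ∑_a f(a) χ(r a)`, `χ = ZMod.stdAddChar`.  If `∑ f = 0` then `f = 0` and
both sides are `0`.  Otherwise divide by `∑ f` (both sides are homogeneous of degree 3): assume
`∑ f = 1`.  `g(a) = (f(a) + f(a-1))/2` is a probability vector with
`hatF g r = F(r)(1+χ(r))/2`, so `‖hatF g r‖ = ‖F(r)‖ cw r =: G r ≤ ‖F(r)‖ ≤ 1`, `G 0 = 1`.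
By `cw_half` there is `r` with `G r ≤ cw r < 0.167`, so `level_card` can be used with
`c = 0.6236, 0.167, 0.4042`:
`2·0.901² - 1 = 0.623602`, `0.6236·0.875 - √(1-0.6236²)√(1-0.875²) = 0.16719`,
`0.901·0.761 - √(1-0.901²)√(1-0.761²) = 0.40422`.
`kappa_count` with `z = 0`, `F = ‖F(r)‖` is the claim
(`cw r ‖F‖³ = ‖F‖² G`). -/
theorem kappa (p : ℕ) [Fact p.Prime] (hp : 11 ≤ p) (f : ZMod p → ℝ) (hf : ∀ a, 0 ≤ f a) :
    ∑ r ∈ univ.erase (0 : ZMod p),
      cw r * ‖∑ a : ZMod p, (f a : ℂ) * ZMod.stdAddChar (r * a)‖ ^ 3 ≤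
    901 / 1000 * (∑ a, f a) * ∑ r ∈ univ.erase (0 : ZMod p),
      ‖∑ a : ZMod p, (f a : ℂ) * ZMod.stdAddChar (r * a)‖ ^ 2 := by
  set S := ∑ a, f a with hS
  have hS0 : 0 ≤ S := sum_nonneg fun a _ => hf a
  rcases hS0.eq_or_lt with h0 | hpos
  · have hz : ∀ a, f a = 0 := by
      intro a
      have := (sum_eq_zero_iff_of_nonneg (fun a _ => hf a)).1 h0.symm
      exact this a (mem_univ a)
    have h2 : ∀ r : ZMod p, ∑ a : ZMod p, (f a : ℂ) * ZMod.stdAddChar (r * a) = 0 := by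
      intro r
      apply sum_eq_zero
      intro a _
      rw [hz a]
      simp
    simp [h2]
  · set f1 : ZMod p → ℝ := fun a => f a / S with hf1
    have hn := Kappa_norm hp f1 (fun a => div_nonneg (hf a) hS0) (by
      simp only [hf1]
      rw [← sum_div, ← hS]
      exact div_self hpos.ne')
    have hF : ∀ r : ZMod p, ‖∑ a : ZMod p, (f a : ℂ) * ZMod.stdAddChar (r * a)‖ =
        S * ‖hatF f1 r‖ := by
      intro r
      have h3 : ∑ a : ZMod p, (f a : ℂ) * ZMod.stdAddChar (r * a) = (S : ℂ) * hatF f1 r := by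
        unfold hatF
        rw [mul_sum]
        apply sum_congr rfl
        intro a _
        simp only [hf1]
        push_cast
        have : (S : ℂ) ≠ 0 := by
          rw [Ne, Complex.ofReal_eq_zero]
          exact hpos.ne'
        field_simp
      rw [h3, norm_mul, Complex.norm_real, Real.norm_of_nonneg hS0]
    have hL : ∑ r ∈ univ.erase (0 : ZMod p),
        cw r * ‖∑ a : ZMod p, (f a : ℂ) * ZMod.stdAddChar (r * a)‖ ^ 3 =
        S ^ 3 * ∑ r ∈ univ.erase (0 : ZMod p), cw r * ‖hatF f1 r‖ ^ 3 := by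
      rw [mul_sum]
      apply sum_congr rfl
      intro r _
      rw [hF r]
      ring
    have hR : ∑ r ∈ univ.erase (0 : ZMod p),
        ‖∑ a : ZMod p, (f a : ℂ) * ZMod.stdAddChar (r * a)‖ ^ 2 =
        S ^ 2 * ∑ r ∈ univ.erase (0 : ZMod p), ‖hatF f1 r‖ ^ 2 := by
      rw [mul_sum]
      apply sum_congr rfl
      intro r _
      rw [hF r]
      ring
    rw [hL, hR]
    have hS3 : 0 ≤ S ^ 3 := pow_nonneg hS0 3
    calc S ^ 3 * ∑ r ∈ univ.erase (0 : ZMod p), cw r * ‖hatF f1 r‖ ^ 3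
        ≤ S ^ 3 * (901 / 1000 * ∑ r ∈ univ.erase (0 : ZMod p), ‖hatF f1 r‖ ^ 2) :=
          mul_le_mul_of_nonneg_left hn hS3
      _ = _ := by ring

end W880b64
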