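import Pool.Agent.W_880b64_h21.FCore
import Pool.Agent.W_880b64_h21.Kappa

/-!
# The bound (F2) for `T6 (EM M)` (task E5)
-/

namespace W880b64

open Finset BigOperators

/-- arithmetic–geometric mean inequality for three numbers -/
theorem FourF2_amgm {a b c : ℝ} (ha : 0 ≤ a) (hb : 0 ≤ b) (hc : 0 ≤ c) :
    a ^ 2 * b ^ 2 * c ^ 2 ≤ (a ^ 3 * b ^ 3 + b ^ 3 * c ^ 3 + a ^ 3 * c ^ 3) / 3 := by
  have key : ∀ X Y Z : ℝ, 0 ≤ X → 0 ≤ Y → 0 ≤ Z → X * Y * Z ≤ (X ^ 3 + Y ^ 3 + Z ^ 3) / 3 := by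
    intro X Y Z hX hY hZ
    nlinarith [mul_nonneg (add_nonneg (add_nonneg hX hY) hZ)
      (add_nonneg (add_nonneg (sq_nonneg (X - Y)) (sq_nonneg (Y - Z))) (sq_nonneg (X - Z)))]
  have h := key (a * b) (b * c) (a * c) (mul_nonneg ha hb) (mul_nonneg hb hc) (mul_nonneg ha hc)
  calc a ^ 2 * b ^ 2 * c ^ 2 = (a * b) * (b * c) * (a * c) := by ring
    _ ≤ ((a * b) ^ 3 + (b * c) ^ 3 + (a * c) ^ 3) / 3 := h
    _ = _ := by ring

theorem FourF2_ne (i j : P9) : j = -i - j ↔ i = j := by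
  revert i j
  decide

/-- reindexing of the second variable -/
theorem FourF2_reindex (g : P9 → ℝ) (i : P9) :
    ∑ j : P9, (if i = j then 0 else g i * g (-i - j)) = ∑ j : P9, if i = j then 0 else g i * g j := by
  refine Fintype.sum_equiv (Equiv.subLeft (-i)) _ _ fun j => ?_
  have h : (Equiv.subLeft (-i)) j = -i - j := rfl
  rw [h]
  have h2 : i = -i - j ↔ i = j := by
    revert i j
    decide
  by_cases h3 : i = j
  · rw [if_pos h3, if_pos (h2.2 h3)]
  · rw [if_neg h3, if_neg (fun h4 => h3 (h2.1 h4))]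

/-- the inequality for the nine numbers -/
theorem FourF2_nine (s : P9 → ℝ) (hs : ∀ i, 0 ≤ s i) :
    (∑ i : P9, ∑ j : P9, if i = j then 0 else s i ^ 2 * s j ^ 2 * s (-i - j) ^ 2) ≤
      ∑ i : P9, ∑ j : P9, if i = j then 0 else s i ^ 3 * s j ^ 3 := by
  have h1 : (∑ i : P9, ∑ j : P9, if i = j then 0 else s i ^ 2 * s j ^ 2 * s (-i - j) ^ 2) ≤
      ∑ i : P9, ∑ j : P9, ((if i = j then 0 else s i ^ 3 * s j ^ 3) +
        (if i = j then 0 else s j ^ 3 * s (-i - j) ^ 3) +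
        (if i = j then 0 else s i ^ 3 * s (-i - j) ^ 3)) / 3 := by
    refine Finset.sum_le_sum fun i _ => Finset.sum_le_sum fun j _ => ?_
    by_cases h : i = j
    · simp only [if_pos h]
      norm_num
    · simp only [if_neg h]
      exact FourF2_amgm (hs _) (hs _) (hs _)
  have h2 : (∑ i : P9, ∑ j : P9, if i = j then 0 else s i ^ 3 * s (-i - j) ^ 3) =
      ∑ i : P9, ∑ j : P9, if i = j then 0 else s i ^ 3 * s j ^ 3 :=
    Finset.sum_congr rfl fun i _ => FourF2_reindex (fun k => s k ^ 3) i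
  have h3 : (∑ i : P9, ∑ j : P9, if i = j then 0 else s j ^ 3 * s (-i - j) ^ 3) =
      ∑ i : P9, ∑ j : P9, if i = j then 0 else s i ^ 3 * s j ^ 3 := by
    rw [Finset.sum_comm]
    refine Finset.sum_congr rfl fun j _ => ?_
    rw [← FourF2_reindex (fun k => s k ^ 3) j]
    refine Finset.sum_congr rfl fun i _ => ?_
    have h4 : -i - j = -j - i := by ring
    rw [h4]
    by_cases h : i = j
    · rw [if_pos h, if_pos h.symm]
    · rw [if_neg h, if_neg (fun h' => h h'.symm)]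
  refine h1.trans (le_of_eq ?_)
  simp only [← Finset.sum_div, Finset.sum_add_distrib]
  rw [h2, h3]
  ring

/-- the general form of the bound -/
theorem FourF2_gen {M : ℕ} [NeZero M] (hM : 2 ≤ M) {x : VV M → ℝ} {κ : ℝ} (hκ : 0 ≤ κ)
    (H : ∀ i, ∑ r ∈ univ.erase (0 : ZMod M), cw r * FF x i r ^ 3 ≤
      κ * prt x i * ∑ r ∈ univ.erase (0 : ZMod M), FF x i r ^ 2) :
    T6 (EM M) x ≤ 2 / M * TP (prt x) + 2 * κ * Rt (prt x) (ui x) := by
  have hM0 : (0 : ℝ) < M := by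
    have : 0 < M := by omega
    exact_mod_cast this
  have h0 := F_core hM x
  have hs : ∀ i r, Real.sqrt (FF x i r) ^ 2 = FF x i r := fun i r => Real.sq_sqrt (FF_nonneg x i r)
  have h1 : ∀ r : ZMod M,
      (∑ i : P9, ∑ j : P9, if i = j then 0 else FF x i r * FF x j r * FF x (-i - j) r) ≤
      ∑ i : P9, ∑ j : P9, if i = j then 0 else
        Real.sqrt (FF x i r) ^ 3 * Real.sqrt (FF x j r) ^ 3 := by
    intro r
    have h := FourF2_nine (fun i => Real.sqrt (FF x i r)) (fun i => Real.sqrt_nonneg _)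
    simp only [hs] at h
    exact h
  have h2 : ∑ r ∈ univ.erase (0 : ZMod M),
      cw r * ∑ i : P9, ∑ j : P9, (if i = j then 0 else FF x i r * FF x j r * FF x (-i - j) r) ≤
      ∑ i : P9, ∑ j : P9, if i = j then 0 else ∑ r ∈ univ.erase (0 : ZMod M),
        cw r * (Real.sqrt (FF x i r) ^ 3 * Real.sqrt (FF x j r) ^ 3) := by
    have h3 : ∑ r ∈ univ.erase (0 : ZMod M),
      cw r * ∑ i : P9, ∑ j : P9, (if i = j then 0 else FF x i r * FF x j r * FF x (-i - j) r) ≤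
      ∑ r ∈ univ.erase (0 : ZMod M), cw r * ∑ i : P9, ∑ j : P9, if i = j then 0 else
        Real.sqrt (FF x i r) ^ 3 * Real.sqrt (FF x j r) ^ 3 :=
      Finset.sum_le_sum fun r _ => mul_le_mul_of_nonneg_left (h1 r) (cw_nonneg r)
    refine h3.trans (le_of_eq ?_)
    simp only [Finset.mul_sum]
    rw [Finset.sum_comm]
    refine Finset.sum_congr rfl fun i _ => ?_
    rw [Finset.sum_comm]
    refine Finset.sum_congr rfl fun j _ => ?_
    by_cases h : i = j
    · simp [h]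
    · simp [h]
  have h4 : ∀ i, ∑ r ∈ univ.erase (0 : ZMod M), (Real.sqrt (cw r) * Real.sqrt (FF x i r) ^ 3) ^ 2 ≤
      κ * M * (prt x i * ui x i) := by
    intro i
    have h5 : ∀ r : ZMod M, (Real.sqrt (cw r) * Real.sqrt (FF x i r) ^ 3) ^ 2 =
        cw r * FF x i r ^ 3 := by
      intro r
      rw [mul_pow, Real.sq_sqrt (cw_nonneg r), ← pow_mul, mul_comm 3 2, pow_mul, hs]
    simp only [h5]
    refine (H i).trans (le_of_eq ?_)
    rw [FF_parseval]
    ring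
  have h6 : ∀ i j, ∑ r ∈ univ.erase (0 : ZMod M),
      cw r * (Real.sqrt (FF x i r) ^ 3 * Real.sqrt (FF x j r) ^ 3) ≤
      κ * M * (Real.sqrt (prt x i * ui x i) * Real.sqrt (prt x j * ui x j)) := by
    intro i j
    have h7 := Real.sum_mul_le_sqrt_mul_sqrt (univ.erase (0 : ZMod M))
      (fun r => Real.sqrt (cw r) * Real.sqrt (FF x i r) ^ 3)
      (fun r => Real.sqrt (cw r) * Real.sqrt (FF x j r) ^ 3)
    have h8 : ∀ r : ZMod M, Real.sqrt (cw r) * Real.sqrt (FF x i r) ^ 3 *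
        (Real.sqrt (cw r) * Real.sqrt (FF x j r) ^ 3) =
        cw r * (Real.sqrt (FF x i r) ^ 3 * Real.sqrt (FF x j r) ^ 3) := by
      intro r
      have h9 := Real.mul_self_sqrt (cw_nonneg r)
      calc Real.sqrt (cw r) * Real.sqrt (FF x i r) ^ 3 *
            (Real.sqrt (cw r) * Real.sqrt (FF x j r) ^ 3) =
          (Real.sqrt (cw r) * Real.sqrt (cw r)) *
            (Real.sqrt (FF x i r) ^ 3 * Real.sqrt (FF x j r) ^ 3) := by ring
        _ = _ := by rw [h9]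
    simp only [h8] at h7
    refine h7.trans ?_
    have h10 : 0 ≤ κ * M := mul_nonneg hκ hM0.le
    calc Real.sqrt (∑ r ∈ univ.erase (0 : ZMod M), (Real.sqrt (cw r) * Real.sqrt (FF x i r) ^ 3) ^ 2) *
          Real.sqrt (∑ r ∈ univ.erase (0 : ZMod M), (Real.sqrt (cw r) * Real.sqrt (FF x j r) ^ 3) ^ 2)
        ≤ Real.sqrt (κ * M * (prt x i * ui x i)) * Real.sqrt (κ * M * (prt x j * ui x j)) :=
          mul_le_mul (Real.sqrt_le_sqrt (h4 i)) (Real.sqrt_le_sqrt (h4 j)) (Real.sqrt_nonneg _)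
            (Real.sqrt_nonneg _)
      _ = (Real.sqrt (κ * M) * Real.sqrt (κ * M)) *
          (Real.sqrt (prt x i * ui x i) * Real.sqrt (prt x j * ui x j)) := by
          rw [Real.sqrt_mul h10, Real.sqrt_mul h10]
          ring
      _ = _ := by rw [Real.mul_self_sqrt h10]
  have h11 : (∑ i : P9, ∑ j : P9, if i = j then 0 else ∑ r ∈ univ.erase (0 : ZMod M),
        cw r * (Real.sqrt (FF x i r) ^ 3 * Real.sqrt (FF x j r) ^ 3)) ≤
      κ * M * Rt (prt x) (ui x) := by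
    unfold Rt
    simp only [Finset.mul_sum]
    refine Finset.sum_le_sum fun i _ => Finset.sum_le_sum fun j _ => ?_
    by_cases h : i = j
    · simp [h]
    · simp only [if_neg h]
      exact h6 i j
  have h12 : 2 / (M : ℝ) * ∑ r ∈ univ.erase (0 : ZMod M),
      cw r * ∑ i : P9, ∑ j : P9, (if i = j then 0 else FF x i r * FF x j r * FF x (-i - j) r) ≤
      2 / (M : ℝ) * (κ * M * Rt (prt x) (ui x)) :=
    mul_le_mul_of_nonneg_left (h2.trans h11) (by positivity)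
  have h13 : 2 / (M : ℝ) * (κ * M * Rt (prt x) (ui x)) = 2 * κ * Rt (prt x) (ui x) := by
    field_simp
  linarith

/-- Proof.  `F_core`.  For nonnegative numbers `FF x i r = s_i²`: AM-GM
`s_i² s_j² s_k² ≤ (s_i³s_j³ + s_j³s_k³ + s_i³s_k³)/3`, `k = -i-j`; summing over ordered pairs
`i ≠ j` (the maps `(i,j) ↦ (j,k)`, `(i,j) ↦ (i,k)` are bijections of the ordered pairs of distinct
points) `∑_{i≠j} FF_i FF_j FF_k ≤ ∑_{i≠j} (FF_i FF_j)^{3/2}`.
Then `∑_{r≠0} cw r (FF_i FF_j)^{3/2} ≤ √(∑ cw FF_i³) √(∑ cw FF_j³) ≤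
√(κ π_i p u_i) √(κ π_j p u_j)` by Cauchy–Schwarz and `kappa` (with `FF_parseval`).  Factor `2/p`:
total `2κ Rt (prt x) (ui x)`, `2κ = 1.802`. -/
theorem F2 (p : ℕ) [Fact p.Prime] (hp : 11 ≤ p) {x : VV p → ℝ} (hx : ∀ v, 0 ≤ x v) :
    T6 (EM p) x ≤ 2 / p * TP (prt x) + 1.802 * Rt (prt x) (ui x) := by
  have h := FourF2_gen (M := p) (by omega) (x := x) (κ := 901 / 1000) (by norm_num)
    (fun i => kappa p hp (fun a => x (i, a)) fun a => hx _)
  refine h.trans (le_of_eq ?_)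
  norm_num

/-- Same proof with `cw r = 1/2`: `∑_{r≠0} cw FF_i³ ≤ (1/2) π_i ∑ FF_i² = (1/2) π_i · 3 u_i`, so
the factor is `2 · (1/2) = 1`. -/
theorem F2_three {x : VV 3 → ℝ} (hx : ∀ v, 0 ≤ x v) :
    T6 (EM 3) x ≤ 2 / 3 * TP (prt x) + Rt (prt x) (ui x) := by
  have h := FourF2_gen (M := 3) (by norm_num) (x := x) (κ := 1 / 2) (by norm_num)
    (fun i => by
      rw [Finset.mul_sum]
      refine Finset.sum_le_sum fun r hr => ?_
      rw [cw_three r (Finset.ne_of_mem_erase hr)]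
      have h1 := FF_le hx i r
      have h2 : FF x i r * FF x i r ^ 2 ≤ prt x i * FF x i r ^ 2 :=
        mul_le_mul_of_nonneg_right h1 (sq_nonneg _)
      calc 1 / 2 * FF x i r ^ 3 = 1 / 2 * (FF x i r * FF x i r ^ 2) := by ring
        _ ≤ 1 / 2 * (prt x i * FF x i r ^ 2) := by linarith
        _ = _ := by ring)
  refine h.trans (le_of_eq ?_)
  norm_num

end W880b64
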