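import Pool.Agent.W_880b64_h21.Base

/-!
# The gap principle (task A1)
-/

namespace W880b64

open Finset BigOperators
open W_MP_880b64_co (TG Lam)

/-- **Gap principle.**

Proof.  `Π := closure Lam`.  Suppose some point of `[c,1]` is not in `Π`.  The continuous function
`y ↦ Metric.infDist y Π` attains its maximum `d > 0` on the compact `[c,1]` at some `y0`
(`d > 0` because `Π` is closed).  Then `(y0 - d, y0 + d)` contains no point of `Π`, hence (as
`c, 1 ∈ Π` and `c ≤ y0 ≤ 1`) `c ≤ y0 - d`, `y0 + d ≤ 1`, so `c < y0 < 1`.  Take `f` for `y0`: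
`f c ≤ y0 < f y0`; by the intermediate value theorem there is `x ∈ [c, y0)` with `f x = y0`
(`x ≠ y0` as `f y0 > y0`).  `f` maps `Π` into `Π` (`hf.maps`, `hf.cont`, `map_mem_closure`), so
`x ∉ Π`.  Let `u = sSup (Π ∩ [c,x])`, `v = sInf (Π ∩ [x,1])`; both are in `Π`
(compact nonempty sets), `c ≤ u < x < v ≤ 1`, and `(u,v) ∩ Π = ∅`.  The midpoint of `(u,v)` has
`infDist = (v-u)/2`, so `v - u ≤ 2 d`.  Now `f u ∈ Π`, `f u ≤ f x = y0` so `f u ≤ y0 - d`, and
`f v ∈ Π`, `f v ≥ y0` so `f v ≥ y0 + d`; hence `f v - f u ≥ 2 d ≥ v - u`.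
If `v < f v` this contradicts `hf.contr u v`.  Otherwise `f v = v` (`hf.ge`), so
`f v - f u = v - f u ≤ v - u` with `f u ≥ u`, so `f u = u`; but `x < y0 = f x`, so `hf.contr u x`
gives `f x - f u < x - u`, i.e. `y0 - u < x - u`, contradiction with `x < y0`. -/
theorem gap_principle {c : ℝ} (hc1 : c < 1) (hc : c ∈ closure Lam) (h1 : (1:ℝ) ∈ closure Lam)
    (h : ∀ y, c < y → y < 1 → ∃ f, IsOp f ∧ f c ≤ y ∧ y < f y) :
    Set.Icc c 1 ⊆ closure Lam := by
  by_contra hcon
  rw [Set.not_subset] at hcon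
  obtain ⟨z, hz, hzP⟩ := hcon
  generalize hPdef : closure Lam = P at hc h1 hzP
  have hPc : IsClosed P := hPdef ▸ isClosed_closure
  have hPne : P.Nonempty := ⟨c, hc⟩
  have hcont : Continuous (fun y => Metric.infDist y P) := Metric.continuous_infDist_pt P
  obtain ⟨y0, hy0, hmax⟩ := (isCompact_Icc (a := c) (b := (1:ℝ))).exists_isMaxOn
    ⟨c, le_refl c, hc1.le⟩ hcont.continuousOn
  have hmax' : ∀ y ∈ Set.Icc c 1, Metric.infDist y P ≤ Metric.infDist y0 P :=
    fun y hy => hmax hy
  generalize hd : Metric.infDist y0 P = d at hmax'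
  have hdpos : 0 < d := by
    have h2 : 0 < Metric.infDist z P := (hPc.notMem_iff_infDist_pos hPne).1 hzP
    exact lt_of_lt_of_le h2 (hmax' z hz)
  have hno : ∀ p ∈ P, d ≤ |y0 - p| := by
    intro p hp
    have := Metric.infDist_le_dist_of_mem (x := y0) hp
    rwa [Real.dist_eq, hd] at this
  have hcy : c ≤ y0 - d := by
    have := hno c hc
    rw [abs_of_nonneg (by linarith [hy0.1])] at this
    linarith
  have hy1 : y0 + d ≤ 1 := by
    have := hno 1 h1
    rw [abs_of_nonpos (by linarith [hy0.2])] at this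
    linarith
  obtain ⟨f, hf, hfc, hfy⟩ := h y0 (by linarith) (by linarith)
  obtain ⟨x, hx, hfx⟩ : ∃ x ∈ Set.Icc c y0, f x = y0 := by
    have := intermediate_value_Icc (by linarith : c ≤ y0) hf.cont.continuousOn
    exact this ⟨hfc, hfy.le⟩
  have hxy : x < y0 := lt_of_le_of_ne hx.2 (by rintro rfl; linarith)
  have hmap : ∀ p ∈ P, f p ∈ P := by
    intro p hp
    rw [← hPdef] at hp ⊢
    exact map_mem_closure hf.cont hp hf.maps
  have hy0P : y0 ∉ P := by
    intro hy
    have := hno y0 hy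
    rw [sub_self, abs_zero] at this
    linarith
  have hxP : x ∉ P := fun hx' => hy0P (hfx ▸ hmap x hx')
  obtain ⟨u, hu⟩ : ∃ u, IsGreatest (P ∩ Set.Icc c x) u :=
    (isCompact_Icc.inter_left hPc).exists_isGreatest ⟨c, hc, le_refl c, hx.1⟩
  obtain ⟨v, hv⟩ : ∃ v, IsLeast (P ∩ Set.Icc x 1) v :=
    (isCompact_Icc.inter_left hPc).exists_isLeast ⟨1, h1, by linarith, le_refl 1⟩
  have hux : u < x := lt_of_le_of_ne hu.1.2.2 (by rintro rfl; exact hxP hu.1.1)
  have hxv : x < v := lt_of_le_of_ne hv.1.2.1 (by rintro rfl; exact hxP hv.1.1)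
  have hcu : c ≤ u := hu.1.2.1
  have hv1 : v ≤ 1 := hv.1.2.2
  have hgap : ∀ p ∈ P, p ≤ u ∨ v ≤ p := by
    intro p hp
    by_contra hcon
    push Not at hcon
    rcases le_total p x with hpx | hpx
    · have := hu.2 ⟨hp, by linarith, hpx⟩
      linarith
    · have := hv.2 ⟨hp, hpx, by linarith⟩
      linarith
  have hvu : v - u ≤ 2 * d := by
    have hm : (v - u) / 2 ≤ Metric.infDist ((u + v) / 2) P := by
      rw [Metric.le_infDist hPne]
      intro p hp
      rw [Real.dist_eq]
      rcases hgap p hp with h3 | h3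
      · exact le_trans (by linarith) (le_abs_self _)
      · exact le_trans (by linarith) (neg_le_abs _)
    have := hmax' ((u + v) / 2) ⟨by linarith, by linarith⟩
    linarith
  have hfu : f u ≤ y0 - d := by
    have h3 : f u ≤ y0 := hfx ▸ hf.mono hux.le
    have h4 := hno (f u) (hmap u hu.1.1)
    rw [abs_of_nonneg (by linarith)] at h4
    linarith
  have hfv : y0 + d ≤ f v := by
    have h3 : y0 ≤ f v := hfx ▸ hf.mono hxv.le
    have h4 := hno (f v) (hmap v hv.1.1)
    rw [abs_of_nonpos (by linarith)] at h4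
    linarith
  rcases (hf.ge v).lt_or_eq with h5 | h5
  · have := hf.contr u v (by linarith) h5
    linarith
  · have h6 := hf.ge u
    have h7 : f u = u := by linarith
    have h8 := hf.contr u x hux (by rw [hfx]; exact hxy)
    rw [hfx, h7] at h8
    linarith

end W880b64
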