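import Pool.Agent.W_880b64_h21.Red

/-!
# Facts at a maximiser (task B2)
-/

namespace W880b64

open Finset BigOperators
open W_MP_880b64_co (TG Lam)

section
variable {V : Type} [Fintype V] [DecidableEq V] [Nonempty V]

/-- **Facts at a maximiser.**

Proof.  `a ≠ 0` since `fv E s 0 x = c0`; `a ≠ 1` since `fv E s 1 x = Th E s x ≤ c0`.
`sq2 x < 1 - c0` and `tau (sq2 x) < Th E s x` by (the proof of) `fv_le_c0` and `fv_identity`.
With `A = 1 + c0 - sq2 x > 0`, `Ψ = Th E s x - tau (sq2 x) > 0`, `a* = 2c0/A ∈ [0,1]`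
(`2c0 ≤ A` because `sq2 x ≤ 1 - c0`): `fv E s a* x ≤ fv E s a x` reads
`a*³ Ψ ≤ a³ Ψ - (3a/(4c0)) A² (a - a*)²`; if `a > a*` divide by `a - a*`:
`(3a/(4c0)) A² (a - a*) ≤ (a² + a a* + a*²) Ψ ≤ 3 a² Ψ`, i.e. `a - a* ≤ 4 c0 a Ψ / A²`.
The last claim is the identity. -/
theorem max_facts {E : Finset (Finset V)} {s : V → ℝ} {a : ℝ} {x : V → ℝ}
    (ha : a ∈ Set.Icc (0:ℝ) 1) (hx : x ∈ stdSimplex ℝ V) (hT : Th E s x ≤ c0)
    (hmax : fv E s a x = VC E s) (hgt : c0 < VC E s) :
    0 < a ∧ a < 1 ∧ sq2 x < 1 - c0 ∧ tau (sq2 x) < Th E s x ∧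
    a ≤ 2 * c0 / (1 + c0 - sq2 x)
      + 4 * c0 * a * (Th E s x - tau (sq2 x)) / (1 + c0 - sq2 x) ^ 2 ∧
    VC E s - c0 ≤ a ^ 3 * (Th E s x - tau (sq2 x)) := by
  have hc := Red_aux0
  have hf : c0 < fv E s a x := by rw [hmax]; exact hgt
  have ha0 : 0 < a := by
    rcases lt_or_eq_of_le ha.1 with h | h
    · exact h
    · exfalso
      rw [← h] at hf
      have : fv E s 0 x = c0 := by unfold fv; ring
      linarith
  have ha1 : a < 1 := by
    rcases lt_or_eq_of_le ha.2 with h | h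
    · exact h
    · exfalso
      rw [h] at hf
      have : fv E s 1 x = Th E s x := by unfold fv; ring
      linarith
  have hq : sq2 x < 1 - c0 := by
    by_contra h
    push Not at h
    have h1 : sq2 x ≤ 1 - c0 → Th E s x ≤ tau (sq2 x) := by
      intro h2
      have h3 : sq2 x = 1 - c0 := le_antisymm h2 h
      have h4 := fv_identity E s 1 x
      have h5 : fv E s 1 x = Th E s x := by unfold fv; ring
      rw [h5] at h4
      have h6 : 2 * c0 - (1 + c0 - sq2 x) * 1 = 0 := by rw [h3]; ring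
      rw [h6] at h4
      have h7 : tau (sq2 x) = c0 := by nlinarith [h4]
      linarith
    have := fv_le_c0 ha h1 hT
    linarith
  have hpos : tau (sq2 x) < Th E s x := by
    by_contra h
    push Not at h
    have := fv_le_c0 ha (fun _ => h) hT
    linarith
  have hid := fv_identity E s a x
  have hlast : VC E s - c0 ≤ a ^ 3 * (Th E s x - tau (sq2 x)) := by
    have h6 : 0 ≤ 3 * a / (4 * c0) * (2 * c0 - (1 + c0 - sq2 x) * a) ^ 2 := by positivity
    linarith
  refine ⟨ha0, ha1, hq, hpos, ?_, hlast⟩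
  set A := 1 + c0 - sq2 x with hA
  have hApos : 2 * c0 < A := by linarith
  have hA0 : 0 < A := by linarith
  set P := Th E s x - tau (sq2 x) with hP
  have hP0 : 0 < P := by linarith
  set b := 2 * c0 / A with hb
  have hb0 : 0 < b := by positivity
  have hb1 : b ≤ 1 := (div_le_one hA0).2 hApos.le
  have hAb : A * b = 2 * c0 := by rw [hb]; field_simp
  rcases le_or_gt a b with h | h
  · have : 0 ≤ 4 * c0 * a * P / A ^ 2 := by positivity
    linarith
  · have h1 := (VC_spec E s).2 b ⟨hb0.le, hb1⟩ x hx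
    rw [← hmax] at h1
    have h2 := fv_identity E s b x
    rw [← hA, ← hP, hAb] at h2
    have h3 : 3 * a / (4 * c0) * (2 * c0 - A * a) ^ 2 ≤ (a ^ 3 - b ^ 3) * P := by
      nlinarith [h1, h2, hid]
    have h4 : 2 * c0 - A * a = - (A * (a - b)) := by rw [← hAb]; ring
    rw [h4] at h3
    have h5 : (a ^ 3 - b ^ 3) * P ≤ (a - b) * (3 * a ^ 2 * P) := by
      have e : (a ^ 3 - b ^ 3) * P = (a - b) * ((a ^ 2 + a * b + b ^ 2) * P) := by ring
      rw [e]
      apply mul_le_mul_of_nonneg_left _ (by linarith)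
      apply mul_le_mul_of_nonneg_right _ hP0.le
      nlinarith [h, hb0, ha0]
    have h6 : (a - b) * (3 * a * (A ^ 2 * (a - b))) ≤ (a - b) * (3 * a * (4 * c0 * a * P)) := by
      have h7 : 3 * a / (4 * c0) * (-(A * (a - b))) ^ 2 * (4 * c0) =
          (a - b) * (3 * a * (A ^ 2 * (a - b))) := by field_simp
      have h8 : 3 * a / (4 * c0) * (-(A * (a - b))) ^ 2 * (4 * c0) ≤
          (a - b) * (3 * a ^ 2 * P) * (4 * c0) :=
        mul_le_mul_of_nonneg_right (h3.trans h5) (by positivity)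
      rw [h7] at h8
      nlinarith [h8]
    have h9 : A ^ 2 * (a - b) ≤ 4 * c0 * a * P := by
      have h10 := le_of_mul_le_mul_left h6 (by linarith)
      exact le_of_mul_le_mul_left h10 (by positivity)
    have h11 : a - b ≤ 4 * c0 * a * P / A ^ 2 := by
      rw [le_div_iff₀ (by positivity)]
      linarith
    linarith

end

end W880b64
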