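import Pool.Agent.W_880b64_h21.HidOp

/-!
# Reduction to the inequality `T̂ ≤ τ(q)` (task B1)
-/

namespace W880b64

open Finset BigOperators
open W_MP_880b64_co (TG Lam)

section
variable {V : Type} [Fintype V] [DecidableEq V]

theorem Red_aux0 : (0:ℝ) < c0 := by linarith [c0_lo]

theorem Red_aux1 : c0 ^ 2 + 6 * c0 = 3 := by
  unfold c0
  linear_combination 4 * s3_sq

theorem Red_aux2 (a : ℝ) : 3 * a / (4 * c0) = (c0 + 6) / 4 * a := by
  have h := Red_aux1
  have h0 := Red_aux0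
  rw [div_eq_iff (by positivity)]
  linear_combination (-a) * h

/-- The basic identity (`c0² + 6 c0 = 3`, `CC = (6 + c0)/4`, `s3 = (3 + c0)/2`, `3/c0 = c0 + 6`). -/
theorem fv_identity (E : Finset (Finset V)) (s : V → ℝ) (a : ℝ) (x : V → ℝ) :
    fv E s a x - c0 = a ^ 3 * (Th E s x - tau (sq2 x))
      - 3 * a / (4 * c0) * (2 * c0 - (1 + c0 - sq2 x) * a) ^ 2 := by
  rw [Red_aux2]
  have h := Red_aux1
  have h1 : s3 = (3 + c0) / 2 := by unfold c0; ring
  have h2 : CC = (6 + c0) / 4 := by unfold CC c0; ring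
  unfold fv tau
  rw [h1, h2]
  linear_combination (c0 * a - (1 + c0 - sq2 x) * a ^ 2
    + ((c0 + 2) / 4 - sq2 x / 2) * a ^ 3) * h

/-- If `q ≤ 1 - c0` use the identity.  If `q ≥ 1 - c0`:
`fv ≤ 3a²(1-a)c0 + a³ c0 + c0(1-a)³ ≤ c0 (a + (1-a))³`. -/
theorem fv_le_c0 {E : Finset (Finset V)} {s : V → ℝ} {a : ℝ} {x : V → ℝ}
    (ha : a ∈ Set.Icc (0:ℝ) 1) (h1 : sq2 x ≤ 1 - c0 → Th E s x ≤ tau (sq2 x))
    (h2 : Th E s x ≤ c0) : fv E s a x ≤ c0 := by
  obtain ⟨ha0, ha1⟩ := ha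
  have hc := Red_aux0
  rcases le_total (sq2 x) (1 - c0) with h | h
  · have h3 := fv_identity E s a x
    have h4 := h1 h
    have h5 : a ^ 3 * (Th E s x - tau (sq2 x)) ≤ 0 :=
      mul_nonpos_of_nonneg_of_nonpos (by positivity) (by linarith)
    have h6 : 0 ≤ 3 * a / (4 * c0) * (2 * c0 - (1 + c0 - sq2 x) * a) ^ 2 := by positivity
    linarith
  · unfold fv
    have h3 : 3 * a ^ 2 * (1 - a) * (1 - sq2 x) ≤ 3 * a ^ 2 * (1 - a) * c0 := by
      apply mul_le_mul_of_nonneg_left (by linarith)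
      have : 0 ≤ 1 - a := by linarith
      positivity
    have h4 : a ^ 3 * Th E s x ≤ a ^ 3 * c0 := mul_le_mul_of_nonneg_left h2 (by positivity)
    have h5 : 0 ≤ 3 * a * (1 - a) ^ 2 * c0 := by positivity
    nlinarith [h3, h4, h5]

variable [Nonempty V]

/-- **Comparison.**  Proof: `a' = a (1+c0-sq2 x)/(1+c0-sq2 x') ∈ [0, a]`; then
`(1+c0-sq2 x') a' = (1+c0-sq2 x) a`, so in the identities for `fv E s a x` and `fv E' s' a' x'`
the squares are equal, the factor `3a'/(4c0) ≤ 3a/(4c0)`, and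
`a³ Ψ ≤ a'³ Ψ'` by hypothesis. -/
theorem compare {E E' : Finset (Finset V)} {s s' : V → ℝ} {a : ℝ} {x x' : V → ℝ}
    (ha : a ∈ Set.Icc (0:ℝ) 1) (hx' : x' ∈ stdSimplex ℝ V)
    (hq : sq2 x' ≤ sq2 x) (hq1 : sq2 x ≤ 1)
    (h : Th E s x - tau (sq2 x) ≤
      ((1 + c0 - sq2 x) / (1 + c0 - sq2 x')) ^ 3 * (Th E' s' x' - tau (sq2 x'))) :
    fv E s a x ≤ VC E' s' := by
  obtain ⟨ha0, ha1⟩ := ha
  have hc := Red_aux0
  set A := 1 + c0 - sq2 x with hA
  set A' := 1 + c0 - sq2 x' with hA'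
  have hApos : 0 < A := by linarith
  have hA'pos : 0 < A' := by linarith
  have hAA : A ≤ A' := by linarith
  have hr1 : A / A' ≤ 1 := (div_le_one hA'pos).2 hAA
  have hr0 : 0 ≤ A / A' := by positivity
  set b := a * (A / A') with hb
  have hb0 : 0 ≤ b := by positivity
  have hba : b ≤ a := by
    rw [hb]; exact mul_le_of_le_one_right ha0 hr1
  have hmem : b ∈ Set.Icc (0:ℝ) 1 := ⟨hb0, hba.trans ha1⟩
  refine le_trans ?_ ((VC_spec E' s').2 b hmem x' hx')
  have e1 := fv_identity E s a x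
  have e2 := fv_identity E' s' b x'
  have e3 : A' * b = A * a := by rw [hb]; field_simp
  rw [← hA] at e1
  rw [← hA', e3] at e2
  have h3 : a ^ 3 * (Th E s x - tau (sq2 x)) ≤ b ^ 3 * (Th E' s' x' - tau (sq2 x')) := by
    have h4 : b ^ 3 * (Th E' s' x' - tau (sq2 x')) =
        a ^ 3 * ((A / A') ^ 3 * (Th E' s' x' - tau (sq2 x'))) := by rw [hb]; ring
    rw [h4]
    exact mul_le_mul_of_nonneg_left h (by positivity)
  have h5 : 3 * b / (4 * c0) * (2 * c0 - A * a) ^ 2 ≤ 3 * a / (4 * c0) * (2 * c0 - A * a) ^ 2 := by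
    apply mul_le_mul_of_nonneg_right _ (sq_nonneg _)
    apply div_le_div_of_nonneg_right _ (by positivity)
    linarith
  linarith

/-- Strict version of `compare`. -/
theorem compare_lt {E E' : Finset (Finset V)} {s s' : V → ℝ} {a : ℝ} {x x' : V → ℝ}
    (ha : a ∈ Set.Icc (0:ℝ) 1) (ha0 : 0 < a) (hx' : x' ∈ stdSimplex ℝ V)
    (hq : sq2 x' ≤ sq2 x) (hq1 : sq2 x ≤ 1)
    (h : Th E s x - tau (sq2 x) <
      ((1 + c0 - sq2 x) / (1 + c0 - sq2 x')) ^ 3 * (Th E' s' x' - tau (sq2 x'))) :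
    fv E s a x < VC E' s' := by
  obtain ⟨ha0', ha1⟩ := ha
  have hc := Red_aux0
  set A := 1 + c0 - sq2 x with hA
  set A' := 1 + c0 - sq2 x' with hA'
  have hApos : 0 < A := by linarith
  have hA'pos : 0 < A' := by linarith
  have hAA : A ≤ A' := by linarith
  have hr1 : A / A' ≤ 1 := (div_le_one hA'pos).2 hAA
  have hr0 : 0 ≤ A / A' := by positivity
  set b := a * (A / A') with hb
  have hb0 : 0 ≤ b := by positivity
  have hba : b ≤ a := by
    rw [hb]; exact mul_le_of_le_one_right ha0' hr1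
  have hmem : b ∈ Set.Icc (0:ℝ) 1 := ⟨hb0, hba.trans ha1⟩
  refine lt_of_lt_of_le ?_ ((VC_spec E' s').2 b hmem x' hx')
  have e1 := fv_identity E s a x
  have e2 := fv_identity E' s' b x'
  have e3 : A' * b = A * a := by rw [hb]; field_simp
  rw [← hA] at e1
  rw [← hA', e3] at e2
  have h3 : a ^ 3 * (Th E s x - tau (sq2 x)) < b ^ 3 * (Th E' s' x' - tau (sq2 x')) := by
    have h4 : b ^ 3 * (Th E' s' x' - tau (sq2 x')) =
        a ^ 3 * ((A / A') ^ 3 * (Th E' s' x' - tau (sq2 x'))) := by rw [hb]; ring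
    rw [h4]
    exact mul_lt_mul_of_pos_left h (by positivity)
  have h5 : 3 * b / (4 * c0) * (2 * c0 - A * a) ^ 2 ≤ 3 * a / (4 * c0) * (2 * c0 - A * a) ^ 2 := by
    apply mul_le_mul_of_nonneg_right _ (sq_nonneg _)
    apply div_le_div_of_nonneg_right _ (by positivity)
    linarith
  linarith

/-- Every value is at least `c0` (`a = 0`). -/
theorem c0_le_VC (E : Finset (Finset V))
    (s : V → ℝ) : c0 ≤ VC E s := by
  have h := (VC_spec E s).2 0 (by simp) (Pi.single (Classical.arbitrary V) 1)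
    (single_mem_stdSimplex ℝ _)
  have h2 : fv E s 0 (Pi.single (Classical.arbitrary V) 1) = c0 := by
    unfold fv; ring
  linarith

end

end W880b64
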