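import Pool.Agent.W_880b64_h21.EMd
import Pool.Agent.W_880b64_h21.Red

/-!
# The value at the uniform point (task H7)
-/

namespace W880b64

open Finset BigOperators

/-- the value of `T̂ - τ` at the uniform point for `EM M` with `k` removed edges and slot sum `σ` -/
noncomputable def PsiU (M : ℕ) (k σ : ℝ) : ℝ :=
  16 / (81 * M) - tau (1 / (9 * M)) - 6 * k / (9 * M) ^ 3 + σ / (9 * M) ^ 3

theorem Th_unif {M : ℕ} [NeZero M] (hM : 2 ≤ M) {R : Finset (Finset (VV M))} (hR : R ⊆ EM M)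
    (s : VV M → ℝ) :
    Th (EM M \ R) s (unif M) - tau (sq2 (unif M)) = PsiU M R.card (∑ v, s v) := by
  have hM0 : (0:ℝ) < M := by
    have : 0 < M := by omega
    exact_mod_cast this
  have h1 : T6 R (unif M) = 6 * R.card / (9 * M) ^ 3 := by
    unfold T6 unif
    have : ∀ e ∈ R, ∏ _v ∈ e, (1 / (9 * (M:ℝ))) = (1 / (9 * (M:ℝ))) ^ 3 := by
      intro e he
      rw [Finset.prod_const, EM_card3 e (hR he)]
    rw [Finset.sum_congr rfl this, Finset.sum_const, nsmul_eq_mul]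
    rw [div_pow, one_pow]
    ring
  have h2 : ∑ v, s v * unif M v ^ 3 = (∑ v, s v) / (9 * M) ^ 3 := by
    unfold unif
    rw [← Finset.sum_mul, div_pow, one_pow]
    ring
  unfold Th PsiU
  rw [T6_sdiff hR, T6_unif hM, sq2_unif, h1, h2]
  ring

/-- `∑ (x - 1/N)² = sq2 x - 1/N`. -/
theorem dev_sq {M : ℕ} [NeZero M] {x : VV M → ℝ} (hx : x ∈ stdSimplex ℝ (VV M)) :
    ∑ v, (x v - 1 / (9 * M)) ^ 2 = sq2 x - 1 / (9 * M) := by
  have hM0 : (0:ℝ) < M := by
    have : 0 < M := Nat.pos_of_ne_zero (NeZero.ne M)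
    exact_mod_cast this
  have h1 : ∀ v, (x v - 1 / (9 * (M:ℝ))) ^ 2 =
      x v ^ 2 - 2 / (9 * M) * x v + (1 / (9 * M)) ^ 2 := by
    intro v; ring
  have hcard : (Fintype.card (VV M) : ℝ) = 9 * M := by
    rw [Fintype.card_prod, Fintype.card_prod, ZMod.card, ZMod.card]
    push_cast
    ring
  rw [Finset.sum_congr rfl (fun v _ => h1 v), Finset.sum_add_distrib, Finset.sum_sub_distrib,
    ← Finset.mul_sum, hx.2, Finset.sum_const, nsmul_eq_mul, Finset.card_univ, hcard]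
  unfold sq2
  field_simp
  ring

theorem gg_eq (M : ℕ) : PsiU M 0 0 = gg (1 / M) := by
  unfold PsiU gg tau
  have h : (1:ℝ) / (9 * M) = 1 / M / 9 := by
    rw [div_div, mul_comm]
  have h2 : (16:ℝ) / (81 * M) = 16 / 81 * (1 / M) := by
    rw [← mul_one_div, mul_comm (81:ℝ), ← one_div_mul_one_div]
    ring
  rw [h, h2]
  ring

/-- The value at the uniform point: `fv_identity`, `Th_unif`, `sq2_unif`. -/
theorem unif_value {M : ℕ} [NeZero M] (hM : 2 ≤ M) {R : Finset (Finset (VV M))} (hR : R ⊆ EM M)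
    (s : VV M → ℝ) {a : ℝ} (ha : a ∈ Set.Icc (0:ℝ) 1) :
    c0 + a ^ 3 * PsiU M R.card (∑ v, s v)
      - 3 * a / (4 * c0) * (2 * c0 - (1 + c0 - 1 / (9 * M)) * a) ^ 2 ≤ VC (EM M \ R) s := by
  have h1 := (VC_spec (EM M \ R) s).2 a ha (unif M) unif_mem
  have h2 := fv_identity (EM M \ R) s a (unif M)
  rw [Th_unif hM hR s, sq2_unif] at h2
  linarith

end W880b64
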