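import Pool.Agent.W_880b64_h21.Gp
import Pool.Agent.W_880b64_h21.MaxF
import Pool.Agent.W_880b64_h21.UnifVal

/-!
# The values `VC (EM p) 0` (task G2)
-/

namespace W880b64

open Finset BigOperators
open W_MP_880b64_co (TG Lam)

/-- `fv ∅ 0 a x ≤ c0` by `fv_le_c0` (`Th ∅ 0 x = 0 ≤ tau (sq2 x)` for `0 ≤ sq2 x ≤ 1 - c0`). -/
theorem VC_empty_le {V : Type} [Fintype V] [DecidableEq V] [Nonempty V] :
    VC (∅ : Finset (Finset V)) (fun _ => 0) ≤ c0 := by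
  obtain ⟨⟨a, ha, x, hx, h⟩, -⟩ := VC_spec (∅ : Finset (Finset V)) (fun _ => (0 : ℝ))
  rw [← h]
  have hTh : Th (∅ : Finset (Finset V)) (fun _ => 0) x = 0 := by simp [Th, T6]
  have hq0 : 0 ≤ sq2 x := Finset.sum_nonneg fun v _ => sq_nonneg _
  refine fv_le_c0 ha (fun hq => ?_) ?_
  · rw [hTh]
    unfold tau
    have h1 : CC * sq2 x ≤ s3 := by nlinarith [CC_hi, CC_lo, s3_lo, c0_lo]
    nlinarith
  · rw [hTh]; exact Red_aux0.le

theorem GermA_gg_pos {m : ℝ} (hm : 0 ≤ m) : 0 ≤ gg m := by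
  unfold gg
  have h1 : 0 ≤ 16 / 81 - s3 / 9 := by linarith [s3_hi]
  have h2 : 0 ≤ CC := by linarith [CC_lo]
  positivity

theorem GermA_Th {p : ℕ} [NeZero p] (x : VV p → ℝ) :
    Th (EM p) (fun _ => 0) x = T6 (EM p) x := by
  simp [Th]

/-- the value at the uniform point, optimised over `a` -/
theorem GermA_unif (p : ℕ) [NeZero p] (hp : 2 ≤ p) :
    c0 + (2 * c0 / (1 + c0 - 1 / (9 * (p:ℝ)))) ^ 3 * gg (1 / p) ≤ VC (EM p) (fun _ => 0) := by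
  have hp0 : (0:ℝ) < p := by
    have : 0 < p := by omega
    exact_mod_cast this
  have hp2 : (2:ℝ) ≤ p := by exact_mod_cast hp
  have hc := Red_aux0
  have h9 : 1 / (9 * (p:ℝ)) ≤ 1 / 18 := by
    apply one_div_le_one_div_of_le (by norm_num); linarith
  have h9' : 0 < 1 / (9 * (p:ℝ)) := by positivity
  have hA : 0 < 1 + c0 - 1 / (9 * (p:ℝ)) := by linarith
  have ha : 2 * c0 / (1 + c0 - 1 / (9 * (p:ℝ))) ∈ Set.Icc (0:ℝ) 1 := by
    refine ⟨by positivity, ?_⟩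
    rw [div_le_one hA]
    linarith [c0_hi]
  have h := unif_value (M := p) hp (Finset.empty_subset (EM p)) (fun _ => 0) ha
  rw [Finset.card_empty, Finset.sum_const_zero, Finset.sdiff_empty, Nat.cast_zero, gg_eq] at h
  have hz : 2 * c0 - (1 + c0 - 1 / (9 * (p:ℝ))) * (2 * c0 / (1 + c0 - 1 / (9 * (p:ℝ)))) = 0 := by
    generalize 1 + c0 - 1 / (9 * (p:ℝ)) = A at hA
    rw [sub_eq_zero]
    field_simp
  rw [hz] at h
  linarith

/-- `VC (EM p) 0 ≥ fv (EM p) 0 a (unif p)` with `a = 2c0/(1 + c0 - 1/(9p)) ≥ 2c0/(1+c0)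
= 0.63397..`; by `fv_identity` this is `c0 + a³ (16/(81p) - tau (1/(9p))) = c0 + a³ gg (1/p)`, and
`(2c0/(1+c0))³ = 0.25481..`. -/
theorem VC_p_lower (p : ℕ) [NeZero p] (hp : 2 ≤ p) :
    c0 + 0.2548 * gg (1 / p) ≤ VC (EM p) (fun _ => 0) := by
  have hp0 : (0:ℝ) < p := by
    have : 0 < p := by omega
    exact_mod_cast this
  have hp2 : (2:ℝ) ≤ p := by exact_mod_cast hp
  refine le_trans ?_ (GermA_unif p hp)
  have hc := Red_aux0
  have h9 : 1 / (9 * (p:ℝ)) ≤ 1 / 18 := by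
    apply one_div_le_one_div_of_le (by norm_num); linarith
  have h9' : 0 < 1 / (9 * (p:ℝ)) := by positivity
  have hA : 0 < 1 + c0 - 1 / (9 * (p:ℝ)) := by linarith
  have h4 : (0.2548:ℝ) ≤ (2 * c0 / (1 + c0 - 1 / (9 * (p:ℝ)))) ^ 3 := by
    calc (0.2548:ℝ) ≤ 0.63397 ^ 3 := by norm_num
      _ ≤ _ := by
        apply pow_le_pow_left₀ (by norm_num)
        rw [le_div_iff₀ hA]
        nlinarith [c0_lo, c0_hi]
  have hg : 0 ≤ gg (1 / (p:ℝ)) := GermA_gg_pos (by positivity)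
  have h5 := mul_le_mul_of_nonneg_right h4 hg
  linarith

/-- The same with `p = 11`: `a = 2c0/(1+c0-1/99) = 0.63837..`, `a³ = 0.26015..`,
`gg (1/11) = 0.00062677..`. -/
theorem VC_11_lower : c0 + 0.000163 ≤ VC (EM 11) (fun _ => 0) := by
  have h := GermA_unif 11 (by norm_num)
  push_cast at h
  refine le_trans ?_ h
  have hA : 0 < 1 + c0 - 1 / (9 * (11:ℝ)) := by linarith [c0_lo]
  have h4 : (0.26015:ℝ) ≤ (2 * c0 / (1 + c0 - 1 / (9 * (11:ℝ)))) ^ 3 := by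
    calc (0.26015:ℝ) ≤ 0.638375 ^ 3 := by norm_num
      _ ≤ _ := by
        apply pow_le_pow_left₀ (by norm_num)
        rw [le_div_iff₀ hA]
        linarith [c0_lo, c0_hi]
  have hg : 0.00062676 ≤ gg (1 / (11:ℝ)) := by
    unfold gg
    nlinarith [s3_hi, CC_lo]
  have h5 : (0.26015:ℝ) * 0.00062676 ≤
      (2 * c0 / (1 + c0 - 1 / (9 * (11:ℝ)))) ^ 3 * gg (1 / (11:ℝ)) :=
    mul_le_mul h4 hg (by norm_num) (by positivity)
  have h6 : (0.000163:ℝ) ≤ 0.26015 * 0.00062676 := by norm_num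
  linarith

/-- If `VC > c0`, take a maximiser; `max_facts` (with `Th_le_c0`): `tau (sq2 x) < T6 (EM p) x`, so
`Gp` gives `T6 - tau ≤ gg (1/p)`, and `VC - c0 ≤ a³ (T6 - tau) ≤ gg (1/p)`. -/
theorem VC_p_upper (p : ℕ) [Fact p.Prime] (hp : 11 ≤ p) :
    VC (EM p) (fun _ => 0) ≤ c0 + gg (1 / p) := by
  have hp0 : (0:ℝ) < p := by
    have : 0 < p := by omega
    exact_mod_cast this
  have hg : 0 ≤ gg (1 / (p:ℝ)) := GermA_gg_pos (by positivity)
  rcases le_or_gt (VC (EM p) (fun _ => 0)) c0 with h | h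
  · linarith
  · obtain ⟨⟨a, ha, x, hx, hv⟩, -⟩ := VC_spec (EM p) (fun _ => (0 : ℝ))
    have hT : Th (EM p) (fun _ => 0) x ≤ c0 :=
      Th_le_c0 (by omega) (Finset.Subset.refl _) (fun v => ⟨le_rfl, by norm_num⟩) hx
    obtain ⟨h1, h2, h3, h4, -, h6⟩ := max_facts ha hx hT hv h
    rw [GermA_Th] at h4 h6
    obtain ⟨-, g2⟩ := Gp p hp hx h3.le h4
    have h7 : a ^ 3 ≤ 1 := pow_le_one₀ h1.le h2.le
    have h8 : a ^ 3 * (T6 (EM p) x - tau (sq2 x)) ≤ 1 * (T6 (EM p) x - tau (sq2 x)) :=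
      mul_le_mul_of_nonneg_right h7 (by linarith)
    linarith

end W880b64
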