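import Pool.Agent.W_880b64_h21.EMb
import Pool.Agent.W_880b64_h21.EMd

/-!
# Sparse subgraphs of `E_p` (task G1)
-/

namespace W880b64

open Finset BigOperators

/-- the expansion of a product of three numbers around a common value -/
theorem Sparse_prod {V : Type} [DecidableEq V] {e : Finset V} (he : e.card = 3) {m : ℝ}
    (hm : 0 ≤ m) (x : V → ℝ) :
    ∏ v ∈ e, x v ≤ m ^ 3 + m ^ 2 * ∑ v ∈ e, (x v - m) + m * ∑ v ∈ e, (x v - m) ^ 2
      + ∏ v ∈ e, |x v - m| := by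
  obtain ⟨a, b, c, hab, hac, hbc, rfl⟩ := Finset.card_eq_three.1 he
  have e1 : ∀ f : V → ℝ, ∏ v ∈ ({a, b, c} : Finset V), f v = f a * f b * f c := by
    intro f
    rw [Finset.prod_insert, Finset.prod_insert, Finset.prod_singleton]
    · ring
    · simp [hbc]
    · simp [hab, hac]
  have e2 : ∀ f : V → ℝ, ∑ v ∈ ({a, b, c} : Finset V), f v = f a + f b + f c := by
    intro f
    rw [Finset.sum_insert, Finset.sum_insert, Finset.sum_singleton]
    · ring
    · simp [hbc]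
    · simp [hab, hac]
  rw [e1, e1, e2, e2]
  have h1 : (x a - m) * (x b - m) * (x c - m) ≤ |x a - m| * |x b - m| * |x c - m| := by
    rw [← abs_mul, ← abs_mul]
    exact le_abs_self _
  nlinarith [mul_nonneg hm (sq_nonneg (x a - x b)), mul_nonneg hm (sq_nonneg (x b - x c)),
    mul_nonneg hm (sq_nonneg (x a - x c))]

/-- double counting -/
theorem Sparse_deg {V : Type} [Fintype V] [DecidableEq V] (E' : Finset (Finset V)) (f : V → ℝ) :
    ∑ e ∈ E', ∑ v ∈ e, f v = ∑ v, ((E'.filter (fun e => v ∈ e)).card : ℝ) * f v := by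
  have h1 : ∀ e : Finset V, ∑ v ∈ e, f v = ∑ v, if v ∈ e then f v else 0 := by
    intro e
    rw [← Finset.sum_filter]
    congr 1
    ext v
    simp
  simp only [h1]
  rw [Finset.sum_comm]
  apply Finset.sum_congr rfl
  intro v _
  rw [← Finset.sum_filter, Finset.sum_const, nsmul_eq_mul]

theorem Sparse_gg {P : ℝ} (hP : 11 ≤ P) : gg (1 / P) ≤ 0.0069 / P := by
  have hP0 : 0 < P := by linarith
  unfold gg
  have h1 := s3_lo
  have h2 := CC_hi
  have h3 : 1 / P ≤ 1 / 11 := by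
    apply one_div_le_one_div_of_le (by norm_num) hP
  have h4 : 0 < 1 / P := by positivity
  have h5 : 0.0069 / P = 0.0069 * (1 / P) := by ring
  rw [h5]
  have h6 : CC / 81 * (1 / P) ^ 2 ≤ 1.61602545 / 81 * (1 / 11) * (1 / P) := by
    have : CC / 81 * (1 / P) ^ 2 = (CC / 81 * (1 / P)) * (1 / P) := by ring
    rw [this]
    apply mul_le_mul_of_nonneg_right _ h4.le
    have hC0 : 0 ≤ CC := by linarith [CC_lo]
    apply mul_le_mul _ h3 h4.le (by norm_num)
    linarith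
  have h7 : (16 / 81 - s3 / 9) * (1 / P) ≤ (16 / 81 - 1.7320508 / 9) * (1 / P) := by
    apply mul_le_mul_of_nonneg_right _ h4.le
    linarith
  nlinarith

/-- Proof.  `N = 9p`, `δ = x - 1/N`, `∑ δ = 0`, `D = ∑ δ² = sq2 x - 1/N`
(so `0 ≤ D ≤ (4/5) gg (1/p) ≤ 0.00552/p`, as `gg (1/p) ≤ 0.0069/p` for `p ≥ 11`).
For an edge `e`: `∏_{v∈e} x_v = 1/N³ + (1/N²)∑_{v∈e} δ_v + (1/N) e2(δ|e) + ∏_{v∈e} δ_v` and
`e2(δ|e) ≤ ∑_{v∈e} δ_v²`.  Sum over `e ∈ E'`, with `deg v = #{e ∈ E' : v ∈ e} ≤ 8p` (`EM_deg`),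
`∑ deg = 3|E'| < 24 p²`:
* `6|E'|/N³ ≤ 0.065844/p`,
* `(6/N²) ∑ deg·δ ≤ (6/N²) √(∑ deg²) √D ≤ (6/(81p²)) √(192 p³) √D ≤ 1.0265 √D/√p`,
* `(6/N) ∑ deg·δ² ≤ (6/N) 8p D ≤ 5.334 D`,
* `6 ∑_{e∈E'} |∏δ| ≤ T6 (EM p) |δ| ≤ √(32p) D √D` (`EM_cube`, `T6_mono`).
With `√D ≤ 0.0743/√p` the total is at most `0.1739/p`, while
`tau (sq2 x) ≥ tau (1/N) = s3/(9p) - CC/(81p²) ≥ 0.1906/p` (`tau` is increasing up to `1 - c0`,
`1/N ≤ sq2 x ≤ 0.02`). -/
theorem sparse (p : ℕ) [Fact p.Prime] (hp : 11 ≤ p) {E' : Finset (Finset (VV p))}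
    (hE : E' ⊆ EM p) (hc : (E'.card : ℝ) < 8 * (p:ℝ) ^ 2) {x : VV p → ℝ}
    (hx : x ∈ stdSimplex ℝ (VV p)) (hq : sq2 x - 1 / (9 * p) ≤ 4 / 5 * gg (1 / p)) :
    T6 E' x ≤ tau (sq2 x) := by
  have hP : (11 : ℝ) ≤ (p : ℝ) := by exact_mod_cast hp
  set P : ℝ := (p : ℝ) with hPdef
  have hP0 : 0 < P := by linarith
  set m : ℝ := 1 / (9 * P) with hm
  have hm0 : 0 < m := by positivity
  have hcard : (Fintype.card (VV p) : ℝ) = 9 * P := EMc_card
  -- the deviation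
  set δ : VV p → ℝ := fun v => x v - m with hδ
  set D : ℝ := ∑ v, δ v ^ 2 with hD
  have hD0 : 0 ≤ D := Finset.sum_nonneg fun _ _ => sq_nonneg _
  have hDq : sq2 x - m = D := by
    rw [hD]
    have h1 : ∀ v, δ v ^ 2 = x v ^ 2 - 2 * m * x v + m ^ 2 := fun v => by
      simp only [hδ]; ring
    simp only [h1]
    rw [Finset.sum_add_distrib, Finset.sum_sub_distrib, ← Finset.mul_sum, hx.2,
      Finset.sum_const, Finset.card_univ, nsmul_eq_mul, hcard]
    unfold sq2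
    rw [hm]
    field_simp
    ring
  have hDle : D ≤ 0.00552 / P := by
    rw [← hDq]
    have h1 := Sparse_gg hP
    calc sq2 x - m ≤ 4 / 5 * gg (1 / P) := hq
      _ ≤ 4 / 5 * (0.0069 / P) := by gcongr
      _ = 0.00552 / P := by ring
  have hDP : D * P ≤ 0.00552 := (le_div_iff₀ hP0).1 hDle
  -- degrees
  set deg : VV p → ℝ := fun v => ((E'.filter (fun e => v ∈ e)).card : ℝ) with hdeg
  have hdeg0 : ∀ v, 0 ≤ deg v := fun v => Nat.cast_nonneg _
  have hdeg8 : ∀ v, deg v ≤ 8 * P := by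
    intro v
    have h1 : (E'.filter (fun e => v ∈ e)).card ≤ 8 * p :=
      le_trans (Finset.card_le_card (Finset.filter_subset_filter _ hE)) (EM_deg v)
    have h2 : ((E'.filter (fun e => v ∈ e)).card : ℝ) ≤ ((8 * p : ℕ) : ℝ) := by
      exact_mod_cast h1
    calc deg v ≤ ((8 * p : ℕ) : ℝ) := h2
      _ = 8 * P := by push_cast; rfl
  have hdegs : ∑ v, deg v ≤ 24 * P ^ 2 := by
    have h1 := Sparse_deg E' (fun _ => (1 : ℝ))
    simp only [mul_one] at h1
    rw [hdeg, ← h1]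
    have h2 : ∀ e ∈ E', ∑ v ∈ e, (1 : ℝ) = 3 := by
      intro e he
      rw [Finset.sum_const, EM_card3 e (hE he)]
      norm_num
    rw [Finset.sum_congr rfl h2, Finset.sum_const, nsmul_eq_mul]
    linarith
  have hdeg2 : ∑ v, deg v ^ 2 ≤ 192 * P ^ 3 := by
    calc ∑ v, deg v ^ 2 ≤ ∑ v, 8 * P * deg v := by
          apply Finset.sum_le_sum
          intro v _
          rw [sq]
          exact mul_le_mul_of_nonneg_right (hdeg8 v) (hdeg0 v)
      _ = 8 * P * ∑ v, deg v := by rw [Finset.mul_sum]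
      _ ≤ 8 * P * (24 * P ^ 2) := by gcongr
      _ = 192 * P ^ 3 := by ring
  have hlin : ∑ v, deg v * δ v ≤ 1.0295 * P := by
    have h1 : (∑ v, deg v * δ v) ^ 2 ≤ (∑ v, deg v ^ 2) * ∑ v, δ v ^ 2 :=
      Finset.sum_mul_sq_le_sq_mul_sq _ _ _
    have h2 : (∑ v, deg v ^ 2) * ∑ v, δ v ^ 2 ≤ 192 * P ^ 3 * D := by
      gcongr
    have h3 : 192 * P ^ 3 * D ≤ (1.0295 * P) ^ 2 := by
      have : 192 * P ^ 3 * D = 192 * P ^ 2 * (D * P) := by ring
      rw [this]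
      have h4 : 192 * P ^ 2 * (D * P) ≤ 192 * P ^ 2 * 0.00552 := by gcongr
      nlinarith [sq_nonneg P]
    exact abs_le_of_sq_le_sq' (h1.trans (h2.trans h3)) (by positivity) |>.2
  have hquad : ∑ v, deg v * δ v ^ 2 ≤ 8 * P * D := by
    rw [hD, Finset.mul_sum]
    apply Finset.sum_le_sum
    intro v _
    exact mul_le_mul_of_nonneg_right (hdeg8 v) (sq_nonneg _)
  have hcub : 6 * ∑ e ∈ E', ∏ v ∈ e, |δ v| ≤ 0.4203 * D := by
    have h1 : T6 E' (fun v => |δ v|) ≤ T6 (EM p) (fun v => |δ v|) :=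
      T6_mono hE (fun v => abs_nonneg _)
    have h2 := EM_cube (M := p) (by omega) (fun v => |δ v|)
    have h3 : sq2 (fun v => |δ v|) = D := by
      rw [hD]
      unfold sq2
      apply Finset.sum_congr rfl
      intro v _
      rw [sq_abs]
    rw [h3] at h2
    have h4 : Real.sqrt (32 * (p : ℝ)) * D * Real.sqrt D = Real.sqrt (32 * P * D) * D := by
      rw [Real.sqrt_mul (by positivity : (0:ℝ) ≤ 32 * P) D]
      ring
    have h5 : Real.sqrt (32 * P * D) ≤ 0.4203 := by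
      rw [Real.sqrt_le_left (by norm_num)]
      have : 32 * P * D = 32 * (D * P) := by ring
      rw [this]
      norm_num
      linarith
    calc 6 * ∑ e ∈ E', ∏ v ∈ e, |δ v| = T6 E' (fun v => |δ v|) := rfl
      _ ≤ T6 (EM p) (fun v => |δ v|) := h1
      _ ≤ _ := h2
      _ = Real.sqrt (32 * P * D) * D := h4
      _ ≤ 0.4203 * D := by gcongr
  -- the upper bound
  have hup : T6 E' x ≤ 6 * (m ^ 3 * (8 * P ^ 2)) + 6 * (m ^ 2 * (1.0295 * P))
      + 6 * (m * (8 * P * D)) + 0.4203 * D := by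
    have h1 : ∑ e ∈ E', ∏ v ∈ e, x v ≤ ∑ e ∈ E', (m ^ 3 + m ^ 2 * ∑ v ∈ e, δ v
        + m * ∑ v ∈ e, δ v ^ 2 + ∏ v ∈ e, |δ v|) := by
      apply Finset.sum_le_sum
      intro e he
      exact Sparse_prod (EM_card3 e (hE he)) hm0.le x
    have h2 : ∑ e ∈ E', (m ^ 3 + m ^ 2 * ∑ v ∈ e, δ v
        + m * ∑ v ∈ e, δ v ^ 2 + ∏ v ∈ e, |δ v|) = m ^ 3 * E'.card + m ^ 2 * (∑ v, deg v * δ v)
        + m * (∑ v, deg v * δ v ^ 2) + ∑ e ∈ E', ∏ v ∈ e, |δ v| := by
      rw [Finset.sum_add_distrib, Finset.sum_add_distrib, Finset.sum_add_distrib,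
        ← Finset.mul_sum, ← Finset.mul_sum, Sparse_deg, Sparse_deg, Finset.sum_const,
        nsmul_eq_mul]
      ring
    have h3 : m ^ 3 * E'.card ≤ m ^ 3 * (8 * P ^ 2) := by
      have := hc.le
      gcongr
    have h4 : m ^ 2 * (∑ v, deg v * δ v) ≤ m ^ 2 * (1.0295 * P) := by gcongr
    have h5 : m * (∑ v, deg v * δ v ^ 2) ≤ m * (8 * P * D) := by gcongr
    unfold T6
    linarith
  -- in terms of `1 / P`
  have hm3 : m ^ 3 * (8 * P ^ 2) = 8 / 729 * (1 / P) := by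
    rw [hm]; field_simp; norm_num
  have hm2 : m ^ 2 * (1.0295 * P) = 1.0295 / 81 * (1 / P) := by
    rw [hm]; field_simp; norm_num
  have hm1 : m * (8 * P * D) = 8 / 9 * D := by
    rw [hm]; field_simp
  have hDle' : D ≤ 0.00552 * (1 / P) := by
    calc D ≤ 0.00552 / P := hDle
      _ = _ := by ring
  have hr : 0 < 1 / P := by positivity
  have hr11 : 1 / P ≤ 1 / 11 := one_div_le_one_div_of_le (by norm_num) hP
  have hup2 : T6 E' x ≤ 0.174 * (1 / P) := by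
    rw [hm3, hm2, hm1] at hup
    nlinarith
  -- the lower bound for tau
  have hmr : m = 1 / 9 * (1 / P) := by rw [hm]; field_simp
  have htau1 : tau m ≤ tau (sq2 x) := by
    have h1 : sq2 x = m + D := by linarith
    have h2 : tau (sq2 x) - tau m = D * (s3 - CC * (2 * m + D)) := by
      rw [h1]; unfold tau; ring
    have h3 : 0 ≤ s3 - CC * (2 * m + D) := by
      have h4 : 2 * m + D ≤ 0.03 := by
        rw [hmr]; nlinarith
      have h5 : CC * (2 * m + D) ≤ 1.62 * 0.03 := by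
        apply mul_le_mul (by linarith [CC_hi]) h4 (by positivity) (by norm_num)
      linarith [s3_lo]
    nlinarith [mul_nonneg hD0 h3]
  have htau2 : 0.19 * (1 / P) ≤ tau m := by
    unfold tau
    rw [hmr]
    have h1 : CC * (1 / 9 * (1 / P)) ^ 2 ≤ 1.62 / 81 * (1 / 11) * (1 / P) := by
      have h2 : CC * (1 / 9 * (1 / P)) ^ 2 = (CC / 81 * (1 / P)) * (1 / P) := by ring
      rw [h2]
      apply mul_le_mul_of_nonneg_right _ hr.le
      apply mul_le_mul _ hr11 hr.le (by norm_num)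
      linarith [CC_hi]
    have h3 : 1.732 / 9 * (1 / P) ≤ s3 * (1 / 9 * (1 / P)) := by
      have h4 : s3 * (1 / 9 * (1 / P)) = s3 / 9 * (1 / P) := by ring
      rw [h4]
      apply mul_le_mul_of_nonneg_right _ hr.le
      linarith [s3_lo]
    nlinarith
  linarith

end W880b64
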