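import Pool.Agent.W_880b64_h21.GermA
import Pool.Agent.W_880b64_h21.Sparse
import Pool.Agent.W_880b64_h21.SlotVals

/-!
# One step in the germ (task G3)
-/

namespace W880b64

open Finset BigOperators
open W_MP_880b64_co (TG Lam)

theorem GermB_gg {m : ℝ} (hm : 0 < m) (hm' : m ≤ 1 / 11) : gg m ≤ 0.000627 := by
  unfold gg
  have h1 := s3_lo
  have h2 := CC_hi
  have h3 := CC_lo
  have h4 : (16 / 81 - s3 / 9) * m ≤ 0.00508078 * (1 / 11) := by
    have h5 : 16 / 81 - s3 / 9 ≤ 0.00508078 := by linarith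
    calc (16 / 81 - s3 / 9) * m ≤ 0.00508078 * m := mul_le_mul_of_nonneg_right h5 hm.le
      _ ≤ 0.00508078 * (1 / 11) := mul_le_mul_of_nonneg_left hm' (by norm_num)
  have h6 : CC / 81 * m ^ 2 ≤ 1.61602545 / 81 * (1 / 11) ^ 2 := by
    have h7 : m ^ 2 ≤ (1 / 11) ^ 2 := pow_le_pow_left₀ hm.le hm' 2
    have h8 : CC / 81 ≤ 1.61602545 / 81 := by linarith
    exact mul_le_mul h8 h7 (by positivity) (by norm_num)
  norm_num at h4 h6 ⊢
  linarith

theorem GermB_a {a q P : ℝ} (ha0 : 0 < a) (ha1 : a < 1) (hq : q ≤ 0.0106027) (hP : P ≤ 0.000627)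
    (h : a ≤ 2 * c0 / (1 + c0 - q) + 4 * c0 * a * P / (1 + c0 - q) ^ 2) :
    a ^ 3 ≤ 5.56 * (1 - a) ^ 3 := by
  have hc := c0_lo
  have hc' := c0_hi
  have hA : 1.4534989 ≤ 1 + c0 - q := by linarith
  have hApos : (0 : ℝ) < 1 + c0 - q := by linarith
  have h1 : 2 * c0 / (1 + c0 - q) ≤ 0.6386 := by
    rw [div_le_iff₀ hApos]
    nlinarith
  have h2 : 4 * c0 * a * P / (1 + c0 - q) ^ 2 ≤ 0.00056 := by
    rw [div_le_iff₀ (by positivity)]
    have h3 : 4 * c0 * a * P ≤ 4 * c0 * a * 0.000627 :=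
      mul_le_mul_of_nonneg_left hP (by positivity)
    have h4 : 4 * c0 * a * 0.000627 ≤ 4 * 0.4641018 * 1 * 0.000627 := by
      have h5 : c0 * a ≤ 0.4641018 * 1 := mul_le_mul hc'.le ha1.le ha0.le (by norm_num)
      nlinarith
    have h6 : (1.4534989 : ℝ) ^ 2 ≤ (1 + c0 - q) ^ 2 := pow_le_pow_left₀ (by norm_num) hA 2
    norm_num at h4 h6 ⊢
    nlinarith
  have h3 : a ≤ 0.63916 := by linarith
  have h4 : a ^ 3 ≤ 0.63916 ^ 3 := pow_le_pow_left₀ ha0.le h3 3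
  have h5 : (0.36084 : ℝ) ^ 3 ≤ (1 - a) ^ 3 := pow_le_pow_left₀ (by norm_num) (by linarith) 3
  norm_num at h4 h5 ⊢
  linarith

/-- Proof.  Let `E' ⊆ EM p` be a minimal subset with `y < VC E' 0` (`VC ∅ 0 ≤ c0 < y`), and let
`(a,x)` be a maximiser (`VC_spec`).  `max_facts` (`Th_le_c0`): `0 < a < 1`, `q = sq2 x < 1 - c0`,
`tau q < T6 E' x ≤ T6 (EM p) x`.  By `Gp`: `q ≤ 1/(9p) + (4/5) gg`, `T6 (EM p) x ≤ tau q + gg`
(`gg = gg (1/p) ≤ 0.000627`).
By `sparse`, `|E'| ≥ 8p²`.  Choose `e ∈ E'` with minimal `∏_{v∈e} x_v`; then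
`6 ∏ x ≤ T6 E' x/|E'| ≤ (s3 q + gg)/(8p²)`.  `E0 = E'.erase e` has `VC E0 0 ≤ y` by minimality.
`step_op` with `Th E' 0 x - Th E0 0 x = 6 ∏ x`: we need
`a³ (s3 q + gg)/(8p²) ≤ (y - c0)(1-a)³`.  By `max_facts`
`a ≤ 2c0/(1+c0-q) + 4c0 a gg/(1+c0-q)²` with `q ≤ 0.0106026`, so `a ≤ 0.63897` and
`(a/(1-a))³ ≤ 5.56`; use `hY`. -/
theorem germ_p (p : ℕ) [Fact p.Prime] (hp : 11 ≤ p) {y : ℝ} (hy0 : c0 < y)
    (hy : y < VC (EM p) (fun _ => 0))
    (hY : 5.56 * (s3 * (1 / (9 * p) + 4 / 5 * gg (1 / p)) + gg (1 / p)) ≤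
      8 * (p:ℝ) ^ 2 * (y - c0)) :
    ∃ f, IsOp f ∧ f c0 ≤ y ∧ y < f y := by
  classical
  have hp0 : 0 < p := by omega
  have hpR : (0 : ℝ) < p := by exact_mod_cast hp0
  have hm : (0 : ℝ) < 1 / p := by positivity
  have hm' : (1 : ℝ) / p ≤ 1 / 11 := by
    apply one_div_le_one_div_of_le (by norm_num)
    exact_mod_cast hp
  have hgg := GermB_gg hm hm'
  -- minimal subset
  obtain ⟨E', hE'mem, hmin⟩ := Finset.exists_min_image
    ((EM p).powerset.filter fun E => y < VC E (fun _ => 0)) Finset.card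
    ⟨EM p, Finset.mem_filter.mpr ⟨Finset.mem_powerset_self _, hy⟩⟩
  obtain ⟨hE'1, hE'y⟩ := Finset.mem_filter.mp hE'mem
  have hE' : E' ⊆ EM p := Finset.mem_powerset.mp hE'1
  have hne : E'.Nonempty := by
    rw [Finset.nonempty_iff_ne_empty]
    rintro rfl
    have := VC_empty_le (V := VV p)
    linarith
  obtain ⟨⟨a, ha, x, hx, hax⟩, -⟩ := VC_spec E' (fun _ => (0 : ℝ))
  have hTle : Th E' (fun _ => 0) x ≤ c0 :=
    Th_le_c0 (by omega) hE' (fun _ => ⟨le_rfl, by norm_num⟩) hx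
  obtain ⟨ha0, ha1, hq1, htau, haub, -⟩ := max_facts ha hx hTle hax (hy0.trans hE'y)
  have hThT : ∀ E : Finset (Finset (VV p)), Th E (fun _ => 0) x = T6 E x := by
    intro E
    unfold Th
    simp
  rw [hThT] at htau haub
  have hmono : T6 E' x ≤ T6 (EM p) x := T6_mono hE' hx.1
  obtain ⟨hq2, hT2⟩ := Gp p hp hx hq1.le (htau.trans_le hmono)
  have hcard : 8 * (p : ℝ) ^ 2 ≤ E'.card := by
    by_contra hcon
    push Not at hcon
    have := sparse p hp hE' hcon hx hq2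
    linarith
  have hcard0 : (0 : ℝ) < E'.card := lt_of_lt_of_le (by positivity) hcard
  -- the lightest edge
  obtain ⟨e, he, hemin⟩ := Finset.exists_min_image E' (fun e => ∏ v ∈ e, x v) hne
  have hprod : (E'.card : ℝ) * (6 * ∏ v ∈ e, x v) ≤ T6 E' x := by
    have h1 : (E'.card : ℝ) * ∏ v ∈ e, x v ≤ ∑ e ∈ E', ∏ v ∈ e, x v := by
      have := Finset.card_nsmul_le_sum E' (fun e => ∏ v ∈ e, x v) (∏ v ∈ e, x v) hemin
      rwa [nsmul_eq_mul] at this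
    unfold T6
    linarith
  have hpe0 : 0 ≤ 6 * ∏ v ∈ e, x v := by
    have := Finset.prod_nonneg (s := e) (f := x) (fun v _ => hx.1 v)
    linarith
  have hq0 : 0 ≤ sq2 x := Finset.sum_nonneg fun v _ => sq_nonneg _
  have hB : T6 E' x ≤ s3 * (1 / (9 * p) + 4 / 5 * gg (1 / p)) + gg (1 / p) := by
    have h1 : tau (sq2 x) ≤ s3 * sq2 x := by
      unfold tau
      have h2 : 0 ≤ CC * sq2 x ^ 2 := mul_nonneg (by linarith [CC_lo]) (sq_nonneg _)
      linarith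
    have h3 : s3 * sq2 x ≤ s3 * (1 / (9 * p) + 4 / 5 * gg (1 / p)) :=
      mul_le_mul_of_nonneg_left (by linarith) s3_pos.le
    linarith
  have h8 : 8 * (p : ℝ) ^ 2 * (6 * ∏ v ∈ e, x v) ≤
      s3 * (1 / (9 * p) + 4 / 5 * gg (1 / p)) + gg (1 / p) :=
    (mul_le_mul_of_nonneg_right hcard hpe0).trans (hprod.trans hB)
  -- the bound for `a`
  have hqn : sq2 x ≤ 0.0106027 := by
    have h1 : (1 : ℝ) / (9 * p) ≤ 1 / 99 := by
      apply one_div_le_one_div_of_le (by norm_num)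
      have : (11 : ℝ) ≤ p := by exact_mod_cast hp
      linarith
    have h2 : sq2 x ≤ 1 / 99 + 4 / 5 * 0.000627 := by linarith
    norm_num at h2 ⊢
    linarith
  have ha3 := GermB_a ha0 ha1 hqn (P := T6 E' x - tau (sq2 x)) (by linarith) haub
  -- the smaller structure
  have hE0 : VC (E'.erase e) (fun _ => 0) ≤ y := by
    by_contra hcon
    push Not at hcon
    have h1 := hmin (E'.erase e) (Finset.mem_filter.mpr
      ⟨Finset.mem_powerset.mpr ((Finset.erase_subset e E').trans hE'), hcon⟩)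
    have h2 := Finset.card_erase_lt_of_mem he
    omega
  refine step_op (E0 := E'.erase e) (s0 := fun _ => 0) (fun e' he' => EM_card3 e'
    (hE' (Finset.mem_of_mem_erase he'))) (fun _ => W_MP_880b64_co.zero_mem_Lam) hE0 hE'y ha hx
    hax ?_
  rw [hThT, hThT]
  have hdiff : T6 E' x - T6 (E'.erase e) x = 6 * ∏ v ∈ e, x v := by
    unfold T6
    have := Finset.add_sum_erase E' (fun e => ∏ v ∈ e, x v) he
    linarith
  rw [hdiff]
  have hb3 : 0 ≤ (1 - a) ^ 3 := by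
    have : 0 ≤ 1 - a := by linarith
    positivity
  have hp2 : (0 : ℝ) < 8 * (p : ℝ) ^ 2 := by positivity
  have h9 : a ^ 3 * (6 * ∏ v ∈ e, x v) ≤ 5.56 * (1 - a) ^ 3 * (6 * ∏ v ∈ e, x v) :=
    mul_le_mul_of_nonneg_right ha3 hpe0
  refine h9.trans ?_
  have h10 : 5.56 * (8 * (p : ℝ) ^ 2 * (6 * ∏ v ∈ e, x v)) ≤ 8 * (p : ℝ) ^ 2 * (y - c0) :=
    (mul_le_mul_of_nonneg_left h8 (by norm_num)).trans hY
  have h11 : 5.56 * (6 * ∏ v ∈ e, x v) ≤ y - c0 := by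
    refine le_of_mul_le_mul_left ?_ hp2
    linarith
  calc 5.56 * (1 - a) ^ 3 * (6 * ∏ v ∈ e, x v) = (5.56 * (6 * ∏ v ∈ e, x v)) * (1 - a) ^ 3 := by
        ring
    _ ≤ (y - c0) * (1 - a) ^ 3 := mul_le_mul_of_nonneg_right h11 hb3

end W880b64
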