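import Pool.Agent.W_880b64_h21.Base

/-!
# Real inequalities for `E_p`, `p ≥ 11`: `q ≥ 0.0615`, `m = 1/p`

`r = √ρ`, `q = m(1/9 + r²) + U`. (task F1)
-/

namespace W880b64


/-- `tau` is increasing on `[0, 1 - c0]` -/
lemma ZoneA_tau {p q : ℝ} (hp : 0 ≤ p) (hpq : p ≤ q) (hq : q ≤ 1 - c0) : tau p ≤ tau q := by
  have h1 : s3 = 2 * CC * (1 - c0) := by
    unfold CC c0
    nlinarith [s3_sq]
  have hC : 0 < CC := by linarith [CC_lo]
  have h2 : CC * (p + q) ≤ s3 := by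
    rw [h1]
    nlinarith
  have h3 : 0 ≤ (q - p) * (s3 - CC * (p + q)) := mul_nonneg (by linarith) (by linarith)
  unfold tau
  nlinarith

lemma ZoneA_aux1 {r T : ℝ} (hr : 0 ≤ r) (hr' : r ^ 2 ≤ 8 / 9) (hbig : 0.022 ≤ r ^ 2)
    (hT1 : T ≤ (1 / 9 + r ^ 2) - (1 / 9 + r ^ 2) ^ 2)
    (hT2 : T ≤ 1 / 9 - (1 / 9 + r ^ 2) ^ 2 + 2.1214 * r ^ 3) :
    2 * T - 1.802 * (8 / 9 - 9 / 20 * r ^ 2) * (1 / 9 + r ^ 2) ≤ 0 := by
  rcases le_total (r ^ 2) (2 / 9) with h | h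
  · have hr1 : r ≤ 0.4715 := by
      by_contra hcon
      push Not at hcon
      nlinarith
    have hr0 : 0.148 ≤ r := by
      by_contra hcon
      push Not at hcon
      nlinarith
    have key : r ^ 2 * (-1.9561 + 4.2428 * r - 1.189 * r ^ 2) ≤ -0.01956 := by
      rcases le_total r 0.22 with h1 | h1
      · have : -1.9561 + 4.2428 * r - 1.189 * r ^ 2 ≤ -1.04 := by nlinarith
        nlinarith
      · rcases le_total r 0.35 with h2 | h2
        · have h3 : -1.9561 + 4.2428 * r - 1.189 * r ^ 2 ≤ -0.6 := by nlinarith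
          have h4 : 0.0484 ≤ r ^ 2 := by nlinarith
          nlinarith
        · have h3 : -1.9561 + 4.2428 * r - 1.189 * r ^ 2 ≤ -0.21 := by nlinarith
          have h4 : 0.1225 ≤ r ^ 2 := by nlinarith
          nlinarith
    nlinarith
  · have h1 : 0 ≤ (r ^ 2 - 2 / 9) * (r ^ 2) := mul_nonneg (by linarith) (sq_nonneg r)
    nlinarith

/-- Proof.  (1) `r² ≤ 0.022`: then `T ≤ 1/9 - (1/9+r²)² + 2.1214 r³ ≤ 0.1004 ≤ tau 0.0615 ≤ tau q`
(`tau` is increasing on `[0, 1 - c0]`), use `h0`.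
(2) `r² ≥ 0.022`.  Put `L = 1.802 (8/9 - 9/20 r²)`.  By `h2` with `U = q - m(1/9+r²)`:
`E6 - tau q ≤ m (2T - L(1/9+r²)) - (s3 - L) q + CC q²`.  Here `2T - L (1/9+r²) ≤ 0`
(for `r² ≤ 2/9` by `hT2`: `0.01956 - 1.9561 r² + 4.2428 r³ - 1.189 r⁴ < 0` for
`0.1483 ≤ r ≤ 0.4715`; for `r² ≥ 2/9` by `hT1`: `(1/9+r²)(0.3081 - 1.189(1/9+r²)) < 0`).
So `E6 ≤ tau q` if `q ≤ (s3 - L)/CC =: Q`.  If `q ≥ Q` use `h0`: `tau q ≥ tau Q = Q L`
(as `s3 - CC Q = L`) and `Q L ≥ T`, i.e. about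
`(0.080613 + 0.50179 r²)(1.601777 - 0.8109 r²) ≥ T` for `0.022 ≤ r² ≤ 8/9`
(at `r² = 0.022`: `0.145 ≥ 0.1004`; at `2/9`: `0.273 ≥ 0.2222`; for `r² ≥ 2/9` use `T ≤ 1/4` or
`hT1`; if `q ≥ Q` but `Q > 1 - c0` there is nothing to do). -/
theorem zoneA {m r U T E6 q : ℝ} (hm : 0 < m) (hm' : m ≤ 1 / 11) (hr : 0 ≤ r) (hr' : r ^ 2 ≤ 8 / 9)
    (hU : 0 ≤ U) (hq : q = m * (1 / 9 + r ^ 2) + U) (hq0 : 0.0615 ≤ q) (hq1 : q ≤ 1 - c0)
    (hT1 : T ≤ (1 / 9 + r ^ 2) - (1 / 9 + r ^ 2) ^ 2)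
    (hT2 : T ≤ 1 / 9 - (1 / 9 + r ^ 2) ^ 2 + 2.1214 * r ^ 3)
    (h0 : E6 ≤ T) (h2 : E6 ≤ 2 * m * T + 1.802 * (8 / 9 - 9 / 20 * r ^ 2) * U) :
    E6 ≤ tau q := by
  have hs1 := s3_lo
  have hs2 := s3_hi
  have hC1 := CC_lo
  have hC2 := CC_hi
  have hqpos : 0 ≤ q := by linarith
  rcases le_total (r ^ 2) 0.022 with hsm | hbig
  · have hT : T ≤ 0.1004 := by
      have hr1 : r ≤ 0.14833 := by
        by_contra hcon
        push Not at hcon
        nlinarith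
      have h1 : r * r * r ≤ 0.14833 * (r * r) := by
        have := mul_le_mul_of_nonneg_right hr1 (mul_nonneg hr hr)
        linarith
      nlinarith [sq_nonneg r]
    have hmono := ZoneA_tau (p := 0.0615) (q := q) (by linarith) hq0 hq1
    have h3 : (0.1004 : ℝ) ≤ tau 0.0615 := by
      unfold tau
      nlinarith
    linarith
  · have hUq : U = q - m * (1 / 9 + r ^ 2) := by linarith
    have hA := ZoneA_aux1 hr hr' hbig hT1 hT2
    have hmA := mul_le_mul_of_nonneg_left hA hm.le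
    have hE : E6 ≤ 1.802 * (8 / 9 - 9 / 20 * r ^ 2) * q := by
      rw [hUq] at h2
      nlinarith
    set L := 1.802 * (8 / 9 - 9 / 20 * r ^ 2) with hL
    have hL1 : L ≤ 1.802 * (8 / 9) := by nlinarith [sq_nonneg r]
    have hL0 : 0 ≤ L := by nlinarith
    have hCpos : 0 < CC := by linarith
    rcases le_total (CC * q) (s3 - L) with hq2 | hq2
    · have := mul_le_mul_of_nonneg_right hq2 hqpos
      unfold tau
      nlinarith
    · -- `Q = (s3 - L)/CC`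
      set Q := (s3 - L) / CC with hQ
      have hQC : CC * Q = s3 - L := by rw [hQ]; field_simp
      have hQq : Q ≤ q := by
        rw [hQ, div_le_iff₀ hCpos]
        linarith
      have hQ0 : 0 ≤ Q := by
        rw [hQ]
        exact div_nonneg (by linarith) hCpos.le
      have hmono := ZoneA_tau (p := Q) (q := q) hQ0 hQq hq1
      have htQ : tau Q = Q * L := by
        unfold tau
        have : CC * Q ^ 2 = (CC * Q) * Q := by ring
        rw [this, hQC]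
        ring
      have hQlo : (0.0806 : ℝ) + 0.5 * r ^ 2 ≤ Q := by
        rw [hQ, le_div_iff₀ hCpos]
        have : ((0.0806 : ℝ) + 0.5 * r ^ 2) * CC ≤ (0.0806 + 0.5 * r ^ 2) * 1.61602545 :=
          mul_le_mul_of_nonneg_left hC2.le (by positivity)
        nlinarith [sq_nonneg r]
      have hQL : (0.0806 + 0.5 * r ^ 2) * L ≤ Q * L := mul_le_mul_of_nonneg_right hQlo hL0
      have hfin : T ≤ (0.0806 + 0.5 * r ^ 2) * L := by
        rw [hL]
        nlinarith [sq_nonneg (r ^ 2), sq_nonneg (r ^ 2 - 0.03)]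
      linarith

end W880b64
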