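import Pool.Agent.W_880b64_h21.Base

/-!
# Real inequalities for `E_p`, `p ≥ 11`: `0.195 m ≤ q ≤ 0.0615`, `m = 1/p`

`r = √ρ`, `q = m(1/9 + r²) + U`. (task F2)
-/

namespace W880b64


lemma ZoneB_aux1 {r T : ℝ} (hr : 0 ≤ r)
    (hT1 : T ≤ (1 / 9 + r ^ 2) - (1 / 9 + r ^ 2) ^ 2)
    (hT2 : T ≤ 1 / 9 - (1 / 9 + r ^ 2) ^ 2 + 2.1214 * r ^ 3) :
    2 * T - 1.802 * (8 / 9) * (1 / 9 + r ^ 2) ≤ 1.584 / 81 := by
  rcases le_total (r ^ 2) (2 / 9) with h | h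
  · have hr1 : r ≤ 0.4715 := by
      by_contra hcon
      push Not at hcon
      nlinarith
    have h1 : r ^ 2 * (-2.0462 + 4.2428 * r - 2 * r ^ 2) ≤ 0 := by
      apply mul_nonpos_of_nonneg_of_nonpos (sq_nonneg r)
      nlinarith [sq_nonneg r]
    nlinarith
  · nlinarith

/-- Proof.  Use `8/9 - 9/20 r² ≤ 8/9` in `h2`: with `K = 1.802·8/9 = 1.60177..`,
`E6 - tau q ≤ m (2T - K(1/9+r²)) - (s3 - K) q + CC q²` and `2T - K (1/9+r²) ≤ 0.019557`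
(at `r = 0`; for `r² ≤ 2/9` by `hT2` the difference is `-2.0462 r² + 4.2428 r³ - 2 r⁴ ≤ 0`, for
`r² ≥ 2/9` use `hT1`).  So `E6 - tau q ≤ 0.019557 m - 0.130272 q + 1.616026 q²`, which is convex
in `q` and negative at `q = 0.0615` (`m ≤ 1/11`) and at `q = 0.195 m`. -/
theorem zoneB {m r U T E6 q : ℝ} (hm : 0 < m) (hm' : m ≤ 1 / 11) (hr : 0 ≤ r) (hr' : r ^ 2 ≤ 8 / 9)
    (hU : 0 ≤ U) (hq : q = m * (1 / 9 + r ^ 2) + U) (hq0 : 0.195 * m ≤ q) (hq1 : q ≤ 0.0615)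
    (hT1 : T ≤ (1 / 9 + r ^ 2) - (1 / 9 + r ^ 2) ^ 2)
    (hT2 : T ≤ 1 / 9 - (1 / 9 + r ^ 2) ^ 2 + 2.1214 * r ^ 3)
    (h2 : E6 ≤ 2 * m * T + 1.802 * (8 / 9 - 9 / 20 * r ^ 2) * U) :
    E6 ≤ tau q := by
  have hs1 := s3_lo
  have hs2 := s3_hi
  have hC1 := CC_lo
  have hC2 := CC_hi
  have hA : 2 * T - 1.802 * (8 / 9) * (1 / 9 + r ^ 2) ≤ 1.584 / 81 := ZoneB_aux1 hr hT1 hT2
  have hmA := mul_le_mul_of_nonneg_left hA hm.le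
  have hqpos : 0 ≤ q := le_trans (by positivity) hq0
  have hUq : U = q - m * (1 / 9 + r ^ 2) := by linarith
  have hdrop : 1.802 * (8 / 9 - 9 / 20 * r ^ 2) * U ≤ 1.802 * (8 / 9) * U := by
    have : 0 ≤ r ^ 2 * U := by positivity
    nlinarith
  have hE : E6 ≤ m * (1.584 / 81) + 1.802 * (8 / 9) * q := by
    rw [hUq] at hdrop h2
    nlinarith
  unfold tau
  have hs : 1.7320508 * q ≤ s3 * q := mul_le_mul_of_nonneg_right hs1.le hqpos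
  have hc : CC * q ^ 2 ≤ 1.61602545 * q ^ 2 := mul_le_mul_of_nonneg_right hC2.le (sq_nonneg q)
  have hconv : 0 ≤ (q - 0.195 * m) * (0.0615 - q) := mul_nonneg (by linarith) (by linarith)
  have hqm : q * m ≤ q * (1 / 11) := mul_le_mul_of_nonneg_left hm' hqpos
  nlinarith

end W880b64
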