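import Pool.Agent.W_880b64_h21.Base

/-!
# Real inequalities for `E_p`, `p ≥ 11`: `q ≤ 0.195 m`, `m = 1/p`

`r = √ρ`, `q = m(1/9 + r²) + U`. (task F3)
-/

namespace W880b64


/-- Proof.  Let `D = m r² + U`, so `q = m/9 + D`, `D ≤ (0.195 - 1/9) m ≤ 0.08389 m`.
By `hT2`: `2T - s3 (1/9 + r²) ≤ (16/81 - s3/9) - 2.1764 r² + 4.2428 r³ - 2 r⁴`
(`2/9 - 2/81 = 16/81`; coefficient of `r²`: `-4/9 - s3`).  Also `q² = m²/81 + D(2m/9 + D)`.
Hence `E6 - tau q ≤ gg m - m r² (2.1764 - 4.2428 r + 2 r²) - U (s3 - (16/3)√(U/(2m)))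
+ CC D (2m/9 + D)`.

First: `r² ≤ 0.08389`, `U/m ≤ 0.08389`, so `4.2428 r - 2r² ≤ 1.0611`,
`(16/3)√(U/(2m)) ≤ 1.0925`, `CC (2m/9 + D) ≤ 0.045`: `E6 - tau q ≤ gg m - 1.07 m r² - 0.594 U`.
This gives the second claim, and (as `E6 > tau q`) `D ≤ 1.684 gg m`.  As
`gg m ≤ 0.0069 m` we get `r² ≤ 0.0065`, `U ≤ 0.0117 m`.
Second: `4.2428 r ≤ 0.343`, `(16/3)√(U/(2m)) ≤ 0.4080`, `CC (2m/9+D) ≤ 0.0344`:
`E6 - tau q ≤ gg m - 1.79 m r² - 1.28 U`, so `D ≤ gg m/1.28 ≤ 0.8 gg m`. -/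
theorem zoneC {m r U T E6 q : ℝ} (hm : 0 < m) (hm' : m ≤ 1 / 11) (hr : 0 ≤ r)
    (hU : 0 ≤ U) (hq : q = m * (1 / 9 + r ^ 2) + U) (hq1 : q ≤ 0.195 * m)
    (hT2 : T ≤ 1 / 9 - (1 / 9 + r ^ 2) ^ 2 + 2.1214 * r ^ 3)
    (h1 : E6 ≤ 2 * m * T + 16 / 3 * U * Real.sqrt (U / (2 * m))) (hpos : tau q < E6) :
    m * r ^ 2 + U ≤ 4 / 5 * gg m ∧ E6 ≤ tau q + gg m := by
  have hs1 := s3_lo
  have hs2 := s3_hi
  have hC1 := CC_lo
  have hC2 := CC_hi
  have hmr0 : 0 ≤ m * r ^ 2 := by positivity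
  have hD : m * r ^ 2 + U ≤ 0.08389 * m := by
    have h3 : m * (1 / 9 + r ^ 2) = m / 9 + m * r ^ 2 := by ring
    linarith
  set s := Real.sqrt (U / (2 * m)) with hs
  have hs0 : 0 ≤ s := Real.sqrt_nonneg _
  have hsU : 2 * m * s ^ 2 = U := by
    rw [hs, Real.sq_sqrt (by positivity)]
    field_simp
  -- the basic inequality
  have hbasic : E6 - tau q ≤ gg m - m * r ^ 2 * (4 / 9 + s3 - 4.2428 * r + 2 * r ^ 2)
      - U * (s3 - 16 / 3 * s) + CC * (m * r ^ 2 + U) * (2 * m / 9 + (m * r ^ 2 + U)) := by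
    have h2 : 2 * m * T ≤ 2 * m * (1 / 9 - (1 / 9 + r ^ 2) ^ 2 + 2.1214 * r ^ 3) :=
      mul_le_mul_of_nonneg_left hT2 (by positivity)
    have h3 : E6 ≤ 2 * m * (1 / 9 - (1 / 9 + r ^ 2) ^ 2 + 2.1214 * r ^ 3) + 16 / 3 * U * s := by
      linarith
    have h4 : 2 * m * (1 / 9 - (1 / 9 + r ^ 2) ^ 2 + 2.1214 * r ^ 3) + 16 / 3 * U * s - tau q
        = gg m - m * r ^ 2 * (4 / 9 + s3 - 4.2428 * r + 2 * r ^ 2)
      - U * (s3 - 16 / 3 * s) + CC * (m * r ^ 2 + U) * (2 * m / 9 + (m * r ^ 2 + U)) := by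
      unfold tau gg
      rw [hq]
      ring
    linarith
  have step : ∀ d a b e : ℝ, 0 ≤ e → r ^ 2 ≤ d → U ≤ e * m → 4.2428 * r - 2 * r ^ 2 ≤ a →
      16 / 3 * s ≤ b →
      E6 - tau q ≤ gg m - m * r ^ 2 * (2.1764 - a - 0.14692 * (2 / 9 + d + e))
        - U * (1.732 - b - 0.14692 * (2 / 9 + d + e)) := by
    intro d a b e he hd hU1 ha hb
    have hd0 : 0 ≤ d := le_trans (sq_nonneg r) hd
    have e1 : m * r ^ 2 * (2.1764 - a) ≤ m * r ^ 2 * (4 / 9 + s3 - 4.2428 * r + 2 * r ^ 2) :=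
      mul_le_mul_of_nonneg_left (by linarith) hmr0
    have e2 : U * (1.732 - b) ≤ U * (s3 - 16 / 3 * s) :=
      mul_le_mul_of_nonneg_left (by linarith) hU
    have e3 : 2 * m / 9 + (m * r ^ 2 + U) ≤ (2 / 9 + d + e) * (1 / 11) := by
      have := mul_le_mul_of_nonneg_left hd hm.le
      have e4 : (2 / 9 + d + e) * m ≤ (2 / 9 + d + e) * (1 / 11) :=
        mul_le_mul_of_nonneg_left hm' (by positivity)
      nlinarith
    have e5 : CC * (2 * m / 9 + (m * r ^ 2 + U)) ≤ 0.14692 * (2 / 9 + d + e) := by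
      have h6 : 0 ≤ 2 * m / 9 + (m * r ^ 2 + U) := by positivity
      have h7 := mul_le_mul_of_nonneg_right hC2.le h6
      have h8 : 0 ≤ 2 / 9 + d + e := by positivity
      nlinarith
    have e6 := mul_le_mul_of_nonneg_left e5 (by positivity : 0 ≤ m * r ^ 2 + U)
    nlinarith
  have hr2 : r ^ 2 ≤ 0.08389 := by
    by_contra hcon
    push Not at hcon
    have := mul_lt_mul_of_pos_left hcon hm
    linarith
  have hr1 : r ≤ 0.28965 := by
    by_contra hcon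
    push Not at hcon
    nlinarith
  have hs3 : s ≤ 0.20481 := by
    by_contra hcon
    push Not at hcon
    have h3 : 0.04194 < s ^ 2 := by nlinarith
    have h4 : 0.0419465 < s ^ 2 := by nlinarith
    have := mul_lt_mul_of_pos_left h4 hm
    linarith
  have st1 := step 0.08389 1.0612 1.0924 0.08389 (by norm_num) hr2 (by linarith)
    (by nlinarith) (by linarith)
  have hgg : gg m ≤ 0.0069 * m := by
    unfold gg
    have h3 : CC / 81 * m ^ 2 ≤ 1.61602545 / 81 * (1 / 11) * m := by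
      have h4 : m ^ 2 ≤ 1 / 11 * m := by nlinarith
      have h5 : CC / 81 * m ^ 2 ≤ 1.61602545 / 81 * m ^ 2 :=
        mul_le_mul_of_nonneg_right (by linarith) (sq_nonneg m)
      nlinarith
    nlinarith
  have st2 : E6 - tau q ≤ gg m - 1.057 * (m * r ^ 2) - 0.5823 * U := by
    nlinarith
  have hb1 : m * r ^ 2 ≤ 0.00653 * m := by nlinarith
  have hb2 : U ≤ 0.01185 * m := by nlinarith
  have hr3 : r ^ 2 ≤ 0.00653 := by
    by_contra hcon
    push Not at hcon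
    have := mul_lt_mul_of_pos_left hcon hm
    linarith
  have hr4 : r ≤ 0.0809 := by
    by_contra hcon
    push Not at hcon
    nlinarith
  have hs4 : s ≤ 0.0771 := by
    by_contra hcon
    push Not at hcon
    have h4 : 0.00593 < s ^ 2 := by nlinarith
    have := mul_lt_mul_of_pos_left h4 hm
    linarith
  have st3 := step 0.00653 0.3433 0.4113 0.01185 (by norm_num) hr3 hb2
    (by nlinarith [sq_nonneg r]) (by linarith)
  constructor
  · nlinarith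
  · nlinarith

end W880b64
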