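import Pool.Agent.W_880b64_h21.FourF1
import Pool.Agent.W_880b64_h21.FourF2
import Pool.Agent.W_880b64_h21.P9b
import Pool.Agent.W_880b64_h21.P9c
import Pool.Agent.W_880b64_h21.ZoneA
import Pool.Agent.W_880b64_h21.ZoneB
import Pool.Agent.W_880b64_h21.ZoneC

/-!
# The local inequality for `E_p`, `p ≥ 11` prime
-/

namespace W880b64

open Finset BigOperators

theorem Gp (p : ℕ) [Fact p.Prime] (hp : 11 ≤ p) {x : VV p → ℝ} (hx : x ∈ stdSimplex ℝ (VV p))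
    (hq : sq2 x ≤ 1 - c0) (hpos : tau (sq2 x) < T6 (EM p) x) :
    sq2 x - 1 / (9 * p) ≤ 4 / 5 * gg (1 / p) ∧ T6 (EM p) x ≤ tau (sq2 x) + gg (1 / p) := by
  have hp0 : (0:ℝ) < p := by
    have : 0 < p := by omega
    exact_mod_cast this
  have hπ := prt_mem hx
  set ρ := rho (prt x) with hρdef
  have hρ0 : 0 ≤ ρ := rho_nonneg hπ
  have hρ1 : ρ ≤ 8 / 9 := rho_le hπ
  set r := Real.sqrt ρ with hr
  have hr2 : r ^ 2 = ρ := Real.sq_sqrt hρ0
  have hr0 : 0 ≤ r := Real.sqrt_nonneg _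
  set T := TP (prt x) with hT
  set U := UU x with hUdef
  have hU0 : 0 ≤ U := UU_nonneg x
  have hP2 : ∑ i, prt x i ^ 2 = 1 / 9 + r ^ 2 := by
    rw [hr2, hρdef]; unfold rho; ring
  have hT1 : T ≤ (1 / 9 + r ^ 2) - (1 / 9 + r ^ 2) ^ 2 := by
    have h1 := TP_le1 hπ
    have h2 := P3_ge hπ
    rw [hP2] at h1 h2
    linarith
  have hT2 : T ≤ 1 / 9 - (1 / 9 + r ^ 2) ^ 2 + 2.1214 * r ^ 3 := by
    have h1 := TP_le2 hπ
    have h2 := P3_ge hπ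
    rw [hP2] at h2
    have h3 : 2.1214 * rho (prt x) * Real.sqrt (rho (prt x)) = 2.1214 * r ^ 3 := by
      rw [← hρdef, ← hr, ← hr2]; ring
    rw [h3] at h1
    linarith
  have h0 : T6 (EM p) x ≤ T := T6_EM_le_TP (by omega) hx.1
  have hodd : Odd p := (Fact.out : p.Prime).odd_of_ne_two (by omega)
  have h1 : T6 (EM p) x ≤ 2 * (1 / (p:ℝ)) * T + 16 / 3 * U * Real.sqrt (U / (2 * (1 / (p:ℝ)))) := by
    have := F1 (M := p) (by omega) hodd x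
    have e1 : (p:ℝ) / 2 * UU x = U / (2 * (1 / (p:ℝ))) := by rw [← hUdef]; field_simp
    have e2 : 2 / (p:ℝ) * TP (prt x) = 2 * (1 / (p:ℝ)) * T := by rw [hT]; ring
    rw [e1, e2] at this
    exact this
  have h2 : T6 (EM p) x ≤ 2 * (1 / (p:ℝ)) * T + 1.802 * (8 / 9 - 9 / 20 * r ^ 2) * U := by
    have h3 := F2 p hp hx.1
    have h4 := Rt_le_lam hπ (v := ui x) (fun i => ui_nonneg x i)
    have h5 : ∑ i, ui x i = U := rfl
    rw [h5, ← hρdef, ← hr2] at h4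
    have e2 : 2 / (p:ℝ) * TP (prt x) = 2 * (1 / (p:ℝ)) * T := by rw [hT]; ring
    rw [e2] at h3
    nlinarith
  have hq' : sq2 x = (1 / (p:ℝ)) * (1 / 9 + r ^ 2) + U := by
    rw [sq2_eq, ← hρdef, ← hr2, ← hUdef]
    field_simp
  have hm : (0:ℝ) < 1 / p := by positivity
  have hm' : (1:ℝ) / p ≤ 1 / 11 := by
    apply one_div_le_one_div_of_le (by norm_num)
    exact_mod_cast hp
  have hnot1 : ¬ (0.0615 ≤ sq2 x) := fun h =>
    absurd (zoneA hm hm' hr0 (by rw [hr2]; exact hρ1) hU0 hq' h hq hT1 hT2 h0 h2) (not_le.2 hpos)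
  push Not at hnot1
  have hnot2 : ¬ (0.195 * (1 / (p:ℝ)) ≤ sq2 x) := fun h =>
    absurd (zoneB hm hm' hr0 (by rw [hr2]; exact hρ1) hU0 hq' h hnot1.le hT1 hT2 h2)
      (not_le.2 hpos)
  push Not at hnot2
  obtain ⟨g1, g2⟩ := zoneC hm hm' hr0 hU0 hq' hnot2.le hT2 h1 hpos
  refine ⟨?_, g2⟩
  have : sq2 x - 1 / (9 * p) = 1 / (p:ℝ) * r ^ 2 + U := by
    rw [hq']; field_simp; ring
  rw [this]; exact g1

end W880b64
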