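import Pool.Agent.W_880b64_h21.PatOp
import Pool.Agent.W_880b64_h21.EMa

/-!
# Hidden structures give operations (task A6)
-/

namespace W880b64

open Finset BigOperators
open W_MP_880b64_co (TG Lam)

section
variable {V : Type} [Fintype V] [DecidableEq V] [Nonempty V]

/-- The maximum `VC E s` of `fv E s` is attained. (Compactness of `[0,1] × simplex`, continuity.) -/
theorem VC_spec (E : Finset (Finset V)) (s : V → ℝ) :
    (∃ a ∈ Set.Icc (0:ℝ) 1, ∃ x ∈ stdSimplex ℝ V, fv E s a x = VC E s) ∧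
    ∀ a ∈ Set.Icc (0:ℝ) 1, ∀ x ∈ stdSimplex ℝ V, fv E s a x ≤ VC E s := by
  have hcont : Continuous (fun p : ℝ × (V → ℝ) => fv E s p.1 p.2) := by
    unfold fv Th T6 sq2
    fun_prop
  have hcomp : IsCompact (Set.Icc (0:ℝ) 1 ×ˢ stdSimplex ℝ V) :=
    isCompact_Icc.prod (isCompact_stdSimplex ℝ V)
  obtain ⟨x0, hx0⟩ := W_MP_880b64_co.simplex_nonempty (V := V)
  have hne : (Set.Icc (0:ℝ) 1 ×ˢ stdSimplex ℝ V).Nonempty :=
    ⟨(0, x0), ⟨le_rfl, zero_le_one⟩, hx0⟩
  obtain ⟨p, hp, hmax⟩ := hcomp.exists_isMaxOn hne hcont.continuousOn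
  have hle : ∀ q ∈ Set.Icc (0:ℝ) 1 ×ˢ stdSimplex ℝ V, fv E s q.1 q.2 ≤ fv E s p.1 p.2 :=
    fun q hq => hmax hq
  have hV : VC E s = fv E s p.1 p.2 := by
    unfold VC
    apply le_antisymm
    · apply csSup_le (hne.image _)
      rintro _ ⟨q, hq, rfl⟩
      exact hle q hq
    · apply le_csSup
      · refine ⟨fv E s p.1 p.2, ?_⟩
        rintro _ ⟨q, hq, rfl⟩
        exact hle q hq
      · exact ⟨p, hp, rfl⟩
  refine ⟨⟨p.1, hp.1, p.2, hp.2, hV.symm⟩, fun a ha x hx => ?_⟩
  rw [hV]
  exact hle (a, x) ⟨ha, hx⟩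

/-- the relation of the pattern `AAB` with the hidden structure `E` -/
def HidOp_r (E : Finset (Finset V)) : Option V → Option V → Option V → Prop
  | none, some a, some b => a ≠ b
  | some a, none, some b => a ≠ b
  | some a, some b, none => a ≠ b
  | some a, some b, some c => a ≠ b ∧ b ≠ c ∧ a ≠ c ∧ ({a, b, c} : Finset V) ∈ E
  | _, _, _ => False

/-- the pattern `AAB` with the hidden structure `E` -/
def HidOp_K (E : Finset (Finset V)) : TG (Option V) where
  r := HidOp_r E
  s12 := by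
    intro a b c h
    rcases a with _ | a <;> rcases b with _ | b <;> rcases c with _ | c
    · exact h
    · exact h
    · exact h
    · exact h
    · exact h
    · exact h
    · exact Ne.symm h
    · obtain ⟨h1, h2, h3, h4⟩ := h
      refine ⟨h1.symm, h3, h2, ?_⟩
      rw [Finset.insert_comm]
      exact h4
  s23 := by
    intro a b c h
    rcases a with _ | a <;> rcases b with _ | b <;> rcases c with _ | c
    · exact h
    · exact h
    · exact h
    · exact Ne.symm h
    · exact h
    · exact h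
    · exact h
    · obtain ⟨h1, h2, h3, h4⟩ := h
      refine ⟨h3, h2.symm, h1, ?_⟩
      rw [Finset.pair_comm]
      exact h4
  ne := by
    intro a b c h
    rcases a with _ | a <;> rcases b with _ | b <;> rcases c with _ | c
    · exact absurd h id
    · exact absurd h id
    · exact Option.some_ne_none _ |>.symm
    · exact Option.some_ne_none _ |>.symm
    · exact Option.some_ne_none _
    · exact Option.some_ne_none _
    · exact fun h2 => h (Option.some.inj h2)
    · exact fun h2 => h.1 (Option.some.inj h2)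

theorem HidOp_off (w : V → ℝ) :
    ∑ b, ∑ c, (if b ≠ c then w b * w c else 0) = (∑ v, w v) ^ 2 - ∑ v, w v ^ 2 := by
  have h1 : ∀ b, ∑ c, (if b ≠ c then w b * w c else 0) = w b * (∑ v, w v) - w b ^ 2 := by
    intro b
    have h2 : ∑ c, (if b ≠ c then w b * w c else 0) =
        ∑ c, (w b * w c - if b = c then w b * w c else 0) := by
      refine Finset.sum_congr rfl fun c _ => ?_
      by_cases h : b = c
      · rw [if_neg (not_not.2 h), if_pos h, sub_self]
      · rw [if_pos h, if_neg h, sub_zero]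
    rw [h2, Finset.sum_sub_distrib, ← Finset.mul_sum, Finset.sum_ite_eq,
      if_pos (Finset.mem_univ b), sq]
  rw [Finset.sum_congr rfl fun b _ => h1 b, Finset.sum_sub_distrib, ← Finset.sum_mul, sq]

theorem HidOp_T {E : Finset (Finset V)} (hE : ∀ e ∈ E, e.card = 3) (n : ℝ) (w : V → ℝ) :
    (HidOp_K E).T (fun o => Option.elim o n w) =
      3 * n * ((∑ v, w v) ^ 2 - ∑ v, w v ^ 2) + T6 E w := by
  classical
  have e1 : ∀ b c, (HidOp_K E).r none (some b) (some c) ↔ b ≠ c := fun b c => Iff.rfl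
  have e2 : ∀ a c, (HidOp_K E).r (some a) none (some c) ↔ a ≠ c := fun a c => Iff.rfl
  have e3 : ∀ a b, (HidOp_K E).r (some a) (some b) none ↔ a ≠ b := fun a b => Iff.rfl
  have e4 : ∀ a b c, (HidOp_K E).r (some a) (some b) (some c) ↔
      (a ≠ b ∧ b ≠ c ∧ a ≠ c ∧ ({a, b, c} : Finset V) ∈ E) := fun a b c => Iff.rfl
  have f1 : ∀ c, ¬ (HidOp_K E).r none none c := by
    intro c h
    rcases c with _ | c
    · exact h
    · exact h
  have f2 : ∀ b, ¬ (HidOp_K E).r none (some b) none := fun b h => h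
  have f3 : ∀ a, ¬ (HidOp_K E).r (some a) none none := fun a h => h
  have key : (HidOp_K E).T (fun o => Option.elim o n w) =
      ∑ b, ∑ c, (if b ≠ c then n * w b * w c else 0) +
      ∑ a, (∑ c, (if a ≠ c then w a * n * w c else 0) +
        ∑ b, ((if a ≠ b then w a * w b * n else 0) +
          ∑ c, if a ≠ b ∧ b ≠ c ∧ a ≠ c ∧ ({a, b, c} : Finset V) ∈ E then
            w a * w b * w c else 0)) := by
    unfold TG.T
    rw [Fintype.sum_option]
    congr 1
    · rw [Fintype.sum_option]
      have h0 : ∑ c : Option V, (if (HidOp_K E).r none none c then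
          Option.elim (none : Option V) n w * Option.elim (none : Option V) n w *
            Option.elim c n w else 0) = 0 :=
        Finset.sum_eq_zero fun c _ => if_neg (f1 c)
      rw [h0, zero_add]
      refine Finset.sum_congr rfl fun b _ => ?_
      rw [Fintype.sum_option, if_neg (f2 b), zero_add]
      refine Finset.sum_congr rfl fun c _ => ?_
      exact if_congr (e1 b c) rfl rfl
    · refine Finset.sum_congr rfl fun a _ => ?_
      rw [Fintype.sum_option]
      congr 1
      · rw [Fintype.sum_option, if_neg (f3 a), zero_add]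
        refine Finset.sum_congr rfl fun c _ => ?_
        exact if_congr (e2 a c) rfl rfl
      · refine Finset.sum_congr rfl fun b _ => ?_
        rw [Fintype.sum_option]
        congr 1
        · exact if_congr (e3 a b) rfl rfl
        · refine Finset.sum_congr rfl fun c _ => ?_
          exact if_congr (e4 a b c) rfl rfl
  have g1 : ∑ b, ∑ c, (if b ≠ c then n * w b * w c else 0) =
      n * ((∑ v, w v) ^ 2 - ∑ v, w v ^ 2) := by
    rw [← HidOp_off, Finset.mul_sum]
    refine Finset.sum_congr rfl fun b _ => ?_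
    rw [Finset.mul_sum]
    refine Finset.sum_congr rfl fun c _ => ?_
    split_ifs <;> ring
  have g2 : ∑ b, ∑ c, (if b ≠ c then w b * n * w c else 0) =
      n * ((∑ v, w v) ^ 2 - ∑ v, w v ^ 2) := by
    rw [← HidOp_off, Finset.mul_sum]
    refine Finset.sum_congr rfl fun b _ => ?_
    rw [Finset.mul_sum]
    refine Finset.sum_congr rfl fun c _ => ?_
    split_ifs <;> ring
  have g3 : ∑ b, ∑ c, (if b ≠ c then w b * w c * n else 0) =
      n * ((∑ v, w v) ^ 2 - ∑ v, w v ^ 2) := by
    rw [← HidOp_off, Finset.mul_sum]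
    refine Finset.sum_congr rfl fun b _ => ?_
    rw [Finset.mul_sum]
    refine Finset.sum_congr rfl fun c _ => ?_
    split_ifs <;> ring
  rw [key, g1, Finset.sum_add_distrib, g2]
  simp only [Finset.sum_add_distrib]
  rw [g3, ← T6_ordered hE w]
  ring

theorem HidOp_T6_smul {E : Finset (Finset V)} (hE : ∀ e ∈ E, e.card = 3) (a : ℝ) (x : V → ℝ) :
    T6 E (fun v => a * x v) = a ^ 3 * T6 E x := by
  unfold T6
  rw [← mul_assoc, mul_comm (a ^ 3) 6, mul_assoc, Finset.mul_sum (a := a ^ 3)]
  congr 1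
  refine Finset.sum_congr rfl fun e he => ?_
  rw [Finset.prod_mul_distrib, Finset.prod_const, hE e he]

theorem HidOp_val {E : Finset (Finset V)} (hE : ∀ e ∈ E, e.card = 3) (s : V → ℝ)
    (h0 : Option V → ℝ) (hh0 : ∀ v, h0 (some v) = s v) (t a : ℝ) {x : V → ℝ}
    (hx : x ∈ stdSimplex ℝ V) :
    patV (HidOp_K E) id (fun i => if i = none then t else h0 i)
      (fun o => Option.elim o (1 - a) (fun v => a * x v)) =
      fv E s a x + (t - c0) * (1 - a) ^ 3 := by
  unfold patV
  rw [HidOp_T hE, HidOp_T6_smul hE]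
  have h1 : ∀ i : Option V, (∑ q : Option V, if id q = i then
      Option.elim q (1 - a) (fun v => a * x v) else 0) =
      Option.elim i (1 - a) (fun v => a * x v) := by
    intro i
    simp only [id]
    rw [Finset.sum_ite_eq' Finset.univ i, if_pos (Finset.mem_univ i)]
  simp only [h1]
  rw [Fintype.sum_option]
  have h2 : ∑ v : V, (if (some v : Option V) = none then t else h0 (some v)) *
      Option.elim (some v : Option V) (1 - a) (fun v => a * x v) ^ 3 =
      a ^ 3 * ∑ v, s v * x v ^ 3 := by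
    rw [Finset.mul_sum]
    refine Finset.sum_congr rfl fun v _ => ?_
    rw [if_neg (Option.some_ne_none v), hh0]
    show s v * (a * x v) ^ 3 = _
    ring
  rw [h2, if_pos rfl]
  have h3 : ∑ v, a * x v = a := by
    rw [← Finset.mul_sum, hx.2, mul_one]
  have h4 : ∑ v, (a * x v) ^ 2 = a ^ 2 * sq2 x := by
    unfold sq2
    rw [Finset.mul_sum]
    exact Finset.sum_congr rfl fun v _ => by ring
  rw [h3, h4]
  unfold fv Th
  show 3 * (1 - a) * (a ^ 2 - a ^ 2 * sq2 x) + a ^ 3 * T6 E x +
    (t * (1 - a) ^ 3 + a ^ 3 * ∑ v, s v * x v ^ 3) = _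
  ring

theorem HidOp_mem {a : ℝ} (ha : a ∈ Set.Icc (0:ℝ) 1) {x : V → ℝ} (hx : x ∈ stdSimplex ℝ V) :
    (fun o : Option V => Option.elim o (1 - a) (fun v => a * x v)) ∈ stdSimplex ℝ (Option V) := by
  refine ⟨?_, ?_⟩
  · intro o
    rcases o with _ | v
    · show 0 ≤ 1 - a
      linarith [ha.2]
    · exact mul_nonneg ha.1 (hx.1 v)
  · rw [Fintype.sum_option]
    show 1 - a + ∑ v, a * x v = 1
    rw [← Finset.mul_sum, hx.2]
    ring

theorem HidOp_rep {y : Option V → ℝ} (hy : y ∈ stdSimplex ℝ (Option V)) :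
    ∃ a ∈ Set.Icc (0:ℝ) 1, ∃ x ∈ stdSimplex ℝ V,
      y = fun o => Option.elim o (1 - a) (fun v => a * x v) := by
  have hsum := hy.2
  rw [Fintype.sum_option] at hsum
  have hnn : 0 ≤ ∑ v, y (some v) := Finset.sum_nonneg fun v _ => hy.1 _
  have hn0 := hy.1 none
  refine ⟨∑ v, y (some v), ⟨hnn, by linarith⟩, ?_⟩
  rcases hnn.eq_or_lt with h | h
  · obtain ⟨x, hx⟩ := W_MP_880b64_co.simplex_nonempty (V := V)
    refine ⟨x, hx, ?_⟩
    have hz : ∀ v, y (some v) = 0 := by
      intro v
      exact (Finset.sum_eq_zero_iff_of_nonneg (fun v _ => hy.1 (some v))).1 h.symm v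
        (Finset.mem_univ v)
    funext o
    rcases o with _ | v
    · show y none = 1 - ∑ v, y (some v)
      linarith
    · show y (some v) = (∑ v, y (some v)) * x v
      rw [← h, zero_mul, hz v]
  · refine ⟨fun v => y (some v) / ∑ v, y (some v), ⟨fun v => div_nonneg (hy.1 _) h.le, ?_⟩, ?_⟩
    · rw [← Finset.sum_div, div_self h.ne']
    · funext o
      rcases o with _ | v
      · show y none = 1 - ∑ v, y (some v)
        linarith
      · show y (some v) = (∑ v, y (some v)) * (y (some v) / ∑ v, y (some v))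
        rw [mul_div_cancel₀ _ h.ne']

/-- **Hidden structures are operations.**

Proof.  Let `K : TG (Option V)` have the ordered triples: `(none, some a, some b)`, `a ≠ b`, in all
orders, and `(some a, some b, some c)`, `a, b, c` distinct, `{a,b,c} ∈ E`.  Classes: `cls = id`,
variable class `none`, `h0 (some v) = s v`.  Then for `y ∈ stdSimplex ℝ (Option V)`, with
`w v = y (some v)`, `K.T y = 3 (y none) ((∑ w)² - ∑ w²) + T6 E w`
(each `e ∈ E` has exactly 6 orderings).  By `isOp_pat` the function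
`f t = max_y [K.T y + t (y none)^3 + ∑ s v (y (some v))^3]` is an operation (an edge of `K` inside
one class would be a triple `(q,q,q)`, excluded by `K.ne`).
Writing `a = ∑ w`, `w = a x` with `x ∈ stdSimplex ℝ V` (any `x` if `a = 0`), the value at `y` with
`t = c0` is `fv E s a x` (`y none = 1 - a`); this gives `f c0 = VC E s`, and for every `a, x`
the value at `y = (1-a, a x)` with `t = y'` is `fv E s a x + (y' - c0)(1-a)^3`. -/
theorem hid_op (E : Finset (Finset V)) (hE : ∀ e ∈ E, e.card = 3) (s : V → ℝ)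
    (hs : ∀ v, s v ∈ Lam) :
    ∃ f : ℝ → ℝ, IsOp f ∧ f c0 = VC E s ∧ ∀ y : ℝ, ∀ a ∈ Set.Icc (0:ℝ) 1,
      ∀ x ∈ stdSimplex ℝ V, fv E s a x + (y - c0) * (1 - a) ^ 3 ≤ f y := by
  obtain ⟨h0, hh0⟩ : ∃ h0 : Option V → ℝ, h0 = fun o => Option.elim o 0 s := ⟨_, rfl⟩
  have hh1 : ∀ v, h0 (some v) = s v := by
    intro v
    rw [hh0]
    rfl
  have hop := isOp_pat (HidOp_K E) (id : Option V → Option V)
    (fun a b c hr h => (HidOp_K E).ne a b c hr h.1) (fun i => i = none) none rfl h0 (by
      intro i hi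
      rcases i with _ | v
      · exact absurd rfl hi
      · rw [hh1]
        exact hs v)
  refine ⟨_, hop, ?_, ?_⟩
  · apply le_antisymm
    · obtain ⟨⟨y, hy, hyv⟩, -⟩ := patPhi_spec (HidOp_K E) (id : Option V → Option V)
        (fun i => if i = none then c0 else h0 i)
      obtain ⟨a, ha, x, hx, hyx⟩ := HidOp_rep hy
      rw [hyx, HidOp_val hE s h0 hh1 c0 a hx] at hyv
      have h2 := (VC_spec E s).2 a ha x hx
      rw [sub_self, zero_mul, add_zero] at hyv
      rw [← hyv]
      exact h2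
    · obtain ⟨⟨a, ha, x, hx, hv⟩, -⟩ := VC_spec E s
      have h2 := (patPhi_spec (HidOp_K E) (id : Option V → Option V)
        (fun i => if i = none then c0 else h0 i)).2 _ (HidOp_mem ha hx)
      rw [HidOp_val hE s h0 hh1 c0 a hx, sub_self, zero_mul, add_zero, hv] at h2
      exact h2
  · intro y a ha x hx
    have h2 := (patPhi_spec (HidOp_K E) (id : Option V → Option V)
      (fun i => if i = none then y else h0 i)).2 _ (HidOp_mem ha hx)
    rw [HidOp_val hE s h0 hh1 y a hx] at h2
    exact h2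

/-- **One step.** (Proof: `hid_op` for `(E0,s0)`, evaluated at the maximiser of `fv E1 s1`.) -/
theorem step_op {E0 E1 : Finset (Finset V)} {s0 s1 : V → ℝ} (hE0 : ∀ e ∈ E0, e.card = 3)
    (hs0 : ∀ v, s0 v ∈ Lam) {y : ℝ} (h0 : VC E0 s0 ≤ y) (h1 : y < VC E1 s1)
    {a : ℝ} (ha : a ∈ Set.Icc (0:ℝ) 1) {x : V → ℝ} (hx : x ∈ stdSimplex ℝ V)
    (hax : fv E1 s1 a x = VC E1 s1)
    (hstep : a ^ 3 * (Th E1 s1 x - Th E0 s0 x) ≤ (y - c0) * (1 - a) ^ 3) :
    ∃ f, IsOp f ∧ f c0 ≤ y ∧ y < f y := by
  obtain ⟨f, hf, hc, hb⟩ := hid_op E0 hE0 s0 hs0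
  refine ⟨f, hf, by rw [hc]; exact h0, ?_⟩
  have h2 := hb y a ha x hx
  have h4 : fv E0 s0 a x = fv E1 s1 a x - a ^ 3 * (Th E1 s1 x - Th E0 s0 x) := by
    unfold fv; ring
  linarith

end

end W880b64
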