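import Pool.Agent.W_880b64_h21.Base

/-!
# Level sets of Fourier coefficients (task E3a)
-/

namespace W880b64

open Finset BigOperators
open scoped Pointwise

/-- the Fourier coefficient -/
noncomputable def hatF {p : ℕ} [NeZero p] (g : ZMod p → ℝ) (r : ZMod p) : ℂ :=
  ∑ a : ZMod p, (g a : ℂ) * ZMod.stdAddChar (r * a)

theorem KapA_norm_char {p : ℕ} [NeZero p] (r : ZMod p) :
    ‖(ZMod.stdAddChar r : ℂ)‖ = 1 := by
  rw [ZMod.stdAddChar_apply]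
  exact Circle.norm_coe _

/-- `‖hatF g r‖ ≤ ∑ g = 1`. -/
theorem hat_le_one {p : ℕ} [NeZero p] {g : ZMod p → ℝ} (hg : ∀ a, 0 ≤ g a) (h1 : ∑ a, g a = 1)
    (r : ZMod p) : ‖hatF g r‖ ≤ 1 := by
  unfold hatF
  refine (norm_sum_le _ _).trans ?_
  have h2 : ∀ a ∈ (univ : Finset (ZMod p)), ‖(g a : ℂ) * ZMod.stdAddChar (r * a)‖ = g a := by
    intro a _
    rw [norm_mul, Complex.norm_real, Real.norm_of_nonneg (hg a), KapA_norm_char, mul_one]
  rw [sum_congr rfl h2, h1]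

theorem hat_zero {p : ℕ} [NeZero p] {g : ZMod p → ℝ} (h1 : ∑ a, g a = 1) :
    ‖hatF g 0‖ = 1 := by
  unfold hatF
  have h2 : ∀ a ∈ (univ : Finset (ZMod p)), (g a : ℂ) * ZMod.stdAddChar ((0 : ZMod p) * a) =
      (g a : ℂ) := by
    intro a _
    rw [zero_mul, AddChar.map_zero_eq_one, mul_one]
  rw [sum_congr rfl h2, ← Complex.ofReal_sum, h1]
  simp

theorem KapA_var {p : ℕ} [NeZero p] {g : ZMod p → ℝ} (h1 : ∑ a, g a = 1) (r : ZMod p) :
    ∑ a, g a * ‖(ZMod.stdAddChar (r * a) : ℂ) - hatF g r‖ ^ 2 = 1 - ‖hatF g r‖ ^ 2 := by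
  set G := hatF g r with hG
  have h2 : ∀ a ∈ (univ : Finset (ZMod p)), g a * ‖(ZMod.stdAddChar (r * a) : ℂ) - G‖ ^ 2 =
      g a * (1 + ‖G‖ ^ 2) - 2 * ((g a : ℂ) * ZMod.stdAddChar (r * a) *
        (starRingEnd ℂ) G).re := by
    intro a _
    have h3 : ‖(ZMod.stdAddChar (r * a) : ℂ) - G‖ ^ 2 = 1 + ‖G‖ ^ 2 -
        2 * ((ZMod.stdAddChar (r * a) : ℂ) * (starRingEnd ℂ) G).re := by
      rw [Complex.sq_norm, Complex.normSq_sub, ← Complex.sq_norm, ← Complex.sq_norm,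
        KapA_norm_char]
      ring
    rw [h3, mul_assoc, Complex.re_ofReal_mul]
    ring
  rw [sum_congr rfl h2, sum_sub_distrib, ← sum_mul, h1, one_mul, ← mul_sum]
  have h4 : ∑ a, ((g a : ℂ) * ZMod.stdAddChar (r * a) * (starRingEnd ℂ) G).re = ‖G‖ ^ 2 := by
    rw [← Complex.re_sum, ← sum_mul]
    have h5 : ∑ a : ZMod p, (g a : ℂ) * ZMod.stdAddChar (r * a) = G := rfl
    rw [h5, Complex.mul_conj, Complex.ofReal_re, Complex.sq_norm]
  rw [h4]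
  ring

theorem KapA_cov {p : ℕ} [NeZero p] {g : ZMod p → ℝ} (h1 : ∑ a, g a = 1) (r s : ZMod p) :
    ∑ a, (g a : ℂ) * (((ZMod.stdAddChar (r * a) : ℂ) - hatF g r) *
      ((ZMod.stdAddChar (s * a) : ℂ) - hatF g s)) = hatF g (r + s) - hatF g r * hatF g s := by
  have h1' : ∑ a, (g a : ℂ) = 1 := by
    rw [← Complex.ofReal_sum, h1, Complex.ofReal_one]
  have h2 : ∀ a ∈ (univ : Finset (ZMod p)),
      (g a : ℂ) * (((ZMod.stdAddChar (r * a) : ℂ) - hatF g r) *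
      ((ZMod.stdAddChar (s * a) : ℂ) - hatF g s)) =
      (g a : ℂ) * ZMod.stdAddChar ((r + s) * a) - ((g a : ℂ) * ZMod.stdAddChar (r * a)) *
        hatF g s - ((g a : ℂ) * ZMod.stdAddChar (s * a)) * hatF g r +
        (g a : ℂ) * (hatF g r * hatF g s) := by
    intro a _
    rw [add_mul, AddChar.map_add_eq_mul]
    ring
  rw [sum_congr rfl h2, sum_add_distrib, sum_sub_distrib, sum_sub_distrib, ← sum_mul, ← sum_mul,
    ← sum_mul, h1']
  have h3 : ∀ t : ZMod p, ∑ a : ZMod p, (g a : ℂ) * ZMod.stdAddChar (t * a) = hatF g t :=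
    fun t => rfl
  rw [h3, h3, h3]
  ring

/-- Proof.  With `G = hatF g` and `χ = ZMod.stdAddChar` (values of absolute value 1):
`G(r+s) - G(r)G(s) = ∑_a g(a) (χ(ra) - G(r)) (χ(sa) - G(s))` (as `∑ g = 1`), and by
Cauchy–Schwarz the right side is at most
`√(∑ g |χ(ra) - G(r)|²) √(∑ g |χ(sa) - G(s)|²)`, where `∑_a g(a) |χ(ra) - G(r)|² = 1 - |G(r)|²`. -/
theorem hat_add {p : ℕ} [NeZero p] {g : ZMod p → ℝ} (hg : ∀ a, 0 ≤ g a) (h1 : ∑ a, g a = 1)
    (r s : ZMod p) :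
    ‖hatF g r‖ * ‖hatF g s‖ - Real.sqrt (1 - ‖hatF g r‖ ^ 2) * Real.sqrt (1 - ‖hatF g s‖ ^ 2) ≤
      ‖hatF g (r + s)‖ := by
  have h2 : ‖hatF g (r + s) - hatF g r * hatF g s‖ ≤
      Real.sqrt (1 - ‖hatF g r‖ ^ 2) * Real.sqrt (1 - ‖hatF g s‖ ^ 2) := by
    rw [← KapA_cov h1 r s, ← KapA_var h1 r, ← KapA_var h1 s]
    refine (norm_sum_le _ _).trans ?_
    have h3 : ∀ a ∈ (univ : Finset (ZMod p)),
        ‖(g a : ℂ) * (((ZMod.stdAddChar (r * a) : ℂ) - hatF g r) *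
          ((ZMod.stdAddChar (s * a) : ℂ) - hatF g s))‖ =
        (Real.sqrt (g a) * ‖(ZMod.stdAddChar (r * a) : ℂ) - hatF g r‖) *
        (Real.sqrt (g a) * ‖(ZMod.stdAddChar (s * a) : ℂ) - hatF g s‖) := by
      intro a _
      rw [norm_mul, norm_mul, Complex.norm_real, Real.norm_of_nonneg (hg a)]
      have h4 : g a = Real.sqrt (g a) * Real.sqrt (g a) := (Real.mul_self_sqrt (hg a)).symm
      calc g a * (‖(ZMod.stdAddChar (r * a) : ℂ) - hatF g r‖ *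
            ‖(ZMod.stdAddChar (s * a) : ℂ) - hatF g s‖)
          = (Real.sqrt (g a) * Real.sqrt (g a)) * (‖(ZMod.stdAddChar (r * a) : ℂ) - hatF g r‖ *
            ‖(ZMod.stdAddChar (s * a) : ℂ) - hatF g s‖) := by rw [← h4]
        _ = _ := by ring
    rw [sum_congr rfl h3]
    refine (Real.sum_mul_le_sqrt_mul_sqrt univ _ _).trans (le_of_eq ?_)
    have h5 : ∀ t : ZMod p, ∑ a, (Real.sqrt (g a) *
        ‖(ZMod.stdAddChar (t * a) : ℂ) - hatF g t‖) ^ 2 =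
        ∑ a, g a * ‖(ZMod.stdAddChar (t * a) : ℂ) - hatF g t‖ ^ 2 := by
      intro t
      apply sum_congr rfl
      intro a _
      rw [mul_pow, Real.sq_sqrt (hg a)]
    rw [h5, h5]
  have h6 : ‖hatF g r * hatF g s‖ ≤ ‖hatF g (r + s)‖ + ‖hatF g (r + s) - hatF g r * hatF g s‖ := by
    have := norm_sub_norm_le (hatF g r * hatF g s) (hatF g (r + s))
    rw [norm_sub_rev] at this
    linarith
  rw [norm_mul] at h6
  linarith

/-- Level sets and Cauchy–Davenport.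

Proof.  Let `A, B, C` be the three level sets.  `0` is in `A` and in `B` (`hat_zero`).  For
`r ∈ A`, `s ∈ B`: `r + s ∈ C` by `hat_add` (`‖G r‖ ‖G s‖ ≥ a b`, `√(1-‖G r‖²) ≤ √(1-a²)`, same for
`s`).  `C ≠ univ` by `hex`, so `|C| < p`, and Cauchy–Davenport
(`ZMod.cauchy_davenport : min p (#s + #t - 1) ≤ #(s + t)`) gives `|A| + |B| - 1 ≤ |C|`. -/
theorem level_card {p : ℕ} [Fact p.Prime] {g : ZMod p → ℝ} (hg : ∀ a, 0 ≤ g a)
    (h1 : ∑ a, g a = 1) {a b c : ℝ} (ha0 : 0 ≤ a) (ha : a ≤ 1) (hb0 : 0 ≤ b) (hb : b ≤ 1)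
    (hc : c ≤ a * b - Real.sqrt (1 - a ^ 2) * Real.sqrt (1 - b ^ 2))
    (hex : ∃ r, ‖hatF g r‖ < c) :
    (univ.filter (fun r => a ≤ ‖hatF g r‖)).card + (univ.filter (fun r => b ≤ ‖hatF g r‖)).card ≤
      (univ.filter (fun r => c ≤ ‖hatF g r‖)).card + 1 := by
  set A := univ.filter (fun r => a ≤ ‖hatF g r‖) with hA
  set B := univ.filter (fun r => b ≤ ‖hatF g r‖) with hB
  set C := univ.filter (fun r => c ≤ ‖hatF g r‖) with hC
  have h0 := hat_zero h1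
  have hAne : A.Nonempty := ⟨0, mem_filter.2 ⟨mem_univ _, by rw [h0]; exact ha⟩⟩
  have hBne : B.Nonempty := ⟨0, mem_filter.2 ⟨mem_univ _, by rw [h0]; exact hb⟩⟩
  have hAB : A + B ⊆ C := by
    intro x hx
    obtain ⟨r, hr, s, hs, rfl⟩ := mem_add.1 hx
    have hr' : a ≤ ‖hatF g r‖ := (mem_filter.1 hr).2
    have hs' : b ≤ ‖hatF g s‖ := (mem_filter.1 hs).2
    refine mem_filter.2 ⟨mem_univ _, ?_⟩
    have h2 := hat_add hg h1 r s
    have h3 : a * b ≤ ‖hatF g r‖ * ‖hatF g s‖ := mul_le_mul hr' hs' hb0 (norm_nonneg _)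
    have h4 : Real.sqrt (1 - ‖hatF g r‖ ^ 2) ≤ Real.sqrt (1 - a ^ 2) :=
      Real.sqrt_le_sqrt (by nlinarith)
    have h5 : Real.sqrt (1 - ‖hatF g s‖ ^ 2) ≤ Real.sqrt (1 - b ^ 2) :=
      Real.sqrt_le_sqrt (by nlinarith)
    have h6 := mul_le_mul h4 h5 (Real.sqrt_nonneg _) (Real.sqrt_nonneg _)
    linarith
  have hCp : C.card < p := by
    obtain ⟨r, hr⟩ := hex
    have h7 : C ⊂ univ := by
      rw [ssubset_univ_iff]
      intro h
      have : r ∈ C := by rw [h]; exact mem_univ _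
      exact absurd (mem_filter.1 this).2 (not_le.2 hr)
    have h8 := card_lt_card h7
    rwa [card_univ, ZMod.card] at h8
  have hCD := ZMod.cauchy_davenport (Fact.out : p.Prime) hAne hBne
  have h9 := card_le_card hAB
  have hA1 : 1 ≤ A.card := card_pos.2 hAne
  rcases min_le_iff.1 (hCD.trans h9) with h | h <;> omega

end W880b64
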