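import Pool.Agent.W_880b64_h21.Value3
import Pool.Agent.W_880b64_h21.MaxF

/-!
# The basic inequality at a maximiser, `M = 3` (task H10)
-/

namespace W880b64

open Finset BigOperators

/-- Proof.  `max_facts` (with `Th_le_c0`) gives `0 < a < 1`, `sq2 x < 1 - c0`,
`tau (sq2 x) < Th`, so `value3` applies.  If `Th - tau (sq2 x) < ratio³ · P` with
`ratio = (1+c0-sq2 x)/(1+c0-1/27)` and `P = PsiU …` (`Th_unif`), then `compare_lt` with
`x' = unif 3`, `E' = E`, `s' = s` gives `fv E s a x < VC E s`, a contradiction.  So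
`Th - tau ≥ ratio³ P ≥ (1 - 2.14 D) P` (`ratio = 1 - D/(1+c0-1/27)`, `3/(1+c0-1/27) ≤ 2.103`). -/
theorem key3 {Ra Rb : Finset (Finset (VV 3))} (hRa : Ra ⊆ EM 3) (hRb : Rb ⊆ EM 3)
    (hab : Disjoint Ra Rb) (hda : (Ra : Set (Finset (VV 3))).PairwiseDisjoint id)
    (hdb : (Rb : Set (Finset (VV 3))).PairwiseDisjoint id) {s : VV 3 → ℝ}
    (hs : ∀ v, 0 ≤ s v ∧ s v ≤ 11 / 25) {a : ℝ} (ha : a ∈ Set.Icc (0:ℝ) 1) {x : VV 3 → ℝ}
    (hx : x ∈ stdSimplex ℝ (VV 3))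
    (hmax : fv (EM 3 \ (Ra ∪ Rb)) s a x = VC (EM 3 \ (Ra ∪ Rb)) s)
    (hgt : c0 < VC (EM 3 \ (Ra ∪ Rb)) s) (hP : 0 ≤ PsiU 3 (Ra ∪ Rb).card (∑ v, s v)) :
    (1.3365 - 2.14 * PsiU 3 (Ra ∪ Rb).card (∑ v, s v) - 6.205 * Real.sqrt (sq2 x - 1 / 27))
      * (sq2 x - 1 / 27) ≤
      ∑ v, (-(6 / 729) * (rv Ra v + rv Rb v) + 3 / 729 * s v) * (x v - 1 / 27) := by
  have hM : 2 ≤ 3 := by norm_num
  have hR : Ra ∪ Rb ⊆ EM 3 := Finset.union_subset hRa hRb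
  have hT := Th_le_c0 hM (E := EM 3 \ (Ra ∪ Rb)) Finset.sdiff_subset hs hx
  obtain ⟨ha0, -, hq, hpos, -, -⟩ := max_facts ha hx hT hmax hgt
  obtain ⟨hD, hval⟩ := value3 hRa hRb hab hda hdb hs hx hq.le hpos
  have hc := c0_lo
  have hc' := c0_hi
  have hD0 : 0 ≤ sq2 x - 1 / 27 := by
    have h := dev_sq hx
    have h2 : (0:ℝ) ≤ ∑ v, (x v - 1 / (9 * ((3:ℕ) : ℝ))) ^ 2 :=
      Finset.sum_nonneg fun v _ => sq_nonneg _
    rw [h] at h2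
    have h3 : (1:ℝ) / (9 * ((3:ℕ) : ℝ)) = 1 / 27 := by norm_num
    rw [h3] at h2
    exact h2
  have hu : sq2 (unif 3) = 1 / 27 := by
    rw [sq2_unif]
    norm_num
  have hcmp : ((1 + c0 - sq2 x) / (1 + c0 - 1 / 27)) ^ 3 *
      PsiU 3 (Ra ∪ Rb).card (∑ v, s v) ≤ Th (EM 3 \ (Ra ∪ Rb)) s x - tau (sq2 x) := by
    by_contra hcon
    push Not at hcon
    have h := compare_lt (E := EM 3 \ (Ra ∪ Rb)) (E' := EM 3 \ (Ra ∪ Rb)) (s := s) (s' := s)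
      (x := x) (x' := unif 3) ha ha0 unif_mem (by rw [hu]; linarith) (by linarith)
      (by
        rw [hu]
        have h2 := Th_unif hM hR s
        rw [hu] at h2
        rw [h2]
        exact hcon)
    rw [hmax] at h
    exact lt_irrefl _ h
  set P := PsiU 3 (Ra ∪ Rb).card (∑ v, s v) with hPdef
  set D := sq2 x - 1 / 27 with hDdef
  have hA : 1 + c0 - sq2 x = (1 + c0 - 1 / 27) - D := by rw [hDdef]; ring
  have hA0 : 0 < 1 + c0 - 1 / 27 := by linarith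
  have hr : (1 + c0 - sq2 x) / (1 + c0 - 1 / 27) = 1 - D / (1 + c0 - 1 / 27) := by
    rw [hA, sub_div, div_self hA0.ne']
  set t := D / (1 + c0 - 1 / 27) with ht
  have ht0 : 0 ≤ t := by positivity
  have ht1 : 3 * t ≤ 2.14 * D := by
    rw [ht, ← mul_div_assoc, div_le_iff₀ hA0]
    nlinarith
  have ht2 : t ≤ 1 := by nlinarith
  have hcube : 1 - 2.14 * D ≤ (1 - t) ^ 3 := by nlinarith [mul_nonneg (mul_nonneg ht0 ht0) (by linarith : (0:ℝ) ≤ 3 - t)]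
  rw [hr] at hcmp
  have h5 : (1 - 2.14 * D) * P ≤ (1 - t) ^ 3 * P := mul_le_mul_of_nonneg_right hcube hP
  linarith

end W880b64
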