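import Pool.Agent.W_880b64_h21.Value2
import Pool.Agent.W_880b64_h21.MaxF
import Pool.Agent.W_880b64_h21.LocAbs

/-!
# Localisation of maximisers, `M = 2` (task H13)
-/

namespace W880b64

open Finset BigOperators

theorem Loc2_cast : (1 : ℝ) / (9 * ((2 : ℕ) : ℝ)) = 1 / 18 := by norm_num

theorem Loc2_dev {x : VV 2 → ℝ} (hx : x ∈ stdSimplex ℝ (VV 2)) :
    ∑ v, (x v - 1 / 18) ^ 2 = sq2 x - 1 / 18 := by
  have h := dev_sq hx
  rw [Loc2_cast] at h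
  exact h

theorem Loc2_ratio {q P : ℝ} (hq1 : 1 / 18 ≤ q) (hq2 : q - 1 / 18 ≤ 0.0129) (hP : 0 ≤ P) :
    (1 - 2.14 * (q - 1 / 18)) * P ≤ ((1 + c0 - q) / (1 + c0 - 1 / 18)) ^ 3 * P := by
  apply mul_le_mul_of_nonneg_right _ hP
  have hc := c0_lo
  obtain ⟨K, hK⟩ : ∃ K : ℝ, K = 1 + c0 - 1 / 18 := ⟨_, rfl⟩
  have hK1 : 1.4085 ≤ K := by rw [hK]; linarith
  have hK0 : 0 < K := by linarith
  obtain ⟨u, hu⟩ : ∃ u : ℝ, u = (q - 1 / 18) / K := ⟨_, rfl⟩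
  have hu0 : 0 ≤ u := by
    rw [hu]
    exact div_nonneg (by linarith) hK0.le
  have hu1 : u ≤ 1 := by
    rw [hu, div_le_one hK0]
    linarith
  have e1 : (1 + c0 - q) / (1 + c0 - 1 / 18) = 1 - u := by
    rw [← hK, hu]
    have : 1 + c0 - q = K - (q - 1 / 18) := by rw [hK]; ring
    rw [this, sub_div, div_self hK0.ne']
  rw [e1]
  have h3 : 3 * u ≤ 2.14 * (q - 1 / 18) := by
    have e2 : q - 1 / 18 = u * K := by
      rw [hu, div_mul_cancel₀ _ hK0.ne']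
    rw [e2]
    nlinarith
  have h4 : 1 - 3 * u ≤ (1 - u) ^ 3 := by
    have h5 : 0 ≤ u ^ 2 * (3 - u) := mul_nonneg (sq_nonneg u) (by linarith)
    nlinarith
  linarith

/-- Proof: as `key3` (`3/(1+c0-1/18) ≤ 2.14`). -/
theorem key2 {R : Finset (Finset (VV 2))} (hR : R ⊆ EM 2)
    (hd : (R : Set (Finset (VV 2))).PairwiseDisjoint id) {s : VV 2 → ℝ}
    (hs : ∀ v, 0 ≤ s v ∧ s v ≤ 11 / 25) {a : ℝ} (ha : a ∈ Set.Icc (0:ℝ) 1) {x : VV 2 → ℝ}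
    (hx : x ∈ stdSimplex ℝ (VV 2)) (hmax : fv (EM 2 \ R) s a x = VC (EM 2 \ R) s)
    (hgt : c0 < VC (EM 2 \ R) s) (hP : 0 ≤ PsiU 2 R.card (∑ v, s v)) :
    (1.2933 - 2.14 * PsiU 2 R.card (∑ v, s v) - 1.779 * Real.sqrt (sq2 x - 1 / 18))
      * (sq2 x - 1 / 18) ≤
      ∑ v, (-(6 / 324) * rv R v + 3 / 324 * s v) * (x v - 1 / 18) := by
  have hT : Th (EM 2 \ R) s x ≤ c0 := Th_le_c0 (le_refl 2) Finset.sdiff_subset hs hx
  obtain ⟨ha0, -, hq, hpos, -, -⟩ := max_facts ha hx hT hmax hgt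
  obtain ⟨hD, hval⟩ := value2 hR hd hs hx hq.le hpos
  have hdev := Loc2_dev hx
  have hD0 : 0 ≤ sq2 x - 1 / 18 := by
    rw [← hdev]
    exact Finset.sum_nonneg fun _ _ => sq_nonneg _
  have hsu : sq2 (unif 2) = 1 / 18 := by rw [sq2_unif, Loc2_cast]
  have hTu := Th_unif (le_refl 2) hR s
  have hc1 := c0_lo
  have hge : ((1 + c0 - sq2 x) / (1 + c0 - 1 / 18)) ^ 3 * PsiU 2 R.card (∑ v, s v) ≤
      Th (EM 2 \ R) s x - tau (sq2 x) := by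
    by_contra hcon
    push Not at hcon
    have h := compare_lt (E := EM 2 \ R) (E' := EM 2 \ R) (s := s) (s' := s) (x := x) (x' := unif 2) ha ha0 unif_mem
      (by rw [hsu]; linarith) (by linarith) (by rw [hTu, hsu]; exact hcon)
    exact absurd hmax h.ne
  have hr := Loc2_ratio (q := sq2 x) (by linarith) hD hP
  obtain ⟨Q, hQ⟩ : ∃ Q : ℝ, Q = PsiU 2 R.card (∑ v, s v) := ⟨_, rfl⟩
  obtain ⟨S, hS⟩ : ∃ S : ℝ, S = ∑ v, (-(6 / 324) * rv R v + 3 / 324 * s v) * (x v - 1 / 18) :=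
    ⟨_, rfl⟩
  rw [← hQ] at hge hr hval ⊢
  rw [← hS] at hval ⊢
  have e : (1.2933 - 2.14 * Q - 1.779 * Real.sqrt (sq2 x - 1 / 18)) * (sq2 x - 1 / 18) =
      (1 - 2.14 * (sq2 x - 1 / 18)) * Q - Q +
        (1.2933 - 1.779 * Real.sqrt (sq2 x - 1 / 18)) * (sq2 x - 1 / 18) := by ring
  rw [e]
  linarith

theorem Loc2_card : (Fintype.card (VV 2) : ℝ) = 18 := by
  rw [EMc_card]
  norm_num

/-- numerical facts about `lam = (6/324 + 2/9 * (3/324)) √18/2` -/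
theorem Loc2_lam : (6 / 324 + 2 / 9 * (3 / 324)) * Real.sqrt 18 / 2 ≤ (0.0436487 : ℝ) := by
  have h : Real.sqrt 18 ≤ 4.242641 := by
    rw [Real.sqrt_le_left (by norm_num)]
    norm_num
  linarith

/-- the linear form with the means removed -/
theorem Loc2_lin {R : Finset (Finset (VV 2))} {s x : VV 2 → ℝ} (hx : x ∈ stdSimplex ℝ (VV 2))
    (m1 m2 : ℝ) :
    ∑ v, (-(6 / 324) * rv R v + 3 / 324 * s v) * (x v - 1 / 18) =
      ∑ v, (-(6 / 324) * (rv R v - m1) + 3 / 324 * (s v - m2)) * (x v - 1 / 18) := by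
  have h0 : ∑ v : VV 2, (x v - 1 / 18) = 0 := by
    rw [Finset.sum_sub_distrib, hx.2, Finset.sum_const, Finset.card_univ, nsmul_eq_mul, Loc2_card]
    norm_num
  have h1 : ∀ v : VV 2, (-(6 / 324) * (rv R v - m1) + 3 / 324 * (s v - m2)) * (x v - 1 / 18) =
      (-(6 / 324) * rv R v + 3 / 324 * s v) * (x v - 1 / 18) +
        (6 / 324 * m1 - 3 / 324 * m2) * (x v - 1 / 18) := fun v => by ring
  rw [Finset.sum_congr rfl fun v _ => h1 v, Finset.sum_add_distrib, ← Finset.mul_sum, h0, mul_zero,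
    add_zero]

theorem Loc2_cube {a : ℝ} (h0 : 0 ≤ a) (h : a ≤ 0.66483) : a ^ 3 ≤ 7.85 * (1 - a) ^ 3 := by
  have h1 : a ^ 3 ≤ (0.66483 : ℝ) ^ 3 := pow_le_pow_left₀ h0 h 3
  have h2 : (0.33517 : ℝ) ^ 3 ≤ (1 - a) ^ 3 := pow_le_pow_left₀ (by norm_num) (by linarith) 3
  have h3 : (0.66483 : ℝ) ^ 3 ≤ 7.85 * (0.33517 : ℝ) ^ 3 := by norm_num
  linarith

theorem Loc2_a {a q T : ℝ} (ha0 : 0 < a) (hq1 : q ≤ 0.0568516)
    (hT : T ≤ 0.008402)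
    (h : a ≤ 2 * c0 / (1 + c0 - q) + 4 * c0 * a * T / (1 + c0 - q) ^ 2) : a ≤ 0.66483 := by
  have hc1 := c0_lo
  have hc2 := c0_hi
  have hA : 1.40725 ≤ 1 + c0 - q := by linarith
  obtain ⟨A, hAd⟩ : ∃ A : ℝ, A = 1 + c0 - q := ⟨_, rfl⟩
  rw [← hAd] at h hA
  have hA0 : 0 < A := by linarith
  have h1 : 2 * c0 / A ≤ 0.659592 := by
    rw [div_le_iff₀ hA0]
    linarith
  have h2 : 4 * c0 * a * T / A ^ 2 ≤ 0.007877 * a := by
    rw [div_le_iff₀ (by positivity)]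
    have h3 : (1.40725 : ℝ) ^ 2 ≤ A ^ 2 := pow_le_pow_left₀ (by norm_num) hA 2
    have h4 : 4 * c0 * a * T ≤ 4 * c0 * a * 0.008402 :=
      mul_le_mul_of_nonneg_left hT (by positivity)
    have h5 : 4 * c0 * a * 0.008402 ≤ 4 * 0.4641018 * a * 0.008402 := by
      have : c0 * a ≤ 0.4641018 * a := mul_le_mul_of_nonneg_right hc2.le ha0.le
      linarith
    have h6 : 0.007877 * a * (1.40725 : ℝ) ^ 2 ≤ 0.007877 * a * A ^ 2 :=
      mul_le_mul_of_nonneg_left h3 (by positivity)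
    have h7 : 4 * 0.4641018 * a * 0.008402 ≤ 0.007877 * a * (1.40725 : ℝ) ^ 2 := by
      nlinarith
    linarith
  linarith

/-- **Localisation for `M = 2`.**

Proof.  As `loc3a`: `lam = (6/324 + (2/9)(3/324)) √18/2 = 0.0436486`, `l v ≤ 0.0205762`,
`α = 1.2933 - 2.14·0.00683 = 1.27868`, `β = 1.779`, `r0 = 0.1136`, `r1 = 0.036`:
`(α-βr1) r1 = 0.043726 ≥ lam`, `(α-βr0) r0 = 0.1223 > lam`,
`x v ≤ 1/18 + (0.0205762+0.0436486)/(2·1.214636) ≤ 0.0823`.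
`Th - tau ≤ 0.00683 + 0.0436486·0.036 ≤ 0.008402`, `sq2 x ≤ 1/18 + 0.036²`:
`a ≤ 0.659592 + 0.007877 a`, `a ≤ 0.66483`, `(a/(1-a))³ ≤ 7.81`. -/
theorem loc2 {R : Finset (Finset (VV 2))} (hR : R ⊆ EM 2)
    (hd : (R : Set (Finset (VV 2))).PairwiseDisjoint id) {s : VV 2 → ℝ}
    (hs : ∀ v, 0 ≤ s v ∧ s v ≤ 11 / 25) {a : ℝ} (ha : a ∈ Set.Icc (0:ℝ) 1) {x : VV 2 → ℝ}
    (hx : x ∈ stdSimplex ℝ (VV 2)) (hmax : fv (EM 2 \ R) s a x = VC (EM 2 \ R) s)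
    (hgt : c0 < VC (EM 2 \ R) s) (hP : 0 ≤ PsiU 2 R.card (∑ v, s v))
    (hP' : PsiU 2 R.card (∑ v, s v) ≤ 0.00683)
    {k β d : ℝ} (hf : ∀ v, rv R v = k ∨ rv R v = k + 1)
    (hg : ∀ v, s v = β ∨ s v = β + d) (hd0 : 0 ≤ d) (hd' : d ≤ 2 / 9) :
    (∀ v, x v ≤ 0.0823) ∧ a ^ 3 ≤ 7.85 * (1 - a) ^ 3 := by
  have hT : Th (EM 2 \ R) s x ≤ c0 := Th_le_c0 (le_refl 2) Finset.sdiff_subset hs hx
  obtain ⟨ha0, -, hq, hpos, hau, -⟩ := max_facts ha hx hT hmax hgt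
  obtain ⟨hD, hval⟩ := value2 hR hd hs hx hq.le hpos
  have hkey := key2 hR hd hs ha hx hmax hgt hP
  have hdev := Loc2_dev hx
  have hD0 : 0 ≤ sq2 x - 1 / 18 := by
    rw [← hdev]
    exact Finset.sum_nonneg fun _ _ => sq_nonneg _
  have hcard : 0 < Fintype.card (VV 2) := Fintype.card_pos
  obtain ⟨hl1, hl2⟩ := norm_l (V := VV 2) (f := fun v => rv R v) (g := s) (k := k) (β := β)
    (d := d) (A := 6 / 324) (B := 3 / 324) hcard hf hg hd0 hd' (by norm_num) (by norm_num)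
  rw [Loc2_card] at hl1
  have hlam0 : (0 : ℝ) ≤ (6 / 324 + 2 / 9 * (3 / 324)) * Real.sqrt 18 / 2 := by positivity
  have hlam := Loc2_lam
  rw [Loc2_lin hx ((∑ u, rv R u) / Fintype.card (VV 2)) ((∑ u, s u) / Fintype.card (VV 2))]
    at hkey hval
  obtain ⟨lam, hlamd⟩ : ∃ lam : ℝ, lam = (6 / 324 + 2 / 9 * (3 / 324)) * Real.sqrt 18 / 2 :=
    ⟨_, rfl⟩
  rw [← hlamd] at hl1 hlam0 hlam
  obtain ⟨l, hld⟩ : ∃ l : VV 2 → ℝ, l = fun v =>
      -(6 / 324) * (rv R v - (∑ u, rv R u) / Fintype.card (VV 2)) +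
        3 / 324 * (s v - (∑ u, s u) / Fintype.card (VV 2)) := ⟨_, rfl⟩
  have hl1' : ∑ v, l v ^ 2 ≤ lam ^ 2 := by
    rw [hld]
    rw [Loc2_card]
    exact hl1
  have hl2' : ∀ v, l v ≤ 0.020577 := by
    intro v
    have h := hl2 v
    rw [hld]
    refine h.trans ?_
    norm_num
  have hkey' : (1.2933 - 2.14 * PsiU 2 R.card (∑ v, s v) - 1.779 * Real.sqrt (sq2 x - 1 / 18))
      * (sq2 x - 1 / 18) ≤ ∑ v, l v * (x v - 1 / 18) := by
    rw [hld]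
    exact hkey
  have hval' : Th (EM 2 \ R) s x - tau (sq2 x) ≤ PsiU 2 R.card (∑ v, s v)
      + ∑ v, l v * (x v - 1 / 18)
      - (1.2933 - 1.779 * Real.sqrt (sq2 x - 1 / 18)) * (sq2 x - 1 / 18) := by
    rw [hld]
    exact hval
  have hk2 : (1.2786838 - 1.779 * Real.sqrt (∑ v, (x v - 1 / 18) ^ 2)) *
      ∑ v, (x v - 1 / 18) ^ 2 ≤ ∑ v, l v * (x v - 1 / 18) := by
    rw [hdev]
    refine le_trans ?_ hkey'
    apply mul_le_mul_of_nonneg_right _ hD0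
    linarith
  have hr0 : Real.sqrt (∑ v, (x v - 1 / 18) ^ 2) ≤ 0.1136 := by
    rw [hdev, Real.sqrt_le_left (by norm_num)]
    norm_num
    norm_num at hD
    linarith
  obtain ⟨hr1, hδ⟩ := loc_abs (δ := fun v => x v - 1 / 18) (l := l) (lam := lam)
    (α := 1.2786838) (β := 1.779) (r0 := 0.1136) (r1 := 0.036) hk2 hl1' hlam0 (by norm_num) hr0
    (by refine lt_of_le_of_lt hlam ?_; norm_num) (by refine hlam.trans ?_; norm_num)
    (by norm_num) (by norm_num) (by norm_num)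
  have hlin := lin_le (δ := fun v => x v - 1 / 18) hl1' hlam0
  constructor
  · intro v
    have h1 := hδ v
    have h2 := hl2' v
    have h3 : (l v + lam) / (2 * (1.2786838 - 1.779 * 0.036)) ≤ (0.02644 : ℝ) := by
      rw [div_le_iff₀ (by norm_num)]
      norm_num
      norm_num at h2 hlam
      linarith
    have h4 : x v - 1 / 18 ≤ 0.02644 := h1.trans h3
    linarith
  · have hr1' : Real.sqrt (sq2 x - 1 / 18) ≤ 0.036 := by
      rw [← hdev]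
      exact hr1
    have hq1 : sq2 x ≤ 0.0568516 := by
      rw [Real.sqrt_le_left (by norm_num)] at hr1'
      norm_num at hr1' ⊢
      linarith
    have h5 : lam * Real.sqrt (∑ v, (x v - 1 / 18) ^ 2) ≤ 0.00157136 := by
      calc lam * Real.sqrt (∑ v, (x v - 1 / 18) ^ 2) ≤ 0.0436487 * 0.036 :=
            mul_le_mul hlam hr1 (Real.sqrt_nonneg _) (by norm_num)
        _ ≤ 0.00157136 := by norm_num
    have h6 : 0 ≤ (1.2933 - 1.779 * Real.sqrt (sq2 x - 1 / 18)) * (sq2 x - 1 / 18) := by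
      apply mul_nonneg _ hD0
      linarith
    have hT2 : Th (EM 2 \ R) s x - tau (sq2 x) ≤ 0.008402 := by linarith
    exact Loc2_cube ha0.le (Loc2_a ha0 hq1 hT2 hau)

end W880b64
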