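import Pool.Agent.W_880b64_h21.Key3
import Pool.Agent.W_880b64_h21.LocAbs

/-!
# Localisation of maximisers, `M = 3`, general (task H11)
-/

namespace W880b64

open Finset BigOperators

private theorem Loc3a_card : (Fintype.card (VV 3) : ℝ) = 27 := by
  have h : Fintype.card (VV 3) = 27 := by
    simp only [VV, P9, Fintype.card_prod, ZMod.card]
  rw [h]
  norm_num

private theorem Loc3a_bound {c a q Ψ : ℝ} (hc1 : 0.4641016 < c) (hc2 : c < 0.4641018)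
    (ha0 : 0 < a) (ha1 : a < 1) (hq : q ≤ 1 / 27 + 0.0198 ^ 2) (hΨ : Ψ ≤ 0.004991)
    (h : a ≤ 2 * c / (1 + c - q) + 4 * c * a * Ψ / (1 + c - q) ^ 2) :
    a ^ 3 ≤ 6.75 * (1 - a) ^ 3 := by
  have hB : (1.42667 : ℝ) ≤ 1 + c - q := by norm_num at hq ⊢; linarith
  have hB0 : (0 : ℝ) < 1 + c - q := by linarith
  have h1 : 2 * c / (1 + c - q) ≤ 0.65062 := by
    rw [div_le_iff₀ hB0]
    nlinarith
  have h2 : 4 * c * a * Ψ / (1 + c - q) ^ 2 ≤ 0.00456 * a := by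
    rw [div_le_iff₀ (by positivity)]
    have h3 : (1.42667 : ℝ) ^ 2 ≤ (1 + c - q) ^ 2 := pow_le_pow_left₀ (by norm_num) hB 2
    have h4 : 4 * c * Ψ ≤ 0.00456 * 1.42667 ^ 2 := by
      have h5 : 4 * c * Ψ ≤ 4 * c * 0.004991 := mul_le_mul_of_nonneg_left hΨ (by linarith)
      norm_num at h5 ⊢
      linarith
    calc 4 * c * a * Ψ = a * (4 * c * Ψ) := by ring
      _ ≤ a * (0.00456 * (1 + c - q) ^ 2) :=
          mul_le_mul_of_nonneg_left (h4.trans (by linarith)) ha0.le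
      _ = 0.00456 * a * (1 + c - q) ^ 2 := by ring
  have h5 : a ≤ 0.6537 := by linarith
  have h6 : a ^ 3 ≤ 0.6537 ^ 3 := pow_le_pow_left₀ ha0.le h5 3
  have h7 : (0.3463 : ℝ) ^ 3 ≤ (1 - a) ^ 3 := pow_le_pow_left₀ (by norm_num) (by linarith) 3
  calc a ^ 3 ≤ 0.6537 ^ 3 := h6
    _ ≤ 6.75 * 0.3463 ^ 3 := by norm_num
    _ ≤ 6.75 * (1 - a) ^ 3 := by linarith

/-- **Localisation for `M = 3`, general.**

Proof.  `key3`; `l = -(6/729)(f - mean f) + (3/729)(s - mean s)`, `f = rv Ra + rv Rb`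
(the means drop out since `∑ δ = 0`); `norm_l`: `lam = (6/729 + (2/9)(3/729)) √27/2
= 0.0237593..`, `l v ≤ 0.009145`.  `loc_abs` with `α = 1.3365 - 2.14·0.00452 = 1.32682`,
`β = 6.205`, `r0 = 0.11684` (`√0.01365`), `r1 = 0.0198`:
`(α - β r1) r1 = 0.02383 ≥ lam`, `(α - β r0) r0 = 0.0703 > lam`;
`x v ≤ 1/27 + (0.009145 + 0.02376)/(2·1.20396) ≤ 0.0508`.
By `value3`, `lin_le`: `Th - tau ≤ P + lam r1 ≤ 0.00452 + 0.000471 = 0.004991`;
`max_facts`, `sq2 x ≤ 1/27 + 0.0198²`: `a ≤ 0.650608 + 0.004552 a`, so `a ≤ 0.65359`,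
`(a/(1-a))³ ≤ 6.72`. -/
theorem loc3a {Ra Rb : Finset (Finset (VV 3))} (hRa : Ra ⊆ EM 3) (hRb : Rb ⊆ EM 3)
    (hab : Disjoint Ra Rb) (hda : (Ra : Set (Finset (VV 3))).PairwiseDisjoint id)
    (hdb : (Rb : Set (Finset (VV 3))).PairwiseDisjoint id) {s : VV 3 → ℝ}
    (hs : ∀ v, 0 ≤ s v ∧ s v ≤ 11 / 25) {a : ℝ} (ha : a ∈ Set.Icc (0:ℝ) 1) {x : VV 3 → ℝ}
    (hx : x ∈ stdSimplex ℝ (VV 3))
    (hmax : fv (EM 3 \ (Ra ∪ Rb)) s a x = VC (EM 3 \ (Ra ∪ Rb)) s)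
    (hgt : c0 < VC (EM 3 \ (Ra ∪ Rb)) s) (hP : 0 ≤ PsiU 3 (Ra ∪ Rb).card (∑ v, s v))
    (hP' : PsiU 3 (Ra ∪ Rb).card (∑ v, s v) ≤ 0.00452)
    {k β d : ℝ} (hf : ∀ v, rv Ra v + rv Rb v = k ∨ rv Ra v + rv Rb v = k + 1)
    (hg : ∀ v, s v = β ∨ s v = β + d) (hd0 : 0 ≤ d) (hd : d ≤ 2 / 9) :
    (∀ v, x v ≤ 0.0508) ∧ a ^ 3 ≤ 6.75 * (1 - a) ^ 3 := by
  have hT : Th (EM 3 \ (Ra ∪ Rb)) s x ≤ c0 := Th_le_c0 (by norm_num) Finset.sdiff_subset hs hx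
  obtain ⟨ha0, ha1, hq, hpos, hbd, -⟩ := max_facts ha hx hT hmax hgt
  obtain ⟨hD, hval⟩ := value3 hRa hRb hab hda hdb hs hx hq.le hpos
  have hkey := key3 hRa hRb hab hda hdb hs ha hx hmax hgt hP
  set P := PsiU 3 (Ra ∪ Rb).card (∑ v, s v) with hPdef
  have hcard := Loc3a_card
  have hcard0 : 0 < Fintype.card (VV 3) := Fintype.card_pos
  -- the deviation
  have hdev : ∑ v, (x v - 1 / 27) ^ 2 = sq2 x - 1 / 27 := by
    have h1 := dev_sq (M := 3) hx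
    norm_num at h1 ⊢
    exact h1
  have hsum : ∑ v, (x v - 1 / 27) = 0 := by
    rw [Finset.sum_sub_distrib, hx.2, Finset.sum_const, Finset.card_univ, nsmul_eq_mul, hcard]
    norm_num
  have hD0 : 0 ≤ sq2 x - 1 / 27 := by
    rw [← hdev]
    exact Finset.sum_nonneg fun v _ => sq_nonneg _
  obtain ⟨hn1, hn2⟩ := norm_l (f := fun v => rv Ra v + rv Rb v) (g := s) (A := 6 / 729)
    (B := 3 / 729) hcard0 hf hg hd0 hd (by norm_num) (by norm_num)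
  set l : VV 3 → ℝ := fun v => -(6 / 729) *
    ((rv Ra v + rv Rb v) - (∑ u, (rv Ra u + rv Rb u)) / Fintype.card (VV 3)) +
      3 / 729 * (s v - (∑ u, s u) / Fintype.card (VV 3)) with hl
  have hlsum : ∑ v, l v * (x v - 1 / 27) =
      ∑ v, (-(6 / 729) * (rv Ra v + rv Rb v) + 3 / 729 * s v) * (x v - 1 / 27) := by
    have h1 : ∀ v, l v * (x v - 1 / 27) =
        (-(6 / 729) * (rv Ra v + rv Rb v) + 3 / 729 * s v) * (x v - 1 / 27) +
          (6 / 729 * ((∑ u, (rv Ra u + rv Rb u)) / Fintype.card (VV 3)) -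
            3 / 729 * ((∑ u, s u) / Fintype.card (VV 3))) * (x v - 1 / 27) := by
      intro v
      simp only [hl]
      ring
    simp only [h1]
    rw [Finset.sum_add_distrib, ← Finset.mul_sum, hsum, mul_zero, add_zero]
  have hl2 : ∑ v, l v ^ 2 ≤ (0.02376 : ℝ) ^ 2 := by
    refine hn1.trans ?_
    rw [hcard]
    have h1 : ((6 / 729 + 2 / 9 * (3 / 729)) * Real.sqrt 27 / 2) ^ 2 =
        ((6 / 729 + 2 / 9 * (3 / 729)) / 2) ^ 2 * (Real.sqrt 27) ^ 2 := by ring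
    rw [h1, Real.sq_sqrt (by norm_num)]
    norm_num
  have hlv : ∀ v, l v ≤ 0.009145 := by
    intro v
    refine (hn2 v).trans ?_
    norm_num
  have hkey' : ((1.3365 - 2.14 * 0.00452) - 6.205 * Real.sqrt (∑ v, (x v - 1 / 27) ^ 2)) *
      ∑ v, (x v - 1 / 27) ^ 2 ≤ ∑ v, l v * (x v - 1 / 27) := by
    rw [hdev, hlsum]
    refine le_trans ?_ hkey
    refine mul_le_mul_of_nonneg_right ?_ hD0
    linarith
  have hr0 : Real.sqrt (∑ v, (x v - 1 / 27) ^ 2) ≤ 0.11684 := by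
    rw [hdev]
    refine Real.sqrt_le_iff.2 ⟨by norm_num, hD.trans ?_⟩
    norm_num
  obtain ⟨hr, hδ⟩ := loc_abs (δ := fun v => x v - 1 / 27) (l := l) (lam := 0.02376)
    (α := 1.3365 - 2.14 * 0.00452) (β := 6.205) (r0 := 0.11684) (r1 := 0.0198) hkey' hl2
    (by norm_num) (by norm_num) hr0 (by norm_num) (by norm_num) (by norm_num) (by norm_num)
    (by norm_num)
  refine ⟨fun v => ?_, ?_⟩
  · have h1 := hδ v
    beta_reduce at h1
    have h2 : (l v + 0.02376) / (2 * ((1.3365 : ℝ) - 2.14 * 0.00452 - 6.205 * 0.0198)) ≤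
        0.0137 := by
      rw [div_le_iff₀ (by norm_num)]
      have := hlv v
      norm_num at this ⊢
      linarith
    have h3 := h1.trans h2
    norm_num at h3 ⊢
    linarith
  · have hr' : Real.sqrt (sq2 x - 1 / 27) ≤ 0.0198 := by
      rw [← hdev]
      exact hr
    have hq' : sq2 x ≤ 1 / 27 + 0.0198 ^ 2 := by
      have h1 := (Real.sqrt_le_iff.1 hr').2
      linarith
    have hlin := lin_le (δ := fun v => x v - 1 / 27) (l := l) (lam := 0.02376) hl2 (by norm_num)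
    beta_reduce at hlin
    rw [hdev, hlsum] at hlin
    have h1 : 0 ≤ (1.3365 - 6.205 * Real.sqrt (sq2 x - 1 / 27)) * (sq2 x - 1 / 27) := by
      refine mul_nonneg ?_ hD0
      norm_num at hr' ⊢
      linarith
    have h2 : (0.02376 : ℝ) * Real.sqrt (sq2 x - 1 / 27) ≤ 0.02376 * 0.0198 :=
      mul_le_mul_of_nonneg_left hr' (by norm_num)
    have hΨ : Th (EM 3 \ (Ra ∪ Rb)) s x - tau (sq2 x) ≤ 0.004991 := by
      norm_num at h2 hlin hP' hval h1 ⊢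
      linarith
    exact Loc3a_bound c0_lo c0_hi ha0 ha1 hq' hΨ hbd

end W880b64
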