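import Pool.Agent.W_880b64_h21.PatOp

/-!
# The patch (task A9)
-/

namespace W880b64

open Finset BigOperators
open W_MP_880b64_co (TG Lam)

/-- codes of the edges of the pattern (vertex `i` has the code `2^i`) -/
def Patch_L : List ℕ := [7, 11, 13, 14, 21, 37, 69, 25, 41, 73, 22, 38, 70, 26, 42, 74, 49, 81, 97,
  50, 82, 98, 52, 84, 56, 88]

/-- the edges of the pattern -/
def Patch_r (a b c : Fin 7) : Prop := 2 ^ a.val + 2 ^ b.val + 2 ^ c.val ∈ Patch_L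

instance Patch_dec (a b c : Fin 7) : Decidable (Patch_r a b c) := by
  unfold Patch_r
  infer_instance

lemma Patch_ne : ∀ a b c : Fin 7, Patch_r a b c → a ≠ b := by
  decide +kernel

/-- the pattern -/
def Patch_K : TG (Fin 7) where
  r := Patch_r
  s12 := by
    intro a b c h
    unfold Patch_r at h ⊢
    rwa [add_comm (2 ^ b.val)]
  s23 := by
    intro a b c h
    unfold Patch_r at h ⊢
    rwa [add_right_comm]
  ne := Patch_ne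

/-- the classes of the pattern -/
def Patch_cls : Fin 7 → Fin 5 := ![0, 0, 1, 1, 2, 3, 4]

lemma Patch_cls_ne : ∀ a b c : Fin 7, Patch_r a b c →
    ¬ (Patch_cls a = Patch_cls b ∧ Patch_cls b = Patch_cls c) := by
  decide +kernel

lemma Patch_T (y : Fin 7 → ℝ) : Patch_K.T y =
    6 * (y 0 * y 1 * (y 2 + y 3) + y 2 * y 3 * (y 0 + y 1) +
      (y 0 + y 1) * (y 2 + y 3) * (y 4 + y 5 + y 6) +
      (y 0 + y 1) * (y 4 * y 5 + y 4 * y 6 + y 5 * y 6) +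
      (y 2 + y 3) * y 4 * (y 5 + y 6)) := by
  have h1 : Patch_K.T y = ∑ a, ∑ b, ∑ c, if Patch_r a b c then y a * y b * y c else 0 := by
    unfold TG.T
    refine Finset.sum_congr rfl fun a _ => Finset.sum_congr rfl fun b _ =>
      Finset.sum_congr rfl fun c _ => ?_
    by_cases h : Patch_r a b c
    · rw [if_pos h, if_pos (show Patch_K.r a b c from h)]
    · rw [if_neg h, if_neg (show ¬ Patch_K.r a b c from h)]
  rw [h1]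
  simp [Fin.sum_univ_seven, Patch_r, Patch_L]
  ring

/-- the final inequality -/
lemma Patch_real {t X1 X2 Y1 Y2 Z1 Z2 Z3 : ℝ} (ht : t ≤ 0.4641018) (hX1 : 0 ≤ X1) (hX2 : 0 ≤ X2)
    (hY1 : 0 ≤ Y1) (hY2 : 0 ≤ Y2) (hZ1 : 0 ≤ Z1) (hZ2 : 0 ≤ Z2) (hZ3 : 0 ≤ Z3) :
    6 * (X1 * X2 * (Y1 + Y2) + Y1 * Y2 * (X1 + X2) + (X1 + X2) * (Y1 + Y2) * (Z1 + Z2 + Z3) +
      (X1 + X2) * (Z1 * Z2 + Z1 * Z3 + Z2 * Z3) + (Y1 + Y2) * Z1 * (Z2 + Z3)) +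
      t * ((X1 + X2) ^ 3 + (Y1 + Y2) ^ 3) ≤
      1 / 2 * (X1 + X2 + Y1 + Y2 + Z1 + Z2 + Z3) ^ 3 := by
  obtain ⟨x, hx⟩ : ∃ x, x = X1 + X2 := ⟨_, rfl⟩
  obtain ⟨y, hy⟩ : ∃ y, y = Y1 + Y2 := ⟨_, rfl⟩
  obtain ⟨z, hz⟩ : ∃ z, z = Z1 + Z2 + Z3 := ⟨_, rfl⟩
  obtain ⟨r, hr⟩ : ∃ r, r = (Z2 + Z3) / 2 := ⟨_, rfl⟩
  have hx0 : 0 ≤ x := by rw [hx]; positivity
  have hy0 : 0 ≤ y := by rw [hy]; positivity
  have hz0 : 0 ≤ z := by rw [hz]; positivity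
  have hXX : X1 * X2 ≤ x ^ 2 / 4 := by rw [hx]; nlinarith [sq_nonneg (X1 - X2)]
  have hYY : Y1 * Y2 ≤ y ^ 2 / 4 := by rw [hy]; nlinarith [sq_nonneg (Y1 - Y2)]
  have hZZ : Z2 * Z3 ≤ r ^ 2 := by rw [hr]; nlinarith [sq_nonneg (Z2 - Z3)]
  have hZr : Z1 * Z2 + Z1 * Z3 = 2 * (z - 2 * r) * r := by rw [hz, hr]; ring
  have hZr' : Z1 * (Z2 + Z3) = 2 * (z - 2 * r) * r := by rw [hz, hr]; ring
  have h1 : X1 * X2 * y ≤ x ^ 2 / 4 * y := mul_le_mul_of_nonneg_right hXX hy0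
  have h2 : Y1 * Y2 * x ≤ y ^ 2 / 4 * x := mul_le_mul_of_nonneg_right hYY hx0
  have h3 : x * (Z2 * Z3) ≤ x * r ^ 2 := mul_le_mul_of_nonneg_left hZZ hx0
  have h4 : t * (x ^ 3 + y ^ 3) ≤ 0.4641018 * (x ^ 3 + y ^ 3) :=
    mul_le_mul_of_nonneg_right ht (by positivity)
  have h5 : 6 * (X1 * X2 * (Y1 + Y2) + Y1 * Y2 * (X1 + X2) + (X1 + X2) * (Y1 + Y2) * (Z1 + Z2 + Z3) +
      (X1 + X2) * (Z1 * Z2 + Z1 * Z3 + Z2 * Z3) + (Y1 + Y2) * Z1 * (Z2 + Z3)) +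
      t * ((X1 + X2) ^ 3 + (Y1 + Y2) ^ 3) ≤ 6 * (x ^ 2 / 4 * y + y ^ 2 / 4 * x + x * y * z +
        x * (2 * (z - 2 * r) * r + r ^ 2) + y * (2 * (z - 2 * r) * r)) +
        0.4641018 * (x ^ 3 + y ^ 3) := by
    rw [mul_assoc (Y1 + Y2), hZr, hZr', ← hx, ← hy, ← hz]
    linarith
  have h6 : X1 + X2 + Y1 + Y2 + Z1 + Z2 + Z3 = (x + y) + z := by rw [hx, hy, hz]; ring
  rw [h6]
  refine h5.trans ?_
  clear h5 h6 h4 h3 h2 h1 hZr hZr' hZZ hXX hYY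
  have key : ∀ s : ℝ, 0 ≤ s →
      0 ≤ (1 / 8 - 0.4641018 / 4) * s ^ 3 + (1 / 2 - 2 / 147) * z ^ 3 - 3 / 14 * z ^ 2 * s := by
    intro s hs
    have e1 : 0 ≤ (z - 42 / 143 * s) ^ 2 * (143 / 294 * z + 143 / 588 * (42 / 143) * s) := by
      positivity
    have e2 : 0 ≤ s ^ 3 := by positivity
    nlinarith
  have hk := key (x + y) (by positivity)
  rcases le_total y x with h | h
  · have e1 : 0 ≤ 21 * (2 * y) * (r - 2 / 7 * z) ^ 2 := by positivity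
    have e2 : 0 ≤ 2 * (x - y) * (3 * r - z) ^ 2 :=
      mul_nonneg (by linarith) (sq_nonneg _)
    have e3 : 0 ≤ 3 / 2 * z * ((x - y) - 2 / 21 * z) ^ 2 := by positivity
    have e4 : 0 ≤ (x + y) * (x - y) ^ 2 := by positivity
    nlinarith
  · have e1 : 0 ≤ 21 * (x + y) * (r - 2 / 7 * z) ^ 2 := by positivity
    have e2 : 0 ≤ 3 * (y - x) * r ^ 2 := mul_nonneg (by linarith) (sq_nonneg _)
    have e3 : 0 ≤ 3 / 2 * z * (x - y) ^ 2 := by positivity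
    have e4 : 0 ≤ (x + y) * (x - y) ^ 2 := by positivity
    have e5 : 0 ≤ z ^ 3 := by positivity
    nlinarith

/-- **The patch.**  Pattern on 7 vertices `X1 X2 Y1 Y2 Z1 Z2 Z3`, classes `{X1,X2}` and `{Y1,Y2}`
(variable), `{Z1},{Z2},{Z3}` (filled with `0`).  Edges: `X1 X2 Yj`, `Xi Y1 Y2`, `Xi Yj Zk`,
`Xi Z1 Z2`, `Xi Z1 Z3`, `Xi Z2 Z3`, `Yi Z1 Z2`, `Yi Z1 Z3` (all `i,j ∈ {1,2}`, `k ∈ {1,2,3}`).

With `x = X1+X2`, `y = Y1+Y2`: value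
`t(x³+y³) + 6 X1 X2 y + 6 Y1 Y2 x + 6xy(Z1+Z2+Z3) + 6x(Z1Z2+Z1Z3+Z2Z3) + 6y Z1(Z2+Z3)`.
Lower bound: `X1=X2=39/200, Y1=Y2=37/200, Z1=1/10, Z2=Z3=7/100` gives
`> t` for `t ≤ 0.50242` (the difference is decreasing in `t` and `≥ 0.0004` at `t = 0.50242`).
Upper bound for `t = c0`: `6X1X2 ≤ (3/2)x²`, `6Y1Y2 ≤ (3/2)y²`.  With `s = x+y`, `x = s(1+δ)/2`,
`z = Z1+Z2+Z3`: the last two terms are at most `12 s z²/(7-δ)`: for fixed sum the maximum has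
`Z2 = Z3 = r` (both terms increase when `Z2, Z3` are averaged), `Z1 = z-2r`, and
`6x(2Z1r+r²)+12yZ1r = 12 z s r - 6(4s-x) r² ≤ 6 z² s²/(4s-x)`.
So the value is at most `s³[3/8 + c0/4 - δ²(3/8 - 3c0/4)] + (3/2)s²z(1-δ²) + 12 s z²/(7-δ)`,
and with `s + z = 1`, `z = τ s` it is `≤ 1/2 = (s+z)³/2` because
`(1/8 - c0/4) + (3/8 - 3c0/4)δ² + (3/2)δ²τ + τ³/2 ≥ (3/2)(1+δ)τ²/(7-δ)` for `τ ≥ 0`,
`|δ| ≤ 1` (the minimum of the difference is about `0.0029`, near `τ = 0.29`, `δ = 0.03`). -/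
theorem patch_op : ∃ f : ℝ → ℝ, IsOp f ∧ f c0 ≤ 1 / 2 ∧
    ∀ y : ℝ, y ≤ 0.50242 → y < f y := by
  classical
  have hop := isOp_pat Patch_K Patch_cls Patch_cls_ne (fun i => i = 0 ∨ i = 1) 0 (Or.inl rfl)
    (fun _ => 0) (fun _ _ => W_MP_880b64_co.zero_mem_Lam)
  have hv : ∀ (t : ℝ) (y : Fin 7 → ℝ), patV Patch_K Patch_cls
      (fun i => if i = 0 ∨ i = 1 then t else 0) y = 6 * (y 0 * y 1 * (y 2 + y 3) +
      y 2 * y 3 * (y 0 + y 1) + (y 0 + y 1) * (y 2 + y 3) * (y 4 + y 5 + y 6) +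
      (y 0 + y 1) * (y 4 * y 5 + y 4 * y 6 + y 5 * y 6) +
      (y 2 + y 3) * y 4 * (y 5 + y 6)) + t * ((y 0 + y 1) ^ 3 + (y 2 + y 3) ^ 3) := by
    intro t y
    unfold patV
    rw [Patch_T]
    congr 1
    simp [Fin.sum_univ_five, Fin.sum_univ_seven, Patch_cls]
    ring
  refine ⟨_, hop, ?_, ?_⟩
  · obtain ⟨⟨y, hy, hy'⟩, -⟩ := patPhi_spec Patch_K Patch_cls
      (fun i => if i = 0 ∨ i = 1 then c0 else 0)
    show patPhi Patch_K Patch_cls (fun i => if i = 0 ∨ i = 1 then c0 else 0) ≤ 1 / 2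
    rw [← hy', hv]
    have h1 := Patch_real (t := c0) c0_hi.le (hy.1 0) (hy.1 1) (hy.1 2) (hy.1 3) (hy.1 4) (hy.1 5)
      (hy.1 6)
    have h2 := hy.2
    rw [Fin.sum_univ_seven] at h2
    rw [h2] at h1
    linarith
  · intro t ht
    have h1 := (patPhi_spec Patch_K Patch_cls (fun i => if i = 0 ∨ i = 1 then t else 0)).2
      ![39 / 200, 39 / 200, 37 / 200, 37 / 200, 1 / 10, 7 / 100, 7 / 100] (by
        refine ⟨fun i => ?_, ?_⟩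
        · fin_cases i <;> norm_num
        · rw [Fin.sum_univ_seven]
          show (39 / 200 : ℝ) + 39 / 200 + 37 / 200 + 37 / 200 + 1 / 10 + 7 / 100 + 7 / 100 = 1
          norm_num)
    show t < patPhi Patch_K Patch_cls (fun i => if i = 0 ∨ i = 1 then t else 0)
    refine lt_of_lt_of_le ?_ h1
    rw [hv]
    simp
    nlinarith

end W880b64
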