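import Pool.Agent.W_880b64_h21.ConeA
import Pool.Agent.W_880b64_h21.Patch

/-!
# The macroscopic range `[c0 + 0.00185, 1)` (task A10)
-/

namespace W880b64

open Finset BigOperators
open W_MP_880b64_co (TG Lam)

theorem Macro_aux1 {A y : ℝ} (hA : 0 < A) (hy : 0 < y) (h3 : 3 * y < A) :
    ∃ b ∈ Set.Icc (0:ℝ) 1, y < y * b ^ 3 + A * (1 - b) * b ^ 2 := by
  obtain ⟨ε, hε⟩ : ∃ ε : ℝ, ε = (A - 3 * y) / (2 * A) := ⟨_, rfl⟩
  have h1 : 2 * A * ε = A - 3 * y := by rw [hε]; field_simp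
  have h2 : 0 < ε := by
    rw [hε]
    exact div_pos (by linarith) (by linarith)
  have h4 : ε < 1 := by
    rw [hε, div_lt_one (by linarith)]
    linarith
  refine ⟨1 - ε, ⟨by linarith, by linarith⟩, ?_⟩
  have h5 : y * (1 - ε) ^ 3 + A * (1 - (1 - ε)) * (1 - ε) ^ 2 - y =
      ε * (A - 3 * y) + ε ^ 2 * (3 * y - 2 * A) + ε ^ 3 * (A - y) := by ring
  have h6 : ε * (A - 3 * y) + ε ^ 2 * (3 * y - 2 * A) + ε ^ 3 * (A - y) =
      3 * y * ε ^ 2 + ε ^ 3 * (A - y) := by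
    rw [← h1]; ring
  have h7 : 0 < 3 * y * ε ^ 2 := by positivity
  have h8 : 0 ≤ ε ^ 3 * (A - y) := mul_nonneg (by positivity) (by linarith)
  linarith

theorem Macro_aux2 {D β A B b : ℝ} (hβ : 0 ≤ β) (hD : 0 ≤ D) (hA : 3 * D * β = 2 * A)
    (hB : D * β ^ 3 / 2 ≤ B) (hb : 0 ≤ b) : A * b ^ 2 - D * b ^ 3 ≤ B := by
  have h1 : 0 ≤ D * ((b - β) ^ 2 * (b + β / 2)) :=
    mul_nonneg hD (mul_nonneg (sq_nonneg _) (by linarith))
  have h2 : D * ((b - β) ^ 2 * (b + β / 2)) = D * b ^ 3 - (3 * D * β) / 2 * b ^ 2 + D * β ^ 3 / 2 := by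
    ring
  rw [h2, hA] at h1
  linarith

/-- **The macroscopic range.**

Proof.  `k = 2`: for `0.4659463 ≤ y < 1/2`: `c0 b³ + (3/2)(1-b)b² ≤ 0.4659463` for `b ∈ [0,1]`
(maximum `(1/2)/(3/2-c0)²` at `b = 1/(3/2-c0)`; prove it with
`c0 b³ + (3/2)(1-b)b² ≤ B` from `(b - β)²(…) ≥ 0`), and `y b³ + (3/2)(1-b)b² > y` for `b` slightly
below `1` (derivative at `b = 1` is `3y - 3/2 < 0`; with `b = 1 - ε`:
`value - y = ε(3/2 - 3y) + ε²(3y - 3) + ε³(3/2 - y)`; take `ε` small, e.g.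
`ε = (1/2 - y)/2`).
`1/2 ≤ y ≤ 0.50242`: `patch_op`.
`k = 3`: `0.50242 ≤ y < 2/3`: `c0 b³ + 2(1-b)b² ≤ 0.50242`; maximum
`4(8/27)/(2-c0)² = 0.502413..`.
`k ≥ 4`: `2/3 ≤ y < 1 - 1/k` with `k` large: `c0 b³ + 3(1-b)b² ≤ 0.6221 ≤ y`, and the same
computation at `b = 1 - ε`. -/
theorem cover_macro (y : ℝ) (h0 : 0.4659463 ≤ y) (h1 : y < 1) :
    ∃ f, IsOp f ∧ f c0 ≤ y ∧ y < f y := by
  have hy : 0 < y := by linarith
  have hc := c0_hi
  have hc' := c0_lo
  rcases lt_or_ge y (1 / 2) with h2 | h2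
  · obtain ⟨f, hf, hup, hlow⟩ := cone_op 2 le_rfl
    refine ⟨f, hf, hup c0 y ?_, ?_⟩
    · intro b hb
      have hb3 : 0 ≤ b ^ 3 := pow_nonneg hb.1 3
      have h3 := Macro_aux2 (D := 1.0358982) (β := 10000000 / 10358982) (A := 3 / 2)
        (B := 0.4659463) (b := b) (by norm_num) (by norm_num) (by norm_num) (by norm_num) hb.1
      push_cast
      have h4 : c0 * b ^ 3 ≤ 0.4641018 * b ^ 3 := mul_le_mul_of_nonneg_right hc.le hb3
      have h5 : 3 * (1 - 1 / (2:ℝ)) * (1 - b) * b ^ 2 = 3 / 2 * b ^ 2 - 3 / 2 * b ^ 3 := by ring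
      rw [h5]
      linarith
    · obtain ⟨b, hb, h3⟩ := Macro_aux1 (A := 3 / 2) (y := y) (by norm_num) hy (by linarith)
      refine lt_of_lt_of_le ?_ (hlow y b hb)
      push_cast
      have h5 : 3 * (1 - 1 / (2:ℝ)) * (1 - b) * b ^ 2 = 3 / 2 * (1 - b) * b ^ 2 := by ring
      rw [h5]
      exact h3
  · rcases le_or_gt y 0.50242 with h3 | h3
    · obtain ⟨f, hf, hup, hlow⟩ := patch_op
      exact ⟨f, hf, hup.trans h2, hlow y h3⟩
    · rcases lt_or_ge y (2 / 3) with h4 | h4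
      · obtain ⟨f, hf, hup, hlow⟩ := cone_op 3 (by norm_num)
        refine ⟨f, hf, hup c0 y ?_, ?_⟩
        · intro b hb
          have hb3 : 0 ≤ b ^ 3 := pow_nonneg hb.1 3
          have h3 := Macro_aux2 (D := 1.5358982) (β := 40000000 / 46076946) (A := 2)
            (B := 0.50242) (b := b) (by norm_num) (by norm_num) (by norm_num) (by norm_num) hb.1
          push_cast
          have h4 : c0 * b ^ 3 ≤ 0.4641018 * b ^ 3 := mul_le_mul_of_nonneg_right hc.le hb3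
          have h5 : 3 * (1 - 1 / (3:ℝ)) * (1 - b) * b ^ 2 = 2 * b ^ 2 - 2 * b ^ 3 := by ring
          rw [h5]
          linarith
        · obtain ⟨b, hb, h5⟩ := Macro_aux1 (A := 2) (y := y) (by norm_num) hy (by linarith)
          refine lt_of_lt_of_le ?_ (hlow y b hb)
          push_cast
          have h6 : 3 * (1 - 1 / (3:ℝ)) * (1 - b) * b ^ 2 = 2 * (1 - b) * b ^ 2 := by ring
          rw [h6]
          exact h5
      · obtain ⟨k, hk⟩ := exists_nat_gt (1 / (1 - y))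
        have hk0 : (0:ℝ) < k := lt_trans (by
          apply div_pos one_pos
          linarith) hk
        have hk1 : 1 / (k:ℝ) < 1 - y := by
          rw [div_lt_iff₀ hk0]
          rw [div_lt_iff₀ (by linarith)] at hk
          linarith
        have hk2 : 2 ≤ k := by
          have : (2:ℝ) < k := by
            refine lt_of_le_of_lt ?_ hk
            rw [le_div_iff₀ (by linarith)]
            linarith
          exact_mod_cast this.le
        obtain ⟨f, hf, hup, hlow⟩ := cone_op k hk2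
        refine ⟨f, hf, hup c0 y ?_, ?_⟩
        · intro b hb
          have hb3 : 0 ≤ b ^ 3 := pow_nonneg hb.1 3
          have h3 := Macro_aux2 (D := 2.5358982) (β := 2 / 2.5358982) (A := 3)
            (B := 2 / 3) (b := b) (by norm_num) (by norm_num) (by norm_num) (by norm_num) hb.1
          have h5 : c0 * b ^ 3 ≤ 0.4641018 * b ^ 3 := mul_le_mul_of_nonneg_right hc.le hb3
          have h6 : 3 * (1 - 1 / (k:ℝ)) * (1 - b) * b ^ 2 ≤ 3 * (1 - b) * b ^ 2 := by
            refine mul_le_mul_of_nonneg_right ?_ (sq_nonneg b)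
            refine mul_le_mul_of_nonneg_right ?_ (by linarith [hb.2])
            have : 0 < 1 / (k:ℝ) := by positivity
            linarith
          nlinarith
        · obtain ⟨b, hb, h5⟩ := Macro_aux1 (A := 3 * (1 - 1 / (k:ℝ))) (y := y) (by nlinarith) hy
            (by linarith)
          exact lt_of_lt_of_le h5 (hlow y b hb)

end W880b64
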