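import Pool.Agent.W_880b64_h21.Cover2
import Pool.Agent.W_880b64_h21.Macro
import Pool.Agent.W_880b64_h21.BaseMem
import Pool.Agent.W_880b64_h21.GapP
import Pool.Agent.W_MP_880b64_co.Final

/-!
# Assembly: `A_3 ∩ [2√3 - 3, 1] = {1}`
-/

namespace W880b64

open Finset BigOperators Filter Topology
open W_MP_880b64_co (TG Lam)

theorem cover_all (y : ℝ) (h0 : c0 < y) (h1 : y < 1) : ∃ f, IsOp f ∧ f c0 ≤ y ∧ y < f y := by
  rcases lt_or_ge y (VC (EM 11) (fun _ => 0)) with h | h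
  · exact cover_germ h0 h
  rcases lt_or_ge y (VC (E3 0) (fun _ => 11 / 25)) with h2 | h2
  · exact cover3 h h2
  rcases lt_or_ge y 0.466 with h3 | h3
  · exact cover2 h2 h3
  · exact cover_macro y (by linarith) h1

theorem one_mem_closure : (1:ℝ) ∈ closure Lam := by
  obtain ⟨c, hc0, hc1, hd⟩ := W_MP_880b64_co.dense_near_one
  rw [Metric.mem_closure_iff]
  intro ε hε
  obtain ⟨l, hl, h1, h2⟩ := hd (max c (1 - ε)) 1 (le_max_left _ _)
    (max_lt hc1 (by linarith)) (max_lt hc1 (by linarith))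
  refine ⟨l, hl, ?_⟩
  rw [Real.dist_eq, abs_of_pos (by linarith)]
  have := le_max_right c (1 - ε)
  linarith

theorem dense_c0 : Set.Icc c0 1 ⊆ closure Lam :=
  gap_principle (by linarith [c0_hi]) c0_mem one_mem_closure cover_all

theorem main : (∀ α β : ℝ, 2 * Real.sqrt 3 - 3 ≤ α → α < 1 → α < β →
      ¬ W_MP_880b64_co.PGt 3 α β) ∧
    W_MP_880b64_co.A 3 ∩ Set.Icc (2 * Real.sqrt 3 - 3) 1 = {1} := by
  have hc : (2 * Real.sqrt 3 - 3) = c0 := rfl
  have hno : ∀ α β : ℝ, 2 * Real.sqrt 3 - 3 ≤ α → α < 1 → α < β →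
      ¬ W_MP_880b64_co.PGt 3 α β := by
    intro α β hα hα1 hαβ
    rw [hc] at hα
    set m := min β 1 with hm
    have hαm : α < m := lt_min hαβ hα1
    have hmem : (α + m) / 2 ∈ closure Lam := dense_c0 ⟨by linarith, by
      have := min_le_right β 1
      linarith⟩
    rw [Metric.mem_closure_iff] at hmem
    obtain ⟨l, ⟨V, _, _, G, rfl⟩, hd⟩ := hmem ((m - α) / 2) (by linarith)
    rw [Real.dist_eq, abs_lt] at hd
    have h1 : α < G.lagr := by linarith
    have h2 : G.lagr ≤ β := by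
      have := min_le_left β 1
      linarith
    exact W_MP_880b64_co.not_PGt G h1 h2
  refine ⟨hno, ?_⟩
  ext α
  simp only [Set.mem_inter_iff, Set.mem_Icc, Set.mem_singleton_iff]
  constructor
  · rintro ⟨⟨h0, h1, β, hβ, hP, hQ⟩, hcα, -⟩
    by_contra hne
    exact hno α β hcα (lt_of_le_of_ne h1 hne) hβ hP
  · rintro rfl
    exact ⟨W_MP_880b64_co.one_mem_A, by rw [hc]; linarith [c0_hi], le_rfl⟩

end W880b64
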