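import Pool.Agent.W_880b64_h21.Base

/-!
# Inequalities on `AG(2,3)` (task C1)

`TP π = ∑_{i ≠ j} π_i π_j π_{-i-j}` (ordered pairs; `{i, j, -i-j}` are the lines of `AG(2,3)`).
-/

namespace W880b64

open Finset BigOperators

/-- `∑ π³ ≥ (∑ π²)²` (Cauchy–Schwarz with weights `π`). -/
theorem P3_ge {π : P9 → ℝ} (hπ : π ∈ stdSimplex ℝ P9) : (∑ i, π i ^ 2) ^ 2 ≤ ∑ i, π i ^ 3 := by
  have h := Finset.sum_mul_sq_le_sq_mul_sq (Finset.univ : Finset P9)
    (fun i => Real.sqrt (π i)) (fun i => π i * Real.sqrt (π i))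
  have hs : ∀ i, Real.sqrt (π i) ^ 2 = π i := fun i => Real.sq_sqrt (hπ.1 i)
  have e1 : ∀ i, Real.sqrt (π i) * (π i * Real.sqrt (π i)) = π i ^ 2 := by
    intro i
    calc Real.sqrt (π i) * (π i * Real.sqrt (π i)) = π i * Real.sqrt (π i) ^ 2 := by ring
      _ = π i ^ 2 := by rw [hs i]; ring
  have e2 : ∀ i, (π i * Real.sqrt (π i)) ^ 2 = π i ^ 3 := by
    intro i
    calc (π i * Real.sqrt (π i)) ^ 2 = π i ^ 2 * Real.sqrt (π i) ^ 2 := by ring
      _ = π i ^ 3 := by rw [hs i]; ring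
  simp only [e1, e2, hs] at h
  rw [hπ.2, one_mul] at h
  exact h

/-- `TP π + ∑ π³ = ∑_{i,j} π_i π_j π_{-i-j} ≤ ∑_{i,j} π_i (π_j² + π_{-i-j}²)/2 = ∑ π²`
(for `i = j` one has `-i-j = i`). -/
theorem TP_le1 {π : P9 → ℝ} (hπ : π ∈ stdSimplex ℝ P9) :
    TP π ≤ ∑ i, π i ^ 2 - ∑ i, π i ^ 3 := by
  have h3 : ∀ i : P9, -i - i = i := by decide
  have e1 : TP π + ∑ i, π i ^ 3 = ∑ i, ∑ j, π i * π j * π (-i - j) := by
    unfold TP
    rw [← Finset.sum_add_distrib]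
    refine Finset.sum_congr rfl fun i _ => ?_
    have e : π i ^ 3 = ∑ j, if i = j then π i * π j * π (-i - j) else 0 := by
      rw [Finset.sum_ite_eq]
      simp only [Finset.mem_univ, if_true, h3]
      ring
    rw [e, ← Finset.sum_add_distrib]
    refine Finset.sum_congr rfl fun j _ => ?_
    split_ifs <;> ring
  have e2 : ∀ i : P9, ∑ j, π (-i - j) ^ 2 = ∑ j, π j ^ 2 := by
    intro i
    exact Equiv.sum_comp (Equiv.subLeft (-i)) fun j => π j ^ 2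
  have e3 : ∑ i, ∑ j, π i * π j * π (-i - j) ≤
      ∑ i, ∑ j, π i * ((π j ^ 2 + π (-i - j) ^ 2) / 2) := by
    refine Finset.sum_le_sum fun i _ => Finset.sum_le_sum fun j _ => ?_
    rw [mul_assoc]
    refine mul_le_mul_of_nonneg_left ?_ (hπ.1 i)
    nlinarith [sq_nonneg (π j - π (-i - j))]
  have e4 : ∑ i, ∑ j, π i * ((π j ^ 2 + π (-i - j) ^ 2) / 2) = ∑ j, π j ^ 2 := by
    have : ∀ i, ∑ j, π i * ((π j ^ 2 + π (-i - j) ^ 2) / 2) = π i * ∑ j, π j ^ 2 := by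
      intro i
      rw [← Finset.mul_sum, ← Finset.sum_div, Finset.sum_add_distrib, e2 i]
      ring
    simp only [this]
    rw [← Finset.sum_mul, hπ.2, one_mul]
  linarith

/-- `ρ ≥ 0` (Cauchy–Schwarz). -/
theorem rho_nonneg {π : P9 → ℝ} (hπ : π ∈ stdSimplex ℝ P9) : 0 ≤ rho π := by
  have h := sq_sum_le_card_mul_sum_sq (s := (Finset.univ : Finset P9)) (f := π)
  rw [hπ.2] at h
  have hc : (Finset.univ : Finset P9).card = 9 := by decide
  rw [hc] at h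
  unfold rho
  push_cast at h
  linarith

/-- `ρ ≤ 8/9`. -/
theorem rho_le {π : P9 → ℝ} (hπ : π ∈ stdSimplex ℝ P9) : rho π ≤ 8 / 9 := by
  have h1 : ∀ i, π i ≤ 1 := by
    intro i
    rw [← hπ.2]
    exact Finset.single_le_sum (f := π) (fun j _ => hπ.1 j) (Finset.mem_univ i)
  have h2 : ∑ i, π i ^ 2 ≤ ∑ i, π i := by
    refine Finset.sum_le_sum fun i _ => ?_
    nlinarith [hπ.1 i, h1 i]
  rw [hπ.2] at h2
  unfold rho
  linarith

end W880b64
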