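import Pool.Agent.W_880b64_h21.Base

/-!
# Pattern operations: the value and its maximum (tasks A2)

A pattern is a 3-graph `K` on `Q` with a class map `cls : Q → ι`; the class `i` is filled with a
3-graph of Lagrangian density `h i`.
-/

namespace W880b64

open Finset BigOperators
open W_MP_880b64_co (TG Lam)

theorem Pat_push1 {P S : Type} [Fintype P] [Fintype S] [DecidableEq S] (π : P → S) (g : S → ℝ)
    (x : P → ℝ) :
    ∑ p, g (π p) * x p = ∑ q, g q * ∑ p, (if π p = q then x p else 0) := by
  simp only [Finset.mul_sum, mul_ite, mul_zero]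
  rw [Finset.sum_comm]
  refine Finset.sum_congr rfl fun p _ => ?_
  simp

theorem Pat_push3 {P S : Type} [Fintype P] [Fintype S] [DecidableEq S] (π : P → S)
    (f : S → S → S → ℝ) (x : P → ℝ) (Y : S → ℝ)
    (hY : ∀ q, Y q = ∑ p, (if π p = q then x p else 0)) :
    ∑ a, ∑ b, ∑ c, f (π a) (π b) (π c) * (x a * x b * x c) =
      ∑ a, ∑ b, ∑ c, f a b c * (Y a * Y b * Y c) := by
  have hp : ∀ g : S → ℝ, ∑ p, g (π p) * x p = ∑ q, g q * Y q := by
    intro g
    rw [Pat_push1]
    exact Finset.sum_congr rfl fun q _ => by rw [hY]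
  have h1 : ∀ a b : P, ∑ c, f (π a) (π b) (π c) * (x a * x b * x c) =
      (∑ c, f (π a) (π b) c * Y c * x a) * x b := by
    intro a b
    have h2 := hp fun c => f (π a) (π b) c * (x a * x b)
    rw [Finset.sum_mul]
    calc ∑ c, f (π a) (π b) (π c) * (x a * x b * x c)
        = ∑ c, f (π a) (π b) (π c) * (x a * x b) * x c :=
          Finset.sum_congr rfl fun c _ => by ring
      _ = ∑ c, f (π a) (π b) c * (x a * x b) * Y c := h2
      _ = _ := Finset.sum_congr rfl fun c _ => by ring
  have h3 : ∀ a : P, ∑ b, (∑ c, f (π a) (π b) c * Y c * x a) * x b =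
      (∑ b, ∑ c, f (π a) b c * Y c * Y b) * x a := by
    intro a
    have h4 := hp fun b => ∑ c, f (π a) b c * Y c * x a
    rw [h4, Finset.sum_mul]
    refine Finset.sum_congr rfl fun b _ => ?_
    rw [Finset.sum_mul, Finset.sum_mul]
    exact Finset.sum_congr rfl fun c _ => by ring
  calc ∑ a, ∑ b, ∑ c, f (π a) (π b) (π c) * (x a * x b * x c)
      = ∑ a, ∑ b, (∑ c, f (π a) (π b) c * Y c * x a) * x b :=
        Finset.sum_congr rfl fun a _ => Finset.sum_congr rfl fun b _ => h1 a b
    _ = ∑ a, (∑ b, ∑ c, f (π a) b c * Y c * Y b) * x a :=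
        Finset.sum_congr rfl fun a _ => h3 a
    _ = ∑ a, (∑ b, ∑ c, f a b c * Y c * Y b) * Y a :=
        hp fun a => ∑ b, ∑ c, f a b c * Y c * Y b
    _ = _ := by
        refine Finset.sum_congr rfl fun a _ => ?_
        rw [Finset.sum_mul]
        refine Finset.sum_congr rfl fun b _ => ?_
        rw [Finset.sum_mul]
        exact Finset.sum_congr rfl fun c _ => by ring

open Classical in
theorem Pat_T_eq {V : Type} [Fintype V] (G : TG V) (x : V → ℝ) :
    G.T x = ∑ a, ∑ b, ∑ c, (if G.r a b c then (1 : ℝ) else 0) * (x a * x b * x c) := by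
  unfold TG.T
  refine Finset.sum_congr rfl fun a _ => Finset.sum_congr rfl fun b _ =>
    Finset.sum_congr rfl fun c _ => ?_
  split_ifs
  · rw [one_mul]
  · rw [zero_mul]

theorem Pat_comm4 {I P : Type} [Fintype I] [Fintype P] (F : I → P → P → P → ℝ) :
    ∑ i, ∑ a, ∑ b, ∑ c, F i a b c = ∑ a, ∑ b, ∑ c, ∑ i, F i a b c := by
  rw [Finset.sum_comm]
  refine Finset.sum_congr rfl fun a _ => ?_
  rw [Finset.sum_comm]
  refine Finset.sum_congr rfl fun b _ => ?_
  rw [Finset.sum_comm]

/-- adding isolated vertices -/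
def Pat_ext {V W : Type} (f : V → W) (hf : Function.Injective f) (G : TG V) : TG W where
  r a b c := ∃ u u' u'', f u = a ∧ f u' = b ∧ f u'' = c ∧ G.r u u' u''
  s12 := by
    rintro a b c ⟨u, u', u'', h1, h2, h3, h4⟩
    exact ⟨u', u, u'', h2, h1, h3, G.s12 _ _ _ h4⟩
  s23 := by
    rintro a b c ⟨u, u', u'', h1, h2, h3, h4⟩
    exact ⟨u, u'', u', h1, h3, h2, G.s23 _ _ _ h4⟩
  ne := by
    rintro a b c ⟨u, u', u'', h1, h2, h3, h4⟩ h5
    exact G.ne _ _ _ h4 (hf (h1.trans (h5.trans h2.symm)))

theorem Pat_ext_r {V W : Type} (f : V → W) (hf : Function.Injective f) (G : TG V) (u u' u'' : V) :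
    (Pat_ext f hf G).r (f u) (f u') (f u'') ↔ G.r u u' u'' := by
  constructor
  · rintro ⟨v, v', v'', h1, h2, h3, h4⟩
    rw [← hf h1, ← hf h2, ← hf h3]
    exact h4
  · intro h
    exact ⟨u, u', u'', rfl, rfl, rfl, h⟩

theorem Pat_ext_T {V W : Type} [Fintype V] [Fintype W] (f : V → W) (hf : Function.Injective f)
    (G : TG V) (x : W → ℝ) : (Pat_ext f hf G).T x = G.T fun v => x (f v) := by
  classical
  unfold TG.T
  symm
  refine Fintype.sum_of_injective f hf _ _ ?_ ?_
  · intro a ha
    refine Finset.sum_eq_zero fun b _ => Finset.sum_eq_zero fun c _ => if_neg ?_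
    rintro ⟨u, u', u'', h1, _, _, _⟩
    exact ha ⟨u, h1⟩
  · intro a
    refine Fintype.sum_of_injective f hf _ _ ?_ ?_
    · intro b hb
      refine Finset.sum_eq_zero fun c _ => if_neg ?_
      rintro ⟨u, u', u'', _, h2, _, _⟩
      exact hb ⟨u', h2⟩
    · intro b
      refine Fintype.sum_of_injective f hf _ _ ?_ ?_
      · intro c hc
        refine if_neg ?_
        rintro ⟨u, u', u'', _, _, h3, _⟩
        exact hc ⟨u'', h3⟩
      · intro c
        by_cases h : G.r a b c
        · rw [if_pos h, if_pos ((Pat_ext_r f hf G a b c).2 h)]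
        · rw [if_neg h, if_neg (fun h' => h ((Pat_ext_r f hf G a b c).1 h'))]

theorem Pat_ext_lagr {V W : Type} [Fintype V] [Fintype W] [Nonempty V] [Nonempty W] (f : V → W)
    (hf : Function.Injective f) (G : TG V) : (Pat_ext f hf G).lagr = G.lagr := by
  classical
  apply TG.lagr_eq_of
  · obtain ⟨⟨y, hy, hyl⟩, _⟩ := G.lagr_spec
    have hfy : ∀ v, (∑ u, if f u = f v then y u else 0) = y v := by
      intro v
      rw [Finset.sum_eq_single v]
      · rw [if_pos rfl]
      · intro u _ hu
        exact if_neg fun h => hu (hf h)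
      · intro h
        exact absurd (Finset.mem_univ v) h
    refine ⟨fun w => ∑ u, if f u = w then y u else 0, ⟨?_, ?_⟩, ?_⟩
    · intro w
      refine Finset.sum_nonneg fun u _ => ?_
      split_ifs
      · exact hy.1 u
      · exact le_rfl
    · rw [Finset.sum_comm]
      rw [← hy.2]
      refine Finset.sum_congr rfl fun u _ => ?_
      simp
    · rw [Pat_ext_T, ← hyl]
      congr 1
      funext v
      exact hfy v
  · intro x hx
    rw [Pat_ext_T]
    refine (G.T_le_lagr_mul fun v => hx.1 (f v)).trans ?_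
    have h1 : ∑ v, x (f v) ≤ 1 := by
      rw [← hx.2, ← Finset.sum_image (f := x) (s := Finset.univ) (g := f)
        (fun a _ b _ h => hf h)]
      exact Finset.sum_le_univ_sum_of_nonneg hx.1
    have h0 : 0 ≤ ∑ v, x (f v) := Finset.sum_nonneg fun v _ => hx.1 (f v)
    have h2 : (∑ v, x (f v)) ^ 3 ≤ 1 := pow_le_one₀ h0 h1
    calc G.lagr * (∑ v, x (f v)) ^ 3 ≤ G.lagr * 1 :=
          mul_le_mul_of_nonneg_left h2 G.lagr_nonneg
      _ = G.lagr := mul_one _

/-- the substitution graph -/
def Pat_H {Q ι W : Type} (K : TG Q) (cls : Q → ι) (G : ι → TG W) : TG (Q × W) where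
  r a b c := K.r a.1 b.1 c.1 ∨
    (cls b.1 = cls a.1 ∧ cls c.1 = cls a.1 ∧ (G (cls a.1)).r a.2 b.2 c.2)
  s12 := by
    rintro a b c (h | ⟨h1, h2, h3⟩)
    · exact Or.inl (K.s12 _ _ _ h)
    · exact Or.inr ⟨h1.symm, h2.trans h1.symm, h1 ▸ (G _).s12 _ _ _ h3⟩
  s23 := by
    rintro a b c (h | ⟨h1, h2, h3⟩)
    · exact Or.inl (K.s23 _ _ _ h)
    · exact Or.inr ⟨h2, h1, (G _).s23 _ _ _ h3⟩
  ne := by
    rintro a b c (h | ⟨h1, h2, h3⟩) hab
    · exact K.ne _ _ _ h (congrArg Prod.fst hab)
    · exact (G _).ne _ _ _ h3 (congrArg Prod.snd hab)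

section pat
variable {Q ι : Type} [Fintype Q] [Fintype ι] [DecidableEq ι]

/-- the pattern polynomial -/
noncomputable def patV (K : TG Q) (cls : Q → ι) (h : ι → ℝ) (y : Q → ℝ) : ℝ :=
  K.T y + ∑ i, h i * (∑ q, if cls q = i then y q else 0) ^ 3

/-- its maximum over the simplex -/
noncomputable def patPhi (K : TG Q) (cls : Q → ι) (h : ι → ℝ) : ℝ :=
  sSup (patV K cls h '' stdSimplex ℝ Q)

/-- The maximum is attained. (`patV K cls h` is continuous, the simplex is compact; see
`W_MP_880b64_co.TG.lagr_spec` in `W_MP_880b64_co/Tri.lean` for the same argument.) -/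
theorem patPhi_spec [Nonempty Q] (K : TG Q) (cls : Q → ι) (h : ι → ℝ) :
    (∃ y ∈ stdSimplex ℝ Q, patV K cls h y = patPhi K cls h) ∧
    ∀ y ∈ stdSimplex ℝ Q, patV K cls h y ≤ patPhi K cls h := by
  have hc : Continuous (patV K cls h) := by
    unfold patV
    refine (K.T_continuous).add (continuous_finset_sum _ fun i _ => ?_)
    refine continuous_const.mul (Continuous.pow (continuous_finset_sum _ fun q _ => ?_) 3)
    split_ifs
    · exact continuous_apply q
    · exact continuous_const
  obtain ⟨x, hx, hmax⟩ := (isCompact_stdSimplex ℝ Q).exists_isMaxOn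
    (W_MP_880b64_co.simplex_nonempty (V := Q)) hc.continuousOn
  have hle : ∀ y ∈ stdSimplex ℝ Q, patV K cls h y ≤ patV K cls h x := fun y hy => hmax hy
  have h1 : patPhi K cls h = patV K cls h x := by
    unfold patPhi
    apply le_antisymm
    · apply csSup_le ((W_MP_880b64_co.simplex_nonempty (V := Q)).image _)
      rintro _ ⟨y, hy, rfl⟩
      exact hle y hy
    · apply le_csSup
      · refine ⟨patV K cls h x, ?_⟩
        rintro _ ⟨y, hy, rfl⟩
        exact hle y hy
      · exact ⟨x, hx, rfl⟩
  refine ⟨⟨x, hx, h1.symm⟩, fun y hy => ?_⟩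
  rw [h1]
  exact hle y hy

/-- the form of the substitution graph -/
theorem Pat_H_T {W : Type} [Fintype W] [DecidableEq Q] [DecidableEq W] (K : TG Q) (cls : Q → ι)
    (hK : ∀ a b c, K.r a b c → ¬ (cls a = cls b ∧ cls b = cls c)) (G : ι → TG W)
    (x : Q × W → ℝ) (y : Q → ℝ) (z : ι → W → ℝ)
    (hy : ∀ q, y q = ∑ p : Q × W, (if p.1 = q then x p else 0))
    (hz : ∀ i w, z i w = ∑ p : Q × W, (if p.2 = w then (if cls p.1 = i then x p else 0) else 0)) :
    (Pat_H K cls G).T x = K.T y + ∑ i, (G i).T (z i) := by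
  classical
  rw [Pat_T_eq, Pat_T_eq K]
  have h1 : ∀ a b c : Q × W, (if (Pat_H K cls G).r a b c then (1 : ℝ) else 0) =
      (if K.r a.1 b.1 c.1 then (1 : ℝ) else 0) + ∑ i, (if cls a.1 = i then (if cls b.1 = i then
        (if cls c.1 = i then (if (G i).r a.2 b.2 c.2 then (1 : ℝ) else 0) else 0) else 0)
          else 0) := by
    intro a b c
    rw [Finset.sum_ite_eq Finset.univ (cls a.1), if_pos (Finset.mem_univ _)]
    by_cases hk : K.r a.1 b.1 c.1
    · have h2 := hK _ _ _ hk
      have h3 : (Pat_H K cls G).r a b c := Or.inl hk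
      rw [if_pos h3, if_pos hk]
      by_cases hb : cls b.1 = cls a.1
      · by_cases hc : cls c.1 = cls a.1
        · exact absurd ⟨hb.symm, hb.trans hc.symm⟩ h2
        · rw [if_pos hb, if_neg hc, add_zero]
      · rw [if_neg hb, add_zero]
    · rw [if_neg hk, zero_add]
      by_cases hb : cls b.1 = cls a.1
      · by_cases hc : cls c.1 = cls a.1
        · rw [if_pos hb, if_pos hc]
          by_cases hg : (G (cls a.1)).r a.2 b.2 c.2
          · have h3 : (Pat_H K cls G).r a b c := Or.inr ⟨hb, hc, hg⟩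
            rw [if_pos h3, if_pos hg]
          · have h3 : ¬ (Pat_H K cls G).r a b c := by
              rintro (h | ⟨_, _, h⟩)
              · exact hk h
              · exact hg h
            rw [if_neg h3, if_neg hg]
        · have h3 : ¬ (Pat_H K cls G).r a b c := by
            rintro (h | ⟨_, h, _⟩)
            · exact hk h
            · exact hc h
          rw [if_pos hb, if_neg hc, if_neg h3]
      · have h3 : ¬ (Pat_H K cls G).r a b c := by
          rintro (h | ⟨h, _, _⟩)
          · exact hk h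
          · exact hb h
        rw [if_neg hb, if_neg h3]
  have h2 : ∀ i, (G i).T (z i) = ∑ a : Q × W, ∑ b : Q × W, ∑ c : Q × W,
      (if cls a.1 = i then (if cls b.1 = i then (if cls c.1 = i then
        (if (G i).r a.2 b.2 c.2 then (1 : ℝ) else 0) else 0) else 0) else 0) *
          (x a * x b * x c) := by
    intro i
    rw [Pat_T_eq, ← Pat_push3 (fun p : Q × W => p.2)
      (fun a b c => if (G i).r a b c then (1 : ℝ) else 0)
      (fun p => if cls p.1 = i then x p else 0) (z i) (hz i)]
    refine Finset.sum_congr rfl fun a _ => Finset.sum_congr rfl fun b _ =>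
      Finset.sum_congr rfl fun c _ => ?_
    by_cases ha : cls a.1 = i
    · by_cases hb : cls b.1 = i
      · by_cases hc : cls c.1 = i
        · simp only [if_pos ha, if_pos hb, if_pos hc]
        · simp only [if_pos ha, if_pos hb, if_neg hc, mul_zero, zero_mul]
      · simp only [if_pos ha, if_neg hb, mul_zero, zero_mul]
    · simp only [if_neg ha, mul_zero, zero_mul]
  have h3 := Pat_push3 (fun p : Q × W => p.1)
    (fun a b c => if K.r a b c then (1 : ℝ) else 0) x y hy
  rw [← h3, Finset.sum_congr rfl fun i _ => h2 i, Pat_comm4]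
  rw [← Finset.sum_add_distrib]
  refine Finset.sum_congr rfl fun a _ => ?_
  rw [← Finset.sum_add_distrib]
  refine Finset.sum_congr rfl fun b _ => ?_
  rw [← Finset.sum_add_distrib]
  refine Finset.sum_congr rfl fun c _ => ?_
  rw [h1, add_mul, Finset.sum_mul]

/-- **Substitution.** If no edge of `K` lies inside one class and every `h i` is the Lagrangian
density of a finite 3-graph, then so is `patPhi K cls h`.

Proof.  First realise all `h i` (finitely many) on one common vertex type `W = Fin n`, `n ≥ 1`: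
a 3-graph on `V` is transported to `Fin (card V)` by an equivalence, and one isolated vertex can
be added without changing the Lagrangian density (`T` is the same and the weight of the isolated
vertex can only be wasted, use `TG.T_le_lagr_mul`).  So let `G i : TG W` with `(G i).lagr = h i`.
Define the 3-graph `H` on `Q × W` by
`r (q,v) (q',v') (q'',v'') := K.r q q' q'' ∨ (cls q = cls q' ∧ cls q' = cls q'' ∧
(G (cls q)).r v v' v'')`.  By `hK` the two alternatives exclude each other, so
`H.T x = K.T y + ∑ i, (G i).T (z i)` with `y q = ∑ v, x (q,v)` and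
`z i v = ∑ q, if cls q = i then x (q,v) else 0`, and `∑ v, z i v = ∑ q, if cls q = i then y q
else 0`.  Hence `H.T x ≤ patV K cls h y ≤ patPhi` (`TG.T_le_lagr_mul`), with equality for
`x (q,v) = y q * g (cls q) v`, `y` a maximiser of `patV`, `g i` a maximiser for `G i`.  So
`H.lagr = patPhi K cls h` (`TG.lagr_eq_of`). -/
theorem patPhi_mem_Lam [Nonempty Q] (K : TG Q) (cls : Q → ι)
    (hK : ∀ a b c, K.r a b c → ¬ (cls a = cls b ∧ cls b = cls c))
    (h : ι → ℝ) (hh : ∀ i, h i ∈ Lam) : patPhi K cls h ∈ Lam := by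
  classical
  choose V hF hN G hG using hh
  obtain ⟨q0⟩ := ‹Nonempty Q›
  let W : Type := Σ i, V i
  have hW : Nonempty W := ⟨⟨cls q0, Classical.choice (hN (cls q0))⟩⟩
  let f : (i : ι) → V i → W := fun i v => ⟨i, v⟩
  have hf : ∀ i, Function.Injective (f i) := fun i a b hab => by
    have h1 : (⟨i, a⟩ : Σ i, V i) = ⟨i, b⟩ := hab
    simpa using h1
  let G' : ι → TG W := fun i => Pat_ext (f i) (hf i) (G i)
  have hG' : ∀ i, (G' i).lagr = h i := fun i => by
    rw [← hG i]
    exact Pat_ext_lagr (f i) (hf i) (G i)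
  have hQ : Nonempty Q := ⟨q0⟩
  refine ⟨Q × W, inferInstance, ⟨(q0, Classical.choice hW)⟩, Pat_H K cls G', ?_⟩
  have hne : Nonempty (Q × W) := ⟨(q0, Classical.choice hW)⟩
  obtain ⟨⟨y0, hy0, hy0m⟩, hmax⟩ := patPhi_spec K cls h
  have hfib : ∀ (x : Q × W → ℝ) (i : ι),
      (∑ w, ∑ p : Q × W, (if p.2 = w then (if cls p.1 = i then x p else 0) else 0)) =
      ∑ q, if cls q = i then (∑ p : Q × W, (if p.1 = q then x p else 0)) else 0 := by
    intro x i
    have h1 : ∀ q, (if cls q = i then (∑ p : Q × W, (if p.1 = q then x p else 0)) else 0) =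
        ∑ p : Q × W, (if p.1 = q then (if cls p.1 = i then x p else 0) else 0) := by
      intro q
      split_ifs with hq
      · refine Finset.sum_congr rfl fun p _ => ?_
        split_ifs with hp hc
        · rfl
        · rw [hp] at hc
          exact absurd hq hc
        · rfl
      · symm
        refine Finset.sum_eq_zero fun p _ => ?_
        split_ifs with hp hc
        · rw [hp] at hc
          exact absurd hc hq
        · rfl
        · rfl
    rw [Finset.sum_congr rfl fun q _ => h1 q, Finset.sum_comm, Finset.sum_comm (s := univ (α := Q))]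
    refine Finset.sum_congr rfl fun p _ => ?_
    rw [Finset.sum_ite_eq, Finset.sum_ite_eq, if_pos (Finset.mem_univ _),
      if_pos (Finset.mem_univ _)]
  apply TG.lagr_eq_of
  · choose g hg hgm using fun i => (G' i).lagr_spec.1
    have hy : ∀ q, y0 q = ∑ p : Q × W, (if p.1 = q then y0 p.1 * g (cls p.1) p.2 else 0) := by
      intro q
      rw [Fintype.sum_prod_type, Finset.sum_eq_single q]
      · simp only [if_true]
        rw [← Finset.mul_sum, (hg (cls q)).2, mul_one]
      · intro b _ hb
        exact Finset.sum_eq_zero fun w _ => if_neg hb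
      · intro hq
        exact absurd (Finset.mem_univ q) hq
    have hz : ∀ i w, (∑ q, if cls q = i then y0 q else 0) * g i w =
        ∑ p : Q × W, (if p.2 = w then (if cls p.1 = i then y0 p.1 * g (cls p.1) p.2 else 0)
          else 0) := by
      intro i w
      rw [Fintype.sum_prod_type, Finset.sum_mul]
      refine Finset.sum_congr rfl fun q _ => ?_
      rw [Finset.sum_ite_eq' Finset.univ w, if_pos (Finset.mem_univ _)]
      split_ifs with hq
      · rw [hq]
      · rw [zero_mul]
    refine ⟨fun p => y0 p.1 * g (cls p.1) p.2, ⟨?_, ?_⟩, ?_⟩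
    · intro p
      exact mul_nonneg (hy0.1 p.1) ((hg (cls p.1)).1 p.2)
    · rw [Fintype.sum_prod_type, ← hy0.2]
      refine Finset.sum_congr rfl fun q _ => ?_
      show ∑ w, y0 q * g (cls q) w = y0 q
      rw [← Finset.mul_sum, (hg (cls q)).2, mul_one]
    · rw [Pat_H_T K cls hK G' _ y0 (fun i w => (∑ q, if cls q = i then y0 q else 0) * g i w) hy hz,
        ← hy0m]
      unfold patV
      congr 1
      refine Finset.sum_congr rfl fun i _ => ?_
      rw [TG.T_smul, hgm i, hG' i, mul_comm]
  · intro x hx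
    rw [Pat_H_T K cls hK G' x (fun q => ∑ p : Q × W, (if p.1 = q then x p else 0))
      (fun i w => ∑ p : Q × W, (if p.2 = w then (if cls p.1 = i then x p else 0) else 0))
      (fun _ => rfl) (fun _ _ => rfl)]
    have hys : (fun q => ∑ p : Q × W, (if p.1 = q then x p else 0)) ∈ stdSimplex ℝ Q := by
      refine ⟨fun q => Finset.sum_nonneg fun p _ => ?_, ?_⟩
      · split_ifs
        · exact hx.1 p
        · exact le_rfl
      · rw [Finset.sum_comm, ← hx.2]
        refine Finset.sum_congr rfl fun p _ => ?_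
        simp
    refine le_trans ?_ (hmax _ hys)
    unfold patV
    refine add_le_add le_rfl (Finset.sum_le_sum fun i _ => ?_)
    refine ((G' i).T_le_lagr_mul ?_).trans (le_of_eq ?_)
    · intro w
      refine Finset.sum_nonneg fun p _ => ?_
      split_ifs
      · exact hx.1 p
      · exact le_rfl
      · exact le_rfl
    · rw [hG' i, hfib x i]

end pat

end W880b64
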