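import Pool.Agent.W_880b64_h21.Pat

/-!
# Patterns are operations (task A3)
-/

namespace W880b64

open Finset BigOperators
open W_MP_880b64_co (TG Lam)

section pat
variable {Q ι : Type} [Fintype Q] [Fintype ι] [DecidableEq ι]

lemma PatOp_T_zero (K : TG Q) (cls : Q → ι)
    (hK : ∀ a b c, K.r a b c → ¬ (cls a = cls b ∧ cls b = cls c)) (y : Q → ℝ) (i : ι)
    (hy : ∀ q, cls q ≠ i → y q = 0) : K.T y = 0 := by
  classical
  unfold TG.T
  refine Finset.sum_eq_zero fun a _ => Finset.sum_eq_zero fun b _ => Finset.sum_eq_zero fun c _ => ?_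
  split_ifs with h
  · by_cases ha : cls a = i
    · by_cases hb : cls b = i
      · by_cases hc : cls c = i
        · exact absurd ⟨ha.trans hb.symm, hb.trans hc.symm⟩ (hK a b c h)
        · rw [hy c hc, mul_zero]
      · rw [hy b hb, mul_zero, zero_mul]
    · rw [hy a ha, zero_mul, zero_mul]
  · rfl

/-- class sums -/
noncomputable def PatOp_Y (cls : Q → ι) (y : Q → ℝ) (i : ι) : ℝ := ∑ q, if cls q = i then y q else 0

lemma PatOp_Y_nonneg (cls : Q → ι) {y : Q → ℝ} (hy : ∀ q, 0 ≤ y q) (i : ι) :
    0 ≤ PatOp_Y cls y i := by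
  unfold PatOp_Y
  refine Finset.sum_nonneg fun q _ => ?_
  split_ifs
  · exact hy q
  · exact le_rfl

lemma PatOp_Y_sum (cls : Q → ι) (y : Q → ℝ) : ∑ i, PatOp_Y cls y i = ∑ q, y q := by
  unfold PatOp_Y
  rw [Finset.sum_comm]
  refine Finset.sum_congr rfl fun q _ => ?_
  rw [Finset.sum_ite_eq]
  simp

lemma PatOp_le_Y (cls : Q → ι) {y : Q → ℝ} (hy : ∀ q, 0 ≤ y q) (q : Q) :
    y q ≤ PatOp_Y cls y (cls q) := by
  have := Finset.single_le_sum (s := univ) (f := fun q' => if cls q' = cls q then y q' else 0)
    (fun q' _ => by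
      show 0 ≤ if cls q' = cls q then y q' else 0
      split_ifs
      · exact hy q'
      · exact le_rfl) (mem_univ q)
  simpa [PatOp_Y] using this

/-- weight of the variable slots -/
noncomputable def PatOp_S (cls : Q → ι) (var : ι → Prop) [DecidablePred var] (y : Q → ℝ) : ℝ :=
  ∑ i, if var i then PatOp_Y cls y i ^ 3 else 0

lemma PatOp_diff (K : TG Q) (cls : Q → ι) (var : ι → Prop) [DecidablePred var] (h0 : ι → ℝ)
    (s t : ℝ) (y : Q → ℝ) :
    patV K cls (fun i => if var i then t else h0 i) y
      - patV K cls (fun i => if var i then s else h0 i) y = (t - s) * PatOp_S cls var y := by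
  unfold patV PatOp_S
  rw [Finset.mul_sum, add_sub_add_left_eq_sub, ← Finset.sum_sub_distrib]
  refine Finset.sum_congr rfl fun i _ => ?_
  change (if var i then t else h0 i) * PatOp_Y cls y i ^ 3
    - (if var i then s else h0 i) * PatOp_Y cls y i ^ 3 = _
  split_ifs <;> ring

lemma PatOp_S_nonneg (cls : Q → ι) (var : ι → Prop) [DecidablePred var] {y : Q → ℝ}
    (hy : ∀ q, 0 ≤ y q) : 0 ≤ PatOp_S cls var y := by
  unfold PatOp_S
  refine Finset.sum_nonneg fun i _ => ?_
  split_ifs
  · exact pow_nonneg (PatOp_Y_nonneg cls hy i) 3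
  · exact le_rfl

lemma PatOp_Y_le_one (cls : Q → ι) {y : Q → ℝ} (hy : y ∈ stdSimplex ℝ Q) (i : ι) :
    PatOp_Y cls y i ≤ 1 := by
  rw [← hy.2, ← PatOp_Y_sum cls y]
  exact Finset.single_le_sum (fun j _ => PatOp_Y_nonneg cls hy.1 j) (mem_univ i)

lemma PatOp_term_le (cls : Q → ι) (var : ι → Prop) [DecidablePred var] {y : Q → ℝ}
    (hy : y ∈ stdSimplex ℝ Q) (i : ι) :
    (if var i then PatOp_Y cls y i ^ 3 else 0) ≤ PatOp_Y cls y i := by
  have h0 := PatOp_Y_nonneg cls hy.1 i
  have h1 := PatOp_Y_le_one cls hy i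
  split_ifs
  · nlinarith [mul_nonneg h0 (sub_nonneg.2 h1), mul_nonneg (mul_nonneg h0 h0) (sub_nonneg.2 h1)]
  · exact h0

lemma PatOp_S_le_one (cls : Q → ι) (var : ι → Prop) [DecidablePred var] {y : Q → ℝ}
    (hy : y ∈ stdSimplex ℝ Q) : PatOp_S cls var y ≤ 1 := by
  rw [← hy.2, ← PatOp_Y_sum cls y]
  exact Finset.sum_le_sum fun i _ => PatOp_term_le cls var hy i

lemma PatOp_S_eq_one (K : TG Q) (cls : Q → ι)
    (hK : ∀ a b c, K.r a b c → ¬ (cls a = cls b ∧ cls b = cls c))
    (var : ι → Prop) [DecidablePred var] (h0 : ι → ℝ) (t : ℝ) {y : Q → ℝ}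
    (hy : y ∈ stdSimplex ℝ Q) (hS : PatOp_S cls var y = 1) :
    patV K cls (fun i => if var i then t else h0 i) y = t := by
  have hYs : ∑ i, PatOp_Y cls y i = 1 := by rw [PatOp_Y_sum, hy.2]
  have hz : ∀ i ∈ (univ : Finset ι),
      PatOp_Y cls y i - (if var i then PatOp_Y cls y i ^ 3 else 0) = 0 := by
    apply (Finset.sum_eq_zero_iff_of_nonneg
      (fun i _ => sub_nonneg.2 (PatOp_term_le cls var hy i))).1
    rw [Finset.sum_sub_distrib, hYs]
    have : ∑ i, (if var i then PatOp_Y cls y i ^ 3 else 0) = 1 := hS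
    rw [this, sub_self]
  obtain ⟨i, hi⟩ : ∃ i, PatOp_Y cls y i ≠ 0 := by
    by_contra hcon
    push Not at hcon
    rw [Finset.sum_eq_zero (fun i _ => hcon i)] at hYs
    exact zero_ne_one hYs
  have hvi : var i := by
    by_contra hcon
    have := hz i (mem_univ i)
    rw [if_neg hcon, sub_zero] at this
    exact hi this
  have hYi : PatOp_Y cls y i = 1 := by
    have h1 := hz i (mem_univ i)
    rw [if_pos hvi] at h1
    have h2 : PatOp_Y cls y i * ((1 - PatOp_Y cls y i) * (1 + PatOp_Y cls y i)) = 0 := by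
      nlinarith
    rcases mul_eq_zero.1 h2 with h3 | h3
    · exact absurd h3 hi
    · rcases mul_eq_zero.1 h3 with h4 | h4
      · linarith
      · have := PatOp_Y_nonneg cls hy.1 i
        linarith
  have hYj : ∀ j, j ≠ i → PatOp_Y cls y j = 0 := by
    intro j hj
    have h1 : PatOp_Y cls y i + PatOp_Y cls y j ≤ ∑ k, PatOp_Y cls y k := by
      rw [← Finset.sum_pair hj.symm]
      exact Finset.sum_le_sum_of_subset_of_nonneg (Finset.subset_univ _)
        (fun k _ _ => PatOp_Y_nonneg cls hy.1 k)
    have := PatOp_Y_nonneg cls hy.1 j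
    linarith
  have hy0 : ∀ q, cls q ≠ i → y q = 0 := by
    intro q hq
    have h1 := PatOp_le_Y cls hy.1 q
    rw [hYj _ hq] at h1
    exact le_antisymm h1 (hy.1 q)
  unfold patV
  rw [PatOp_T_zero K cls hK y i hy0, zero_add]
  change ∑ j, (if var j then t else h0 j) * PatOp_Y cls y j ^ 3 = t
  rw [Finset.sum_eq_single i]
  · rw [if_pos hvi, hYi]; ring
  · intro j _ hj
    rw [hYj j hj]; ring
  · intro h; exact absurd (mem_univ i) h

/-- **Patterns are operations** (one free value `t`, put into all classes `i` with `var i`).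

Proof.  `f t := patPhi K cls (fun i => if var i then t else h0 i)`.  For fixed `y` the polynomial is
`P(y) + t * S(y)` with `S(y) = ∑_{i, var i} (∑ q, if cls q = i then y q else 0)^3 ∈ [0,1]`
(the class sums are nonnegative with sum `1`).  So `f` is monotone and 1-Lipschitz, hence
continuous (see `phi_mono, phi_sub_le, phi_lip, phi_continuous` in `W_MP_880b64_co/Join.lean`).
`ge`: `y = Pi.single q0 1`: no edge of `K` is inside a class, so `K.T y = 0` (every term of `K.T y`
with `y a * y b * y c ≠ 0` has `a = b = c = q0`, excluded by `K.ne`), and the value is `t`.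
`contr`: let `s < t < f t` and `y` a maximiser for `t`; then
`f t - f s ≤ (t - s) * S(y)` and `S(y) ≤ 1`; if `S(y) = 1` then one class with `var i` carries the
whole weight `1` (numbers `Y_i ≥ 0`, `∑ Y_i ≤ 1`, `∑ Y_i^3 = 1`), so `K.T y = 0` by `hK`, the other
classes have weight 0 and `f t = t`, contradiction; so `S(y) < 1` and
`f t - f s ≤ (t-s) S(y) < t - s`.
`maps`: `patPhi_mem_Lam`. -/
theorem isOp_pat (K : TG Q) (cls : Q → ι)
    (hK : ∀ a b c, K.r a b c → ¬ (cls a = cls b ∧ cls b = cls c))
    (var : ι → Prop) [DecidablePred var] (q0 : Q) (hq0 : var (cls q0))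
    (h0 : ι → ℝ) (hh : ∀ i, ¬ var i → h0 i ∈ Lam) :
    IsOp (fun t => patPhi K cls (fun i => if var i then t else h0 i)) := by
  classical
  haveI : Nonempty Q := ⟨q0⟩
  have hmono : ∀ s t : ℝ, s ≤ t → patPhi K cls (fun i => if var i then s else h0 i) ≤
      patPhi K cls (fun i => if var i then t else h0 i) := by
    intro s t hst
    obtain ⟨⟨y, hy, he⟩, -⟩ := patPhi_spec K cls (fun i => if var i then s else h0 i)
    rw [← he]
    refine le_trans ?_ ((patPhi_spec K cls (fun i => if var i then t else h0 i)).2 y hy)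
    have h1 := PatOp_diff K cls var h0 s t y
    have h2 := mul_nonneg (sub_nonneg.2 hst) (PatOp_S_nonneg cls var hy.1)
    linarith
  have hlip : ∀ s t : ℝ, s ≤ t → patPhi K cls (fun i => if var i then t else h0 i) ≤
      patPhi K cls (fun i => if var i then s else h0 i) + (t - s) := by
    intro s t hst
    obtain ⟨⟨y, hy, he⟩, -⟩ := patPhi_spec K cls (fun i => if var i then t else h0 i)
    rw [← he]
    have h1 := PatOp_diff K cls var h0 s t y
    have h2 := mul_le_mul_of_nonneg_left (PatOp_S_le_one cls var hy) (sub_nonneg.2 hst)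
    have h3 := (patPhi_spec K cls (fun i => if var i then s else h0 i)).2 y hy
    linarith
  refine ⟨?_, fun s t hst => hmono s t hst, ?_, ?_, ?_⟩
  · have hL : LipschitzWith 1 (fun t => patPhi K cls (fun i => if var i then t else h0 i)) := by
      apply LipschitzWith.of_dist_le_mul
      intro a b
      simp only [NNReal.coe_one, one_mul, Real.dist_eq]
      rcases le_total a b with h | h
      · have h1 := hmono a b h
        have h2 := hlip a b h
        rw [abs_sub_comm a b, abs_of_nonneg (by linarith : 0 ≤ b - a), abs_sub_comm,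
          abs_of_nonneg (by linarith)]
        linarith
      · have h1 := hmono b a h
        have h2 := hlip b a h
        rw [abs_of_nonneg (by linarith : 0 ≤ a - b), abs_of_nonneg (by linarith)]
        linarith
    exact hL.continuous
  · intro t
    have hmem : (Pi.single q0 1 : Q → ℝ) ∈ stdSimplex ℝ Q := single_mem_stdSimplex ℝ q0
    have h1 := (patPhi_spec K cls (fun i => if var i then t else h0 i)).2 _ hmem
    have hY0 : ∀ i, PatOp_Y cls (Pi.single q0 1 : Q → ℝ) i = if cls q0 = i then 1 else 0 := by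
      intro i
      unfold PatOp_Y
      rw [Finset.sum_eq_single q0]
      · rw [Pi.single_eq_same]
      · intro q _ hq
        rw [Pi.single_eq_of_ne hq, ite_self]
      · intro h; exact absurd (mem_univ q0) h
    have hS : PatOp_S cls var (Pi.single q0 1 : Q → ℝ) = 1 := by
      unfold PatOp_S
      rw [Finset.sum_eq_single (cls q0)]
      · rw [if_pos hq0, hY0, if_pos rfl, one_pow]
      · intro i _ hi
        rw [hY0, if_neg (Ne.symm hi)]
        simp
      · intro h; exact absurd (mem_univ (cls q0)) h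
    rw [PatOp_S_eq_one K cls hK var h0 t hmem hS] at h1
    exact h1
  · intro s t hst htf
    obtain ⟨⟨y, hy, he⟩, -⟩ := patPhi_spec K cls (fun i => if var i then t else h0 i)
    have h1 := PatOp_diff K cls var h0 s t y
    have h3 := (patPhi_spec K cls (fun i => if var i then s else h0 i)).2 y hy
    have h4 : PatOp_S cls var y < 1 := by
      rcases (PatOp_S_le_one cls var hy).lt_or_eq with h | h
      · exact h
      · exfalso
        have h5 := PatOp_S_eq_one K cls hK var h0 t hy h
        have h6 : t < patPhi K cls (fun i => if var i then t else h0 i) := htf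
        rw [← he, h5] at h6
        exact lt_irrefl _ h6
    have h5 : (t - s) * PatOp_S cls var y < t - s := by
      have := mul_lt_mul_of_pos_left h4 (sub_pos.2 hst)
      linarith
    change patPhi K cls (fun i => if var i then t else h0 i)
      - patPhi K cls (fun i => if var i then s else h0 i) < t - s
    rw [← he]
    linarith
  · intro l hl
    apply patPhi_mem_Lam K cls hK
    intro i
    split_ifs with h
    · exact hl
    · exact hh i h

end pat

end W880b64
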