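import Pool.Agent.W_880b64_h21.Ap2
import Pool.Agent.W_880b64_h21.Exp
import Pool.Agent.W_880b64_h21.UnifVal

/-!
# The value inequality near the uniform point, `M = 2` (task H9)
-/

namespace W880b64

open Finset BigOperators

/-- the real inequality -/
theorem Value2_aux1 {A B C D ρ r t : ℝ} (hD0 : 0 ≤ D) (hD : D ≤ 0.0129) (hρ0 : 0 ≤ ρ)
    (hρ : ρ ≤ 0.012) (hρD : ρ ≤ 2 * D) (hr : r ^ 2 = ρ) (hr0 : 0 ≤ r) (ht : t ^ 2 = D)
    (ht0 : 0 ≤ t) (hA : A ≤ 8 / 81 - ρ / 3 + 3.13 * ρ * r) :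
    A + (3 / 18 * D + 1.1548 * D * t + B) + (C + 33 / 25 / 18 * D + 11 / 25 * D * t)
      - (s3 * (1 / 18 + D) - CC * (1 / 18 + D) ^ 2) ≤
    8 / 81 + B + C - (s3 * (1 / 18) - CC * (1 / 18) ^ 2) - (1.2933 - 1.779 * t) * D := by
  have hr1 : r ≤ 0.109545 := by
    by_contra h
    push Not at h
    nlinarith
  have ht1 : t ≤ 0.11358 := by
    by_contra h
    push Not at h
    nlinarith
  have h1 : ρ * (-1 / 3 + 3.13 * r) ≤ 0.00955 * ρ := by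
    have : -1 / 3 + 3.13 * r ≤ 0.00955 := by linarith
    nlinarith
  have h2 : CC * D ^ 2 ≤ 0.18355 * (D * t) := by
    have hC := CC_hi
    have hC0 := CC_lo
    have e : CC * D ^ 2 = CC * t * (D * t) := by rw [← ht]; ring
    rw [e]
    apply mul_le_mul_of_nonneg_right _ (by positivity)
    nlinarith
  have h3 : 0 ≤ D * t := by positivity
  have h4 : (s3 - 2 * CC / 18) * D ≥ 1.5524924 * D := by
    apply mul_le_mul_of_nonneg_right _ hD0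
    linarith [s3_lo, CC_hi]
  nlinarith

/-- Proof.  As `value3`: `D = ρ/2 + U ≤ 0.0129`, `ρ ≤ 0.012` (`ap2`);
`T6 (EM 2) x = TP (prt x) ≤ 8/81 - ρ/3 + 3.13ρ√ρ` (`T6_EM_two`, `TP_le3`),
`ρ(-1/3 + 3.13√ρ) ≤ 0.00955 ρ ≤ 0.0191 D`; `Rlow` with `n = 18`: `+ (3/18) D + 1.1548 D√D`; slots
`(33/25)/18 D + 0.44 D√D`; `tau q = tau (1/18) + (s3 - 2CC/18)D - CC D²`, `CC D² ≤ 0.18355 D√D`.
Coefficient of `D`: `-(1.552492 - 0.166667 - 0.073334 - 0.0191) ≤ -1.2933`, of `D√D`: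
`1.1548 + 0.44 + 0.18355 ≤ 1.779`. -/
theorem value2 {R : Finset (Finset (VV 2))} (hR : R ⊆ EM 2)
    (hd : (R : Set (Finset (VV 2))).PairwiseDisjoint id) {s : VV 2 → ℝ}
    (hs : ∀ v, 0 ≤ s v ∧ s v ≤ 11 / 25) {x : VV 2 → ℝ} (hx : x ∈ stdSimplex ℝ (VV 2))
    (hq : sq2 x ≤ 1 - c0) (hpos : tau (sq2 x) < Th (EM 2 \ R) s x) :
    sq2 x - 1 / 18 ≤ 0.0129 ∧
    Th (EM 2 \ R) s x - tau (sq2 x) ≤ PsiU 2 R.card (∑ v, s v)
      + ∑ v, (-(6 / 324) * rv R v + 3 / 324 * s v) * (x v - 1 / 18)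
      - (1.2933 - 1.779 * Real.sqrt (sq2 x - 1 / 18)) * (sq2 x - 1 / 18) := by
  obtain ⟨hρ, hD⟩ := ap2 Finset.sdiff_subset hs hx hq hpos
  refine ⟨hD, ?_⟩
  have e18 : (9 * ((2 : ℕ) : ℝ)) = 18 := by norm_num
  have hdev := dev_sq (M := 2) hx
  rw [e18] at hdev
  set δ : VV 2 → ℝ := fun v => x v - 1 / 18 with hδ
  have hdev' : ∑ v, δ v ^ 2 = sq2 x - 1 / 18 := hdev
  set D := sq2 x - 1 / 18 with hDdef
  have hD0 : 0 ≤ D := by rw [← hdev']; positivity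
  have hxδ : (fun v => 1 / 18 + δ v) = x := by
    funext v; simp only [hδ]; ring
  have hπ := prt_mem hx
  have hρ0 := rho_nonneg hπ
  have hU0 := UU_nonneg x
  have hsq := sq2_eq x
  rw [e18] at hsq
  push_cast at hsq
  have hρD : rho (prt x) ≤ 2 * D := by rw [hDdef]; linarith
  -- the edges
  have hT := TP_le3 hπ
  rw [← T6_EM_two] at hT
  have hR3 : ∀ e ∈ R, e.card = 3 := fun e he => EM_card3 e (hR he)
  have hRl := Rlow hR3 hd (n := 18) (by norm_num) δ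
  rw [hxδ, hdev'] at hRl
  have hrv : ∑ v, rv R v * δ v ^ 2 ≤ D := by
    rw [← hdev']
    refine Finset.sum_le_sum fun v _ => ?_
    exact mul_le_of_le_one_left (sq_nonneg _) (rv_le_one hd v)
  have hsl := slot_up hs (n := 18) (by norm_num) δ
  rw [hdev'] at hsl
  have hsl' : ∑ v, s v * x v ^ 3 = ∑ v, s v * (1 / 18 + δ v) ^ 3 := by
    refine Finset.sum_congr rfl fun v _ => ?_
    rw [show 1 / 18 + δ v = x v from congrFun hxδ v]
  have hlin : ∑ v, (-(6 / 324) * rv R v + 3 / 324 * s v) * (x v - 1 / 18) =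
      -(6 / 324) * ∑ v, rv R v * δ v + 3 / 324 * ∑ v, s v * δ v := by
    rw [Finset.mul_sum, Finset.mul_sum, ← Finset.sum_add_distrib]
    refine Finset.sum_congr rfl fun v _ => ?_
    simp only [hδ]; ring
  rw [hlin]
  have hTh : Th (EM 2 \ R) s x = T6 (EM 2) x - T6 R x + ∑ v, s v * x v ^ 3 := by
    unfold Th
    rw [T6_sdiff hR]
  have htau : tau (sq2 x) = s3 * (1 / 18 + D) - CC * (1 / 18 + D) ^ 2 := by
    unfold tau
    rw [hDdef]; ring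
  have hPsi : PsiU 2 R.card (∑ v, s v) = 8 / 81 - (s3 * (1 / 18) - CC * (1 / 18) ^ 2) -
      6 * R.card / 18 ^ 3 + (∑ v, s v) / 18 ^ 3 := by
    unfold PsiU tau
    push_cast
    norm_num
  have key := Value2_aux1 (A := T6 (EM 2) x)
    (B := -(6 * (R.card : ℝ) / 18 ^ 3) - 6 / 18 ^ 2 * ∑ v, rv R v * δ v)
    (C := (∑ v, s v) / 18 ^ 3 + 3 / 18 ^ 2 * ∑ v, s v * δ v)
    hD0 hD hρ0 hρ hρD (Real.sq_sqrt hρ0) (Real.sqrt_nonneg _) (Real.sq_sqrt hD0)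
    (Real.sqrt_nonneg _) hT
  rw [hTh, htau, hPsi, hsl']
  nlinarith [key, hRl, hrv, hsl]

end W880b64
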