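import Pool.Agent.W_880b64_h21.Ap3
import Pool.Agent.W_880b64_h21.Exp
import Pool.Agent.W_880b64_h21.UnifVal
import Pool.Agent.W_880b64_h21.FourF1

/-!
# The value inequality near the uniform point, `M = 3` (task H8)
-/

namespace W880b64

open Finset BigOperators

/-- Proof.  `D ≤ 0.01365` and `ρ ≤ 0.0115` by `ap3`.  `δ = x - 1/27`, `∑ δ = 0`,
`D = ∑ δ² = ρ/3 + U` (`sq2_eq`).
* `T6 (EM 3) x ≤ (2/3)(8/81 - ρ/3 + 3.13 ρ√ρ) + 3.266 U√U` (`F1_three`, `TP_le3`), and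
  `ρ(-2/9 + (2/3)3.13 √ρ) ≤ 0.00155 ρ ≤ 0.00465 D`, `U√U ≤ D√D`;
* `-T6 (Ra ∪ Rb) x` by `Rlow` (twice, `n = 27`, `Ra, Rb` disjoint) with
  `(3/27) ∑ (rv Ra + rv Rb) δ² ≤ (2/9) D`;
* slots by `slot_up`: `+ (33/25)/27 D + (11/25) D√D`;
* `tau q = tau (1/27) + (s3 - 2CC/27) D - CC D²`, `CC D² ≤ 0.18881 D√D`.
Coefficient of `D`: `-(1.612344 - 0.222223 - 0.048889 - 0.00465) ≤ -1.3365`, of `D√D`:
`3.266 + 2·1.1548 + 0.44 + 0.18881 ≤ 6.205`. -/
theorem value3 {Ra Rb : Finset (Finset (VV 3))} (hRa : Ra ⊆ EM 3) (hRb : Rb ⊆ EM 3)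
    (hab : Disjoint Ra Rb) (hda : (Ra : Set (Finset (VV 3))).PairwiseDisjoint id)
    (hdb : (Rb : Set (Finset (VV 3))).PairwiseDisjoint id) {s : VV 3 → ℝ}
    (hs : ∀ v, 0 ≤ s v ∧ s v ≤ 11 / 25) {x : VV 3 → ℝ} (hx : x ∈ stdSimplex ℝ (VV 3))
    (hq : sq2 x ≤ 1 - c0) (hpos : tau (sq2 x) < Th (EM 3 \ (Ra ∪ Rb)) s x) :
    sq2 x - 1 / 27 ≤ 0.01365 ∧
    Th (EM 3 \ (Ra ∪ Rb)) s x - tau (sq2 x) ≤ PsiU 3 (Ra ∪ Rb).card (∑ v, s v)
      + ∑ v, (-(6 / 729) * (rv Ra v + rv Rb v) + 3 / 729 * s v) * (x v - 1 / 27)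
      - (1.3365 - 6.205 * Real.sqrt (sq2 x - 1 / 27)) * (sq2 x - 1 / 27) := by
  have hAB : Ra ∪ Rb ⊆ EM 3 := Finset.union_subset hRa hRb
  obtain ⟨hρ, hD⟩ := ap3 (E := EM 3 \ (Ra ∪ Rb)) Finset.sdiff_subset hs hx hq hpos
  refine ⟨hD, ?_⟩
  -- basic quantities
  have e27 : (1 : ℝ) / (9 * ((3 : ℕ) : ℝ)) = 1 / 27 := by norm_num
  have hdev : ∑ v, (x v - 1 / 27) ^ 2 = sq2 x - 1 / 27 := by
    have h := dev_sq (M := 3) hx
    rw [e27] at h
    exact h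
  have hq1 : sq2 x - 1 / 27 = rho (prt x) / 3 + UU x := by
    have h := sq2_eq (M := 3) x
    rw [e27] at h
    rw [h]
    push_cast
    ring
  have hρ0 : 0 ≤ rho (prt x) := rho_nonneg (prt_mem hx)
  have hU0 : 0 ≤ UU x := UU_nonneg x
  set q := sq2 x with hqdef
  set ρ := rho (prt x) with hρdef
  set U := UU x with hUdef
  obtain ⟨D, hDdef⟩ : ∃ D, D = q - 1 / 27 := ⟨_, rfl⟩
  have hqD : q = 1 / 27 + D := by rw [hDdef]; ring
  rw [← hDdef] at hD hdev hq1 ⊢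
  have hD0 : 0 ≤ D := by rw [hq1]; positivity
  obtain ⟨δ, hδ⟩ : ∃ δ : VV 3 → ℝ, δ = fun v => x v - 1 / 27 := ⟨_, rfl⟩
  have hδv : ∀ v, x v - 1 / 27 = δ v := fun v => by rw [hδ]
  have hxδ : x = fun v => 1 / 27 + δ v := by
    funext v
    rw [hδ]
    ring
  simp only [hδv] at hdev ⊢
  -- square roots
  have hd : Real.sqrt D ≤ 0.11684 := by
    rw [Real.sqrt_le_left (by norm_num)]
    linarith
  have hd0 := Real.sqrt_nonneg D
  have hdd : Real.sqrt D * Real.sqrt D = D := Real.mul_self_sqrt hD0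
  have hr : Real.sqrt ρ ≤ 0.10724 := by
    rw [Real.sqrt_le_left (by norm_num)]
    linarith
  have hρr : ρ * Real.sqrt ρ ≤ 0.10724 * ρ := by
    rw [mul_comm 0.10724]
    exact mul_le_mul_of_nonneg_left hr hρ0
  have hUD : U ≤ D := by rw [hq1]; linarith
  have hUw : U * Real.sqrt U ≤ D * Real.sqrt D :=
    mul_le_mul hUD (Real.sqrt_le_sqrt hUD) (Real.sqrt_nonneg _) hD0
  have hρD : ρ ≤ 3 * D := by rw [hq1]; linarith
  -- upper bound for the full structure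
  have h1 := F1_three x
  have h2 := TP_le3 (prt_mem hx)
  rw [← hUdef] at h1
  rw [← hρdef] at h2
  -- the removed edges
  have hTa := Rlow (R := Ra) (fun e he => EM_card3 e (hRa he)) hda (n := 27) (by norm_num) δ
  have hTb := Rlow (R := Rb) (fun e he => EM_card3 e (hRb he)) hdb (n := 27) (by norm_num) δ
  rw [← hxδ, hdev] at hTa hTb
  have hra : ∑ v, rv Ra v * δ v ^ 2 ≤ D := by
    rw [← hdev]
    refine Finset.sum_le_sum fun v _ => ?_
    have := mul_le_mul_of_nonneg_right (rv_le_one hda v) (sq_nonneg (δ v))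
    linarith
  have hrb : ∑ v, rv Rb v * δ v ^ 2 ≤ D := by
    rw [← hdev]
    refine Finset.sum_le_sum fun v _ => ?_
    have := mul_le_mul_of_nonneg_right (rv_le_one hdb v) (sq_nonneg (δ v))
    linarith
  -- the slots
  have hS := slot_up hs (n := 27) (by norm_num) δ
  rw [hdev] at hS
  have hxs : ∑ v, s v * x v ^ 3 = ∑ v, s v * (1 / 27 + δ v) ^ 3 := by
    refine Finset.sum_congr rfl fun v _ => ?_
    rw [← hδv v]
    ring
  -- tau
  have htau : tau q = tau (1 / 27) + s3 * D - 2 * CC / 27 * D - CC * D ^ 2 := by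
    rw [hqD]
    unfold tau
    ring
  have hCC : CC * D ^ 2 ≤ 0.1889 * (D * Real.sqrt D) := by
    have h3 : CC * D ^ 2 = (CC * Real.sqrt D) * (D * Real.sqrt D) := by
      have h6 : (CC * Real.sqrt D) * (D * Real.sqrt D) =
          CC * D * (Real.sqrt D * Real.sqrt D) := by ring
      rw [h6, hdd]
      ring
    rw [h3]
    refine mul_le_mul_of_nonneg_right ?_ (mul_nonneg hD0 hd0)
    have h4 : CC * Real.sqrt D ≤ 1.61602545 * 0.11684 :=
      mul_le_mul CC_hi.le hd hd0 (by norm_num)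
    linarith
  have hlin : ∑ v, (-(6 / 729) * (rv Ra v + rv Rb v) + 3 / 729 * s v) * δ v =
      -(6 / 27 ^ 2 * ∑ v, rv Ra v * δ v) - 6 / 27 ^ 2 * ∑ v, rv Rb v * δ v +
        3 / 27 ^ 2 * ∑ v, s v * δ v := by
    rw [Finset.mul_sum, Finset.mul_sum, Finset.mul_sum, ← Finset.sum_neg_distrib,
      ← Finset.sum_sub_distrib, ← Finset.sum_add_distrib]
    refine Finset.sum_congr rfl fun v _ => ?_
    ring
  have hTh : Th (EM 3 \ (Ra ∪ Rb)) s x = T6 (EM 3) x - (T6 Ra x + T6 Rb x)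
      + ∑ v, s v * x v ^ 3 := by
    unfold Th
    rw [T6_sdiff hAB]
    have h5 : T6 (Ra ∪ Rb) x = T6 Ra x + T6 Rb x := by
      unfold T6
      rw [Finset.sum_union hab]
      ring
    rw [h5]
  have hcard : (((Ra ∪ Rb).card : ℕ) : ℝ) = Ra.card + Rb.card := by
    rw [Finset.card_union_of_disjoint hab]
    push_cast
    ring
  have hPsi : PsiU 3 (Ra ∪ Rb).card (∑ v, s v) = 16 / 243 - tau (1 / 27)
      - 6 * Ra.card / 27 ^ 3 - 6 * Rb.card / 27 ^ 3 + (∑ v, s v) / 27 ^ 3 := by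
    unfold PsiU
    rw [hcard, e27]
    push_cast
    ring
  rw [hTh, htau, hlin, hPsi, hxs]
  have hs3 := s3_lo
  have hCh := CC_hi
  have hDs : (1.7320508 : ℝ) * D ≤ s3 * D := mul_le_mul_of_nonneg_right hs3.le hD0
  have hDC : CC * D ≤ 1.61602545 * D := mul_le_mul_of_nonneg_right hCh.le hD0
  have hDd0 : 0 ≤ D * Real.sqrt D := mul_nonneg hD0 hd0
  clear_value q ρ U
  linarith

end W880b64
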